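import Mathlib

set_option autoImplicit false

namespace Pool.Agent.H13.Br

open SimpleGraph

variable {V : Type} {G : SimpleGraph V}

/-- an isometric cycle of length `n`, given as a function on the indices `0, ..., n-1` -/
structure Iso (G : SimpleGraph V) (n : ℕ) (c : ℕ → V) : Prop where
  adj : ∀ i, i + 1 < n → G.Adj (c i) (c (i + 1))
  adj0 : G.Adj (c (n - 1)) (c 0)
  dist : ∀ i j, i ≤ j → j < n → G.dist (c i) (c j) = min (j - i) (n - (j - i))

def NoIso (G : SimpleGraph V) : Prop := ∀ n c, 4 ≤ n → ¬ Iso G n c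

/-- the walk-based shortcut property -/
def WB (G : SimpleGraph V) : Prop :=
  ∀ (u : V) (c : G.Walk u u), c.IsCycle → 4 ≤ c.length →
        ∃ i j : ℕ, i ≤ j ∧ j < c.length ∧
          G.dist (c.getVert i) (c.getVert j) < min (j - i) (c.length - (j - i))

lemma exists_walk (c : ℕ → V) : ∀ m s, (∀ i, i < m → G.Adj (c (s + i)) (c (s + i + 1))) →
    ∃ w : G.Walk (c s) (c (s + m)), w.length = m ∧ (∀ i, i ≤ m → w.getVert i = c (s + i)) := by
  intro m
  induction m with
  | zero =>
    intro s _
    exact ⟨Walk.nil, rfl, by intro i hi; obtain rfl : i = 0 := by omega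
                             simp⟩
  | succ m ih =>
    intro s h
    obtain ⟨w, hw1, hw2⟩ := ih (s + 1) (by
      intro i hi
      have := h (i + 1) (by omega)
      rw [show s + 1 + i = s + (i + 1) by omega]
      exact this)
    refine ⟨(Walk.cons (h 0 (by omega)) w).copy rfl (by congr 1; omega), ?_, ?_⟩
    · simp [hw1]
    · intro i hi
      rw [Walk.getVert_copy]
      cases i with
      | zero => simp
      | succ i =>
        rw [Walk.getVert_cons_succ, hw2 i (by omega)]
        congr 1; omega

lemma wb_noIso (h : WB G) : NoIso G := by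
  intro n c hn hc
  -- the closed walk
  set c' : ℕ → V := fun i => if i < n then c i else c 0 with hc'
  have hadj : ∀ i, i < n → G.Adj (c' i) (c' (i + 1)) := by
    intro i hi
    by_cases h1 : i + 1 < n
    · simp only [hc', hi, h1, if_true]
      exact hc.adj i h1
    · have : i = n - 1 := by omega
      simp only [hc', hi, h1, if_true, if_false]
      rw [this]; exact hc.adj0
  obtain ⟨w, hw1, hw2⟩ := exists_walk (G := G) c' n 0 (by
    intro i hi
    simpa using hadj i hi)
  have e0 : c' 0 = c 0 := by simp [hc', show 0 < n by omega]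
  have e1 : c' (0 + n) = c 0 := by simp [hc']
  set w' : G.Walk (c 0) (c 0) := w.copy e0 e1 with hw'
  have hl : w'.length = n := by simp [hw', hw1]
  have hg : ∀ i, i ≤ n → w'.getVert i = c' i := by
    intro i hi
    rw [hw', Walk.getVert_copy, hw2 i hi, Nat.zero_add]
  have hinj : ∀ i j, i ≤ j → j < n → c i = c j → i = j := by
    intro i j hij hj he
    have := hc.dist i j hij hj
    rw [he] at this
    simp at this
    omega
  have hcyc : w'.IsCycle := by
    rw [Walk.isCycle_iff_isPath_tail_and_le_length]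
    refine ⟨?_, by omega⟩
    rw [← Walk.IsPath.getVert_injOn_iff]
    intro i hi j hj hij
    simp only [Set.mem_ofPred_eq] at hi hj
    have hnn : ¬ w'.Nil := by
      intro hnil
      have := Walk.length_eq_zero_iff.mpr hnil
      omega
    have hlt := Walk.length_tail_add_one hnn
    rw [Walk.getVert_tail, Walk.getVert_tail, hg _ (by omega), hg _ (by omega)] at hij
    simp only [hc'] at hij
    by_cases h1 : i + 1 < n <;> by_cases h2 : j + 1 < n
    · simp only [h1, h2, if_true] at hij
      rcases le_total i j with h3 | h3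
      · have := hinj _ _ (by omega) h2 hij; omega
      · have := hinj _ _ (by omega) h1 hij.symm; omega
    · simp only [h1, h2, if_true, if_false] at hij
      have := hinj _ _ (by omega) h1 hij.symm; omega
    · simp only [h1, h2, if_true, if_false] at hij
      have := hinj _ _ (by omega) h2 hij; omega
    · omega
  obtain ⟨i, j, hij, hj, hd⟩ := h _ w' hcyc (by omega)
  rw [hg i (by omega), hg j (by omega)] at hd
  simp only [hc', show i < n by omega, show j < n by omega, if_true] at hd
  rw [hc.dist i j hij (by omega), hl] at hd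
  omega

/-! basic distance facts -/

lemma dist_adj {c u v : V} (h : G.Adj u v) :
    G.dist c v ≤ G.dist c u + 1 ∧ G.dist c u ≤ G.dist c v + 1 := by
  rcases h.diff_dist_adj (u := c) with h1 | h1 | h1 <;> omega

lemma exists_lower {c p : V} {k : ℕ} (h : G.dist c p = k + 1) :
    ∃ q, G.Adj p q ∧ G.dist c q = k := by
  have hr : G.Reachable p c := (Reachable.of_dist_ne_zero (by omega : G.dist c p ≠ 0)).symm
  obtain ⟨w, hw⟩ := hr.exists_walk_length_eq_dist
  rw [dist_comm, h] at hw
  cases w with
  | nil => simp at hw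
  | cons hadj w' =>
    rename_i q
    refine ⟨q, hadj, ?_⟩
    have h1 : G.dist q c ≤ w'.length := dist_le w'
    rw [Walk.length_cons] at hw
    rw [dist_comm] at h1
    have := (dist_adj (c := c) hadj)
    omega

lemma chain_le {c : ℕ → V} {n : ℕ} (h : ∀ i, i + 1 < n → G.Adj (c i) (c (i + 1))) (a : V) :
    ∀ j i, i ≤ j → j < n → G.dist a (c j) ≤ G.dist a (c i) + (j - i) := by
  intro j
  induction j with
  | zero => intro i hi _; obtain rfl : i = 0 := by omega
            omega
  | succ j ih =>
    intro i hi hj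
    rcases Nat.lt_or_ge i (j + 1) with h1 | h1
    · have := ih i (by omega) (by omega)
      have h2 := dist_adj (c := a) (h j hj)
      omega
    · obtain rfl : i = j + 1 := by omega
      omega

lemma chain_le' {c : ℕ → V} {n : ℕ} (h : ∀ i, i + 1 < n → G.Adj (c i) (c (i + 1))) (a : V) :
    ∀ j i, i ≤ j → j < n → G.dist a (c i) ≤ G.dist a (c j) + (j - i) := by
  intro j
  induction j with
  | zero => intro i hi _; obtain rfl : i = 0 := by omega
            omega
  | succ j ih =>
    intro i hi hj
    rcases Nat.lt_or_ge i (j + 1) with h1 | h1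
    · have := ih i (by omega) (by omega)
      have h2 := dist_adj (c := a) (h j hj)
      omega
    · obtain rfl : i = j + 1 := by omega
      omega

/-- a cyclic sequence without shortcuts is isometric -/
lemma iso_of_no_shortcut {c : ℕ → V} {n : ℕ} (hn : 1 ≤ n)
    (h : ∀ i, i + 1 < n → G.Adj (c i) (c (i + 1))) (h0 : G.Adj (c (n - 1)) (c 0))
    (hd : ∀ i j, i ≤ j → j < n → min (j - i) (n - (j - i)) ≤ G.dist (c i) (c j)) :
    Iso G n c := by
  refine ⟨h, h0, ?_⟩
  intro i j hij hj
  refine le_antisymm (le_min ?_ ?_) (hd i j hij hj)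
  · have := chain_le h (c i) j i hij hj
    simp at this
    omega
  · have h1 := chain_le' h (c j) i 0 (by omega) (by omega)
    have h2 := chain_le h (c j) i 0 (by omega) (by omega)
    have h3 := chain_le h (c j) (n - 1) j (by omega) (by omega)
    have h4 := dist_adj (c := c j) h0
    rw [dist_self] at h3
    rw [dist_comm]
    omega

/-- no induced 4-cycles -/
def NoC4 (G : SimpleGraph V) : Prop := ∀ a b c d, G.Adj a b → G.Adj b c → G.Adj c d → G.Adj d a →
  a = c ∨ b = d ∨ G.Adj a c ∨ G.Adj b d

def NoC5 (G : SimpleGraph V) : Prop := ∀ a b c d e, G.Adj a b → G.Adj b c → G.Adj c d →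
  G.Adj d e → G.Adj e a →
  a = c ∨ a = d ∨ b = d ∨ b = e ∨ c = e ∨
  G.Adj a c ∨ G.Adj a d ∨ G.Adj b d ∨ G.Adj b e ∨ G.Adj c e

lemma two_le_dist {a b c : V} (h1 : G.Adj a c) (h2 : G.Adj c b) (h3 : a ≠ b)
    (h4 : ¬ G.Adj a b) : 2 ≤ G.dist a b := by
  have hr : G.Reachable a b := h1.reachable.trans h2.reachable
  exact hr.one_lt_dist_of_ne_of_not_adj h3 h4

lemma noC4 (h : NoIso G) : NoC4 G := by
  intro a b c d h1 h2 h3 h4
  by_contra hcon
  push Not at hcon
  obtain ⟨n1, n2, n3, n4⟩ := hcon
  set f : ℕ → V := fun i => if i = 0 then a else if i = 1 then b else if i = 2 then c else d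
    with hf
  refine h 4 f (by omega) (iso_of_no_shortcut (by omega) ?_ ?_ ?_)
  · intro i hi
    have : i = 0 ∨ i = 1 ∨ i = 2 := by omega
    rcases this with rfl | rfl | rfl <;> simpa [hf]
  · simpa [hf] using h4
  · intro i j hij hj
    have d1 : 1 ≤ G.dist a b := by rw [dist_eq_one_iff_adj.mpr h1]
    have d2 : 1 ≤ G.dist b c := by rw [dist_eq_one_iff_adj.mpr h2]
    have d3 : 1 ≤ G.dist c d := by rw [dist_eq_one_iff_adj.mpr h3]
    have d4 : 1 ≤ G.dist a d := by rw [dist_eq_one_iff_adj.mpr h4.symm]
    have d5 := two_le_dist h1 h2 n1 n3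
    have d6 := two_le_dist h2 h3 n2 n4
    have hi : i = 0 ∨ i = 1 ∨ i = 2 ∨ i = 3 := by omega
    have hj' : j = 0 ∨ j = 1 ∨ j = 2 ∨ j = 3 := by omega
    rcases hi with rfl | rfl | rfl | rfl <;> rcases hj' with rfl | rfl | rfl | rfl <;>
      first
        | omega
        | (simp [hf]; done)
        | (simp only [hf]; norm_num; omega)

lemma noC5 (h : NoIso G) : NoC5 G := by
  intro a b c d e h1 h2 h3 h4 h5
  by_contra hcon
  push Not at hcon
  obtain ⟨n1, n2, n3, n4, n5, m1, m2, m3, m4, m5⟩ := hcon
  set f : ℕ → V := fun i => if i = 0 then a else if i = 1 then b else if i = 2 then c else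
    if i = 3 then d else e with hf
  refine h 5 f (by omega) (iso_of_no_shortcut (by omega) ?_ ?_ ?_)
  · intro i hi
    have : i = 0 ∨ i = 1 ∨ i = 2 ∨ i = 3 := by omega
    rcases this with rfl | rfl | rfl | rfl <;> simpa [hf]
  · simpa [hf] using h5
  · intro i j hij hj
    have d1 : 1 ≤ G.dist a b := by rw [dist_eq_one_iff_adj.mpr h1]
    have d2 : 1 ≤ G.dist b c := by rw [dist_eq_one_iff_adj.mpr h2]
    have d3 : 1 ≤ G.dist c d := by rw [dist_eq_one_iff_adj.mpr h3]
    have d4 : 1 ≤ G.dist d e := by rw [dist_eq_one_iff_adj.mpr h4]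
    have d5 : 1 ≤ G.dist a e := by rw [dist_eq_one_iff_adj.mpr h5.symm]
    have d6 := two_le_dist h1 h2 n1 m1
    have d7 := two_le_dist h5.symm h4.symm n2 m2
    have d8 := two_le_dist h2 h3 n3 m3
    have d9 := two_le_dist h1.symm h5.symm n4 m4
    have d10 := two_le_dist h3 h4 n5 m5
    have hi : i = 0 ∨ i = 1 ∨ i = 2 ∨ i = 3 ∨ i = 4 := by omega
    have hj' : j = 0 ∨ j = 1 ∨ j = 2 ∨ j = 3 ∨ j = 4 := by omega
    rcases hi with rfl | rfl | rfl | rfl | rfl <;>
      rcases hj' with rfl | rfl | rfl | rfl | rfl <;>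
      first
        | omega
        | (simp [hf]; done)
        | (simp only [hf]; norm_num; omega)

end Pool.Agent.H13.Br
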