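import Pool.Agent.H13.BrA

set_option autoImplicit false

namespace Pool.Agent.H13.Br

open SimpleGraph

variable {V : Type} {G : SimpleGraph V}

/-- clique condition at level `k` -/
def CCk (G : SimpleGraph V) (k : ℕ) : Prop := ∀ c p x y, G.dist c p = k → G.Adj p x → G.Adj p y →
  G.dist c x + 1 = k → G.dist c y + 1 = k → x = y ∨ G.Adj x y

/-- triangle condition at level `k` -/
def TCk (G : SimpleGraph V) (k : ℕ) : Prop := ∀ c u v, G.dist c u = k → G.dist c v = k → 1 ≤ k →
  G.Adj u v → ∃ w, G.Adj w u ∧ G.Adj w v ∧ G.dist c w + 1 = k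

/-- geodesic from `P 0` to `c` of length `k` -/
structure Geo (G : SimpleGraph V) (k : ℕ) (c : V) (P : ℕ → V) : Prop where
  adj : ∀ i, i < k → G.Adj (P i) (P (i + 1))
  dist : ∀ i, i ≤ k → G.dist c (P i) + i = k
  last : P k = c

lemma reach_of_adj {c u v : V} (h : G.Adj u v) (hr : G.Reachable c u) : G.Reachable c v :=
  hr.trans h.reachable

lemma geo_exists {c : V} : ∀ k x, G.Reachable c x → G.dist c x = k →
    ∃ P, P 0 = x ∧ Geo G k c P := by
  intro k
  induction k with
  | zero =>
    intro x hr hd
    have : c = x := (hr.dist_eq_zero_iff).mp hd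
    subst this
    refine ⟨fun _ => c, rfl, ?_, ?_, rfl⟩
    · intro i hi; omega
    · intro i hi
      obtain rfl : i = 0 := by omega
      simp
  | succ k ih =>
    intro x hr hd
    obtain ⟨q, hq1, hq2⟩ := exists_lower hd
    obtain ⟨P, hP0, hP⟩ := ih q (reach_of_adj hq1 hr) hq2
    refine ⟨fun i => if i = 0 then x else P (i - 1), by simp, ?_, ?_, ?_⟩
    · intro i hi
      rcases Nat.eq_zero_or_pos i with rfl | h
      · simpa [hP0] using hq1
      · have := hP.adj (i - 1) (by omega)
        simp only [show i ≠ 0 by omega, if_false, show i + 1 ≠ 0 by omega]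
        rw [show i + 1 - 1 = i - 1 + 1 by omega]
        exact this
    · intro i hi
      rcases Nat.eq_zero_or_pos i with rfl | h
      · simpa using hd
      · have := hP.dist (i - 1) (by omega)
        simp only [show i ≠ 0 by omega, if_false]
        omega
    · simp only [show k + 1 ≠ 0 by omega, if_false]
      simpa using hP.last

/-- extend a geodesic at the start -/
lemma geo_cons {c x : V} {k : ℕ} {P : ℕ → V} (hP : Geo G k c P) (hx : G.Adj x (P 0))
    (hd : G.dist c x = k + 1) : Geo G (k + 1) c (fun i => if i = 0 then x else P (i - 1)) := by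
  refine ⟨?_, ?_, ?_⟩
  · intro i hi
    rcases Nat.eq_zero_or_pos i with rfl | h
    · simpa using hx
    · have := hP.adj (i - 1) (by omega)
      simp only [show i ≠ 0 by omega, if_false, show i + 1 ≠ 0 by omega]
      rw [show i + 1 - 1 = i - 1 + 1 by omega]
      exact this
  · intro i hi
    rcases Nat.eq_zero_or_pos i with rfl | h
    · simpa using hd
    · have := hP.dist (i - 1) (by omega)
      simp only [show i ≠ 0 by omega, if_false]
      omega
  · simp only [show k + 1 ≠ 0 by omega, if_false]
    simpa using hP.last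

namespace Geo

variable {c : V} {k : ℕ} {P : ℕ → V}

lemma reach (hP : Geo G k c P) : ∀ i, i ≤ k → G.Reachable (P (k - i)) c := by
  intro i
  induction i with
  | zero => intro _; simp [hP.last]
  | succ i ih =>
    intro hi
    have h1 := hP.adj (k - (i + 1)) (by omega)
    rw [show k - (i + 1) + 1 = k - i by omega] at h1
    exact h1.reachable.trans (ih (by omega))

lemma reach' (hP : Geo G k c P) (i : ℕ) (hi : i ≤ k) : G.Reachable (P i) c := by
  have := hP.reach (k - i) (by omega)
  rwa [show k - (k - i) = i by omega] at this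

lemma reach2 (hP : Geo G k c P) (i j : ℕ) (hi : i ≤ k) (hj : j ≤ k) :
    G.Reachable (P i) (P j) := (hP.reach' i hi).trans (hP.reach' j hj).symm

/-- upper bound moving along the geodesic -/
lemma le_add (hP : Geo G k c P) (a : V) (i j : ℕ) (hij : i ≤ j) (hj : j ≤ k) :
    G.dist a (P j) ≤ G.dist a (P i) + (j - i) ∧ G.dist a (P i) ≤ G.dist a (P j) + (j - i) := by
  have h : ∀ i, i + 1 < k + 1 → G.Adj (P i) (P (i + 1)) := fun i hi => hP.adj i (by omega)
  exact ⟨chain_le h a j i hij (by omega), chain_le' h a j i hij (by omega)⟩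

lemma dist2 (hP : Geo G k c P) (i j : ℕ) (hij : i ≤ j) (hj : j ≤ k) :
    G.dist (P i) (P j) = j - i := by
  have h1 := (hP.le_add (P i) i j hij hj).1
  rw [dist_self] at h1
  have h2 : G.dist c (P i) ≤ G.dist c (P j) + G.dist (P j) (P i) :=
    Reachable.dist_triangle_left (hP.reach' j hj).symm _
  have h3 := hP.dist i (by omega)
  have h4 := hP.dist j hj
  rw [dist_comm] at h1
  rw [dist_comm]
  omega

lemma update (hP : Geo G k c P) {t : ℕ} {z : V} (ht1 : 1 ≤ t) (ht2 : t < k)
    (h1 : G.Adj z (P (t - 1))) (h2 : G.Adj z (P (t + 1))) :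
    Geo G k c (Function.update P t z) := by
  refine ⟨?_, ?_, ?_⟩
  · intro i hi
    by_cases e1 : i = t
    · subst e1
      rw [Function.update_self, Function.update_of_ne (by omega)]
      exact h2
    · by_cases e2 : i + 1 = t
      · subst e2
        rw [Function.update_self, Function.update_of_ne (by omega)]
        simpa using h1.symm
      · rw [Function.update_of_ne e1, Function.update_of_ne e2]
        exact hP.adj i hi
  · intro i hi
    by_cases e1 : i = t
    · subst e1
      rw [Function.update_self]
      have a1 := dist_adj (c := c) h1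
      have a2 := dist_adj (c := c) h2
      have a3 := hP.dist (i - 1) (by omega)
      have a4 := hP.dist (i + 1) (by omega)
      omega
    · rw [Function.update_of_ne e1]; exact hP.dist i hi
  · rw [Function.update_of_ne (by omega)]; exact hP.last

end Geo

/-- Lemma L -/
lemma lemL (h4 : NoC4 G) (h5 : NoC5 G) {k : ℕ} (hk : 1 ≤ k) (hC : CCk G k) (hT : TCk G k)
    {c p x y z : V} (hp : G.dist c p = k + 1) (hx : G.dist c x = k) (hy : G.dist c y = k)
    (hz : G.dist c z = k) (px : G.Adj p x) (py : G.Adj p y) (xz : G.Adj x z) (zy : G.Adj z y)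
    (hxy : x ≠ y) (hnxy : ¬ G.Adj x y) : False := by
  obtain ⟨a, a1, a2, a3⟩ := hT c x z hx hz hk xz
  obtain ⟨b, b1, b2, b3⟩ := hT c z y hz hy hk zy
  have lev : ∀ u v : V, G.dist c u ≠ G.dist c v → u ≠ v := by
    intro u v h e; exact h (by rw [e])
  have nadj : ∀ u v : V, G.dist c u + 1 < G.dist c v → ¬ G.Adj u v := by
    intro u v h e
    have := dist_adj (c := c) e
    omega
  have hay : ¬ G.Adj a y := by
    intro h
    rcases h4 p x a y px a1.symm h py.symm with e | e | e | e
    · exact lev p a (by omega) e
    · exact hxy e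
    · exact nadj a p (by omega) e.symm
    · exact hnxy e
  have hbx : ¬ G.Adj b x := by
    intro h
    rcases h4 p x b y px h.symm b2 py.symm with e | e | e | e
    · exact lev p b (by omega) e
    · exact hxy e
    · exact nadj b p (by omega) e.symm
    · exact hnxy e
  rcases hC c z a b hz a2.symm b1.symm a3 b3 with e | e
  · subst e; exact hay b2
  · rcases h5 p x a b y px a1.symm e b2 py.symm with e | e | e | e | e | e | e | e | e | e
    · exact lev p a (by omega) e
    · exact lev p b (by omega) e
    · exact lev x b (by omega) e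
    · exact hxy e
    · exact lev a y (by omega) e
    · exact nadj a p (by omega) e.symm
    · exact nadj b p (by omega) e.symm
    · exact hbx e.symm
    · exact hnxy e
    · exact hay e

section CC

variable (hN : NoIso G) {k : ℕ} (hk : 2 ≤ k) (hC : ∀ j, j < k → CCk G j)
  (hT : ∀ j, j < k → TCk G j)

include hN hk hC hT

lemma cc_B1 {c p x : V} {Q : ℕ → V} (hp : G.dist c p = k)
    (hQ : Geo G k c Q) (hQ0 : Q 0 = p) (px : G.Adj p x) (hx : G.dist c x + 1 = k)
    (hbad : ¬ (x = Q 1 ∨ G.Adj x (Q 1))) : ∀ j, j + 1 ≤ k → G.dist x (Q j) = j + 1 := by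
  have h4 := noC4 hN
  have h5 := noC5 hN
  intro j hj
  rcases Nat.eq_zero_or_pos j with rfl | hj0
  · rw [hQ0, dist_comm, dist_eq_one_iff_adj.mpr px]
  have e1 : G.dist (Q j) p = j := by
    have := hQ.dist2 0 j (by omega) (by omega)
    rw [hQ0] at this
    rw [dist_comm, this]; omega
  have e2 : G.dist (Q j) (Q 1) + 1 = j := by
    have := hQ.dist2 1 j (by omega) (by omega)
    rw [dist_comm, this]; omega
  have e3 := dist_adj (c := Q j) px
  have hpQ : G.Adj p (Q 1) := by
    have := hQ.adj 0 (by omega)
    rwa [hQ0] at this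
  rw [dist_comm]
  by_contra hcon
  have hcases : G.dist (Q j) x + 1 = j ∨ G.dist (Q j) x = j := by omega
  rcases hcases with h | h
  · exact hbad (hC j (by omega) (Q j) p x (Q 1) e1 px hpQ h e2)
  · obtain ⟨z, z1, z2, z3⟩ := hT j (by omega) (Q j) p x e1 h hj0 px
    -- z adjacent to p and x
    rcases hC j (by omega) (Q j) p z (Q 1) e1 z1.symm hpQ z3 e2 with e | e
    · subst e; exact hbad (Or.inr z2.symm)
    · -- levels with respect to c
      have f1 : G.dist c z ≤ G.dist c (Q j) + G.dist (Q j) z :=
        Reachable.dist_triangle_left (hQ.reach' j (by omega)).symm _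
      have f2 := hQ.dist j (by omega)
      have f3 := dist_adj (c := c) z1
      have f4 := hQ.dist 1 (by omega)
      have hzl : G.dist c z = k - 1 := by omega
      exact lemL h4 h5 (k := k - 1) (by omega) (hC (k - 1) (by omega)) (hT (k - 1) (by omega))
        (c := c) (p := p) (x := x) (y := Q 1) (z := z) (by omega) (by omega) (by omega) hzl
        px hpQ z2.symm e (fun h => hbad (Or.inl h)) (fun h => hbad (Or.inr h))

lemma cc_B2 {c p : V} {Q : ℕ → V} (hp : G.dist c p = k)
    (hQ : Geo G k c Q) (hQ0 : Q 0 = p) : ∀ i, ∀ P : ℕ → V, Geo G k c P → P 0 = p →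
      ¬ (P 1 = Q 1 ∨ G.Adj (P 1) (Q 1)) → ∀ j, i + j ≤ k → G.dist (P i) (Q j) = i + j := by
  have h4 := noC4 hN
  have h5 := noC5 hN
  intro i
  induction i using Nat.strong_induction_on with
  | _ i ih =>
  intro P hP hP0 hbad j hij
  rcases Nat.eq_zero_or_pos i with rfl | hi
  · rw [hP0, ← hQ0, hQ.dist2 0 j (by omega) (by omega)]; omega
  have hpP : G.Adj p (P 1) := by
    have := hP.adj 0 (by omega)
    rwa [hP0] at this
  have hpQ : G.Adj p (Q 1) := by
    have := hQ.adj 0 (by omega)
    rwa [hQ0] at this
  have hP1 := hP.dist 1 (by omega)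
  have hQ1 := hQ.dist 1 (by omega)
  rcases Nat.lt_or_ge 1 i with hi1 | hi1
  swap
  · obtain rfl : i = 1 := by omega
    have := cc_B1 hN hk hC hT hp hQ hQ0 hpP (by omega) hbad j (by omega)
    omega
  -- i >= 2; write i = t + 1
  obtain ⟨t, rfl⟩ : ∃ t, i = t + 1 := ⟨i - 1, by omega⟩
  have A1 := ih t (by omega) P hP hP0 hbad j (by omega)
  have A0 := ih (t - 1) (by omega) P hP hP0 hbad j (by omega)
  have adj1 := hP.adj t (by omega)
  have adj0 := hP.adj (t - 1) (by omega)
  rw [show t - 1 + 1 = t by omega] at adj0
  have far : G.dist (P (t - 1)) (P (t + 1)) = 2 := by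
    rw [hP.dist2 (t - 1) (t + 1) (by omega) (by omega)]; omega
  have nadj : ¬ G.Adj (P (t - 1)) (P (t + 1)) := by
    intro h; rw [dist_eq_one_iff_adj.mpr h] at far; omega
  have neq : P (t - 1) ≠ P (t + 1) := by
    intro h; rw [h, dist_self] at far; omega
  rw [dist_comm] at A1 A0 ⊢
  have dd := dist_adj (c := Q j) adj1
  by_contra hcon
  have hcases : G.dist (Q j) (P (t + 1)) + 1 = t + j ∨ G.dist (Q j) (P (t + 1)) = t + j := by
    omega
  rcases hcases with h | h
  · rcases hC (t + j) (by omega) (Q j) (P t) (P (t - 1)) (P (t + 1)) A1 adj0.symm adj1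
      (by omega) h with e | e
    · exact neq e
    · exact nadj e
  · obtain ⟨z, z1, z2, z3⟩ := hT (t + j) (by omega) (Q j) (P t) (P (t + 1)) A1 h (by omega) adj1
    rcases hC (t + j) (by omega) (Q j) (P t) z (P (t - 1)) A1 z1.symm adj0.symm z3
      (by omega) with e | e
    · subst e; exact nadj z2
    · have hP' := hP.update (t := t) (z := z) (by omega) (by omega) e z2
      have h0' : Function.update P t z 0 = p := by
        rw [Function.update_of_ne (by omega), hP0]
      by_cases ht : t = 1
      · subst ht
        simp only [show 1 - 1 = 0 by omega] at e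
        rw [hP0] at e
        have hzc := hP'.dist 1 (by omega)
        rw [Function.update_self] at hzc
        have hbad' : ¬ (z = Q 1 ∨ G.Adj z (Q 1)) := by
          rintro (h' | h')
          · subst h'; exact hbad (Or.inr z1.symm)
          · exact lemL h4 h5 (k := k - 1) (by omega) (hC (k - 1) (by omega))
              (hT (k - 1) (by omega))
              (c := c) (p := p) (x := P 1) (y := Q 1) (z := z) (by omega) (by omega) (by omega)
              (by omega)
              hpP hpQ z1.symm h' (fun h => hbad (Or.inl h)) (fun h => hbad (Or.inr h))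
        have := cc_B1 hN hk hC hT hp hQ hQ0 e.symm (by omega) hbad' j (by omega)
        rw [dist_comm] at this
        omega
      · have := ih t (by omega) _ hP' h0' (by
          rw [Function.update_of_ne (by omega)]; exact hbad) j (by omega)
        rw [Function.update_self, dist_comm] at this
        omega

lemma cc_step : CCk G k := by
  intro c p x y hp px py hx hy
  by_contra hbad
  have hrp : G.Reachable c p := Reachable.of_dist_ne_zero (by omega)
  obtain ⟨P', hP0', hP'⟩ := geo_exists (k - 1) x (reach_of_adj px hrp) (by omega)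
  obtain ⟨Q', hQ0', hQ'⟩ := geo_exists (k - 1) y (reach_of_adj py hrp) (by omega)
  have hPP := geo_cons hP' (x := p) (by rw [hP0']; exact px) (by omega)
  have hQQ := geo_cons hQ' (x := p) (by rw [hQ0']; exact py) (by omega)
  rw [show k - 1 + 1 = k by omega] at hPP hQQ
  set P : ℕ → V := fun i => if i = 0 then p else P' (i - 1) with hPdef
  set Q : ℕ → V := fun i => if i = 0 then p else Q' (i - 1) with hQdef
  have hP0 : P 0 = p := by simp [hPdef]
  have hQ0 : Q 0 = p := by simp [hQdef]
  have hP1 : P 1 = x := by simp [hPdef, hP0']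
  have hQ1 : Q 1 = y := by simp [hQdef, hQ0']
  have key := cc_B2 hN hk hC hT hp hQQ hQ0
  have key1 : ∀ i j, i + j ≤ k → G.dist (P i) (Q j) = i + j := by
    intro i j hij
    exact key i P hPP hP0 (by rw [hP1, hQ1]; exact hbad) j hij
  have key2 : ∀ i j, i ≤ k → j ≤ k → k ≤ i + j → G.dist (P i) (Q j) = 2 * k - i - j := by
    intro i j hi hj hij
    have a1 := key1 i (k - i) (by omega)
    have a2 := hQQ.le_add (P i) (k - i) j (by omega) hj
    have a3 := hQQ.le_add (P i) j k hj le_rfl
    have a4 := hPP.dist2 i k hi le_rfl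
    rw [hQQ.last] at a3
    rw [hPP.last] at a4
    omega
  refine hN (2 * k) (fun r => if r ≤ k then P r else Q (2 * k - r)) (by omega) ⟨?_, ?_, ?_⟩
  · intro i hi
    rcases Nat.lt_trichotomy i k with h | h | h
    · rw [if_pos (by omega), if_pos (by omega)]; exact hPP.adj i h
    · subst h
      rw [if_pos (by omega), if_neg (by omega), hPP.last, ← hQQ.last]
      have := hQQ.adj (i - 1) (by omega)
      rw [show 2 * i - (i + 1) = i - 1 by omega]
      rw [show i - 1 + 1 = i by omega] at this
      exact this.symm
    · rw [if_neg (by omega), if_neg (by omega)]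
      have := hQQ.adj (2 * k - (i + 1)) (by omega)
      rw [show 2 * k - (i + 1) + 1 = 2 * k - i by omega] at this
      exact this.symm
  · rw [if_neg (by omega), if_pos (by omega), hP0, show 2 * k - (2 * k - 1) = 1 by omega, hQ1]
    exact py.symm
  · intro i j hij hj
    by_cases h1 : i ≤ k <;> by_cases h2 : j ≤ k
    · rw [if_pos h1, if_pos h2, hPP.dist2 i j hij h2]; omega
    · rw [if_pos h1, if_neg h2]
      rcases le_total (i + (2 * k - j)) k with h3 | h3
      · rw [key1 _ _ h3]; omega
      · rw [key2 _ _ h1 (by omega) h3]; omega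
    · omega
    · rw [if_neg h1, if_neg h2, dist_comm,
        hQQ.dist2 (2 * k - j) (2 * k - i) (by omega) (by omega)]; omega

end CC

section TC

variable (hN : NoIso G) {k : ℕ} (hk : 2 ≤ k) (hC : ∀ j, j ≤ k → CCk G j)
  (hT : ∀ j, j < k → TCk G j)

include hN hk hC hT

lemma tc_T0 {c u v : V} {Q : ℕ → V} (hu : G.dist c u = k)
    (hQ : Geo G k c Q) (hQ0 : Q 0 = v) (uv : G.Adj u v)
    (hbad : ∀ w, G.Adj w u → G.Adj w v → G.dist c w + 1 ≠ k) :
    ∀ j, j + 1 ≤ k → G.dist u (Q j) = j + 1 := by
  intro j hj
  rcases Nat.eq_zero_or_pos j with rfl | hj0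
  · rw [hQ0, dist_eq_one_iff_adj.mpr uv]
  have e1 : G.dist (Q j) v = j := by
    have := hQ.dist2 0 j (by omega) (by omega)
    rw [hQ0] at this
    rw [dist_comm, this]; omega
  have e3 := dist_adj (c := Q j) uv
  have f1 : ∀ z, G.dist c z ≤ G.dist c (Q j) + G.dist (Q j) z := fun z =>
    Reachable.dist_triangle_left (hQ.reach' j (by omega)).symm _
  have f2 := hQ.dist j (by omega)
  rw [dist_comm]
  by_contra hcon
  have hcases : G.dist (Q j) u + 1 = j ∨ G.dist (Q j) u = j := by omega
  rcases hcases with h | h
  · have := f1 u; omega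
  · obtain ⟨z, z1, z2, z3⟩ := hT j (by omega) (Q j) u v h e1 hj0 uv
    have g1 := f1 z
    have g2 := dist_adj (c := c) z1
    exact hbad z z1 z2 (by omega)

lemma tc_T1 {c v : V} {Q : ℕ → V} 
    (hQ : Geo G k c Q) (hQ0 : Q 0 = v) : ∀ i, ∀ P : ℕ → V, Geo G k c P → G.Adj (P 0) v →
      (∀ w, G.Adj w (P 0) → G.Adj w v → G.dist c w + 1 ≠ k) →
      ∀ j, i + j + 1 ≤ k → G.dist (P i) (Q j) = i + j + 1 := by
  have h4 := noC4 hN
  intro i
  induction i using Nat.strong_induction_on with
  | _ i ih =>
  intro P hP huv hbad j hij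
  have hu := hP.dist 0 (by omega)
  rcases Nat.eq_zero_or_pos i with rfl | hi
  · have := tc_T0 hN hk hC hT (u := P 0) (by omega) hQ hQ0 huv hbad j (by omega)
    omega
  obtain ⟨t, rfl⟩ : ∃ t, i = t + 1 := ⟨i - 1, by omega⟩
  have A1 := ih t (by omega) P hP huv hbad j (by omega)
  have adj1 := hP.adj t (by omega)
  rw [dist_comm] at A1 ⊢
  have dd := dist_adj (c := Q j) adj1
  by_contra hcon
  have hcases : G.dist (Q j) (P (t + 1)) + 1 = t + j + 1 ∨
      G.dist (Q j) (P (t + 1)) = t + j + 1 := by omega
  rcases Nat.eq_zero_or_pos t with rfl | ht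
  · -- t = 0: previous vertex is v
    simp only [Nat.zero_add] at *
    have hP1 := hP.dist 1 (by omega)
    have e1 : G.dist (Q j) v + 1 = j + 1 := by
      have := hQ.dist2 0 j (by omega) (by omega)
      rw [hQ0] at this
      rw [dist_comm, this]; omega
    have hv := hQ.dist 0 (by omega)
    rw [hQ0] at hv
    have hP1v : ¬ G.Adj (P 1) v := fun h => hbad (P 1) adj1.symm h (by omega)
    have hP1v' : P 1 ≠ v := by intro h; rw [h] at hP1; omega
    rcases hcases with h | h
    · rcases hC (j + 1) (by omega) (Q j) (P 0) (P 1) v A1 adj1 huv h e1 with e | e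
      · exact hP1v' e
      · exact hP1v e
    · obtain ⟨z, z1, z2, z3⟩ := hT (j + 1) (by omega) (Q j) (P 0) (P 1) A1 h (by omega) adj1
      rcases hC (j + 1) (by omega) (Q j) (P 0) z v A1 z1.symm huv z3 e1 with e | e
      · subst e; exact hP1v z2.symm
      · have g1 := dist_adj (c := c) z1
        have g2 := dist_adj (c := c) z2
        have g3 := hbad z z1 e
        have hz : G.dist c z = k := by omega
        -- new geodesic starting from z
        have hP' : Geo G k c (Function.update P 0 z) := by
          refine ⟨?_, ?_, ?_⟩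
          · intro i hi
            rcases Nat.eq_zero_or_pos i with rfl | h'
            · rw [Function.update_self, Function.update_of_ne (by omega)]; exact z2
            · rw [Function.update_of_ne (by omega), Function.update_of_ne (by omega)]
              exact hP.adj i hi
          · intro i hi
            rcases Nat.eq_zero_or_pos i with rfl | h'
            · rw [Function.update_self]; omega
            · rw [Function.update_of_ne (by omega)]; exact hP.dist i hi
          · rw [Function.update_of_ne (by omega)]; exact hP.last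
        have hbad' : ∀ w, G.Adj w z → G.Adj w v → G.dist c w + 1 ≠ k := by
          intro w w1 w2 w3
          rcases hC k le_rfl c z w (P 1) hz w1.symm z2 w3 (by omega) with e' | e'
          · subst e'; exact hP1v w2
          · rcases h4 (P 0) v w (P 1) huv w2.symm e' adj1.symm with q | q | q | q
            · rw [q] at hu; omega
            · exact hP1v' q.symm
            · exact hbad w q.symm w2 w3
            · exact hP1v q.symm
        have := tc_T0 hN hk hC hT (u := z) hz hQ hQ0 e hbad' j (by omega)
        rw [dist_comm] at this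
        omega
  · have A0 := ih (t - 1) (by omega) P hP huv hbad j (by omega)
    have adj0 := hP.adj (t - 1) (by omega)
    rw [show t - 1 + 1 = t by omega] at adj0
    have far : G.dist (P (t - 1)) (P (t + 1)) = 2 := by
      rw [hP.dist2 (t - 1) (t + 1) (by omega) (by omega)]; omega
    have nadj : ¬ G.Adj (P (t - 1)) (P (t + 1)) := by
      intro h; rw [dist_eq_one_iff_adj.mpr h] at far; omega
    have neq : P (t - 1) ≠ P (t + 1) := by
      intro h; rw [h, dist_self] at far; omega
    rw [dist_comm] at A0
    rcases hcases with h | h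
    · rcases hC (t + j + 1) (by omega) (Q j) (P t) (P (t - 1)) (P (t + 1)) A1 adj0.symm adj1
        (by omega) h with e | e
      · exact neq e
      · exact nadj e
    · obtain ⟨z, z1, z2, z3⟩ := hT (t + j + 1) (by omega) (Q j) (P t) (P (t + 1)) A1 h
        (by omega) adj1
      rcases hC (t + j + 1) (by omega) (Q j) (P t) z (P (t - 1)) A1 z1.symm adj0.symm z3
        (by omega) with e | e
      · subst e; exact nadj z2
      · have hP' := hP.update (t := t) (z := z) (by omega) (by omega) e z2
        have h0' : Function.update P t z 0 = P 0 := by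
          rw [Function.update_of_ne (by omega)]
        have := ih t (by omega) _ hP' (by rw [h0']; exact huv) (by rw [h0']; exact hbad) j
          (by omega)
        rw [Function.update_self, dist_comm] at this
        omega

lemma tc_step : TCk G k := by
  intro c u v hu hv _ huv
  by_contra hbad'
  push Not at hbad'
  have hbad : ∀ w, G.Adj w u → G.Adj w v → G.dist c w + 1 ≠ k := hbad'
  have hru : G.Reachable c u := Reachable.of_dist_ne_zero (by omega)
  have hrv : G.Reachable c v := Reachable.of_dist_ne_zero (by omega)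
  obtain ⟨P, hP0, hPP⟩ := geo_exists k u hru hu
  obtain ⟨Q, hQ0, hQQ⟩ := geo_exists k v hrv hv
  have key1 : ∀ i j, i + j + 1 ≤ k → G.dist (P i) (Q j) = i + j + 1 := by
    intro i j hij
    exact tc_T1 hN hk hC hT hQQ hQ0 i P hPP (by rw [hP0]; exact huv)
      (by rw [hP0]; exact hbad) j hij
  have key2 : ∀ i, i ≤ k → G.dist (P i) (Q (k - i)) = k := by
    intro i hi
    rcases Nat.eq_zero_or_pos i with rfl | hi0
    · rw [Nat.sub_zero, hQQ.last, hP0, dist_comm, hu]
    rcases Nat.lt_or_ge i k with hik | hik
    swap
    · obtain rfl : i = k := by omega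
      rw [Nat.sub_self, hPP.last, hQ0, hv]
    have a1 := key1 i (k - 1 - i) (by omega)
    have adj1 := hQQ.adj (k - 1 - i) (by omega)
    rw [show k - 1 - i + 1 = k - i by omega] at adj1
    have a2 := dist_adj (c := P i) adj1
    have a3 := hQQ.le_add (P i) (k - i) k (by omega) le_rfl
    have a4 := hPP.dist2 i k hi le_rfl
    have a5 : G.dist (P i) (Q (k - i)) ≤ k := by
      have b1 : G.dist (P i) (Q (k - i)) ≤ G.dist (P i) c + G.dist c (Q (k - i)) :=
        Reachable.dist_triangle_left (hPP.reach' i hi) _
      have b2 := hQQ.dist (k - i) (by omega)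
      rw [hPP.last] at a4
      omega
    by_contra hcon
    have hd : G.dist (P i) (Q (k - i)) + 1 = k := by omega
    rcases Nat.lt_or_ge (i + 1) k with h1 | h1
    · have b1 := key1 i (k - 2 - i) (by omega)
      have adj0 := hQQ.adj (k - 2 - i) (by omega)
      rw [show k - 2 - i + 1 = k - 1 - i by omega] at adj0
      have far : G.dist (Q (k - 2 - i)) (Q (k - i)) = 2 := by
        rw [hQQ.dist2 (k - 2 - i) (k - i) (by omega) (by omega)]; omega
      rcases hC k le_rfl (P i) (Q (k - 1 - i)) (Q (k - 2 - i)) (Q (k - i)) (by omega) adj0.symm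
        adj1 (by omega) hd with e | e
      · rw [e, dist_self] at far; omega
      · rw [dist_eq_one_iff_adj.mpr e] at far; omega
    · have e0 : k - 1 - i = 0 := by omega
      have e1 : k - i = 1 := by omega
      rw [e0, hQ0, e1] at adj1
      rw [e0, hQ0] at a1
      rw [e1] at hd
      have b1 := hPP.dist2 0 i (by omega) hi
      rw [hP0, dist_comm] at b1
      have b2 := hQQ.dist 1 (by omega)
      rcases hC k le_rfl (P i) v u (Q 1) (by omega) huv.symm adj1 (by omega) hd with e | e
      · rw [← e] at b2; omega
      · exact hbad (Q 1) e.symm adj1.symm (by omega)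
  have key3 : ∀ i j, i ≤ k → j ≤ k → k ≤ i + j → G.dist (P i) (Q j) = 2 * k - i - j := by
    intro i j hi hj hij
    have a1 := key2 i hi
    have a2 := hQQ.le_add (P i) (k - i) j (by omega) hj
    have a3 := hQQ.le_add (P i) j k hj le_rfl
    have a4 := hPP.dist2 i k hi le_rfl
    rw [hQQ.last] at a3
    rw [hPP.last] at a4
    omega
  refine hN (2 * k + 1) (fun r => if r ≤ k then P r else Q (2 * k - r)) (by omega) ⟨?_, ?_, ?_⟩
  · intro i hi
    rcases Nat.lt_trichotomy i k with h | h | h
    · rw [if_pos (by omega), if_pos (by omega)]; exact hPP.adj i h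
    · subst h
      rw [if_pos (by omega), if_neg (by omega), hPP.last, ← hQQ.last]
      have := hQQ.adj (i - 1) (by omega)
      rw [show 2 * i - (i + 1) = i - 1 by omega]
      rw [show i - 1 + 1 = i by omega] at this
      exact this.symm
    · rw [if_neg (by omega), if_neg (by omega)]
      have := hQQ.adj (2 * k - (i + 1)) (by omega)
      rw [show 2 * k - (i + 1) + 1 = 2 * k - i by omega] at this
      exact this.symm
  · rw [if_neg (by omega), if_pos (by omega), hP0, show 2 * k - (2 * k + 1 - 1) = 0 by omega,
      hQ0]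
    exact huv.symm
  · intro i j hij hj
    by_cases h1 : i ≤ k <;> by_cases h2 : j ≤ k
    · rw [if_pos h1, if_pos h2, hPP.dist2 i j hij h2]; omega
    · rw [if_pos h1, if_neg h2]
      rcases Nat.lt_or_ge (i + (2 * k - j)) k with h3 | h3
      · rw [key1 _ _ (by omega)]; omega
      · rw [key3 _ _ h1 (by omega) h3]; omega
    · omega
    · rw [if_neg h1, if_neg h2, dist_comm,
        hQQ.dist2 (2 * k - j) (2 * k - i) (by omega) (by omega)]; omega

end TC

/-- a graph without isometric cycles of length at least 4 satisfies both conditions -/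
lemma cc_tc (hN : NoIso G) : ∀ k, CCk G k ∧ TCk G k := by
  intro k
  induction k using Nat.strong_induction_on with
  | _ k ih =>
  have small : k ≤ 1 → CCk G k ∧ TCk G k := by
    intro hk
    constructor
    · intro c p x y hp px py hx hy
      left
      have hrp : G.Reachable c p := Reachable.of_dist_ne_zero (by omega)
      have r1 := (reach_of_adj px hrp).dist_eq_zero_iff.mp (by omega)
      have r2 := (reach_of_adj py hrp).dist_eq_zero_iff.mp (by omega)
      rw [← r1, ← r2]
    · intro c u v hu hv hk1 huv
      obtain rfl : k = 1 := by omega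
      exact ⟨c, dist_eq_one_iff_adj.mp hu, dist_eq_one_iff_adj.mp hv, by simp⟩
  rcases Nat.lt_or_ge 1 k with hk | hk
  · have hcc : CCk G k := cc_step hN hk (fun j hj => (ih j hj).1) (fun j hj => (ih j hj).2)
    refine ⟨hcc, tc_step hN hk ?_ (fun j hj => (ih j hj).2)⟩
    intro j hj
    rcases Nat.lt_or_ge j k with h | h
    · exact (ih j h).1
    · obtain rfl : j = k := by omega
      exact hcc
  · exact small hk

/-- clique condition -/
def CC (G : SimpleGraph V) : Prop := ∀ c p x y, G.Adj p x → G.Adj p y →
  G.dist c x + 1 = G.dist c p → G.dist c y + 1 = G.dist c p → x = y ∨ G.Adj x y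

/-- triangle condition -/
def TC (G : SimpleGraph V) : Prop := ∀ c u v, G.Adj u v → G.dist c u = G.dist c v →
  1 ≤ G.dist c u → ∃ w, G.Adj w u ∧ G.Adj w v ∧ G.dist c w + 1 = G.dist c u

lemma cc_of (hN : NoIso G) : CC G := by
  intro c p x y px py hx hy
  exact (cc_tc hN (G.dist c p)).1 c p x y rfl px py hx hy

lemma tc_of (hN : NoIso G) : TC G := by
  intro c u v huv h1 h2
  exact (cc_tc hN (G.dist c u)).2 c u v rfl h1.symm h2 huv

end Pool.Agent.H13.Br
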