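import Pool.Agent.H13.BrB

set_option autoImplicit false

namespace Pool.Agent.H13.Br

open SimpleGraph

variable {V : Type}

section BFS

variable (G : SimpleGraph V)

/-- a root in each connected component -/
noncomputable def root (v : V) : V := (G.connectedComponentMk v).out

lemma root_reach (v : V) : G.Reachable (root G v) v := by
  have : G.connectedComponentMk (root G v) = G.connectedComponentMk v :=
    Quot.out_eq (G.connectedComponentMk v)
  exact ConnectedComponent.exact this

lemma root_eq {u v : V} (h : G.Reachable u v) : root G u = root G v := by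
  unfold root
  rw [ConnectedComponent.sound h]

noncomputable def lvl (v : V) : ℕ := G.dist (root G v) v

lemma lvl_eq {u v : V} (h : G.Adj u v) : lvl G u = G.dist (root G v) u := by
  unfold lvl
  rw [root_eq G h.reachable]

lemma lvl_zero {v : V} (h : lvl G v = 0) : v = root G v := by
  exact ((root_reach G v).dist_eq_zero_iff.mp h).symm

def low (k : ℕ) (v : V) : Set V := {u | G.Adj u v ∧ lvl G u = k}

open Classical in
/-- the BFS orders, level by level -/
noncomputable def ordS : ℕ → {s : V → V → Prop // IsWellOrder V s}
  | 0 => ⟨WellOrderingRel, inferInstance⟩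
  | k + 1 =>
    let s := ordS k
    haveI : IsWellOrder V s.1 := s.2
    let f : V → V := fun v => if h : (low G k v).Nonempty then s.2.wf.min (low G k v) h else v
    ⟨(fun v => ((f v, v) : V × V)) ⁻¹'o (Prod.Lex s.1 WellOrderingRel),
      (RelEmbedding.preimage ⟨fun v => ((f v, v) : V × V), fun a b h => (Prod.ext_iff.mp h).2⟩
        (Prod.Lex s.1 WellOrderingRel)).isWellOrder⟩

noncomputable def ord (k : ℕ) : V → V → Prop := (ordS G k).1

instance (k : ℕ) : IsWellOrder V (ord G k) := (ordS G k).2

open Classical in
/-- the father of a vertex of level `k + 1` -/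
noncomputable def fa (k : ℕ) (v : V) : V :=
  if h : (low G k v).Nonempty then (ordS G k).2.wf.min (low G k v) h else v

lemma ord_succ (k : ℕ) (u v : V) : ord G (k + 1) u v ↔
    ord G k (fa G k u) (fa G k v) ∨ (fa G k u = fa G k v ∧ WellOrderingRel u v) := by
  have : ord G (k + 1) u v ↔ Prod.Lex (ord G k) WellOrderingRel (fa G k u, u) (fa G k v, v) :=
    Iff.rfl
  rw [this, Prod.lex_def]

lemma fa_mem {k : ℕ} {v : V} (h : lvl G v = k + 1) : fa G k v ∈ low G k v := by
  have hne : (low G k v).Nonempty := by
    obtain ⟨q, hq1, hq2⟩ := exists_lower (G := G) (c := root G v) (p := v) (k := k) h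
    exact ⟨q, hq1.symm, by rw [lvl_eq G hq1.symm]; exact hq2⟩
  unfold fa
  rw [dif_pos hne]
  exact WellFounded.min_mem _ _ _

lemma fa_min {k : ℕ} {v u : V} (hu : u ∈ low G k v) : ¬ ord G k u (fa G k v) := by
  unfold fa
  rw [dif_pos ⟨u, hu⟩]
  exact WellFounded.not_lt_min _ _ hu

end BFS

variable {G : SimpleGraph V}

/-- the domination property of the BFS order -/
lemma dom_same (hN : NoIso G) : ∀ k u v, lvl G u = k + 1 → lvl G v = k + 1 → G.Adj u v →
    ord G (k + 1) u v → G.Adj u (fa G k v) := by
  have h4 := noC4 hN
  have h5 := noC5 hN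
  have hC := cc_of hN
  have hT := tc_of hN
  intro k
  induction k with
  | zero =>
    intro u v hu hv huv _
    obtain ⟨a1, a2⟩ := fa_mem G hv
    have e1 := lvl_zero G a2
    have : root G (fa G 0 v) = root G u := by
      rw [root_eq G a1.reachable, root_eq G huv.reachable]
    rw [e1, this]
    have := dist_eq_one_iff_adj.mp (show G.dist (root G u) u = 1 from hu)
    exact this.symm
  | succ k ih =>
    intro u v hu hv huv ho
    obtain ⟨fv1, fv2⟩ := fa_mem G hv
    obtain ⟨fu1, fu2⟩ := fa_mem G hu
    rw [ord_succ] at ho
    rcases ho with ho | ⟨ho, _⟩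
    swap
    · rw [← ho]; exact fu1.symm
    by_contra hcon
    -- common base point
    set c := root G v with hc
    have hlev : ∀ w, G.Reachable w v → lvl G w = G.dist c w := by
      intro w hw
      unfold lvl
      rw [root_eq G hw]
    have du : G.dist c u = k + 2 := by rw [← hlev u huv.reachable]; exact hu
    have dv : G.dist c v = k + 2 := hv
    obtain ⟨w, w1, w2, w3⟩ := hT c u v huv (by omega) (by omega)
    have rw1 : G.Reachable w v := w2.reachable
    have rfv : G.Reachable (fa G (k+1) v) v := fv1.reachable
    have rfu : G.Reachable (fa G (k+1) u) v := fu1.reachable.trans huv.reachable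
    have dfv : G.dist c (fa G (k+1) v) = k + 1 := by rw [← hlev _ rfv]; exact fv2
    have dfu : G.dist c (fa G (k+1) u) = k + 1 := by rw [← hlev _ rfu]; exact fu2
    have dw : G.dist c w = k + 1 := by omega
    have lw : lvl G w = k + 1 := by rw [hlev _ rw1]; exact dw
    have nfuv : ¬ G.Adj (fa G (k+1) u) v := by
      intro h
      exact fa_min G (show fa G (k+1) u ∈ low G (k+1) v from ⟨h, fu2⟩) ho
    have wne1 : w ≠ fa G (k+1) u := by rintro rfl; exact nfuv w2
    have wne2 : w ≠ fa G (k+1) v := by rintro rfl; exact hcon w1.symm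
    have wfu : G.Adj w (fa G (k+1) u) := by
      rcases hC c u w (fa G (k+1) u) w1.symm fu1.symm (by omega) (by omega) with e | e
      · exact absurd e wne1
      · exact e
    have wfv : G.Adj w (fa G (k+1) v) := by
      rcases hC c v w (fa G (k+1) v) w2.symm fv1.symm (by omega) (by omega) with e | e
      · exact absurd e wne2
      · exact e
    have lev : ∀ a b : V, G.dist c a ≠ G.dist c b → a ≠ b := by
      intro a b h e; exact h (by rw [e])
    have nlev : ∀ a b : V, G.dist c a + 1 < G.dist c b → ¬ G.Adj a b := by
      intro a b h e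
      have := dist_adj (c := c) e
      omega
    have nff : ¬ G.Adj (fa G (k+1) u) (fa G (k+1) v) := by
      intro h
      rcases h4 u v (fa G (k+1) v) (fa G (k+1) u) huv fv1.symm h.symm fu1 with e | e | e | e
      · exact lev u _ (by omega) e
      · exact lev v _ (by omega) e
      · exact hcon e
      · exact nfuv e.symm
    have nfe : fa G (k+1) u ≠ fa G (k+1) v := by
      intro h; rw [← h] at hcon; exact hcon fu1.symm
    -- both fathers precede w
    have trich := (inferInstance : IsWellOrder V (ord G (k+1)))
    have o1 : ord G (k+1) (fa G (k+1) u) w := by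
      rcases trichotomous_of (ord G (k+1)) (fa G (k+1) u) w with h | h | h
      · exact h
      · exact absurd h.symm wne1
      · exact absurd h (fa_min G (show w ∈ low G (k+1) u from ⟨w1, lw⟩))
    have o2 : ord G (k+1) (fa G (k+1) v) w := by
      rcases trichotomous_of (ord G (k+1)) (fa G (k+1) v) w with h | h | h
      · exact h
      · exact absurd h.symm wne2
      · exact absurd h (fa_min G (show w ∈ low G (k+1) v from ⟨w2, lw⟩))
    have a1 := ih _ _ fu2 lw wfu.symm o1
    have a2 := ih _ _ fv2 lw wfv.symm o2
    obtain ⟨fw1, fw2⟩ := fa_mem G lw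
    have rfw : G.Reachable (fa G k w) v := fw1.reachable.trans rw1
    have dfw : G.dist c (fa G k w) = k := by rw [← hlev _ rfw]; exact fw2
    rcases h5 u v (fa G (k+1) v) (fa G k w) (fa G (k+1) u) huv fv1.symm a2 a1.symm fu1 with
      e | e | e | e | e | e | e | e | e | e
    · exact lev u _ (by omega) e
    · exact lev u _ (by omega) e
    · exact lev v _ (by omega) e
    · exact lev v _ (by omega) e
    · exact nfe e.symm
    · exact hcon e
    · exact nlev (fa G k w) u (by omega) e.symm
    · exact nlev (fa G k w) v (by omega) e.symm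
    · exact nfuv e.symm
    · exact nff e.symm

end Pool.Agent.H13.Br
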