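import Pool.Agent.H13.BrC

set_option autoImplicit false

namespace Pool.Agent.H13.Br

open SimpleGraph

variable {V : Type} {G : SimpleGraph V}

/-- induced subgraph, on the same vertex type -/
def HF (G : SimpleGraph V) (F : Set V) : SimpleGraph V where
  Adj a b := a ∈ F ∧ b ∈ F ∧ G.Adj a b
  symm := ⟨fun _ _ h => ⟨h.2.1, h.1, h.2.2.symm⟩⟩
  loopless := ⟨fun _ h => h.2.2.ne rfl⟩

lemma HF_mono {F F' : Set V} (h : F ⊆ F') : HF G F ≤ HF G F' :=
  fun _ _ hab => ⟨h hab.1, h hab.2.1, hab.2.2⟩

/-- rotation of an isometric cycle -/
lemma iso_rot {n : ℕ} {c : ℕ → V} (hc : Iso G n c) {s : ℕ} (hs : s < n) :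
    Iso G n (fun i => c ((s + i) % n)) := by
  have hn : 0 < n := by omega
  have key : ∀ a b, a < n → b < n → (b = a + 1 ∨ (a = n - 1 ∧ b = 0)) → G.Adj (c a) (c b) := by
    intro a b ha hb h
    rcases h with rfl | ⟨rfl, rfl⟩
    · exact hc.adj a hb
    · exact hc.adj0
  refine ⟨?_, ?_, ?_⟩
  · intro i hi
    apply key _ _ (Nat.mod_lt _ hn) (Nat.mod_lt _ hn)
    rcases Nat.lt_or_ge (s + i) n with h | h
    · rw [Nat.mod_eq_of_lt h]
      rcases Nat.lt_or_ge (s + (i + 1)) n with h' | h'
      · rw [Nat.mod_eq_of_lt h']; left; omega
      · right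
        have : s + (i + 1) = n := by omega
        rw [this, Nat.mod_self]; omega
    · rw [Nat.mod_eq_sub_mod h, Nat.mod_eq_of_lt (by omega : s + i - n < n),
        Nat.mod_eq_sub_mod (by omega : s + (i + 1) ≥ n),
        Nat.mod_eq_of_lt (by omega : s + (i + 1) - n < n)]
      left; omega
  · apply key _ _ (Nat.mod_lt _ hn) (Nat.mod_lt _ hn)
    rw [Nat.add_zero, Nat.mod_eq_of_lt hs]
    rcases Nat.eq_zero_or_pos s with rfl | h
    · right
      rw [Nat.zero_add, Nat.mod_eq_of_lt (by omega)]; omega
    · left
      rw [Nat.mod_eq_sub_mod (by omega : s + (n - 1) ≥ n),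
        Nat.mod_eq_of_lt (by omega : s + (n - 1) - n < n)]
      omega
  · intro i j hij hj
    have hd : ∀ a b, a < n → b < n → G.dist (c a) (c b) =
        min (max a b - min a b) (n - (max a b - min a b)) := by
      intro a b ha hb
      rcases le_total a b with h | h
      · rw [hc.dist a b h hb, max_eq_right h, min_eq_left h]
      · rw [dist_comm, hc.dist b a h ha, max_eq_left h, min_eq_right h]
    rw [hd _ _ (Nat.mod_lt _ hn) (Nat.mod_lt _ hn)]
    rcases Nat.lt_or_ge (s + i) n with h | h <;> rcases Nat.lt_or_ge (s + j) n with h' | h'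
    · rw [Nat.mod_eq_of_lt h, Nat.mod_eq_of_lt h']; omega
    · rw [Nat.mod_eq_of_lt h, Nat.mod_eq_sub_mod h', Nat.mod_eq_of_lt (by omega : s + j - n < n)]
      omega
    · omega
    · rw [Nat.mod_eq_sub_mod h, Nat.mod_eq_of_lt (by omega : s + i - n < n),
        Nat.mod_eq_sub_mod h', Nat.mod_eq_of_lt (by omega : s + j - n < n)]
      omega

section ext

variable {F : Set V} {v f : V} (hv : v ∉ F) (hf : f ∈ F)
  (hdom : ∀ u, u ∈ F → G.Adj v u → u = f ∨ G.Adj u f)

include hf hdom in
open Classical in
lemma retr_walk : ∀ (a b : V) (_w : (HF G (insert v F)).Walk a b),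
    ∃ w' : (HF G F).Walk (if a = v then f else a) (if b = v then f else b),
      w'.length ≤ _w.length := by
  intro a b w
  induction w with
  | nil => exact ⟨Walk.nil, le_rfl⟩
  | cons h w ih =>
    rename_i a d b
    obtain ⟨w', hw'⟩ := ih
    obtain ⟨h1, h2, h3⟩ := h
    by_cases ha : a = v <;> by_cases hd : d = v
    · exact absurd (ha.trans hd.symm) h3.ne
    · -- a = v, d in F
      have hdF : d ∈ F := by
        rcases h2 with h2 | h2
        · exact absurd h2 hd
        · exact h2
      rcases hdom d hdF (ha ▸ h3) with e | e
      · refine ⟨w'.copy (by rw [if_neg hd, if_pos ha, e]) rfl, ?_⟩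
        show _ ≤ w.length + 1
        simp only [Walk.length_copy, Walk.length_cons]; omega
      · refine ⟨(Walk.cons (show (HF G F).Adj f d from ⟨hf, hdF, e.symm⟩)
          (w'.copy (if_neg hd) rfl)).copy (by rw [if_pos ha]) rfl, ?_⟩
        show _ ≤ w.length + 1
        simp only [Walk.length_copy, Walk.length_cons]; omega
    · have haF : a ∈ F := by
        rcases h1 with h1 | h1
        · exact absurd h1 ha
        · exact h1
      rcases hdom a haF (hd ▸ h3.symm) with e | e
      · refine ⟨w'.copy (by rw [if_pos hd, if_neg ha, e]) rfl, ?_⟩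
        show _ ≤ w.length + 1
        simp only [Walk.length_copy, Walk.length_cons]; omega
      · refine ⟨(Walk.cons (show (HF G F).Adj a f from ⟨haF, hf, e⟩)
          (w'.copy (if_pos hd) rfl)).copy (by rw [if_neg ha]) rfl, ?_⟩
        show _ ≤ w.length + 1
        simp only [Walk.length_copy, Walk.length_cons]; omega
    · have haF : a ∈ F := by
        rcases h1 with h1 | h1
        · exact absurd h1 ha
        · exact h1
      have hdF : d ∈ F := by
        rcases h2 with h2 | h2
        · exact absurd h2 hd
        · exact h2
      refine ⟨(Walk.cons (show (HF G F).Adj a d from ⟨haF, hdF, h3⟩)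
          (w'.copy (if_neg hd) rfl)).copy (by rw [if_neg ha]) rfl, ?_⟩
      show _ ≤ w.length + 1
      simp only [Walk.length_copy, Walk.length_cons]; omega

include hv hf hdom

lemma dist_eq_ext {a b : V} (ha : a ∈ F) (hb : b ∈ F) :
    (HF G (insert v F)).dist a b = (HF G F).dist a b := by
  have hle : HF G F ≤ HF G (insert v F) := HF_mono (Set.subset_insert _ _)
  have hav : a ≠ v := by rintro rfl; exact hv ha
  have hbv : b ≠ v := by rintro rfl; exact hv hb
  by_cases hr : (HF G (insert v F)).Reachable a b
  · obtain ⟨w, hw⟩ := hr.exists_walk_length_eq_dist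
    obtain ⟨w0, hw0⟩ := retr_walk hf hdom a b w
    obtain ⟨w', hw'⟩ : ∃ w' : (HF G F).Walk a b, w'.length ≤ w.length :=
      ⟨w0.copy (if_neg hav) (if_neg hbv), by rw [Walk.length_copy]; exact hw0⟩
    have h1 := dist_le w'
    have h2 : (HF G (insert v F)).dist a b ≤ (HF G F).dist a b :=
      Reachable.dist_anti hle ⟨w'⟩
    omega
  · have hr' : ¬ (HF G F).Reachable a b := fun h => hr (h.mono hle)
    rw [dist_eq_zero_of_not_reachable hr, dist_eq_zero_of_not_reachable hr']

/-- the father is not farther than `v` -/
lemma dist_father_le {a : V} (ha : a ∈ F) (hr : (HF G (insert v F)).Reachable a v) :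
    (HF G F).dist a f ≤ (HF G (insert v F)).dist a v := by
  have hav : a ≠ v := by rintro rfl; exact hv ha
  obtain ⟨w, hw⟩ := hr.exists_walk_length_eq_dist
  obtain ⟨w0, hw0⟩ := retr_walk hf hdom a v w
  obtain ⟨w', hw'⟩ : ∃ w' : (HF G F).Walk a f, w'.length ≤ w.length :=
    ⟨w0.copy (if_neg hav) (if_pos rfl), by rw [Walk.length_copy]; exact hw0⟩
  have h1 := dist_le w'
  omega

lemma noIso_ext (hvf : G.Adj v f) (h4 : NoC4 G) (h5 : NoC5 G) (hH : NoIso (HF G F)) :
    NoIso (HF G (insert v F)) := by
  have hC := cc_of hH
  have hT := tc_of hH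
  intro n c hn hc
  -- all vertices of the cycle lie in `insert v F`
  have hmem : ∀ i, i < n → c i ∈ insert v F := by
    intro i hi
    rcases Nat.eq_zero_or_pos i with rfl | h
    · exact (hc.adj0).2.1
    · have := (hc.adj (i - 1) (by omega)).2.1
      rwa [show i - 1 + 1 = i by omega] at this
  by_cases hall : ∀ i, i < n → c i ≠ v
  · have hF : ∀ i, i < n → c i ∈ F := by
      intro i hi
      rcases hmem i hi with h | h
      · exact absurd h (hall i hi)
      · exact h
    refine hH n c hn ⟨?_, ?_, ?_⟩
    · intro i hi
      exact ⟨hF i (by omega), hF _ hi, (hc.adj i hi).2.2⟩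
    · exact ⟨hF _ (by omega), hF _ (by omega), hc.adj0.2.2⟩
    · intro i j hij hj
      rw [← dist_eq_ext hv hf hdom (hF i (by omega)) (hF j hj)]
      exact hc.dist i j hij hj
  · push Not at hall
    obtain ⟨s, hs, hsv⟩ := hall
    have hc' := iso_rot hc hs
    set d : ℕ → V := fun i => c ((s + i) % n) with hd
    have hd0 : d 0 = v := by simp [hd, Nat.mod_eq_of_lt hs, hsv]
    clear_value d
    clear hc hmem hsv hs hd
    -- facts about the rotated cycle
    have hne : ∀ i, 0 < i → i < n → d i ≠ v := by
      intro i h1 h2 e
      have := hc'.dist 0 i (by omega) h2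
      rw [hd0, e, dist_self] at this
      omega
    have hF : ∀ i, 0 < i → i < n → d i ∈ F := by
      intro i h1 h2
      have h3 : d i ∈ insert v F := by
        have := (hc'.adj (i - 1) (by omega)).2.1
        rwa [show i - 1 + 1 = i by omega] at this
      rcases h3 with h | h
      · exact absurd h (hne i h1 h2)
      · exact h
    have hdist : ∀ i j, 0 < i → i ≤ j → j < n →
        (HF G F).dist (d i) (d j) = min (j - i) (n - (j - i)) := by
      intro i j h1 h2 h3
      rw [← dist_eq_ext hv hf hdom (hF i h1 (by omega)) (hF j (by omega) h3)]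
      exact hc'.dist i j h2 h3
    have hdist0 : ∀ i, i < n → (HF G (insert v F)).dist (d i) v = min i (n - i) := by
      intro i h3
      have := hc'.dist 0 i (by omega) h3
      rw [hd0] at this
      rw [dist_comm, this]; simp
    have aF := hF 1 (by omega) (by omega)
    have bF := hF (n - 1) (by omega) (by omega)
    have va : G.Adj v (d 1) := by
      have := (hc'.adj 0 (by omega)).2.2
      rwa [hd0] at this
    have vb : G.Adj v (d (n - 1)) := by
      have := hc'.adj0.2.2
      rw [hd0] at this
      exact this.symm
    have dab : (HF G F).dist (d 1) (d (n - 1)) = 2 := by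
      rw [hdist 1 (n - 1) (by omega) (by omega) (by omega)]; omega
    have nab : ¬ G.Adj (d 1) (d (n - 1)) := by
      intro h
      have : (HF G F).dist (d 1) (d (n - 1)) = 1 :=
        dist_eq_one_iff_adj.mpr ⟨aF, bF, h⟩
      omega
    have neab : d 1 ≠ d (n - 1) := by
      intro h; rw [h, dist_self] at dab; omega
    have af : G.Adj (d 1) f := by
      rcases hdom _ aF va with e | e
      · exfalso
        rcases hdom _ bF vb with e' | e'
        · exact neab (e.trans e'.symm)
        · rw [← e] at e'; exact nab e'.symm
      · exact e
    have bf : G.Adj (d (n - 1)) f := by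
      rcases hdom _ bF vb with e | e
      · exfalso
        rcases hdom _ aF va with e' | e'
        · exact neab (e'.trans e.symm)
        · rw [← e] at e'; exact nab e'
      · exact e
    have haf : (HF G F).Adj (d 1) f := ⟨aF, hf, af⟩
    have hbf : (HF G F).Adj (d (n - 1)) f := ⟨bF, hf, bf⟩
    rcases Nat.lt_or_ge n 6 with hn6 | hn6
    · -- n = 4 or n = 5
      have : n = 4 ∨ n = 5 := by omega
      rcases this with rfl | rfl
      · have e1 := (hc'.adj 1 (by omega)).2.2
        have e2 := (hc'.adj 2 (by omega)).2.2
        simp only [Nat.reduceAdd, Nat.reduceSub] at *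
        rcases h4 v (d 1) (d 2) (d 3) va e1 e2 vb.symm with e | e | e | e
        · exact hne 2 (by omega) (by omega) e.symm
        · exact neab e
        · have h2 := hdist0 2 (by omega)
          have : (HF G (insert v F)).dist (d 2) v = 1 :=
            dist_eq_one_iff_adj.mpr ⟨Or.inr (hF 2 (by omega) (by omega)), Or.inl rfl, e.symm⟩
          omega
        · exact nab e
      · have e1 := (hc'.adj 1 (by omega)).2.2
        have e2 := (hc'.adj 2 (by omega)).2.2
        have e3 := (hc'.adj 3 (by omega)).2.2
        simp only [Nat.reduceAdd, Nat.reduceSub] at *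
        have k1 : ∀ i j, 0 < i → i ≤ j → j < 5 → 2 ≤ j - i → j - i ≤ 3 →
            d i ≠ d j ∧ ¬ G.Adj (d i) (d j) := by
          intro i j h1 h2 h3 h4 h5
          have hh := hdist i j h1 h2 h3
          constructor
          · intro e; rw [e, dist_self] at hh; omega
          · intro e
            have : (HF G F).dist (d i) (d j) = 1 :=
              dist_eq_one_iff_adj.mpr ⟨hF i h1 (by omega), hF j (by omega) h3, e⟩
            omega
        have k2 : ∀ i, 2 ≤ i → i ≤ 3 → v ≠ d i ∧ ¬ G.Adj v (d i) := by
          intro i h1 h2
          have hh := hdist0 i (by omega)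
          constructor
          · exact (hne i (by omega) (by omega)).symm
          · intro e
            have : (HF G (insert v F)).dist (d i) v = 1 :=
              dist_eq_one_iff_adj.mpr ⟨Or.inr (hF i (by omega) (by omega)), Or.inl rfl, e.symm⟩
            omega
        rcases h5 v (d 1) (d 2) (d 3) (d 4) va e1 e2 e3 vb.symm with
          e | e | e | e | e | e | e | e | e | e
        · exact (k2 2 (by omega) (by omega)).1 e
        · exact (k2 3 (by omega) (by omega)).1 e
        · exact (k1 1 3 (by omega) (by omega) (by omega) (by omega) (by omega)).1 e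
        · exact neab e
        · exact (k1 2 4 (by omega) (by omega) (by omega) (by omega) (by omega)).1 e
        · exact (k2 2 (by omega) (by omega)).2 e
        · exact (k2 3 (by omega) (by omega)).2 e
        · exact (k1 1 3 (by omega) (by omega) (by omega) (by omega) (by omega)).2 e
        · exact nab e
        · exact (k1 2 4 (by omega) (by omega) (by omega) (by omega) (by omega)).2 e
    · rcases Nat.even_or_odd' n with ⟨m, hm | hm⟩
      · -- even case
        have hcF := hF m (by omega) (by omega)
        have dv := hdist0 m (by omega)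
        have da : (HF G F).dist (d m) (d 1) = m - 1 := by
          rw [dist_comm, hdist 1 m (by omega) (by omega) (by omega)]; omega
        have db : (HF G F).dist (d m) (d (n - 1)) = m - 1 := by
          rw [hdist m (n - 1) (by omega) (by omega) (by omega)]; omega
        have hr : (HF G (insert v F)).Reachable (d m) v := Reachable.of_dist_ne_zero (by omega)
        have f1 := dist_father_le hv hf hdom hcF hr
        have vf' : (HF G (insert v F)).Adj v f := ⟨Or.inl rfl, Or.inr hf, hvf⟩
        have f2 := dist_adj (c := d m) vf'
        rw [dist_eq_ext hv hf hdom hcF hf] at f2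
        have hcases : (HF G F).dist (d m) f = m ∨ (HF G F).dist (d m) f = m - 1 := by omega
        rcases hcases with h | h
        · rcases hC (d m) f (d 1) (d (n - 1)) haf.symm hbf.symm (by omega) (by omega) with e | e
          · exact neab e
          · exact nab e.2.2
        · obtain ⟨a1, a2, a3, a4⟩ := hT (d m) (d 1) f haf (by omega) (by omega)
          obtain ⟨b1, b2, b3, b4⟩ := hT (d m) (d (n - 1)) f hbf (by omega) (by omega)
          have lev : ∀ x y : V, (HF G F).dist (d m) x ≠ (HF G F).dist (d m) y → x ≠ y := by
            intro x y h e; exact h (by rw [e])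
          have nv : ∀ x, x ∈ F → (HF G F).dist (d m) x + 1 < m → ¬ G.Adj v x := by
            intro x hx h e
            have vx : (HF G (insert v F)).Adj v x := ⟨Or.inl rfl, Or.inr hx, e⟩
            have g := dist_adj (c := d m) vx
            rw [dist_eq_ext hv hf hdom hcF hx] at g
            omega
          have nev : ∀ x, x ∈ F → v ≠ x := by rintro x hx rfl; exact hv hx
          have nba1 : ¬ G.Adj a1 (d (n - 1)) := by
            intro e
            rcases h4 v (d 1) a1 (d (n - 1)) va a2.2.2.symm e vb.symm with q | q | q | q
            · exact nev a1 a2.1 q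
            · exact neab q
            · exact nv a1 a2.1 (by omega) q
            · exact nab q
          have nab1 : ¬ G.Adj b1 (d 1) := by
            intro e
            rcases h4 v (d 1) b1 (d (n - 1)) va e.symm b2.2.2 vb.symm with q | q | q | q
            · exact nev b1 b2.1 q
            · exact neab q
            · exact nv b1 b2.1 (by omega) q
            · exact nab q
          rcases hC (d m) f a1 b1 a3.symm b3.symm (by omega) (by omega) with e | e
          · subst e; exact nba1 b2.2.2
          · rcases h5 v (d 1) a1 b1 (d (n - 1)) va a2.2.2.symm e.2.2 b2.2.2 vb.symm with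
              q | q | q | q | q | q | q | q | q | q
            · exact nev a1 a2.1 q
            · exact nev b1 b2.1 q
            · exact lev (d 1) b1 (by omega) q
            · exact neab q
            · exact lev a1 (d (n - 1)) (by omega) q
            · exact nv a1 a2.1 (by omega) q
            · exact nv b1 b2.1 (by omega) q
            · exact nab1 q.symm
            · exact nab q
            · exact nba1 q
      · -- odd case
        have hcF := hF m (by omega) (by omega)
        have dv := hdist0 m (by omega)
        have da : (HF G F).dist (d m) (d 1) = m - 1 := by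
          rw [dist_comm, hdist 1 m (by omega) (by omega) (by omega)]; omega
        have db : (HF G F).dist (d m) (d (n - 1)) = m := by
          rw [hdist m (n - 1) (by omega) (by omega) (by omega)]; omega
        have db' : (HF G F).dist (d m) (d (n - 2)) = m - 1 := by
          rw [hdist m (n - 2) (by omega) (by omega) (by omega)]; omega
        have dab' : (HF G F).dist (d 1) (d (n - 2)) = 3 := by
          rw [hdist 1 (n - 2) (by omega) (by omega) (by omega)]; omega
        have hbb' : (HF G F).Adj (d (n - 1)) (d (n - 2)) := by
          have := hc'.adj (n - 2) (by omega)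
          rw [show n - 2 + 1 = n - 1 by omega] at this
          exact ⟨bF, hF (n - 2) (by omega) (by omega), this.2.2.symm⟩
        have hr : (HF G (insert v F)).Reachable (d m) v := Reachable.of_dist_ne_zero (by omega)
        have f1 := dist_father_le hv hf hdom hcF hr
        have vf' : (HF G (insert v F)).Adj v f := ⟨Or.inl rfl, Or.inr hf, hvf⟩
        have f2 := dist_adj (c := d m) vf'
        rw [dist_eq_ext hv hf hdom hcF hf] at f2
        have hcases : (HF G F).dist (d m) f = m ∨ (HF G F).dist (d m) f = m - 1 := by omega
        -- distance three is violated as soon as there is a short connection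
        have short : ∀ w, (w = d 1 ∨ (HF G F).Adj w (d 1)) →
            (w = d (n - 2) ∨ (HF G F).Adj w (d (n - 2))) → False := by
          intro w h1 h2
          rcases h1 with h1 | h1
          · rw [h1] at h2
            rcases h2 with h2 | h2
            · rw [h2, dist_self] at dab'; omega
            · rw [dist_eq_one_iff_adj.mpr h2] at dab'; omega
          · have g1 := dist_adj (c := d (n - 2)) h1
            have g2 : (HF G F).dist (d (n - 2)) (d 1) = 3 := by rw [dist_comm]; exact dab'
            rcases h2 with h2 | h2
            · rw [h2, dist_self] at g1; omega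
            · have g3 : (HF G F).dist (d (n - 2)) w = 1 := dist_eq_one_iff_adj.mpr h2.symm
              omega
        rcases hcases with h | h
        · obtain ⟨w, w1, w2, w3⟩ := hT (d m) f (d (n - 1)) hbf.symm (by omega) (by omega)
          apply short w
          · exact hC (d m) f w (d 1) w1.symm haf.symm (by omega) (by omega)
          · exact hC (d m) (d (n - 1)) w (d (n - 2)) w2.symm hbb' (by omega) (by omega)
        · apply short f (Or.inr haf.symm)
          exact hC (d m) (d (n - 1)) f (d (n - 2)) hbf hbb' (by omega) (by omega)

end ext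

end Pool.Agent.H13.Br
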