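import Pool.Agent.H13.BrD

set_option autoImplicit false

namespace Pool.Agent.H13.Br

open SimpleGraph

variable {V : Type} {G : SimpleGraph V}

/-- the father function -/
noncomputable def father (G : SimpleGraph V) (v : V) : V :=
  if lvl G v = 0 then v else fa G (lvl G v - 1) v

lemma father_lvl (v : V) : lvl G (father G v) = lvl G v - 1 := by
  unfold father
  split
  · omega
  · rename_i h
    have := (fa_mem G (k := lvl G v - 1) (v := v) (by omega)).2
    omega

lemma noIso_closed (hN : NoIso G) : ∀ n, ∀ F : Finset V, F.card = n →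
    (∀ u ∈ F, father G u ∈ F) → NoIso (HF G (F : Set V)) := by
  classical
  intro n
  induction n with
  | zero =>
    intro F hF _ m c _ hc
    have h := hc.adj0.1
    rw [Finset.card_eq_zero] at hF
    subst hF
    simp at h
  | succ n ih =>
    intro F hF hcl
    have hne : F.Nonempty := by
      rw [← Finset.card_pos]; omega
    obtain ⟨v0, hv0, hmax0⟩ := F.exists_max_image (lvl G) hne
    set K := lvl G v0 with hK
    have hne' : (F.filter (fun u => lvl G u = K)).Nonempty := ⟨v0, by simp [hv0, hK]⟩
    obtain ⟨v, hv, hvmax⟩ : ∃ v ∈ F.filter (fun u => lvl G u = K),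
        ∀ x ∈ F.filter (fun u => lvl G u = K), x = v ∨ ord G K x v := by
      letI := linearOrderOfSTO (ord G K)
      obtain ⟨v, hv, hm⟩ := (F.filter (fun u => lvl G u = K)).exists_max_image id hne'
      exact ⟨v, hv, fun x hx => hm x hx⟩
    rw [Finset.mem_filter] at hv
    obtain ⟨hvF, hvK⟩ := hv
    have hmax : ∀ u ∈ F, u ≠ v → lvl G u < K ∨ (lvl G u = K ∧ ord G K u v) := by
      intro u hu huv
      have h1 := hmax0 u hu
      rcases Nat.lt_or_ge (lvl G u) K with h | h
      · exact Or.inl h
      · have h2 : lvl G u = K := by omega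
        rcases hvmax u (by simp [hu, h2]) with e | e
        · exact absurd e huv
        · exact Or.inr ⟨h2, e⟩
    have hcl' : ∀ u ∈ F.erase v, father G u ∈ F.erase v := by
      intro u hu
      rw [Finset.mem_erase] at hu ⊢
      refine ⟨?_, hcl u hu.2⟩
      intro e
      have h1 := father_lvl (G := G) u
      rw [e, hvK] at h1
      rcases Nat.eq_zero_or_pos (lvl G u) with h2 | h2
      · have : father G u = u := by unfold father; rw [if_pos h2]
        rw [this] at e; exact hu.1 e
      · rcases hmax u hu.2 hu.1 with h3 | h3 <;> omega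
    have hIH := ih (F.erase v) (by rw [Finset.card_erase_of_mem hvF]; omega) hcl'
    have hFe : (F : Set V) = insert v ((F.erase v : Finset V) : Set V) := by
      rw [← Finset.coe_insert, Finset.insert_erase hvF]
    have hvn : v ∉ ((F.erase v : Finset V) : Set V) := by simp
    rcases Nat.eq_zero_or_pos K with hK0 | hK0
    · -- v is isolated
      have hiso : ∀ u ∈ F, ¬ G.Adj u v := by
        intro u hu huv
        have h1 : lvl G u = 0 := by
          have := hmax0 u hu; omega
        have h2 := lvl_zero G h1
        have h3 := lvl_zero G (show lvl G v = 0 by omega)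
        rw [root_eq G huv.reachable, ← h3] at h2
        exact huv.ne h2
      have hg : HF G (F : Set V) = HF G ((F.erase v : Finset V) : Set V) := by
        ext a b
        constructor
        · rintro ⟨h1, h2, h3⟩
          refine ⟨?_, ?_, h3⟩
          · simp only [Finset.coe_erase, Set.mem_sdiff, Set.mem_singleton_iff]
            exact ⟨h1, by rintro rfl; exact hiso b h2 h3.symm⟩
          · simp only [Finset.coe_erase, Set.mem_sdiff, Set.mem_singleton_iff]
            exact ⟨h2, by rintro rfl; exact hiso a h1 h3⟩
        · rintro ⟨h1, h2, h3⟩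
          simp only [Finset.coe_erase, Set.mem_sdiff, Set.mem_singleton_iff] at h1 h2
          exact ⟨h1.1, h2.1, h3⟩
      rw [hg]; exact hIH
    · rw [hFe]
      obtain ⟨k, hk⟩ : ∃ k, K = k + 1 := ⟨K - 1, by omega⟩
      have hfv : father G v = fa G k v := by
        unfold father
        rw [if_neg (by omega), show lvl G v - 1 = k by omega]
      obtain ⟨f1, f2⟩ := fa_mem G (k := k) (v := v) (by omega)
      have hfF : fa G k v ∈ ((F.erase v : Finset V) : Set V) := by
        rw [← hfv]
        simp only [Finset.coe_erase, Set.mem_sdiff, Set.mem_singleton_iff]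
        refine ⟨hcl v hvF, ?_⟩
        rw [hfv]
        exact f1.ne
      refine noIso_ext hvn hfF ?_ f1.symm (noC4 hN) (noC5 hN) hIH
      intro u hu hvu
      simp only [Finset.coe_erase, Set.mem_sdiff, Set.mem_singleton_iff] at hu
      have hlu : lvl G u = G.dist (root G v) u := lvl_eq G hvu.symm
      have hlv : lvl G v = G.dist (root G v) v := rfl
      have hd := dist_adj (c := root G v) hvu
      rcases hmax u hu.1 hu.2 with h | h
      · have hlf : lvl G (fa G k v) = G.dist (root G v) (fa G k v) := lvl_eq G f1
        exact cc_of hN (root G v) v u (fa G k v) hvu f1.symm (by omega) (by omega)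
      · right
        rw [hk] at h
        exact dom_same hN k u v h.1 (by omega) hvu.symm h.2

lemma iter_lvl (v : V) : ∀ i, lvl G ((father G)^[i] v) = lvl G v - i := by
  intro i
  induction i with
  | zero => simp
  | succ i ih =>
    rw [Function.iterate_succ_apply', father_lvl, ih]; omega

lemma exists_closed (S : Finset V) : ∃ T : Finset V, S ⊆ T ∧ ∀ u ∈ T, father G u ∈ T := by
  classical
  refine ⟨S.biUnion (fun v => (Finset.range (lvl G v + 1)).image (fun i => (father G)^[i] v)),
    ?_, ?_⟩
  · intro v hv
    rw [Finset.mem_biUnion]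
    exact ⟨v, hv, Finset.mem_image.mpr ⟨0, by simp, rfl⟩⟩
  · intro u hu
    rw [Finset.mem_biUnion] at hu ⊢
    obtain ⟨v, hv, hu⟩ := hu
    refine ⟨v, hv, ?_⟩
    rw [Finset.mem_image] at hu ⊢
    obtain ⟨i, hi, rfl⟩ := hu
    rw [Finset.mem_range] at hi
    rcases Nat.lt_or_ge i (lvl G v) with h | h
    · exact ⟨i + 1, by rw [Finset.mem_range]; omega, by rw [Function.iterate_succ_apply']⟩
    · refine ⟨i, by rw [Finset.mem_range]; omega, ?_⟩
      have h1 := iter_lvl (G := G) v i
      have h2 : lvl G ((father G)^[i] v) = 0 := by omega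
      conv_rhs => unfold father
      unfold father at h2 ⊢
      rw [if_pos h2]

lemma back_walk {T : Set V} : ∀ (a b : V) (w : (HF G T).Walk a b) (ha : a ∈ T) (hb : b ∈ T),
    ∃ w' : (G.induce T).Walk ⟨a, ha⟩ ⟨b, hb⟩, w'.length = w.length := by
  intro a b w
  induction w with
  | nil => intro ha hb; exact ⟨Walk.nil, rfl⟩
  | cons h w ih =>
    intro ha hb
    obtain ⟨w', hw'⟩ := ih h.2.1 hb
    refine ⟨Walk.cons (show (G.induce T).Adj ⟨_, ha⟩ ⟨_, h.2.1⟩ from h.2.2) w', ?_⟩
    rw [Walk.length_cons, Walk.length_cons, hw']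

def homInd (T : Set V) : G.induce T →g HF G T where
  toFun a := a.1
  map_rel' {a b} h := ⟨a.2, b.2, h⟩

lemma dist_induce {T : Set V} (a b : T) : (G.induce T).dist a b = (HF G T).dist a.1 b.1 := by
  by_cases hr : (HF G T).Reachable a.1 b.1
  · obtain ⟨w, hw⟩ := hr.exists_walk_length_eq_dist
    obtain ⟨w', hw'⟩ := back_walk a.1 b.1 w a.2 b.2
    have hr' : (G.induce T).Reachable a b := ⟨w'⟩
    obtain ⟨w2, hw2⟩ := hr'.exists_walk_length_eq_dist
    have h1 : (G.induce T).dist a b ≤ w'.length := dist_le w'
    have h2 : (HF G T).dist a.1 b.1 ≤ (w2.map (homInd T)).length := dist_le _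
    rw [Walk.length_map] at h2
    omega
  · have hr' : ¬ (G.induce T).Reachable a b := by
      rintro ⟨w⟩
      exact hr ⟨w.map (homInd T)⟩
    rw [dist_eq_zero_of_not_reachable hr, dist_eq_zero_of_not_reachable hr']

theorem main (hb : WB G) (S : Finset V) : ∃ T : Finset V, S ⊆ T ∧
    ∀ (u : (T : Set V)) (c : (G.induce (T : Set V)).Walk u u), c.IsCycle → 4 ≤ c.length →
      ∃ i j : ℕ, i ≤ j ∧ j < c.length ∧
        (G.induce (T : Set V)).dist (c.getVert i) (c.getVert j)
          < min (j - i) (c.length - (j - i)) := by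
  have hN := wb_noIso hb
  obtain ⟨T, hST, hT⟩ := exists_closed (G := G) S
  refine ⟨T, hST, ?_⟩
  have hNT := noIso_closed hN T.card T rfl hT
  intro u c _ hlen
  by_contra hcon
  push Not at hcon
  have hiso : Iso (G.induce (T : Set V)) c.length c.getVert := by
    apply iso_of_no_shortcut (by omega)
    · intro i hi
      exact c.adj_getVert_succ (by omega)
    · have := c.adj_getVert_succ (i := c.length - 1) (by omega)
      rw [show c.length - 1 + 1 = c.length by omega, Walk.getVert_length] at this
      rw [Walk.getVert_zero]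
      exact this
    · intro i j hij hj
      exact hcon i j hij hj
  refine hNT c.length (fun i => (c.getVert i).1) hlen ⟨?_, ?_, ?_⟩
  · intro i hi
    exact ⟨(c.getVert i).2, (c.getVert (i+1)).2, hiso.adj i hi⟩
  · exact ⟨(c.getVert _).2, (c.getVert 0).2, hiso.adj0⟩
  · intro i j hij hj
    rw [← dist_induce]
    exact hiso.dist i j hij hj

end Pool.Agent.H13.Br
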