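import Mathlib

set_option autoImplicit false
set_option maxHeartbeats 4000000

open scoped Pointwise ENNReal
open MeasureTheory Set Filter

namespace Pool.Agent.H13.Cq

variable (G : Type) {X : Type} [Group G] [MulAction G X]

def InI (A : Set X) : Prop :=
  ∃ B : ℕ → Set X, Pairwise (Function.onFun Disjoint B) ∧
            ∀ n, ∃ (P : ℕ → Set X) (g : ℕ → G),
              Pairwise (Function.onFun Disjoint P) ∧ (⋃ i, P i) = A ∧
              Pairwise (Function.onFun Disjoint (fun i => g i • P i)) ∧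
              (⋃ i, g i • P i) = B n

variable {G}

lemma InI_smul {A : Set X} (h : InI G A) (g : G) : InI G (g • A) := by
  obtain ⟨B, hB, hn⟩ := h
  refine ⟨B, hB, fun n => ?_⟩
  obtain ⟨P, k, h1, h2, h3, h4⟩ := hn n
  refine ⟨fun i => g • P i, fun i => k i * g⁻¹, ?_, ?_, ?_, ?_⟩
  · intro i j hij
    have := h1 hij
    rw [Function.onFun, Set.disjoint_left] at this ⊢
    rintro z ⟨x, hx, rfl⟩ ⟨y, hy, hyz⟩
    have e := MulAction.injective g hyz
    subst e
    exact this hx hy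
  · rw [← h2, Set.smul_set_iUnion]
  · intro i j hij
    have := h3 hij
    rw [Function.onFun] at this ⊢
    simpa [mul_smul] using this
  · rw [← h4]
    apply Set.iUnion_congr
    intro i
    simp [mul_smul]

/-- packing for step 1 -/
lemma pack1 (g : ℕ → G) (A : ℕ → Set X) (hinv : ∀ k n, k < n → ∀ x, g k • x ∈ A n ↔ x ∈ A n) :
    InI G {x : X | (Set.ofPred (fun n => g n • x ∈ A n)).Infinite ∧ ∀ n, x ∉ A n} := by
  classical
  set B0 : Set X := {x : X | (Set.ofPred (fun n => g n • x ∈ A n)).Infinite ∧ ∀ n, x ∉ A n} with hB0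
  have key : ∀ x ∈ B0, ∀ y ∈ B0, ∀ n k, g n • x ∈ A n → g k • y ∈ A k → g n • x = g k • y →
      n = k ∧ x = y := by
    intro x hx y hy n k hn hk he
    rcases Nat.lt_trichotomy n k with h | h | h
    · exfalso
      rw [← he] at hk
      exact hx.2 k ((hinv n k h x).mp hk)
    · subst h
      exact ⟨rfl, MulAction.injective (g n) he⟩
    · exfalso
      rw [he] at hn
      exact hy.2 n ((hinv k n h y).mp hn)
  set P : ℕ → ℕ → Set X := fun j i => {x ∈ B0 | Nat.nth (fun n => g n • x ∈ A n) j = i} with hP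
  have hPm : ∀ j i x, x ∈ P j i → x ∈ B0 ∧ g i • x ∈ A i := by
    intro j i x hx
    refine ⟨hx.1, ?_⟩
    have := Nat.nth_mem_of_infinite (p := fun n => g n • x ∈ A n) hx.1.1 j
    rw [hx.2] at this
    exact this
  refine ⟨fun j => ⋃ i, g i • P j i, ?_, fun j => ⟨P j, g, ?_, ?_, ?_, rfl⟩⟩
  · intro j j' hjj
    rw [Function.onFun, Set.disjoint_left]
    intro z hz hz'
    rw [mem_iUnion] at hz hz'
    obtain ⟨i, x, hx, hxz⟩ := hz
    obtain ⟨i', x', hx', hxz'⟩ := hz'
    simp only at hxz hxz'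
    obtain ⟨hb, ha⟩ := hPm _ _ _ hx
    obtain ⟨hb', ha'⟩ := hPm _ _ _ hx'
    obtain ⟨e1, e2⟩ := key x hb x' hb' i i' ha ha' (hxz.trans hxz'.symm)
    subst e1; subst e2
    exact hjj (Nat.nth_injective hb.1 (hx.2.trans hx'.2.symm))
  · intro i i' hii
    rw [Function.onFun, Set.disjoint_left]
    intro x hx hx'
    exact hii (hx.2.symm.trans hx'.2)
  · ext x
    rw [mem_iUnion]
    constructor
    · rintro ⟨i, hx⟩; exact hx.1
    · intro hx; exact ⟨_, hx, rfl⟩
  · intro i i' hii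
    rw [Function.onFun, Set.disjoint_left]
    rintro z ⟨x, hx, hxz⟩ ⟨x', hx', hxz'⟩
    simp only at hxz hxz'
    obtain ⟨hb, ha⟩ := hPm _ _ _ hx
    obtain ⟨hb', ha'⟩ := hPm _ _ _ hx'
    exact hii (key x hb x' hb' i i' ha ha' (hxz.trans hxz'.symm)).1

/-- packing for step 2 -/
lemma pack2 (g : ℕ → G) (E : ℕ → Set X) :
    InI G {x : X | (∀ n, g n • x ∈ E n) ∧ ∀ k n, k < n → g k • x ∉ E n} := by
  set B0 : Set X := {x : X | (∀ n, g n • x ∈ E n) ∧ ∀ k n, k < n → g k • x ∉ E n} with hB0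
  have key : ∀ k n, k < n → ∀ z, z ∈ g k • B0 → z ∈ g n • B0 → False := by
    rintro k n hkn z ⟨x, hx, rfl⟩ ⟨y, hy, hyz⟩
    simp only at hyz
    have h1 := hy.1 n
    rw [hyz] at h1
    exact hx.2 k n hkn h1
  refine ⟨fun n => g n • B0, ?_, fun n => ⟨fun i => if i = 0 then B0 else ∅, fun _ => g n,
    ?_, ?_, ?_, ?_⟩⟩
  · intro i j hij
    rw [Function.onFun, Set.disjoint_left]
    intro z hz hz'
    rcases Nat.lt_or_gt_of_ne hij with h | h
    · exact key i j h z hz hz'
    · exact key j i h z hz' hz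
  · intro i j hij
    rw [Function.onFun]
    rcases Nat.eq_zero_or_pos i with h | h
    · rw [if_neg (show j ≠ 0 by omega)]; exact disjoint_bot_right
    · rw [if_neg (show i ≠ 0 by omega)]; exact disjoint_bot_left
  · ext x
    rw [mem_iUnion]
    constructor
    · rintro ⟨i, hi⟩
      split at hi
      · exact hi
      · exact absurd hi (by simp)
    · intro hx; exact ⟨0, by simpa using hx⟩
  · intro i j hij
    rw [Function.onFun]
    rcases Nat.eq_zero_or_pos i with h | h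
    · simp only [if_neg (show j ≠ 0 by omega), Set.smul_set_empty]; exact disjoint_bot_right
    · simp only [if_neg (show i ≠ 0 by omega), Set.smul_set_empty]; exact disjoint_bot_left
  · ext x
    rw [mem_iUnion]
    constructor
    · rintro ⟨i, hi⟩
      by_cases h : i = 0
      · simpa [h] using hi
      · simp [h] at hi
    · intro hx; exact ⟨0, by simpa using hx⟩

variable [MeasurableSpace X] [DiscreteMeasurableSpace X]

/-- step 1 -/
lemma step1 (μ : Measure X) [IsFiniteMeasure μ] (hI : ∀ A : Set X, InI G A → μ A = 0) :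
    ∃ S : Set G, S.Countable ∧ ∀ A : Set X, (∀ h ∈ S, ∀ x, h • x ∈ A ↔ x ∈ A) → μ A = 0 →
      ∀ g : G, μ {x | g • x ∈ A} = 0 := by
  classical
  by_contra hcon
  push Not at hcon
  -- uniform lower bound
  obtain ⟨ε, hε, hS⟩ : ∃ ε : ℝ≥0∞, 0 < ε ∧ ∀ S : Set G, S.Countable →
      ∃ (A : Set X) (g : G), (∀ h ∈ S, ∀ x, h • x ∈ A ↔ x ∈ A) ∧ μ A = 0 ∧
        ε ≤ μ {x | g • x ∈ A} := by
    by_contra hc
    push Not at hc
    have hc' : ∀ k : ℕ, ∃ S : Set G, S.Countable ∧ ∀ (A : Set X) (g : G),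
        (∀ h ∈ S, ∀ x, h • x ∈ A ↔ x ∈ A) → μ A = 0 →
        μ {x | g • x ∈ A} < ((k : ℝ≥0∞) + 1)⁻¹ := by
      intro k
      exact hc _ (by simp)
    choose S hS1 hS2 using hc'
    obtain ⟨A, hA1, hA2, g, hg⟩ := hcon (⋃ k, S k) (Set.countable_iUnion hS1)
    have h1 : ∀ k : ℕ, μ {x | g • x ∈ A} < ((k : ℝ≥0∞) + 1)⁻¹ := by
      intro k
      exact hS2 k A g (fun h hh x => hA1 h (mem_iUnion.mpr ⟨k, hh⟩) x) hA2
    apply hg
    by_contra h0
    obtain ⟨k, hk⟩ := ENNReal.exists_inv_nat_lt h0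
    have h2 := h1 k
    have h3 : ((k : ℝ≥0∞) + 1)⁻¹ ≤ (k : ℝ≥0∞)⁻¹ := by
      apply ENNReal.inv_le_inv.mpr
      exact le_self_add
    exact absurd (h2.trans_le h3) (not_lt.mpr hk.le)
  -- build the sequence
  obtain ⟨f, hf1, hf2⟩ := exists_seq_of_forall_finset_exists
    (fun y : G × Set X => μ y.2 = 0 ∧ ε ≤ μ {x | y.1 • x ∈ y.2})
    (fun x y : G × Set X => ∀ z, x.1 • z ∈ y.2 ↔ z ∈ y.2) (by
      intro s _
      obtain ⟨A, g, h1, h2, h3⟩ := hS ((s.image Prod.fst : Finset G) : Set G)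
        (Finset.countable_toSet _)
      refine ⟨(g, A), ⟨h2, h3⟩, ?_⟩
      intro x hx z
      exact h1 x.1 (by simpa using ⟨x.2, hx⟩) z)
  have hB := pack1 (fun n => (f n).1) (fun n => (f n).2) (fun k n hkn x => hf2 k n hkn x)
  have hB0 := hI _ hB
  set C : ℕ → Set X := fun n => {x | (f n).1 • x ∈ (f n).2} with hC
  -- measure of the limsup
  have hlim : ε ≤ μ (⋂ N, ⋃ n ≥ N, C n) := by
    rw [Antitone.measure_iInter]
    · apply le_iInf
      intro N
      refine (hf1 N).2.trans (measure_mono ?_)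
      intro x hx
      rw [mem_iUnion₂]
      exact ⟨N, le_refl N, hx⟩
    · intro N N' hN x hx
      rw [mem_iUnion₂] at hx ⊢
      obtain ⟨n, hn, hx⟩ := hx
      exact ⟨n, le_trans hN hn, hx⟩
    · intro N; exact (MeasurableSet.of_discrete).nullMeasurableSet
    · exact ⟨0, measure_ne_top _ _⟩
  have hA0 : μ (⋃ n, (f n).2) = 0 := measure_iUnion_null (fun n => (hf1 n).1)
  have hsub : (⋂ N, ⋃ n ≥ N, C n) ⊆
      {x : X | (Set.ofPred (fun n => (f n).1 • x ∈ (f n).2)).Infinite ∧ ∀ n, x ∉ (f n).2} ∪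
      ⋃ n, (f n).2 := by
    intro x hx
    by_cases hxA : x ∈ ⋃ n, (f n).2
    · right; exact hxA
    · left
      refine ⟨?_, fun n hn => hxA (mem_iUnion.mpr ⟨n, hn⟩)⟩
      rw [Set.infinite_iff_exists_gt]
      intro a
      rw [mem_iInter] at hx
      have := hx (a + 1)
      rw [mem_iUnion₂] at this
      obtain ⟨n, hn, hxn⟩ := this
      exact ⟨n, hxn, by omega⟩
  have : μ (⋂ N, ⋃ n ≥ N, C n) = 0 := by
    apply measure_mono_null hsub
    exact measure_union_null hB0 hA0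
  rw [this] at hlim
  exact absurd hlim (not_le.mpr hε)

/-- the dominating measure -/
lemma step1b (μ : Measure X) [IsProbabilityMeasure μ] (hI : ∀ A : Set X, InI G A → μ A = 0) :
    ∃ m : Measure X, m univ = 1 ∧ (∀ A : Set X, InI G A → m A = 0) ∧
      ∀ A : Set X, m A = 0 → ∀ g : G, m {x | g • x ∈ A} = 0 := by
  classical
  obtain ⟨S, hSc, hS⟩ := step1 (G := G) μ hI
  haveI : Countable S := hSc.to_subtype
  set φ : FreeGroup S →* G := FreeGroup.lift (fun s : S => s.1) with hφ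
  obtain ⟨e, he⟩ := exists_surjective_nat (FreeGroup S)
  set h : ℕ → G := fun n => φ (e n) with hh
  have hmeas : ∀ g : G, Measurable (fun x : X => g • x) := fun g => Measurable.of_discrete
  have hmap : ∀ (g : G) (A : Set X), μ.map (fun x => g • x) A = μ {x | g • x ∈ A} := by
    intro g A
    rw [Measure.map_apply (hmeas g) MeasurableSet.of_discrete]
    rfl
  set m : Measure X := Measure.sum (fun n => ((2 : ℝ≥0∞)⁻¹ ^ (n + 1)) • μ.map (fun x => h n • x))
    with hm
  have hmA : ∀ A : Set X, m A = ∑' n, (2 : ℝ≥0∞)⁻¹ ^ (n + 1) * μ {x | h n • x ∈ A} := by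
    intro A
    rw [hm, Measure.sum_apply _ MeasurableSet.of_discrete]
    apply tsum_congr
    intro n
    rw [Measure.smul_apply, hmap, smul_eq_mul]
  have hpos : ∀ n : ℕ, (2 : ℝ≥0∞)⁻¹ ^ (n + 1) ≠ 0 := by
    intro n
    exact pow_ne_zero _ (by simp)
  have hm0 : ∀ A : Set X, m A = 0 ↔ ∀ n, μ {x | h n • x ∈ A} = 0 := by
    intro A
    rw [hmA, ENNReal.tsum_eq_zero]
    constructor
    · intro h1 n
      rcases mul_eq_zero.mp (h1 n) with h2 | h2
      · exact absurd h2 (hpos n)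
      · exact h2
    · intro h1 n; rw [h1 n, mul_zero]
  refine ⟨m, ?_, ?_, ?_⟩
  · rw [hmA]
    have : ∀ n, (2 : ℝ≥0∞)⁻¹ ^ (n + 1) * μ {x | h n • x ∈ (univ : Set X)} =
        (2 : ℝ≥0∞)⁻¹ ^ (n + 1) := by
      intro n
      have : {x | h n • x ∈ (univ : Set X)} = univ := by ext x; simp
      rw [this, measure_univ, mul_one]
    rw [tsum_congr this]
    simp_rw [pow_succ]
    rw [ENNReal.tsum_mul_right, ENNReal.tsum_geometric, ENNReal.one_sub_inv_two, inv_inv]
    exact ENNReal.mul_inv_cancel (by simp) (by simp)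
  · intro A hA
    rw [hm0]
    intro n
    have h1 : {x | h n • x ∈ A} = (h n)⁻¹ • A := by
      ext x
      rw [Set.mem_inv_smul_set_iff]
      rfl
    rw [h1]
    exact hI _ (InI_smul hA _)
  · intro A hA g
    rw [hm0] at hA ⊢
    set A' : Set X := {x | ∃ w : FreeGroup S, φ w • x ∈ A} with hA'
    have hA'0 : μ A' = 0 := by
      have : A' = ⋃ n, {x | h n • x ∈ A} := by
        ext x
        rw [mem_iUnion]
        constructor
        · rintro ⟨w, hw⟩
          obtain ⟨n, rfl⟩ := he w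
          exact ⟨n, hw⟩
        · rintro ⟨n, hn⟩; exact ⟨e n, hn⟩
      rw [this]
      exact measure_iUnion_null hA
    have hinv : ∀ k ∈ S, ∀ x, k • x ∈ A' ↔ x ∈ A' := by
      intro k hk x
      have hk' : φ (FreeGroup.of ⟨k, hk⟩) = k := by simp [hφ]
      constructor
      · rintro ⟨w, hw⟩
        refine ⟨w * FreeGroup.of ⟨k, hk⟩, ?_⟩
        rw [map_mul, hk', mul_smul]; exact hw
      · rintro ⟨w, hw⟩
        refine ⟨w * (FreeGroup.of ⟨k, hk⟩)⁻¹, ?_⟩
        rw [map_mul, map_inv, hk', mul_smul, inv_smul_smul]; exact hw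
    intro n
    have h2 := hS A' hinv hA'0 (g * h n)
    apply measure_mono_null _ h2
    intro x hx
    refine ⟨1, ?_⟩
    rw [map_one, one_smul, mul_smul]
    exact hx

/-- step 2 -/
lemma step2 (m : Measure X) (hm1 : m univ = 1) (hI : ∀ A : Set X, InI G A → m A = 0)
    (hac : ∀ A : Set X, m A = 0 → ∀ g : G, m {x | g • x ∈ A} = 0) :
    ∃ δ : ℝ≥0∞, 0 < δ ∧ ∀ (g : G) (E : Set X), δ ≤ m E ∨ δ ≤ m {x | g • x ∉ E} := by
  classical
  haveI : IsProbabilityMeasure m := ⟨hm1⟩
  by_contra hcon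
  push Not at hcon
  have hmeas : ∀ g : G, Measurable (fun x : X => g • x) := fun g => Measurable.of_discrete
  have habs : ∀ (g : G) (ε : ℝ≥0∞), ε ≠ 0 → ∃ δ > 0, ∀ E : Set X, m E < δ →
      m {x | g • x ∈ E} < ε := by
    intro g ε hε
    have h1 : m.map (fun x => g • x) ≪ m := by
      intro A hA
      rw [Measure.map_apply (hmeas g) MeasurableSet.of_discrete]
      exact hac A hA g
    haveI : IsFiniteMeasure (m.map (fun x => g • x)) := by infer_instance
    obtain ⟨δ, hδ, h2⟩ := exists_pos_setLIntegral_lt_of_measure_lt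
      (μ := m) (f := (m.map (fun x => g • x)).rnDeriv m)
      (Measure.lintegral_rnDeriv_lt_top _ _).ne hε
    refine ⟨δ, hδ, fun E hE => ?_⟩
    have h3 := h2 E hE
    rw [← withDensity_apply _ MeasurableSet.of_discrete,
      Measure.withDensity_rnDeriv_eq _ _ h1,
      Measure.map_apply (hmeas g) MeasurableSet.of_discrete] at h3
    exact h3
  set w : ℕ → ℝ≥0∞ := fun n => (2 : ℝ≥0∞)⁻¹ ^ n with hw
  have hw0 : ∀ n, w n ≠ 0 := fun n => pow_ne_zero _ (by simp)
  have hwanti : ∀ a b, a ≤ b → w b ≤ w a := by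
    intro a b hab
    exact pow_le_pow_of_le_one (by simp) (by simp) hab
  have h8 : (8 : ℝ≥0∞)⁻¹ ≠ 0 := by simp
  obtain ⟨f, hf1, hf2⟩ := exists_seq_of_forall_finset_exists
    (fun y : ℕ × G × Set X => m {x | y.2.1 • x ∉ y.2.2} < 8⁻¹ * w y.1)
    (fun x y : ℕ × G × Set X => x.1 < y.1 ∧
      m {z | x.2.1 • z ∈ y.2.2} < 8⁻¹ * (w x.1 * w y.1)) (by
      intro s _
      set i := s.sup Prod.fst + 1 with hi
      have hd : ∀ x ∈ s, ∃ δ > 0, ∀ E : Set X, m E < δ →
          m {z | x.2.1 • z ∈ E} < 8⁻¹ * (w x.1 * w i) := by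
        intro x _
        exact habs x.2.1 _ (mul_ne_zero h8 (mul_ne_zero (hw0 _) (hw0 _)))
      choose! D hD1 hD2 using hd
      have hmin : ∃ δ : ℝ≥0∞, 0 < δ ∧ δ ≤ 8⁻¹ * w i ∧ ∀ x ∈ s, δ ≤ D x := by
        have h9 : 0 < 8⁻¹ * w i := pos_iff_ne_zero.mpr (mul_ne_zero h8 (hw0 i))
        clear hD2
        induction s using Finset.induction_on with
        | empty => exact ⟨_, h9, le_refl _, by simp⟩
        | insert a s ha ih => 
          clear ih
          have : ∀ s' : Finset (ℕ × G × Set X), (∀ x ∈ s', D x > 0) →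
              ∃ δ : ℝ≥0∞, 0 < δ ∧ δ ≤ 8⁻¹ * w i ∧ ∀ x ∈ s', δ ≤ D x := by
            intro s'
            induction s' using Finset.induction_on with
            | empty => intro _; exact ⟨_, h9, le_refl _, by simp⟩
            | insert b s' _ ih' =>
              intro hpos
              obtain ⟨δ, d1, d2, d3⟩ := ih' (fun x hx => hpos x (Finset.mem_insert_of_mem hx))
              refine ⟨min δ (D b), lt_min d1 (hpos b (Finset.mem_insert_self _ _)),
                (min_le_left _ _).trans d2, ?_⟩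
              intro x hx
              rw [Finset.mem_insert] at hx
              rcases hx with rfl | hx
              · exact min_le_right _ _
              · exact (min_le_left _ _).trans (d3 x hx)
          exact this _ hD1
      obtain ⟨δ, d1, d2, d3⟩ := hmin
      obtain ⟨g, E, hE1, hE2⟩ := hcon δ d1
      refine ⟨(i, g, E), hE2.trans_le d2, ?_⟩
      intro x hx
      refine ⟨?_, hD2 x hx E (hE1.trans_le (d3 x hx))⟩
      have : x.1 ≤ s.sup Prod.fst := Finset.le_sup (f := Prod.fst) hx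
      show x.1 < i
      omega)
  have hidx : ∀ n, n ≤ (f n).1 := by
    intro n
    induction n with
    | zero => exact Nat.zero_le _
    | succ n ih =>
      have := (hf2 n (n + 1) (by omega)).1
      omega
  have hB := pack2 (fun n => (f n).2.1) (fun n => (f n).2.2)
  have hB0 := hI _ hB
  have hcov : (univ : Set X) ⊆
      {x : X | (∀ n, (f n).2.1 • x ∈ (f n).2.2) ∧ ∀ k n, k < n → (f k).2.1 • x ∉ (f n).2.2} ∪
      ((⋃ n, {x | (f n).2.1 • x ∉ (f n).2.2}) ∪
        ⋃ k, ⋃ n, {x | k < n ∧ (f k).2.1 • x ∈ (f n).2.2}) := by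
    intro x _
    by_cases h1 : ∀ n, (f n).2.1 • x ∈ (f n).2.2
    · by_cases h2 : ∀ k n, k < n → (f k).2.1 • x ∉ (f n).2.2
      · left; exact ⟨h1, h2⟩
      · right; right
        push Not at h2
        obtain ⟨k, n, hkn, h3⟩ := h2
        rw [mem_iUnion]; exact ⟨k, mem_iUnion.mpr ⟨n, hkn, h3⟩⟩
    · right; left
      push Not at h1
      obtain ⟨n, hn⟩ := h1
      exact mem_iUnion.mpr ⟨n, hn⟩
  have hgeo : ∑' n : ℕ, w n = 2 := by
    rw [hw, ENNReal.tsum_geometric, ENNReal.one_sub_inv_two, inv_inv]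
  have hm2 : m (⋃ n, {x | (f n).2.1 • x ∉ (f n).2.2}) ≤ 8⁻¹ * 2 := by
    calc m (⋃ n, {x | (f n).2.1 • x ∉ (f n).2.2})
        ≤ ∑' n, m {x | (f n).2.1 • x ∉ (f n).2.2} := measure_iUnion_le _
      _ ≤ ∑' n, 8⁻¹ * w n := by
          apply ENNReal.tsum_le_tsum
          intro n
          refine (hf1 n).le.trans ?_
          exact mul_le_mul_right (hwanti _ _ (hidx n)) _
      _ = 8⁻¹ * 2 := by rw [ENNReal.tsum_mul_left, hgeo]
  have hm3 : m (⋃ k, ⋃ n, {x | k < n ∧ (f k).2.1 • x ∈ (f n).2.2}) ≤ 8⁻¹ * (2 * 2) := by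
    calc m (⋃ k, ⋃ n, {x | k < n ∧ (f k).2.1 • x ∈ (f n).2.2})
        ≤ ∑' k, m (⋃ n, {x | k < n ∧ (f k).2.1 • x ∈ (f n).2.2}) := measure_iUnion_le _
      _ ≤ ∑' k, ∑' n, m {x | k < n ∧ (f k).2.1 • x ∈ (f n).2.2} :=
          ENNReal.tsum_le_tsum (fun k => measure_iUnion_le _)
      _ ≤ ∑' k, ∑' n, 8⁻¹ * (w k * w n) := by
          apply ENNReal.tsum_le_tsum
          intro k
          apply ENNReal.tsum_le_tsum
          intro n
          by_cases hkn : k < n
          · calc m {x | k < n ∧ (f k).2.1 • x ∈ (f n).2.2}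
                ≤ m {x | (f k).2.1 • x ∈ (f n).2.2} := measure_mono (fun x hx => hx.2)
              _ ≤ 8⁻¹ * (w (f k).1 * w (f n).1) := (hf2 k n hkn).2.le
              _ ≤ _ := mul_le_mul_right (mul_le_mul' (hwanti _ _ (hidx k))
                  (hwanti _ _ (hidx n))) _
          · have : {x | k < n ∧ (f k).2.1 • x ∈ (f n).2.2} = ∅ := by
              ext x; simp [hkn]
            rw [this, measure_empty]; exact bot_le
      _ = 8⁻¹ * (2 * 2) := by
          simp_rw [ENNReal.tsum_mul_left]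
          rw [hgeo, ENNReal.tsum_mul_right, hgeo]
  have hfin : m univ ≤ 0 + (8⁻¹ * 2 + 8⁻¹ * (2 * 2)) := by
    refine (measure_mono hcov).trans ((measure_union_le _ _).trans ?_)
    rw [hB0]
    exact add_le_add (le_refl _) ((measure_union_le _ _).trans (add_le_add hm2 hm3))
  rw [hm1, zero_add, ← mul_add] at hfin
  have h10 : (8 : ℝ≥0∞)⁻¹ * (2 + 2 * 2) < 1 := by
    rw [← ENNReal.div_eq_inv_mul]
    rw [ENNReal.div_lt_iff (by simp) (by simp)]
    norm_num
  exact absurd hfin (not_le.mpr h10)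

end Pool.Agent.H13.Cq
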