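import Pool.Agent.H13.CqA

set_option autoImplicit false
set_option maxHeartbeats 4000000

open scoped Pointwise ENNReal
open MeasureTheory Set Filter

namespace Pool.Agent.H13.Cq

variable {G X : Type} [Group G] [MulAction G X] [MeasurableSpace X] [DiscreteMeasurableSpace X]

/-- Radon-Nikodym derivative -/
noncomputable def J (m : Measure X) (g : G) : X → ℝ≥0∞ := (m.map (fun x : X => g • x)).rnDeriv m

noncomputable def T (m : Measure X) (g : G) (f : X → ℝ) : X → ℝ :=
  fun x => Real.sqrt (J m g x).toReal * f (g⁻¹ • x)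

lemma hac (m : Measure X) (hq : ∀ A, m A = 0 → ∀ g : G, m {x | g • x ∈ A} = 0) (g : G) :
    m.map (fun x : X => g • x) ≪ m := by
  intro A hA
  rw [Measure.map_apply Measurable.of_discrete MeasurableSet.of_discrete]
  exact hq A hA g

lemma J_int (m : Measure X) [IsFiniteMeasure m]
    (hq : ∀ A, m A = 0 → ∀ g : G, m {x | g • x ∈ A} = 0) (g : G) (F : X → ℝ≥0∞) (A : Set X) :
    ∫⁻ x in A, J m g x * F (g⁻¹ • x) ∂m = ∫⁻ x in {x | g • x ∈ A}, F x ∂m := by
  unfold J
  rw [setLIntegral_rnDeriv_mul (hac m hq g) (f := fun x => F (g⁻¹ • x))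
    Measurable.of_discrete.aemeasurable MeasurableSet.of_discrete]
  rw [setLIntegral_map MeasurableSet.of_discrete Measurable.of_discrete Measurable.of_discrete]
  simp [Set.preimage]

lemma J_ne_top (m : Measure X) [IsFiniteMeasure m] (g : G) : ∀ᵐ x ∂m, J m g x < ∞ :=
  Measure.rnDeriv_lt_top _ _

lemma T_congr (m : Measure X) (hq : ∀ A, m A = 0 → ∀ g : G, m {x | g • x ∈ A} = 0) (g : G)
    {f h : X → ℝ} (hfh : f =ᵐ[m] h) : T m g f =ᵐ[m] T m g h := by
  have h1 := hq {x | ¬ f x = h x} hfh g⁻¹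
  have h2 : ∀ᵐ x ∂m, f (g⁻¹ • x) = h (g⁻¹ • x) := h1
  filter_upwards [h2] with x hx
  simp [T, hx]

lemma T_int (m : Measure X) [IsFiniteMeasure m]
    (hq : ∀ A, m A = 0 → ∀ g : G, m {x | g • x ∈ A} = 0) (g : G) (f : X → ℝ) (A : Set X) :
    ∫⁻ x in A, ‖T m g f x‖ₑ ^ 2 ∂m = ∫⁻ x in {x | g • x ∈ A}, ‖f x‖ₑ ^ 2 ∂m := by
  rw [← J_int m hq g (fun x => ‖f x‖ₑ ^ 2) A]
  apply lintegral_congr_ae
  filter_upwards [ae_restrict_of_ae (J_ne_top m g)] with x hx
  unfold T
  rw [enorm_mul, mul_pow]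
  congr 1
  rw [Real.enorm_eq_ofReal (Real.sqrt_nonneg _), ← ENNReal.ofReal_pow (Real.sqrt_nonneg _),
    Real.sq_sqrt ENNReal.toReal_nonneg, ENNReal.ofReal_toReal hx.ne]

lemma T_eLpNorm (m : Measure X) [IsFiniteMeasure m]
    (hq : ∀ A, m A = 0 → ∀ g : G, m {x | g • x ∈ A} = 0) (g : G) (f : X → ℝ) :
    eLpNorm (T m g f) 2 m = eLpNorm f 2 m := by
  rw [eLpNorm_eq_lintegral_rpow_enorm_toReal (by simp) (by simp),
    eLpNorm_eq_lintegral_rpow_enorm_toReal (by simp) (by simp)]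
  congr 1
  have := T_int m hq g f univ
  simp only [Measure.restrict_univ, mem_univ, setOf_true] at this
  simpa using this

lemma T_add (m : Measure X) (g : G) (f h : X → ℝ) : T m g (f + h) = T m g f + T m g h := by
  ext x; simp [T, mul_add]

lemma T_smul (m : Measure X) (g : G) (c : ℝ) (f : X → ℝ) : T m g (c • f) = c • T m g f := by
  ext x; simp [T]; ring

lemma J_mul (m : Measure X) [IsFiniteMeasure m]
    (hq : ∀ A, m A = 0 → ∀ g : G, m {x | g • x ∈ A} = 0) (g h : G) :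
    J m (g * h) =ᵐ[m] fun x => J m g x * J m h (g⁻¹ • x) := by
  have h1 : m.withDensity (J m (g * h)) = m.withDensity (fun x => J m g x * J m h (g⁻¹ • x)) := by
    ext A hA
    rw [withDensity_apply _ hA, withDensity_apply _ hA, J_int m hq g (J m h) A]
    have e1 := J_int m hq (g * h) (fun _ => 1) A
    have e2 := J_int m hq h (fun _ => 1) {x | g • x ∈ A}
    simp only [mul_one] at e1 e2
    rw [e1, e2]
    simp [mul_smul]
  rw [← withDensity_eq_iff_of_sigmaFinite Measurable.of_discrete.aemeasurable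
    Measurable.of_discrete.aemeasurable]
  exact h1

noncomputable def sJ (m : Measure X) (g : G) : X → ℝ := fun x => Real.sqrt (J m g x).toReal

lemma sJ_eq (m : Measure X) (g : G) : sJ m g = T m g (fun _ => 1) := by
  ext x; simp [sJ, T]

lemma sJ_mul (m : Measure X) [IsFiniteMeasure m]
    (hq : ∀ A, m A = 0 → ∀ g : G, m {x | g • x ∈ A} = 0) (g h : G) :
    sJ m (g * h) =ᵐ[m] T m g (sJ m h) := by
  filter_upwards [J_mul m hq g h] with x hx
  simp only [sJ, T, hx, ENNReal.toReal_mul]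
  rw [Real.sqrt_mul ENNReal.toReal_nonneg]

end Pool.Agent.H13.Cq
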