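import Pool.Agent.H13.CqB

set_option autoImplicit false
set_option maxHeartbeats 4000000

open scoped Pointwise ENNReal
open MeasureTheory Set Filter

namespace Pool.Agent.H13.Cq

variable {G X : Type} [Group G] [MulAction G X] [MeasurableSpace X] [DiscreteMeasurableSpace X]

lemma T_memLp (m : Measure X) [IsFiniteMeasure m]
    (hq : ∀ A, m A = 0 → ∀ g : G, m {x | g • x ∈ A} = 0) (g : G) {f : X → ℝ}
    (hf : MemLp f 2 m) : MemLp (T m g f) 2 m :=
  ⟨Measurable.of_discrete.aestronglyMeasurable, by rw [T_eLpNorm m hq]; exact hf.2⟩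

noncomputable def U (m : Measure X) [IsFiniteMeasure m]
    (hq : ∀ A, m A = 0 → ∀ g : G, m {x | g • x ∈ A} = 0) (g : G) :
    Lp ℝ 2 m →ₗᵢ[ℝ] Lp ℝ 2 m where
  toFun f := (T_memLp m hq g (Lp.memLp f)).toLp
  map_add' f h := by
    rw [← MemLp.toLp_add, MemLp.toLp_eq_toLp_iff, ← T_add]
    exact T_congr m hq g (Lp.coeFn_add f h)
  map_smul' c f := by
    rw [RingHom.id_apply, ← MemLp.toLp_const_smul, MemLp.toLp_eq_toLp_iff, ← T_smul]
    exact T_congr m hq g (Lp.coeFn_smul c f)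
  norm_map' f := by
    simp only [LinearMap.coe_mk, AddHom.coe_mk]
    rw [Lp.norm_toLp, T_eLpNorm m hq, Lp.norm_def]

lemma U_coe (m : Measure X) [IsFiniteMeasure m]
    (hq : ∀ A, m A = 0 → ∀ g : G, m {x | g • x ∈ A} = 0) (g : G) (f : Lp ℝ 2 m) :
    U m hq g f =ᵐ[m] T m g f := MemLp.coeFn_toLp (T_memLp m hq g (Lp.memLp f))

lemma sJ_memLp (m : Measure X) [IsFiniteMeasure m]
    (hq : ∀ A, m A = 0 → ∀ g : G, m {x | g • x ∈ A} = 0) (g : G) :
    MemLp (sJ m g) 2 m := by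
  rw [sJ_eq]
  exact T_memLp m hq g (memLp_const 1)

noncomputable def v (m : Measure X) [IsFiniteMeasure m]
    (hq : ∀ A, m A = 0 → ∀ g : G, m {x | g • x ∈ A} = 0) (g : G) : Lp ℝ 2 m :=
  (sJ_memLp m hq g).toLp

lemma U_v (m : Measure X) [IsFiniteMeasure m]
    (hq : ∀ A, m A = 0 → ∀ g : G, m {x | g • x ∈ A} = 0) (g h : G) :
    U m hq g (v m hq h) = v m hq (g * h) := by
  unfold v
  show (T_memLp m hq g (Lp.memLp _)).toLp = _
  rw [MemLp.toLp_eq_toLp_iff]
  exact (T_congr m hq g (MemLp.coeFn_toLp _)).trans (sJ_mul m hq g h).symm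

/-- the integral of sqrt J is bounded below -/
lemma sJ_lower (m : Measure X) [IsFiniteMeasure m]
    (hq : ∀ A, m A = 0 → ∀ g : G, m {x | g • x ∈ A} = 0) (δ : ℝ≥0∞)
    (g : G) (h2 : ∀ E : Set X, δ ≤ m E ∨ δ ≤ m {x | g • x ∉ E}) :
    δ ≤ ∫⁻ x, ENNReal.ofReal (sJ m g x) ∂m := by
  set E : Set X := {x | 1 < J m g x} with hE
  rcases h2 E with h | h
  · calc δ ≤ m E := h
      _ = ∫⁻ x in E, 1 ∂m := by simp
      _ ≤ ∫⁻ x in E, ENNReal.ofReal (sJ m g x) ∂m := by
          apply lintegral_mono_ae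
          rw [ae_restrict_iff' MeasurableSet.of_discrete]
          filter_upwards [J_ne_top m g] with x hx hxE
          rw [ENNReal.one_le_ofReal]
          unfold sJ
          rw [Real.one_le_sqrt]
          have : (1 : ℝ≥0∞) ≤ J m g x := le_of_lt hxE
          have := ENNReal.toReal_mono hx.ne this
          simpa using this
      _ ≤ ∫⁻ x, ENNReal.ofReal (sJ m g x) ∂m := setLIntegral_le_lintegral _ _
  · calc δ ≤ m {x | g • x ∈ Eᶜ} := h
      _ = ∫⁻ x in {x | g • x ∈ Eᶜ}, 1 ∂m := by simp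
      _ = ∫⁻ x in Eᶜ, J m g x * 1 ∂m := (J_int m hq g (fun _ => 1) Eᶜ).symm
      _ ≤ ∫⁻ x in Eᶜ, ENNReal.ofReal (sJ m g x) ∂m := by
          apply lintegral_mono_ae
          rw [ae_restrict_iff' MeasurableSet.of_discrete]
          filter_upwards [J_ne_top m g] with x hx hxE
          rw [mul_one]
          have h3 : J m g x ≤ 1 := not_lt.mp hxE
          have h4 : (J m g x).toReal ≤ 1 := by
            have := ENNReal.toReal_mono (by simp) h3
            simpa using this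
          rw [← ENNReal.ofReal_toReal hx.ne]
          unfold sJ
          apply ENNReal.ofReal_le_ofReal
          apply Real.le_sqrt_of_sq_le
          have := @ENNReal.toReal_nonneg (J m g x)
          nlinarith
      _ ≤ ∫⁻ x, ENNReal.ofReal (sJ m g x) ∂m := setLIntegral_le_lintegral _ _

lemma inner_lower (m : Measure X) [IsFiniteMeasure m]
    (hq : ∀ A, m A = 0 → ∀ g : G, m {x | g • x ∈ A} = 0) (δ : ℝ)
    (g : G) (h2 : ∀ E : Set X, ENNReal.ofReal δ ≤ m E ∨ ENNReal.ofReal δ ≤ m {x | g • x ∉ E}) :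
    δ ≤ inner ℝ ((memLp_const (1 : ℝ) (p := 2) (μ := m)).toLp) (v m hq g) := by
  have h1 := sJ_lower m hq (ENNReal.ofReal δ) g h2
  have hint : Integrable (sJ m g) m := (sJ_memLp m hq g).integrable (by norm_num)
  rw [← ofReal_integral_eq_lintegral_ofReal hint
    (Eventually.of_forall (fun x => Real.sqrt_nonneg _))] at h1
  have h3 : δ ≤ ∫ x, sJ m g x ∂m :=
    (ENNReal.ofReal_le_ofReal_iff (integral_nonneg (fun x => Real.sqrt_nonneg _))).mp h1
  rw [L2.inner_def]
  refine h3.trans (le_of_eq ?_)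
  apply integral_congr_ae
  filter_upwards [MemLp.coeFn_toLp (sJ_memLp m hq g),
    MemLp.coeFn_toLp (memLp_const (1 : ℝ) (p := 2) (μ := m))] with x hx hy
  rw [hy]
  unfold v
  rw [hx]
  simp

theorem exists_fixed (m : Measure X) [IsFiniteMeasure m]
    (hq : ∀ A, m A = 0 → ∀ g : G, m {x | g • x ∈ A} = 0) (δ : ℝ) (hδ : 0 < δ)
    (h2 : ∀ (g : G) (E : Set X), ENNReal.ofReal δ ≤ m E ∨ ENNReal.ofReal δ ≤ m {x | g • x ∉ E}) :
    ∃ ξ : Lp ℝ 2 m, ξ ≠ 0 ∧ ∀ g : G, U m hq g ξ = ξ := by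
  set K : Set (Lp ℝ 2 m) := closure (convexHull ℝ (range (v m hq : G → Lp ℝ 2 m))) with hK
  have hconv : Convex ℝ K := (convex_convexHull ℝ _).closure
  have hne : K.Nonempty := ⟨v m hq 1, subset_closure (subset_convexHull ℝ _ ⟨1, rfl⟩)⟩
  have hcomp : IsComplete K := isClosed_closure.isComplete
  obtain ⟨ξ, hξK, hξ⟩ := exists_norm_eq_iInf_of_complete_convex hne hcomp hconv 0
  rw [norm_eq_iInf_iff_real_inner_le_zero hconv hξK] at hξ
  have hUK : ∀ g : G, ∀ w ∈ K, U m hq g w ∈ K := by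
    intro g w hw
    have h3 : (U m hq g) '' K ⊆ K := by
      refine (image_closure_subset_closure_image (U m hq g).continuous).trans ?_
      apply closure_mono
      have : (U m hq g) '' (convexHull ℝ (range (v m hq : G → Lp ℝ 2 m))) =
          convexHull ℝ ((U m hq g) '' (range (v m hq : G → Lp ℝ 2 m))) :=
        (U m hq g).toLinearMap.image_convexHull _
      rw [this]
      apply convexHull_mono
      rintro _ ⟨_, ⟨h, rfl⟩, rfl⟩
      exact ⟨g * h, (U_v m hq g h).symm⟩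
    exact h3 ⟨w, hw, rfl⟩
  refine ⟨ξ, ?_, ?_⟩
  · rintro rfl
    set one := ((memLp_const (1 : ℝ) (p := 2) (μ := m)).toLp) with hone
    have h4 : K ⊆ {w | δ ≤ inner ℝ one w} := by
      apply closure_minimal
      · apply convexHull_min
        · rintro _ ⟨g, rfl⟩
          exact inner_lower m hq δ g (h2 g)
        · exact convex_halfSpace_ge (f := fun w => inner ℝ one w)
            ⟨fun x y => inner_add_right _ _ _, fun c x => by
              simp [inner_smul_right]⟩ δ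
      · exact isClosed_le continuous_const (continuous_const.inner continuous_id)
    have := h4 hξK
    simp at this
    linarith
  · intro g
    have h5 := hξ _ (hUK g ξ hξK)
    have h6 : ‖U m hq g ξ - ξ‖ ^ 2 ≤ 0 := by
      rw [@norm_sub_sq_real, (U m hq g).norm_map]
      rw [zero_sub, inner_neg_left, inner_sub_right, real_inner_self_eq_norm_sq] at h5
      rw [real_inner_comm]
      linarith
    have h7 : ‖U m hq g ξ - ξ‖ = 0 := by
      have := norm_nonneg (U m hq g ξ - ξ)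
      nlinarith
    exact sub_eq_zero.mp (norm_eq_zero.mp h7)

theorem exists_inv (m : Measure X) [IsFiniteMeasure m]
    (hq : ∀ A, m A = 0 → ∀ g : G, m {x | g • x ∈ A} = 0) (δ : ℝ) (hδ : 0 < δ)
    (h2 : ∀ (g : G) (E : Set X), ENNReal.ofReal δ ≤ m E ∨ ENNReal.ofReal δ ≤ m {x | g • x ∉ E}) :
    ∃ ν : Measure X, ν univ = 1 ∧ ∀ (g : G) (A : Set X), ν (g • A) = ν A := by
  obtain ⟨ξ, h0, hU⟩ := exists_fixed m hq δ hδ h2
  set ν0 : Measure X := m.withDensity (fun x => ‖ξ x‖ₑ ^ 2) with hν0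
  have hinv : ∀ (g : G) (A : Set X), ν0 (g • A) = ν0 A := by
    intro g A
    rw [hν0, withDensity_apply _ MeasurableSet.of_discrete, withDensity_apply _ MeasurableSet.of_discrete]
    have h3 : (ξ : X → ℝ) =ᵐ[m] T m g ξ := by
      have := U_coe m hq g ξ
      rw [hU g] at this
      exact this
    have h4 : ∫⁻ x in g • A, ‖ξ x‖ₑ ^ 2 ∂m = ∫⁻ x in g • A, ‖T m g ξ x‖ₑ ^ 2 ∂m := by
      apply lintegral_congr_ae
      filter_upwards [ae_restrict_of_ae h3] with x hx
      rw [← hx]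
    rw [h4, T_int m hq]
    congr 2
    ext x
    simp [Set.smul_mem_smul_set_iff]
  have htot : ν0 univ = ENNReal.ofReal (‖ξ‖ ^ 2) := by
    rw [hν0, withDensity_apply _ MeasurableSet.univ, Measure.restrict_univ]
    rw [Lp.norm_def, eLpNorm_eq_lintegral_rpow_enorm_toReal (by simp) (by simp)]
    have hfin : ∫⁻ x, ‖ξ x‖ₑ ^ 2 ∂m ≠ ∞ := by
      have h5 := (Lp.memLp ξ).2
      rw [eLpNorm_eq_lintegral_rpow_enorm_toReal (by simp) (by simp)] at h5
      have h6 := (ENNReal.rpow_lt_top_iff_of_pos (by norm_num)).mp h5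
      simpa using h6.ne
    simp only [ENNReal.toReal_ofNat, ENNReal.rpow_ofNat, one_div]
    rw [← ENNReal.toReal_pow, ENNReal.ofReal_toReal]
    · rw [← ENNReal.rpow_natCast, ← ENNReal.rpow_mul]
      norm_num
    · apply ENNReal.pow_ne_top
      exact (ENNReal.rpow_lt_top_of_nonneg (by norm_num) hfin).ne
  have hpos : ν0 univ ≠ 0 := by
    rw [htot]
    have : 0 < ‖ξ‖ := norm_pos_iff.mpr h0
    have h7 : 0 < ‖ξ‖ ^ 2 := by positivity
    exact (ENNReal.ofReal_pos.mpr h7).ne'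
  have hfin : ν0 univ ≠ ∞ := by rw [htot]; exact ENNReal.ofReal_ne_top
  refine ⟨(ν0 univ)⁻¹ • ν0, ?_, ?_⟩
  · simp only [Measure.smul_apply, smul_eq_mul]
    exact ENNReal.inv_mul_cancel hpos hfin
  · intro g A
    simp only [Measure.smul_apply, smul_eq_mul, hinv]

end Pool.Agent.H13.Cq
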