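import Mathlib

/-! A cube-like graph on `(ZMod 2)^6` with 17 generators that is 6-colourable, not 4-colourable. -/

namespace Pool.Agent.H13.Cubelike

/-- the binary vector of length 6 coded by a natural number -/
def toVec (a : ℕ) : Fin 6 → ZMod 2 := fun i => if a.testBit i.1 then 1 else 0

/-- decoding -/
def code (u : Fin 6 → ZMod 2) : ℕ :=
  (u 0).val + 2 * (u 1).val + 4 * (u 2).val + 8 * (u 3).val + 16 * (u 4).val + 32 * (u 5).val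

/-- the connection set, coded -/
def L : List ℕ := [43, 47, 54, 62, 60, 11, 31, 3, 22, 37, 36, 44, 59, 53, 32, 9, 57]

theorem code_toVec : ∀ a : Fin 64, code (toVec a.1) = a.1 := by decide +kernel

theorem surj (u : Fin 6 → ZMod 2) : ∃ a : Fin 64, toVec a.1 = u := by
  have hinj : Function.Injective (fun a : Fin 64 => toVec a.1) := by
    intro a b hab
    have h1 := code_toVec a
    have h2 := code_toVec b
    simp only at hab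
    rw [hab, h2] at h1
    exact Fin.ext h1.symm
  have hb := (Fintype.bijective_iff_injective_and_card (fun a : Fin 64 => toVec a.1)).2
    ⟨hinj, by simp [ZMod.card]⟩
  exact hb.2 u

theorem toVec_sub (a b : ℕ) : toVec a - toVec b = toVec (a ^^^ b) := by
  funext i
  simp only [toVec, Pi.sub_apply, Nat.testBit_xor]
  cases a.testBit i.1 <;> cases b.testBit i.1 <;> decide

/-- the connection set -/
def S : Set (Fin 6 → ZMod 2) := {w | ∃ s ∈ L, w = toVec s}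

theorem neg_eq (w : Fin 6 → ZMod 2) : -w = w := by
  funext i
  exact ZMod.neg_eq_self_mod_two _

/-- the cube-like graph -/
def G : SimpleGraph (Fin 6 → ZMod 2) where
  Adj u v := u ≠ v ∧ u - v ∈ S
  symm := ⟨fun u v h => ⟨h.1.symm, by rw [← neg_sub, neg_eq]; exact h.2⟩⟩
  loopless := ⟨fun _ h => h.1 rfl⟩

theorem code_zero : code (0 : Fin 6 → ZMod 2) = 0 := by decide

theorem L_ne : ∀ s ∈ L, code (toVec s) ≠ 0 := by decide +kernel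

theorem adj_of_xor {a b : ℕ} (h : (a ^^^ b) ∈ L) : G.Adj (toVec a) (toVec b) := by
  have h1 : toVec a - toVec b = toVec (a ^^^ b) := toVec_sub a b
  refine ⟨?_, ?_⟩
  · intro hab
    rw [hab, sub_self] at h1
    have := L_ne _ h
    rw [← h1] at this
    exact this code_zero
  · rw [h1]; exact ⟨_, h, rfl⟩

/-- the table of an explicit proper 6-colouring -/
def table : List ℕ :=
  [0, 4, 0, 1, 0, 4, 0, 1, 0, 2, 0, 3, 0, 2, 0, 3, 4, 3, 1, 2, 2, 4, 3, 1, 4, 2, 1, 3, 2, 1, 3, 4,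
   1, 3, 4, 2, 2, 1, 3, 4, 4, 3, 1, 2, 3, 1, 2, 4, 1, 5, 4, 5, 1, 5, 4, 5, 3, 5, 2, 5, 3, 5, 2, 5]

theorem table_lt : ∀ a : Fin 64, table.getD a.1 0 < 6 := by decide +kernel

theorem table_ok : ∀ a : Fin 64, ∀ s ∈ L, table.getD a.1 0 ≠ table.getD (a.1 ^^^ s) 0 := by
  decide +kernel

theorem xor_lt : ∀ a : Fin 64, ∀ s ∈ L, (a.1 ^^^ s) < 64 := by decide +kernel

theorem colorable_six : G.Colorable 6 := by
  refine ⟨SimpleGraph.Coloring.mk (fun u => (⟨table.getD (code u) 0 % 6, Nat.mod_lt _ (by norm_num)⟩ :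
    Fin 6)) ?_⟩
  rintro u v ⟨-, s, hs, hsu⟩ heq
  obtain ⟨a, rfl⟩ := surj u
  have hv : v = toVec (a.1 ^^^ s) := by
    rw [← toVec_sub, ← hsu]; simp
  rw [hv, Fin.mk.injEq] at heq
  have h1 := code_toVec a
  have h2 := code_toVec ⟨a.1 ^^^ s, xor_lt a s hs⟩
  simp only at h2
  rw [h1, h2, Nat.mod_eq_of_lt (table_lt a),
    Nat.mod_eq_of_lt (table_lt ⟨a.1 ^^^ s, xor_lt a s hs⟩)] at heq
  exact table_ok a s hs heq

/-- certificates of non-4-colourability -/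
inductive T where
  | l : T
  | n : ℕ → T → T → T → T → T

/-- colour `c` is already used on a neighbour of `v` -/
def blocked (asg : List (ℕ × ℕ)) (v c : ℕ) : Bool :=
  asg.any (fun p => p.2 == c && L.contains (p.1 ^^^ v))

/-- check a certificate -/
def check : List (ℕ × ℕ) → T → Bool
  | _, .l => false
  | asg, .n v a b c d =>
    (blocked asg v 0 || check ((v, 0) :: asg) a) && (blocked asg v 1 || check ((v, 1) :: asg) b) &&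
    (blocked asg v 2 || check ((v, 2) :: asg) c) && (blocked asg v 3 || check ((v, 3) :: asg) d)

theorem blocked_sound (f : ℕ → ℕ) (hf : ∀ a b, (a ^^^ b) ∈ L → f a ≠ f b)
    {asg : List (ℕ × ℕ)} (ha : ∀ p ∈ asg, f p.1 = p.2) {v c : ℕ} (h : blocked asg v c = true) :
    f v ≠ c := by
  unfold blocked at h
  rw [List.any_eq_true] at h
  obtain ⟨p, hp, hpc⟩ := h
  rw [Bool.and_eq_true, beq_iff_eq, List.contains_iff_mem] at hpc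
  have h1 := hf _ _ hpc.2
  rw [ha p hp, hpc.1] at h1
  exact h1.symm

theorem check_sound (f : ℕ → ℕ) (hf4 : ∀ a, f a < 4) (hf : ∀ a b, (a ^^^ b) ∈ L → f a ≠ f b)
    (t : T) : ∀ asg : List (ℕ × ℕ), (∀ p ∈ asg, f p.1 = p.2) → check asg t = true → False := by
  induction t with
  | l => intro asg _ h; simp [check] at h
  | n v a b c d iha ihb ihc ihd =>
    intro asg ha h
    simp only [check, Bool.and_eq_true, Bool.or_eq_true] at h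
    obtain ⟨⟨⟨h0, h1⟩, h2⟩, h3⟩ := h
    have hc : ∀ x, f v = x → ∀ p ∈ (v, x) :: asg, f p.1 = p.2 := by
      intro x hx p hp
      rcases List.mem_cons.1 hp with rfl | hp
      · exact hx
      · exact ha p hp
    have hlt := hf4 v
    have hcases : f v = 0 ∨ f v = 1 ∨ f v = 2 ∨ f v = 3 := by omega
    rcases hcases with hv | hv | hv | hv
    · rcases h0 with h0 | h0
      · exact blocked_sound f hf ha h0 hv
      · exact iha _ (hc _ hv) h0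
    · rcases h1 with h1 | h1
      · exact blocked_sound f hf ha h1 hv
      · exact ihb _ (hc _ hv) h1
    · rcases h2 with h2 | h2
      · exact blocked_sound f hf ha h2 hv
      · exact ihc _ (hc _ hv) h2
    · rcases h3 with h3 | h3
      · exact blocked_sound f hf ha h3 hv
      · exact ihd _ (hc _ hv) h3

/-- the certificate -/
def cert : T :=
  (.n 0 (.n 3 .l (.n 44 .l .l (.n 47 .l .l .l (.n 8 (.n 39 .l .l .l (.n 7 (.n 12 .l (.n 26 (.n 19 .l .l (.n 38 .l .l .l .l)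
  .l) .l .l .l) .l .l) (.n 12 (.n 26 .l (.n 19 .l .l (.n 5 .l .l .l (.n 60 .l .l .l .l)) .l) .l .l) .l .l .l) .l .l)) .l .l (.n
  39 (.n 25 .l (.n 18 .l .l .l (.n 26 (.n 35 .l .l (.n 15 (.n 6 .l .l .l (.n 16 .l .l .l .l)) .l .l .l) .l) .l .l .l)) .l .l)
  .l .l .l))) (.n 47 .l .l (.n 8 (.n 39 .l .l (.n 7 (.n 12 .l (.n 26 (.n 19 .l .l .l (.n 38 .l .l .l .l)) .l .l .l) .l .l) (.n
  12 (.n 26 .l (.n 19 .l .l .l (.n 5 .l .l (.n 60 .l .l .l .l) .l)) .l .l) .l .l .l) .l .l) .l) .l (.n 39 (.n 25 .l (.n 18 .l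
  .l (.n 26 (.n 35 .l .l .l (.n 15 (.n 6 .l .l (.n 16 .l .l .l .l) .l) .l .l .l)) .l .l .l) .l) .l .l) .l .l .l) .l) .l)) (.n 44
  .l (.n 47 .l .l .l (.n 8 (.n 39 .l .l .l (.n 7 (.n 12 .l .l (.n 26 (.n 19 .l (.n 38 .l .l .l .l) .l .l) .l .l .l) .l) .l (.n
  12 (.n 26 .l .l (.n 19 .l (.n 5 .l .l .l (.n 60 .l .l .l .l)) .l .l) .l) .l .l .l) .l)) .l .l (.n 39 (.n 25 .l .l (.n 18 .l
  .l .l (.n 26 (.n 35 .l (.n 15 (.n 6 .l .l .l (.n 16 .l .l .l .l)) .l .l .l) .l .l) .l .l .l)) .l) .l .l .l))) .l (.n 47 .l (.n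
  8 (.n 39 .l (.n 7 (.n 12 .l .l (.n 26 (.n 19 .l .l .l (.n 38 .l .l .l .l)) .l .l .l) .l) .l (.n 12 (.n 26 .l .l (.n 19 .l
  .l .l (.n 5 .l (.n 60 .l .l .l .l) .l .l)) .l) .l .l .l) .l) .l .l) (.n 39 (.n 25 .l .l (.n 18 .l (.n 26 (.n 35 .l .l .l (.n
  15 (.n 6 .l (.n 16 .l .l .l .l) .l .l) .l .l .l)) .l .l .l) .l .l) .l) .l .l .l) .l .l) .l .l)) (.n 44 .l (.n 47 .l .l (.n 8
  (.n 39 .l .l (.n 7 (.n 12 .l .l .l (.n 26 (.n 19 .l (.n 38 .l .l .l .l) .l .l) .l .l .l)) .l .l (.n 12 (.n 26 .l .l .l (.n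
  19 .l (.n 5 .l .l (.n 60 .l .l .l .l) .l) .l .l)) .l .l .l)) .l) .l (.n 39 (.n 25 .l .l .l (.n 18 .l .l (.n 26 (.n 35 .l (.n
  15 (.n 6 .l .l (.n 16 .l .l .l .l) .l) .l .l .l) .l .l) .l .l .l) .l)) .l .l .l) .l) .l) (.n 47 .l (.n 8 (.n 39 .l (.n 7 (.n
  12 .l .l .l (.n 26 (.n 19 .l .l (.n 38 .l .l .l .l) .l) .l .l .l)) .l .l (.n 12 (.n 26 .l .l .l (.n 19 .l .l (.n 5 .l (.n 60
  .l .l .l .l) .l .l) .l)) .l .l .l)) .l .l) (.n 39 (.n 25 .l .l .l (.n 18 .l (.n 26 (.n 35 .l .l (.n 15 (.n 6 .l (.n 16 .l .l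
  .l .l) .l .l) .l .l .l) .l) .l .l .l) .l .l)) .l .l .l) .l .l) .l .l) .l)) (.n 3 (.n 44 .l .l (.n 47 .l .l .l (.n 8 .l (.n 39 .l
  .l .l (.n 7 (.n 12 .l (.n 26 (.n 19 .l .l (.n 5 .l .l .l (.n 60 .l .l .l .l)) .l) .l .l .l) .l .l) (.n 12 (.n 26 .l (.n 19
  .l .l (.n 38 .l .l .l .l) .l) .l .l) .l .l .l) .l .l)) .l (.n 39 .l (.n 25 (.n 18 .l .l .l (.n 26 .l (.n 35 .l .l (.n 15 .l
  (.n 6 .l .l .l (.n 16 .l .l .l .l)) .l .l) .l) .l .l)) .l .l .l) .l .l))) (.n 47 .l .l (.n 8 .l (.n 39 .l .l (.n 7 (.n 12 .l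
  (.n 26 (.n 19 .l .l .l (.n 5 .l .l (.n 60 .l .l .l .l) .l)) .l .l .l) .l .l) (.n 12 (.n 26 .l (.n 19 .l .l .l (.n 38 .l .l .l
  .l)) .l .l) .l .l .l) .l .l) .l) (.n 39 .l (.n 25 (.n 18 .l .l (.n 26 .l (.n 35 .l .l .l (.n 15 .l (.n 6 .l .l (.n 16 .l .l
  .l .l) .l) .l .l)) .l .l) .l) .l .l .l) .l .l) .l) .l)) .l (.n 44 (.n 47 .l .l .l (.n 8 .l (.n 39 .l .l .l (.n 7 .l (.n 12 .l
  .l (.n 26 .l (.n 19 (.n 38 .l .l .l .l) .l .l .l) .l .l) .l) (.n 12 .l (.n 26 .l .l (.n 19 (.n 5 .l .l .l (.n 60 .l .l .l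
  .l)) .l .l .l) .l) .l .l) .l)) .l (.n 39 .l (.n 25 .l .l (.n 18 .l .l .l (.n 26 .l (.n 35 (.n 15 .l (.n 6 .l .l .l (.n 16 .l
  .l .l .l)) .l .l) .l .l .l) .l .l)) .l) .l .l))) .l .l (.n 47 (.n 8 (.n 39 .l (.n 25 .l .l (.n 18 (.n 26 .l (.n 35 .l .l .l
  (.n 15 .l (.n 6 (.n 16 .l .l .l .l) .l .l .l) .l .l)) .l .l) .l .l .l) .l) .l .l) (.n 39 (.n 7 .l (.n 12 .l .l (.n 26 .l (.n
  19 .l .l .l (.n 38 .l .l .l .l)) .l .l) .l) (.n 12 .l (.n 26 .l .l (.n 19 .l .l .l (.n 5 (.n 60 .l .l .l .l) .l .l .l)) .l) .l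
  .l) .l) .l .l .l) .l .l) .l .l .l)) (.n 44 (.n 47 .l .l (.n 8 .l (.n 39 .l .l (.n 7 .l (.n 12 .l .l .l (.n 26 .l (.n 19 (.n
  38 .l .l .l .l) .l .l .l) .l .l)) .l (.n 12 .l (.n 26 .l .l .l (.n 19 (.n 5 .l .l (.n 60 .l .l .l .l) .l) .l .l .l)) .l .l))
  .l) (.n 39 .l (.n 25 .l .l .l (.n 18 .l .l (.n 26 .l (.n 35 (.n 15 .l (.n 6 .l .l (.n 16 .l .l .l .l) .l) .l .l) .l .l .l) .l
  .l) .l)) .l .l) .l) .l) .l (.n 47 (.n 8 (.n 39 .l (.n 25 .l .l .l (.n 18 (.n 26 .l (.n 35 .l .l (.n 15 .l (.n 6 (.n 16 .l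
  .l .l .l) .l .l .l) .l .l) .l) .l .l) .l .l .l)) .l .l) (.n 39 (.n 7 .l (.n 12 .l .l .l (.n 26 .l (.n 19 .l .l (.n 38 .l .l .l
  .l) .l) .l .l)) .l (.n 12 .l (.n 26 .l .l .l (.n 19 .l .l (.n 5 (.n 60 .l .l .l .l) .l .l .l) .l)) .l .l)) .l .l .l) .l .l) .l
  .l .l) .l)) (.n 3 (.n 44 .l (.n 47 .l .l .l (.n 8 .l .l (.n 39 .l .l .l (.n 7 (.n 12 .l .l (.n 26 (.n 19 .l (.n 5 .l .l .l
  (.n 60 .l .l .l .l)) .l .l) .l .l .l) .l) .l (.n 12 (.n 26 .l .l (.n 19 .l (.n 38 .l .l .l .l) .l .l) .l) .l .l .l) .l)) (.n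
  39 .l .l (.n 25 (.n 18 .l .l .l (.n 26 .l .l (.n 35 .l (.n 15 .l .l (.n 6 .l .l .l (.n 16 .l .l .l .l)) .l) .l .l) .l)) .l .l
  .l) .l))) .l (.n 47 .l (.n 8 .l (.n 39 .l .l (.n 25 (.n 18 .l (.n 26 .l .l (.n 35 .l .l .l (.n 15 .l .l (.n 6 .l (.n 16 .l
  .l .l .l) .l .l) .l)) .l) .l .l) .l .l .l) .l) (.n 39 .l (.n 7 (.n 12 .l .l (.n 26 (.n 19 .l .l .l (.n 5 .l (.n 60 .l .l .l
  .l) .l .l)) .l .l .l) .l) .l (.n 12 (.n 26 .l .l (.n 19 .l .l .l (.n 38 .l .l .l .l)) .l) .l .l .l) .l) .l .l) .l) .l .l)) (.n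
  44 (.n 47 .l .l .l (.n 8 .l .l (.n 39 .l .l .l (.n 7 .l (.n 12 .l .l (.n 26 .l (.n 19 (.n 5 .l .l .l (.n 60 .l .l .l .l)) .l
  .l .l) .l .l) .l) (.n 12 .l (.n 26 .l .l (.n 19 (.n 38 .l .l .l .l) .l .l .l) .l) .l .l) .l)) (.n 39 .l .l (.n 25 .l (.n 18
  .l .l .l (.n 26 .l .l (.n 35 (.n 15 .l .l (.n 6 .l .l .l (.n 16 .l .l .l .l)) .l) .l .l .l) .l)) .l .l) .l))) .l .l (.n 47 (.n
  8 (.n 39 .l .l (.n 25 .l (.n 18 (.n 26 .l .l (.n 35 .l .l .l (.n 15 .l .l (.n 6 (.n 16 .l .l .l .l) .l .l .l) .l)) .l) .l .l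
  .l) .l .l) .l) .l (.n 39 (.n 7 .l (.n 12 .l .l (.n 26 .l (.n 19 .l .l .l (.n 5 (.n 60 .l .l .l .l) .l .l .l)) .l .l) .l) (.n
  12 .l (.n 26 .l .l (.n 19 .l .l .l (.n 38 .l .l .l .l)) .l) .l .l) .l) .l .l .l) .l) .l .l .l)) .l (.n 44 (.n 47 .l (.n 8 .l
  (.n 39 .l .l (.n 25 .l .l .l (.n 18 .l (.n 26 .l .l (.n 35 (.n 15 .l .l (.n 6 .l (.n 16 .l .l .l .l) .l .l) .l) .l .l .l) .l)
  .l .l)) .l) (.n 39 .l (.n 7 .l .l (.n 12 .l .l .l (.n 26 .l .l (.n 19 (.n 38 .l .l .l .l) .l .l .l) .l)) (.n 12 .l .l (.n 26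
  .l .l .l (.n 19 (.n 5 .l (.n 60 .l .l .l .l) .l .l) .l .l .l)) .l)) .l .l) .l) .l .l) (.n 47 (.n 8 (.n 39 .l .l (.n 25 .l .l
  .l (.n 18 (.n 26 .l .l (.n 35 .l (.n 15 .l .l (.n 6 (.n 16 .l .l .l .l) .l .l .l) .l) .l .l) .l) .l .l .l)) .l) .l (.n 39 (.n
  7 .l .l (.n 12 .l .l .l (.n 26 .l .l (.n 19 .l (.n 38 .l .l .l .l) .l .l) .l)) (.n 12 .l .l (.n 26 .l .l .l (.n 19 .l (.n 5
  (.n 60 .l .l .l .l) .l .l .l) .l .l)) .l)) .l .l .l) .l) .l .l .l) .l .l)) (.n 3 (.n 44 .l (.n 47 .l .l (.n 8 .l .l (.n 39 .l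
  .l .l (.n 25 (.n 18 .l .l (.n 26 .l .l .l (.n 35 .l (.n 15 .l .l .l (.n 6 .l .l (.n 16 .l .l .l .l) .l)) .l .l)) .l) .l .l
  .l)) (.n 39 .l .l (.n 7 (.n 12 .l .l .l (.n 26 (.n 19 .l (.n 5 .l .l (.n 60 .l .l .l .l) .l) .l .l) .l .l .l)) .l .l (.n 12
  (.n 26 .l .l .l (.n 19 .l (.n 38 .l .l .l .l) .l .l)) .l .l .l)) .l)) .l) (.n 47 .l (.n 8 .l (.n 39 .l .l .l (.n 25 (.n 18
  .l (.n 26 .l .l .l (.n 35 .l .l (.n 15 .l .l .l (.n 6 .l (.n 16 .l .l .l .l) .l .l)) .l)) .l .l) .l .l .l)) .l (.n 39 .l (.n 7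
  (.n 12 .l .l .l (.n 26 (.n 19 .l .l (.n 5 .l (.n 60 .l .l .l .l) .l .l) .l) .l .l .l)) .l .l (.n 12 (.n 26 .l .l .l (.n 19 .l
  .l (.n 38 .l .l .l .l) .l)) .l .l .l)) .l .l)) .l .l) .l) (.n 44 (.n 47 .l .l (.n 8 .l .l (.n 39 .l .l .l (.n 25 .l (.n 18 .l
  .l (.n 26 .l .l .l (.n 35 (.n 15 .l .l .l (.n 6 .l .l (.n 16 .l .l .l .l) .l)) .l .l .l)) .l) .l .l)) (.n 39 .l .l (.n 7 .l
  (.n 12 .l .l .l (.n 26 .l (.n 19 (.n 5 .l .l (.n 60 .l .l .l .l) .l) .l .l .l) .l .l)) .l (.n 12 .l (.n 26 .l .l .l (.n 19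
  (.n 38 .l .l .l .l) .l .l .l)) .l .l)) .l)) .l) .l (.n 47 (.n 8 (.n 39 .l .l .l (.n 25 .l (.n 18 (.n 26 .l .l .l (.n 35 .l
  .l (.n 15 .l .l .l (.n 6 (.n 16 .l .l .l .l) .l .l .l)) .l)) .l .l .l) .l .l)) .l .l (.n 39 (.n 7 .l (.n 12 .l .l .l (.n 26 .l
  (.n 19 .l .l (.n 5 (.n 60 .l .l .l .l) .l .l .l) .l) .l .l)) .l (.n 12 .l (.n 26 .l .l .l (.n 19 .l .l (.n 38 .l .l .l .l)
  .l)) .l .l)) .l .l .l)) .l .l .l) .l) (.n 44 (.n 47 .l (.n 8 .l (.n 39 .l .l .l (.n 25 .l .l (.n 18 .l (.n 26 .l .l .l (.n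
  35 (.n 15 .l .l .l (.n 6 .l (.n 16 .l .l .l .l) .l .l)) .l .l .l)) .l .l) .l)) .l (.n 39 .l (.n 7 .l .l (.n 12 .l .l .l (.n
  26 .l .l (.n 19 (.n 5 .l (.n 60 .l .l .l .l) .l .l) .l .l .l) .l)) (.n 12 .l .l (.n 26 .l .l .l (.n 19 (.n 38 .l .l .l .l) .l
  .l .l)) .l)) .l .l)) .l .l) (.n 47 (.n 8 (.n 39 .l .l .l (.n 25 .l .l (.n 18 (.n 26 .l .l .l (.n 35 .l (.n 15 .l .l .l (.n
  6 (.n 16 .l .l .l .l) .l .l .l)) .l .l)) .l .l .l) .l)) .l .l (.n 39 (.n 7 .l .l (.n 12 .l .l .l (.n 26 .l .l (.n 19 .l (.n 5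
  (.n 60 .l .l .l .l) .l .l .l) .l .l) .l)) (.n 12 .l .l (.n 26 .l .l .l (.n 19 .l (.n 38 .l .l .l .l) .l .l)) .l)) .l .l .l)) .l
  .l .l) .l .l) .l))

theorem cert_ok : check [] cert = true := by decide +kernel

theorem not_colorable_four : ¬ G.Colorable 4 := by
  rintro ⟨C⟩
  apply check_sound (fun a => (C (toVec a)).1) (fun a => (C (toVec a)).2) ?_ cert [] (by simp) cert_ok
  intro a b hab h
  exact C.valid (adj_of_xor hab) (Fin.ext h)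

theorem chromatic : G.chromaticNumber = 5 ∨ G.chromaticNumber = 6 := by
  have h6 : G.chromaticNumber ≤ 6 := colorable_six.chromaticNumber_le
  have h5 : ¬ G.chromaticNumber ≤ 4 := by
    intro h
    exact not_colorable_four (SimpleGraph.chromaticNumber_le_iff_colorable.1 h)
  obtain ⟨m, hm⟩ := ENat.ne_top_iff_exists.1 (ne_top_of_le_ne_top (by simp) h6)
  rw [← hm] at h6 h5 ⊢
  have h6' : m ≤ 6 := by exact_mod_cast h6
  have h5' : ¬ m ≤ 4 := by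
    intro h; apply h5; exact_mod_cast h
  have : m = 5 ∨ m = 6 := by omega
  rcases this with rfl | rfl
  · left; rfl
  · right; rfl

end Pool.Agent.H13.Cubelike
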