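import Mathlib

set_option autoImplicit false

namespace Pool.Agent.H13.IEOp

open Set

abbrev T : Type := Fin 3 × ℕ

/-- almost inclusion -/
def le' (A B : Set T) : Prop := (A \ B).Finite

lemma le'_refl (A : Set T) : le' A A := by simp [le']

lemma le'_of_subset {A B : Set T} (h : A ⊆ B) : le' A B := by
  simp [le', Set.diff_eq_empty.2 h]

lemma le'_trans {A B C : Set T} (h1 : le' A B) (h2 : le' B C) : le' A C := by
  refine (h1.union h2).subset ?_
  intro x hx
  by_cases hB : x ∈ B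
  · exact Or.inr ⟨hB, hx.2⟩
  · exact Or.inl ⟨hx.1, hB⟩

/-- relative size -/
noncomputable def δ (A B : Set T) : ℤ := ((A \ B).ncard : ℤ) - ((B \ A).ncard : ℤ)

lemma δ_eq {A B F : Set T} (hF : F.Finite) (h1 : A \ B ⊆ F) (h2 : B \ A ⊆ F) :
    δ A B = ((A ∩ F).ncard : ℤ) - ((B ∩ F).ncard : ℤ) := by
  have e1 : ((A ∩ F) ∩ B).ncard + ((A ∩ F) \ B).ncard = (A ∩ F).ncard :=
    Set.ncard_inter_add_ncard_diff_eq_ncard _ _ (hF.subset Set.inter_subset_right)
  have e2 : ((B ∩ F) ∩ A).ncard + ((B ∩ F) \ A).ncard = (B ∩ F).ncard :=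
    Set.ncard_inter_add_ncard_diff_eq_ncard _ _ (hF.subset Set.inter_subset_right)
  have e3 : (A ∩ F) ∩ B = (B ∩ F) ∩ A := by ext x; simp; tauto
  have e4 : (A ∩ F) \ B = A \ B := by
    ext x; constructor
    · rintro ⟨⟨a, b⟩, c⟩; exact ⟨a, c⟩
    · rintro ⟨a, c⟩; exact ⟨⟨a, h1 ⟨a, c⟩⟩, c⟩
  have e5 : (B ∩ F) \ A = B \ A := by
    ext x; constructor
    · rintro ⟨⟨a, b⟩, c⟩; exact ⟨a, c⟩
    · rintro ⟨a, c⟩; exact ⟨⟨a, h2 ⟨a, c⟩⟩, c⟩
  rw [e3, e4] at e1
  rw [e5] at e2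
  unfold δ
  omega

lemma δ_add {A B C : Set T} (h1 : le' A B) (h2 : le' B A) (h3 : le' B C) (h4 : le' C B) :
    δ A C = δ A B + δ B C := by
  have h5 := le'_trans h1 h3
  have h6 := le'_trans h4 h2
  set F : Set T := (A \ B) ∪ (B \ A) ∪ (B \ C) ∪ (C \ B) ∪ (A \ C) ∪ (C \ A) with hF
  have hfin : F.Finite := (((((h1.union h2).union h3).union h4).union h5).union h6)
  rw [δ_eq (A := A) (B := C) hfin, δ_eq (A := A) (B := B) hfin, δ_eq (A := B) (B := C) hfin]
  · ring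
  all_goals
    intro x hx
    simp only [hF, Set.mem_union]
    tauto

def good (Z : Set (Set T)) : Prop := ∀ z ∈ Z, ∀ z' ∈ Z, le' z z' → le' z' z

/-- the starting family -/
noncomputable def zf (M : Set ℕ) : Set T :=
  open Classical in
  if M ∈ (Filter.hyperfilter ℕ : Filter ℕ) then
    {x | (x.1 = 0 ∧ x.2 ∉ M) ∨ (x.1 = 1 ∧ x.2 ∈ M)}
  else {x | x.1 = 0 ∨ (x.1 = 1 ∧ x.2 ∈ M) ∨ (x.1 = 2 ∧ x.2 ∉ M)}

lemma zf_pos {M : Set ℕ} (h : M ∈ (Filter.hyperfilter ℕ : Filter ℕ)) :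
    zf M = {x | (x.1 = 0 ∧ x.2 ∉ M) ∨ (x.1 = 1 ∧ x.2 ∈ M)} := by simp [zf, h]

lemma zf_neg {M : Set ℕ} (h : M ∉ (Filter.hyperfilter ℕ : Filter ℕ)) :
    zf M = {x | x.1 = 0 ∨ (x.1 = 1 ∧ x.2 ∈ M) ∨ (x.1 = 2 ∧ x.2 ∉ M)} := by simp [zf, h]

lemma inf_of_mem {M : Set ℕ} (h : M ∈ (Filter.hyperfilter ℕ : Filter ℕ)) : M.Infinite := by
  intro hf
  exact Set.Finite.notMem_hyperfilter hf h

lemma compl_mem {M : Set ℕ} (h : M ∉ (Filter.hyperfilter ℕ : Filter ℕ)) :
    Mᶜ ∈ (Filter.hyperfilter ℕ : Filter ℕ) := by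
  exact (Ultrafilter.compl_mem_iff_notMem).2 h

lemma inf_of_slice {A : Set T} {M : Set ℕ} (i : Fin 3) (hM : M.Infinite)
    (h : ∀ n ∈ M, (i, n) ∈ A) : A.Infinite := by
  intro hf
  apply hM
  have : ((fun n : ℕ => ((i, n) : T)) '' M).Finite := hf.subset (by rintro _ ⟨n, hn, rfl⟩; exact h n hn)
  exact Set.Finite.of_finite_image this (by intro a _ b _ hab; simpa using hab)

lemma zf_good : good (Set.range zf) := by
  rintro _ ⟨M, rfl⟩ _ ⟨M', rfl⟩ h
  by_cases hM : M ∈ (Filter.hyperfilter ℕ : Filter ℕ) <;>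
  by_cases hM' : M' ∈ (Filter.hyperfilter ℕ : Filter ℕ)
  · rw [zf_pos hM, zf_pos hM'] at h ⊢
    unfold le' at h ⊢
    have h1 : {n | n ∈ M' ∧ n ∉ M}.Finite := by
      by_contra hc
      exact inf_of_slice 0 hc (by rintro n ⟨a, b⟩; simp [a, b]) h
    have h2 : {n | n ∈ M ∧ n ∉ M'}.Finite := by
      by_contra hc
      exact inf_of_slice 1 hc (by rintro n ⟨a, b⟩; simp [a, b]) h
    have h3 : ((Set.univ : Set (Fin 3)) ×ˢ ({n | n ∈ M' ∧ n ∉ M} ∪ {n | n ∈ M ∧ n ∉ M'})).Finite :=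
      (Set.toFinite _).prod (h1.union h2)
    refine h3.subset ?_
    rintro ⟨i, n⟩ ⟨ha, hb⟩
    simp only [Set.mem_setOf_eq, Set.mem_prod, Set.mem_univ, true_and, Set.mem_union] at *
    tauto
  · exfalso
    rw [zf_pos hM, zf_neg hM'] at h
    have h1 : (M ∩ M'ᶜ).Infinite := inf_of_mem (Filter.inter_mem hM (compl_mem hM'))
    exact inf_of_slice 1 h1 (by rintro n ⟨a, b⟩; simp at b; simp [a, b]) h
  · exfalso
    rw [zf_neg hM, zf_pos hM'] at h
    have h1 : (Mᶜ).Infinite := inf_of_mem (compl_mem hM)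
    exact inf_of_slice 2 h1 (by intro n a; simp at a; simp [a]) h
  · rw [zf_neg hM, zf_neg hM'] at h ⊢
    unfold le' at h ⊢
    have h1 : {n | n ∈ M' ∧ n ∉ M}.Finite := by
      by_contra hc
      exact inf_of_slice 2 hc (by rintro n ⟨a, b⟩; simp [a, b]) h
    have h2 : {n | n ∈ M ∧ n ∉ M'}.Finite := by
      by_contra hc
      exact inf_of_slice 1 hc (by rintro n ⟨a, b⟩; simp [a, b]) h
    have h3 : ((Set.univ : Set (Fin 3)) ×ˢ ({n | n ∈ M' ∧ n ∉ M} ∪ {n | n ∈ M ∧ n ∉ M'})).Finite :=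
      (Set.toFinite _).prod (h1.union h2)
    refine h3.subset ?_
    rintro ⟨i, n⟩ ⟨ha, hb⟩
    simp only [Set.mem_setOf_eq, Set.mem_prod, Set.mem_univ, true_and, Set.mem_union] at *
    tauto

lemma exists_max : ∃ Z : Set (Set T), Set.range zf ⊆ Z ∧ good Z ∧
    ∀ A : Set T, A ∉ Z → ∃ z ∈ Z, (le' A z ∧ ¬ le' z A) ∨ (le' z A ∧ ¬ le' A z) := by
  obtain ⟨Z, hZ0, hZ⟩ := zorn_subset_nonempty {Z : Set (Set T) | Set.range zf ⊆ Z ∧ good Z} (by
    intro c hc hch hne
    refine ⟨⋃₀ c, ⟨?_, ?_⟩, fun s hs => Set.subset_sUnion_of_mem hs⟩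
    · obtain ⟨s, hs⟩ := hne
      exact (hc hs).1.trans (Set.subset_sUnion_of_mem hs)
    · rintro z ⟨s, hs, hzs⟩ z' ⟨s', hs', hzs'⟩ hle
      rcases hch.total hs hs' with h | h
      · exact (hc hs').2 z (h hzs) z' hzs' hle
      · exact (hc hs).2 z hzs z' (h hzs') hle) (Set.range zf) ⟨subset_rfl, zf_good⟩
  refine ⟨Z, hZ.prop.1, hZ.prop.2, ?_⟩
  intro A hA
  by_contra hcon
  push Not at hcon
  apply hA
  have hins : insert A Z ∈ {Z : Set (Set T) | Set.range zf ⊆ Z ∧ good Z} := by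
    refine ⟨hZ.prop.1.trans (Set.subset_insert _ _), ?_⟩
    rintro z (rfl | hz) z' (rfl | hz') hle
    · exact hle
    · exact (hcon z' hz').1 hle
    · exact (hcon z hz).2 hle
    · exact hZ.prop.2 z hz z' hz' hle
  exact hZ.le_of_ge hins (Set.subset_insert _ _) (Set.mem_insert _ _)

/-- equivalence mod finite -/
def st : Setoid (Set T) where
  r A B := le' A B ∧ le' B A
  iseqv := ⟨fun A => ⟨le'_refl A, le'_refl A⟩, fun h => ⟨h.2, h.1⟩,
    fun h1 h2 => ⟨le'_trans h1.1 h2.1, le'_trans h2.2 h1.2⟩⟩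

noncomputable def rep (A : Set T) : Set T := (Quotient.mk st A).out

lemma rep_eqv (A : Set T) : le' (rep A) A ∧ le' A (rep A) := by
  have := Quotient.exact (s := st) (Quotient.out_eq (Quotient.mk st A))
  exact this

lemma rep_eq {A B : Set T} (h : le' A B) (h' : le' B A) : rep A = rep B := by
  unfold rep
  congr 1
  exact Quotient.sound (s := st) ⟨h, h'⟩

structure Fam (Z : Set (Set T)) : Prop where
  sub : Set.range zf ⊆ Z
  gd : good Z
  mx : ∀ A : Set T, A ∉ Z → ∃ z ∈ Z, (le' A z ∧ ¬ le' z A) ∨ (le' z A ∧ ¬ le' A z)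

variable {Z : Set (Set T)}

lemma Fam.closed (hZ : Fam Z) {A B : Set T} (hA : A ∈ Z) (h1 : le' A B) (h2 : le' B A) : B ∈ Z := by
  by_contra hB
  obtain ⟨z, hz, h | h⟩ := hZ.mx B hB
  · exact h.2 (le'_trans (hZ.gd A hA z hz (le'_trans h1 h.1)) h1)
  · exact h.2 (le'_trans h2 (hZ.gd z hz A hA (le'_trans h.1 h2)))

def Base (Z : Set (Set T)) (B : Set T) : Prop := B ∈ Z ∧ δ B (rep B) = 0

lemma δ_self (A : Set T) : δ A A = 0 := by simp [δ]

lemma base_rep (hZ : Fam Z) {z : Set T} (hz : z ∈ Z) : Base Z (rep z) := by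
  refine ⟨hZ.closed hz (rep_eqv z).2 (rep_eqv z).1, ?_⟩
  rw [rep_eq (rep_eqv z).1 (rep_eqv z).2, δ_self]

lemma base_transfer (hZ : Fam Z) {B0 B : Set T} (h0 : Base Z B0) (h1 : (B \ B0).Finite)
    (h2 : (B0 \ B).Finite) (h3 : (B \ B0).ncard = (B0 \ B).ncard) : Base Z B := by
  refine ⟨hZ.closed h0.1 h2 h1, ?_⟩
  rw [rep_eq h1 h2, δ_add h1 h2 (rep_eqv B0).2 (rep_eqv B0).1, h0.2]
  simp [δ, h3]

lemma base_anti (hZ : Fam Z) {B B' : Set T} (h : Base Z B) (h' : Base Z B') (hs : B ⊆ B') :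
    B = B' := by
  have h1 : le' B B' := le'_of_subset hs
  have h2 : le' B' B := hZ.gd B h.1 B' h'.1 h1
  have e1 : rep B = rep B' := rep_eq h1 h2
  have e2 : δ B' (rep B') = δ B' B + δ B (rep B') :=
    δ_add h2 h1 (e1 ▸ (rep_eqv B).2) (e1 ▸ (rep_eqv B).1)
  rw [h'.2, ← e1, h.2] at e2
  have e3 : B \ B' = ∅ := Set.diff_eq_empty.2 hs
  simp only [δ, e3, Set.ncard_empty] at e2
  have e4 : (B' \ B).ncard = 0 := by omega
  rw [Set.ncard_eq_zero h2] at e4
  exact Set.Subset.antisymm hs (Set.diff_eq_empty.1 e4)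

lemma base_exch (hZ : Fam Z) {B : Set T} (h : Base Z B) {b s : T} (hb : b ∈ B) (hs : s ∉ B) :
    Base Z (insert s (B \ {b})) := by
  have hne : b ≠ s := fun h => hs (h ▸ hb)
  have e1 : insert s (B \ {b}) \ B = {s} := by
    ext x; simp only [Set.mem_diff, Set.mem_insert_iff, Set.mem_singleton_iff]
    constructor
    · rintro ⟨h | h, h'⟩
      · exact h
      · exact absurd h.1 h'
    · rintro rfl; exact ⟨Or.inl rfl, hs⟩
  have e2 : B \ insert s (B \ {b}) = {b} := by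
    ext x; simp only [Set.mem_diff, Set.mem_insert_iff, Set.mem_singleton_iff]
    constructor
    · rintro ⟨h, h'⟩; by_contra hc; exact h' (Or.inr ⟨h, hc⟩)
    · rintro rfl; exact ⟨hb, by rintro (h | h); exacts [hne h, h.2 rfl]⟩
  apply base_transfer hZ h
  · rw [e1]; exact Set.finite_singleton _
  · rw [e2]; exact Set.finite_singleton _
  · rw [e1, e2]; simp

def Span (Z : Set (Set T)) (A : Set T) : Prop := ∃ B, Base Z B ∧ B ⊆ A

lemma Span.mono {A A' : Set T} (h : Span Z A) (hs : A ⊆ A') : Span Z A' := by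
  obtain ⟨B, h1, h2⟩ := h; exact ⟨B, h1, h2.trans hs⟩

lemma down (hZ : Fam Z) {B0 A G : Set T} (h0 : Base Z B0) (hf : (B0 \ A).Finite)
    (hG : G ⊆ A \ B0) (hGf : G.Finite) (hc : G.ncard = (B0 \ A).ncard) : Span Z A := by
  refine ⟨(B0 ∩ A) ∪ G, ?_, ?_⟩
  · have e1 : ((B0 ∩ A) ∪ G) \ B0 = G := by
      ext x; constructor
      · rintro ⟨h | h, h'⟩
        · exact absurd h.1 h'
        · exact h
      · intro h; exact ⟨Or.inr h, (hG h).2⟩
    have e2 : B0 \ ((B0 ∩ A) ∪ G) = B0 \ A := by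
      ext x; constructor
      · rintro ⟨h, h'⟩; exact ⟨h, fun hA => h' (Or.inl ⟨h, hA⟩)⟩
      · rintro ⟨h, h'⟩
        refine ⟨h, ?_⟩
        rintro (h1 | h1)
        · exact h' h1.2
        · exact (hG h1).2 h
    apply base_transfer hZ h0
    · rw [e1]; exact hGf
    · rw [e2]; exact hf
    · rw [e1, e2, hc]
  · rintro x (h | h)
    · exact h.2
    · exact (hG h).1

lemma up (hZ : Fam Z) {B0 A F : Set T} (h0 : Base Z B0) (hf : (A \ B0).Finite)
    (hF : F ⊆ B0 \ A) (hFf : F.Finite) (hc : F.ncard = (A \ B0).ncard) :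
    ∃ B, Base Z B ∧ A ⊆ B := by
  refine ⟨(B0 \ F) ∪ A, ?_, Set.subset_union_right⟩
  have e1 : ((B0 \ F) ∪ A) \ B0 = A \ B0 := by
    ext x; constructor
    · rintro ⟨h | h, h'⟩
      · exact absurd h.1 h'
      · exact ⟨h, h'⟩
    · rintro ⟨h, h'⟩; exact ⟨Or.inr h, h'⟩
  have e2 : B0 \ ((B0 \ F) ∪ A) = F := by
    ext x; constructor
    · rintro ⟨h, h'⟩; by_contra hF'; exact h' (Or.inl ⟨h, hF'⟩)
    · intro h
      refine ⟨(hF h).1, ?_⟩
      rintro (h1 | h1)
      · exact h1.2 h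
      · exact (hF h).2 h1
  apply base_transfer hZ h0
  · rw [e1]; exact hf
  · rw [e2]; exact hFf
  · rw [e1, e2, hc]

lemma span_of_lt (hZ : Fam Z) {z A : Set T} (hz : z ∈ Z) (h1 : le' z A) (h2 : ¬ le' A z) :
    Span Z A := by
  have hb := base_rep hZ hz
  have h3 : le' (rep z) A := le'_trans (rep_eqv z).1 h1
  have h4 : (A \ rep z).Infinite := by
    intro h; exact h2 (le'_trans h (rep_eqv z).1)
  obtain ⟨G, hG, hGf, hGc⟩ := h4.exists_subset_ncard_eq (rep z \ A).ncard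
  exact down hZ hb h3 hG hGf hGc

lemma compare (hZ : Fam Z) {A : Set T} (hA : ¬ Span Z A) {q : T} (hq : q ∉ A) :
    ∃ B, Base Z B ∧ insert q A ⊆ B := by
  by_cases hAZ : A ∈ Z
  · have hb := base_rep hZ hAZ
    have hr := rep_eqv A
    by_cases he : (rep A \ A).ncard ≤ (A \ rep A).ncard
    · exfalso
      obtain ⟨G, hG, hGc⟩ := Set.exists_subset_card_eq he
      exact hA (down hZ hb hr.1 hG (hr.2.subset hG) hGc)
    · push Not at he
      have h1 : le' (insert q A) A := by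
        refine (Set.finite_singleton q).subset ?_
        rintro x ⟨h | h, h'⟩
        · exact h
        · exact absurd h h'
      have h2 : le' A (insert q A) := le'_of_subset (Set.subset_insert _ _)
      have h3 : δ (insert q A) (rep A) = δ (insert q A) A + δ A (rep A) :=
        δ_add h1 h2 hr.2 hr.1
      have h4 : insert q A \ A = {q} := by
        ext x; simp only [Set.mem_diff, Set.mem_insert_iff, Set.mem_singleton_iff]
        constructor
        · rintro ⟨h | h, h'⟩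
          · exact h
          · exact absurd h h'
        · rintro rfl; exact ⟨Or.inl rfl, hq⟩
      have h5 : A \ insert q A = ∅ := Set.diff_eq_empty.2 (Set.subset_insert _ _)
      have h6 : δ (insert q A) A = 1 := by simp [δ, h4, h5]
      have h7 : (insert q A \ rep A).ncard ≤ (rep A \ insert q A).ncard := by
        rw [h6] at h3
        unfold δ at h3
        omega
      obtain ⟨F, hF, hFc⟩ := Set.exists_subset_card_eq h7
      have hfin : (rep A \ insert q A).Finite := le'_trans hr.1 h2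
      exact up hZ hb (le'_trans h1 hr.2) hF (hfin.subset hF) hFc
  · obtain ⟨z, hz, h | h⟩ := hZ.mx A hAZ
    · have hb := base_rep hZ hz
      have h1 : le' (insert q A) A := by
        refine (Set.finite_singleton q).subset ?_
        rintro x ⟨h | h, h'⟩
        · exact h
        · exact absurd h h'
      have h3 : le' (insert q A) (rep z) := le'_trans (le'_trans h1 h.1) (rep_eqv z).2
      have h4 : (rep z \ insert q A).Infinite := by
        intro hh
        exact h.2 (le'_trans (le'_trans (rep_eqv z).2 hh) h1)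
      obtain ⟨F, hF, hFf, hFc⟩ := h4.exists_subset_ncard_eq (insert q A \ rep z).ncard
      exact up hZ hb h3 hF hFf hFc
    · exact absurd (span_of_lt hZ hz h.1 h.2) hA

/-- the operator -/
noncomputable def f (Z : Set (Set T)) (A : Set T) : Set T :=
  open Classical in if Span Z A then Set.univ else A

lemma f_pos {A : Set T} (h : Span Z A) : f Z A = Set.univ := by simp [f, h]
lemma f_neg {A : Set T} (h : ¬ Span Z A) : f Z A = A := by simp [f, h]

lemma f_ext (A : Set T) : A ⊆ f Z A := by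
  by_cases h : Span Z A
  · rw [f_pos h]; exact Set.subset_univ _
  · rw [f_neg h]

lemma f_mono {A B : Set T} (h : A ⊆ B) : f Z A ⊆ f Z B := by
  by_cases hA : Span Z A
  · rw [f_pos (hA.mono h)]; exact Set.subset_univ _
  · rw [f_neg hA]; exact h.trans (f_ext B)

lemma f_idem (A : Set T) : f Z (f Z A) = f Z A := by
  by_cases h : Span Z A
  · rw [f_pos h, f_pos (h.mono (Set.subset_univ _))]
  · rw [f_neg h, f_neg h]

/-- the strong exchange property (cl4') -/
lemma f_exch (hZ : Fam Z) (A B : Set T) (q : T) (h1 : q ∈ f Z B) (h2 : q ∉ f Z (B \ A)) :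
    ∃ a ∈ A, a ∈ f Z (insert q (B \ {a})) := by
  have hns : ¬ Span Z (B \ A) := by
    intro h; rw [f_pos h] at h2; exact h2 (Set.mem_univ _)
  rw [f_neg hns] at h2
  by_cases hqB : q ∈ B
  · have hqA : q ∈ A := by by_contra h; exact h2 ⟨hqB, h⟩
    exact ⟨q, hqA, f_ext _ (Set.mem_insert _ _)⟩
  · have hs : Span Z B := by
      by_contra h; rw [f_neg h] at h1; exact hqB h1
    obtain ⟨U, hU, hUB⟩ := hs
    have : ∃ a ∈ U, a ∈ A := by
      by_contra hc; push Not at hc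
      exact hns ⟨U, hU, fun x hx => ⟨hUB hx, hc x hx⟩⟩
    obtain ⟨a, haU, haA⟩ := this
    refine ⟨a, haA, ?_⟩
    have hsp : Span Z (insert q (B \ {a})) :=
      ⟨_, base_exch hZ hU haU (fun h => hqB (hUB h)),
        Set.insert_subset_insert (Set.diff_subset_diff_left hUB)⟩
    rw [f_pos hsp]; exact Set.mem_univ _

lemma not_span_empty (hZ : Fam Z) : ¬ Span Z ∅ := by
  rintro ⟨B, hB, hs⟩
  have hB0 : B = ∅ := Set.subset_empty_iff.1 hs
  subst hB0
  have h1 : zf ∅ ∈ Z := hZ.sub ⟨_, rfl⟩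
  have h2 := hZ.gd ∅ hB.1 (zf ∅) h1 (by simp [le'])
  have h3 : (∅ : Set ℕ) ∉ (Filter.hyperfilter ℕ : Filter ℕ) := Filter.empty_notMem _
  rw [zf_neg h3] at h2
  exact inf_of_slice 0 (M := Set.univ) Set.infinite_univ (by intro n _; simp) h2

lemma f_C (hZ : Fam Z) (Y : Set T) (p : T) (hp : p ∈ f Z Y) :
    ∃ U : Set T, Minimal (fun W : Set T => W ⊆ Y ∧ p ∈ f Z W) U ∧ ∀ x ∈ U, x ∉ f Z (U \ {x}) := by
  by_cases hpY : p ∈ Y
  · refine ⟨{p}, ⟨⟨by simpa using hpY, f_ext _ rfl⟩, ?_⟩, ?_⟩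
    · rintro W ⟨hWY, hW⟩ hWp
      by_cases hpW : p ∈ W
      · simpa using hpW
      · exfalso
        have : W = ∅ := by
          rw [Set.eq_empty_iff_forall_notMem]
          intro x hx
          have := hWp hx
          simp only [Set.mem_singleton_iff] at this
          exact hpW (this ▸ hx)
        rw [this, f_neg (not_span_empty hZ)] at hW
        exact hW
    · intro x hx
      have : ({p} : Set T) \ {x} = ∅ := by
        simp only [Set.mem_singleton_iff] at hx; subst hx; simp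
      rw [this, f_neg (not_span_empty hZ)]
      exact Set.notMem_empty _
  · have hs : Span Z Y := by
      by_contra h; rw [f_neg h] at hp; exact hpY hp
    obtain ⟨U, hU, hUY⟩ := hs
    refine ⟨U, ⟨⟨hUY, ?_⟩, ?_⟩, ?_⟩
    · rw [f_pos ⟨U, hU, subset_rfl⟩]; exact Set.mem_univ _
    · rintro W ⟨hWY, hW⟩ hWU
      have hsW : Span Z W := by
        by_contra h; rw [f_neg h] at hW; exact hpY (hWY hW)
      obtain ⟨B, hB, hBW⟩ := hsW
      have := base_anti hZ hB hU (hBW.trans hWU)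
      rw [← this]; exact hBW
    · intro x hx hxf
      have hns : ¬ Span Z (U \ {x}) := by
        rintro ⟨B, hB, hBU⟩
        have := base_anti hZ hB hU (hBU.trans Set.diff_subset)
        rw [this] at hBU
        exact (hBU hx).2 rfl
      rw [f_neg hns] at hxf
      exact hxf.2 rfl

lemma f_H (hZ : Fam Z) (Y : Set T) (p : T) (hp : p ∉ f Z Y) :
    ∃ V : Set T, Maximal (fun W : Set T => Y ⊆ W ∧ W ⊆ Set.univ ∧ p ∉ f Z W) V ∧
      f Z (insert p V) = Set.univ := by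
  have hns : ¬ Span Z Y := by
    intro h; rw [f_pos h] at hp; exact hp (Set.mem_univ _)
  rw [f_neg hns] at hp
  obtain ⟨B, hB, hBs⟩ := compare hZ hns hp
  have hpB : p ∈ B := hBs (Set.mem_insert _ _)
  have hnV : ¬ Span Z (B \ {p}) := by
    rintro ⟨B', hB', h⟩
    have := base_anti hZ hB' hB (h.trans Set.diff_subset)
    rw [this] at h
    exact (h hpB).2 rfl
  refine ⟨B \ {p}, ⟨⟨?_, Set.subset_univ _, ?_⟩, ?_⟩, ?_⟩
  · intro x hx
    refine ⟨hBs (Set.mem_insert_of_mem _ hx), ?_⟩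
    rintro rfl; exact hp hx
  · rw [f_neg hnV]; simp
  · rintro W ⟨hYW, -, hW⟩ hVW s hs
    by_contra hsV
    have hsp : s ≠ p := by rintro rfl; exact hW (f_ext _ hs)
    have hsB : s ∉ B := fun h => hsV ⟨h, hsp⟩
    have : Span Z W := ⟨_, base_exch hZ hB hpB hsB, Set.insert_subset hs hVW⟩
    rw [f_pos this] at hW
    exact hW (Set.mem_univ _)
  · rw [Set.insert_diff_singleton, Set.insert_eq_of_mem hpB]
    exact f_pos ⟨B, hB, subset_rfl⟩

def JJ : Set T := {x | x.1 = 0}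
def AA : Set T := {x | x.1 = 0 ∨ x.1 = 1}

lemma JJ_not_span (hZ : Fam Z) : ¬ Span Z JJ := by
  rintro ⟨B, hB, hs⟩
  have h1 : zf ∅ ∈ Z := hZ.sub ⟨_, rfl⟩
  have h3 : (∅ : Set ℕ) ∉ (Filter.hyperfilter ℕ : Filter ℕ) := Filter.empty_notMem _
  have h2 := hZ.gd B hB.1 (zf ∅) h1 (le'_of_subset (by
    rw [zf_neg h3]; intro x hx; left; exact hs hx))
  rw [zf_neg h3] at h2
  refine inf_of_slice 2 (M := Set.univ) Set.infinite_univ (A := _) ?_ h2
  intro n _
  refine ⟨by simp, ?_⟩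
  intro h
  have := hs h
  simp [JJ] at this

lemma AA_span (hZ : Fam Z) : Span Z AA := by
  have h3 : (Set.univ : Set ℕ) ∈ (Filter.hyperfilter ℕ : Filter ℕ) := Filter.univ_mem
  have h1 : zf Set.univ ∈ Z := hZ.sub ⟨_, rfl⟩
  refine span_of_lt hZ h1 (le'_of_subset ?_) ?_
  · rw [zf_pos h3]; intro x hx
    simp only [Set.mem_setOf_eq] at hx
    simp only [AA, Set.mem_setOf_eq]; tauto
  · rw [zf_pos h3]
    exact inf_of_slice 0 (M := Set.univ) Set.infinite_univ (by intro n _; simp [AA])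

lemma no_between (hZ : Fam Z) {K : Set T} (hK : Base Z K) (h1 : JJ ⊆ K) (h2 : K ⊆ AA) : False := by
  set M : Set ℕ := {n | ((1 : Fin 3), n) ∈ K} with hM
  have hz : zf M ∈ Z := hZ.sub ⟨_, rfl⟩
  by_cases hMU : M ∈ (Filter.hyperfilter ℕ : Filter ℕ)
  · have hle : le' (zf M) K := by
      apply le'_of_subset
      rw [zf_pos hMU]
      rintro ⟨i, n⟩ (⟨h, h'⟩ | ⟨h, h'⟩)
      · exact h1 h
      · simp only at h h'; subst h; exact h'
    have := hZ.gd _ hz _ hK.1 hle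
    rw [zf_pos hMU] at this
    refine inf_of_slice 0 (inf_of_mem hMU) ?_ this
    intro n hn
    refine ⟨h1 (by simp [JJ]), by simp [hn]⟩
  · have hle : le' K (zf M) := by
      apply le'_of_subset
      rw [zf_neg hMU]
      rintro ⟨i, n⟩ hx
      rcases h2 hx with h | h
      · left; exact h
      · right; left; refine ⟨h, ?_⟩; simp only at h; subst h; exact hx
    have := hZ.gd _ hK.1 _ hz hle
    rw [zf_neg hMU] at this
    refine inf_of_slice 2 (inf_of_mem (compl_mem hMU)) ?_ this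
    intro n hn
    refine ⟨by simp only [Set.mem_compl_iff] at hn; simp [hn], ?_⟩
    intro h
    have := h2 h
    simp [AA] at this

end Pool.Agent.H13.IEOp
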