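import Mathlib

set_option autoImplicit false
set_option maxHeartbeats 4000000

open Polynomial

namespace Pool.Agent.H13.Km

theorem lemG {ι : Type} [Fintype ι] (N : ℕ) (v : ι → ℕ) (w : ι → Fin N → ℝ)
    (ch : ι → ℕ) (hv : ∀ i i', ch i < ch i' → v i < v i')
    (hw : ∀ j, ∀ z : ι → ℝ, (∀ i, ch i ≠ j → z i = 0) → (∀ t, ∑ i, z i * w i t = 0) → z = 0) :
    ∀ J : ℕ, ∃ y : ℕ → ℝ, (∀ b, 0 < y b) ∧ ∀ μ : ι → ℝ, (∀ i, J ≤ ch i → μ i = 0) →
      (∀ b < J, ∀ t, ∑ i, μ i * y b ^ v i * w i t = 0) → μ = 0 := by
  classical
  intro J
  induction J with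
  | zero =>
    refine ⟨fun _ => 1, fun _ => one_pos, ?_⟩
    intro μ h _
    funext i
    exact h i (Nat.zero_le _)
  | succ J ih =>
    obtain ⟨y, hy, hyJ⟩ := ih
    -- first linear map
    let f : (ι → ℝ) →ₗ[ℝ] (ι → ℝ) × (Fin J → Fin N → ℝ) :=
      { toFun := fun μ => (fun i => if J ≤ ch i then μ i else 0,
          fun b t => ∑ i, μ i * y b ^ v i * w i t)
        map_add' := by
          intro μ μ'
          ext i
          · simp only [Pi.add_apply, Prod.fst_add]; split_ifs <;> simp
          · simp only [Pi.add_apply, Prod.snd_add, add_mul, Finset.sum_add_distrib]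
        map_smul' := by
          intro c μ
          ext i
          · simp only [Pi.smul_apply, Prod.smul_fst, smul_eq_mul, RingHom.id_apply]
            split_ifs <;> simp
          · simp only [Pi.smul_apply, Prod.smul_snd, smul_eq_mul, RingHom.id_apply,
              Finset.mul_sum, mul_assoc] }
    have hf : LinearMap.ker f = ⊥ := by
      rw [LinearMap.ker_eq_bot']
      intro μ hμ
      apply hyJ μ
      · intro i hi
        have := congrFun (congrArg Prod.fst hμ) i
        simpa [f, hi] using this
      · intro b hb t
        have := congrFun (congrFun (congrArg Prod.snd hμ) ⟨b, hb⟩) t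
        simpa [f] using this
    obtain ⟨C, hC0, hC⟩ := LinearMap.exists_antilipschitzWith f hf
    let g : (ι → ℝ) →ₗ[ℝ] (ι → ℝ) × (Fin N → ℝ) :=
      { toFun := fun z => (fun i => if ch i ≠ J then z i else 0, fun t => ∑ i, z i * w i t)
        map_add' := by
          intro μ μ'
          ext i
          · simp only [Pi.add_apply, Prod.fst_add]; split_ifs <;> simp
          · simp only [Pi.add_apply, Prod.snd_add, add_mul, Finset.sum_add_distrib]
        map_smul' := by
          intro c μ
          ext i
          · simp only [Pi.smul_apply, Prod.smul_fst, smul_eq_mul, RingHom.id_apply]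
            split_ifs <;> simp
          · simp only [Pi.smul_apply, Prod.smul_snd, smul_eq_mul, RingHom.id_apply,
              Finset.mul_sum, mul_assoc] }
    have hg : LinearMap.ker g = ⊥ := by
      rw [LinearMap.ker_eq_bot']
      intro z hz
      apply hw J z
      · intro i hi
        have := congrFun (congrArg Prod.fst hz) i
        simpa [g, hi] using this
      · intro t
        have := congrFun (congrArg Prod.snd hz) t
        simpa [g] using this
    obtain ⟨C2, hC20, hC2⟩ := LinearMap.exists_antilipschitzWith g hg
    have hC' : ∀ μ, ‖μ‖ ≤ C * ‖f μ‖ := fun μ => by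
      have := hC.le_mul_dist μ 0
      simpa [dist_zero_right] using this
    have hC2' : ∀ z, ‖z‖ ≤ C2 * ‖g z‖ := fun z => by
      have := hC2.le_mul_dist z 0
      simpa [dist_zero_right] using this
    set W : ℝ := ∑ i, ‖w i‖ with hW
    have hW0 : 0 ≤ W := Finset.sum_nonneg (fun i _ => norm_nonneg _)
    set Y : ℝ := (C2 : ℝ) * C * W + 1 + 1 with hY
    have hCC : (0 : ℝ) ≤ C2 * C * W := by positivity
    have hY1 : 1 ≤ Y := by rw [hY]; linarith
    set θ : ℕ := (Finset.univ.filter (fun i => ch i < J)).sup (fun i => v i + 1) with hθ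
    have hold : ∀ i, ch i < J → v i + 1 ≤ θ := fun i hi =>
      Finset.le_sup (f := fun i => v i + 1) (Finset.mem_filter.mpr ⟨Finset.mem_univ _, hi⟩)
    have hnew : ∀ i, ch i = J → θ ≤ v i := by
      intro i hi
      apply Finset.sup_le
      intro i' hi'
      have := (Finset.mem_filter.mp hi').2
      exact hv i' i (by omega)
    refine ⟨fun b => if b < J then y b else Y, ?_, ?_⟩
    · intro b
      show 0 < if b < J then y b else Y
      split_ifs
      · exact hy b
      · linarith
    · intro μ h1 h2
      have e1 : ∀ b < J, ∀ t, ∑ i, μ i * y b ^ v i * w i t = 0 := by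
        intro b hb t
        have := h2 b (by omega) t
        simpa [hb] using this
      have e2 : ∀ t, ∑ i, μ i * Y ^ v i * w i t = 0 := by
        intro t
        have := h2 J (by omega) t
        simpa using this
      set μn : ι → ℝ := fun i => if J ≤ ch i then μ i else 0 with hμn
      have hμ1 : ‖μ‖ ≤ C * ‖μn‖ := by
        have := hC' μ
        have hfμ : f μ = (μn, 0) := by
          ext i t
          · rfl
          · exact e1 i i.isLt t
        rw [hfμ, Prod.norm_def] at this
        simpa using this
      set z : ι → ℝ := fun i => if ch i = J then μ i * Y ^ (v i - θ) else 0 with hz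
      have hYpos : 0 < Y := by linarith
      have hzw : ∀ t, |∑ i, z i * w i t| ≤ ‖μ‖ * W / Y := by
        intro t
        have k1 : (∑ i, z i * w i t) * Y ^ θ =
            - ∑ i, (if ch i < J then μ i * Y ^ v i * w i t else 0) := by
          apply eq_neg_of_add_eq_zero_left
          rw [Finset.sum_mul, ← Finset.sum_add_distrib]
          refine Eq.trans (Finset.sum_congr rfl ?_) (e2 t)
          intro i _
          rcases lt_trichotomy (ch i) J with h | h | h
          · simp [hz, h, h.ne]
          · have hpow : Y ^ (v i - θ) * Y ^ θ = Y ^ v i := by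
              rw [← pow_add]; congr 1; have := hnew i h; omega
            simp only [hz, h, if_true, lt_irrefl, if_false, add_zero]
            rw [← hpow]; ring
          · have : μ i = 0 := h1 i (by omega)
            simp [hz, h.ne', this]
        have k2 : |∑ i, (if ch i < J then μ i * Y ^ v i * w i t else 0)| ≤
            ‖μ‖ * W * (Y ^ θ / Y) := by
          calc |∑ i, (if ch i < J then μ i * Y ^ v i * w i t else 0)|
              ≤ ∑ i, |if ch i < J then μ i * Y ^ v i * w i t else 0| :=
                Finset.abs_sum_le_sum_abs _ _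
            _ ≤ ∑ i, ‖μ‖ * ‖w i‖ * (Y ^ θ / Y) := by
                apply Finset.sum_le_sum
                intro i _
                split_ifs with h
                · rw [abs_mul, abs_mul, abs_of_nonneg (by positivity : 0 ≤ Y ^ v i)]
                  have a1 : |μ i| ≤ ‖μ‖ := norm_le_pi_norm μ i
                  have a2 : |w i t| ≤ ‖w i‖ := norm_le_pi_norm (w i) t
                  have a3 : Y ^ v i ≤ Y ^ θ / Y := by
                    rw [le_div_iff₀ hYpos, ← pow_succ]
                    exact pow_le_pow_right₀ hY1 (hold i h)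
                  have : |μ i| * Y ^ v i * |w i t| = (|μ i| * |w i t|) * Y ^ v i := by ring
                  rw [this]
                  apply mul_le_mul (mul_le_mul a1 a2 (abs_nonneg _) (norm_nonneg _)) a3
                    (by positivity) (by positivity)
                · rw [abs_zero]; positivity
            _ = ‖μ‖ * W * (Y ^ θ / Y) := by
                rw [hW, Finset.mul_sum, Finset.sum_mul]
        have k3 : |∑ i, z i * w i t| * Y ^ θ ≤ ‖μ‖ * W / Y * Y ^ θ := by
          rw [← abs_of_nonneg (by positivity : 0 ≤ Y ^ θ), ← abs_mul, k1, abs_neg,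
            abs_of_nonneg (by positivity : 0 ≤ Y ^ θ)]
          refine k2.trans (le_of_eq ?_)
          ring
        exact le_of_mul_le_mul_right k3 (by positivity)
      have hz2 : ‖z‖ ≤ C2 * (‖μ‖ * W / Y) := by
        have := hC2' z
        have hgz : g z = (0, fun t => ∑ i, z i * w i t) := by
          ext i
          · simp only [g, LinearMap.coe_mk, AddHom.coe_mk, Pi.zero_apply]
            split_ifs with h
            · rw [hz]; simp [h]
            · rfl
          · rfl
        rw [hgz, Prod.norm_def] at this
        refine this.trans ?_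
        apply mul_le_mul_of_nonneg_left _ (NNReal.coe_nonneg _)
        have : (0 : ℝ) ≤ ‖μ‖ * W / Y := by positivity
        refine max_le (by simpa using this) ?_
        exact (pi_norm_le_iff_of_nonneg this).mpr (fun t => hzw t)
      have hnz : ‖μn‖ ≤ ‖z‖ := by
        rw [pi_norm_le_iff_of_nonneg (norm_nonneg _)]
        intro i
        rw [hμn]
        show ‖if J ≤ ch i then μ i else 0‖ ≤ ‖z‖
        split_ifs with h
        · rcases Nat.lt_or_ge J (ch i) with h' | h'
          · rw [h1 i (by omega)]; simp
          · have hJ : ch i = J := le_antisymm h' h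
            refine le_trans ?_ (norm_le_pi_norm z i)
            rw [hz]
            show ‖μ i‖ ≤ ‖if ch i = J then μ i * Y ^ (v i - θ) else 0‖
            rw [if_pos hJ, norm_mul]
            have : 1 ≤ ‖Y ^ (v i - θ)‖ := by
              rw [Real.norm_eq_abs, abs_of_nonneg (by positivity)]
              exact one_le_pow₀ hY1
            nlinarith [norm_nonneg (μ i)]
        · simp
      have hfin : ‖μn‖ * Y ≤ (C2 * C * W) * ‖μn‖ := by
        have a1 : ‖μn‖ ≤ C2 * (‖μ‖ * W / Y) := hnz.trans hz2
        have a2 : ‖μn‖ * Y ≤ C2 * (‖μ‖ * W) := by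
          calc ‖μn‖ * Y ≤ C2 * (‖μ‖ * W / Y) * Y := by
                apply mul_le_mul_of_nonneg_right a1 hYpos.le
            _ = C2 * (‖μ‖ * W) := by field_simp
        refine a2.trans ?_
        calc (C2 : ℝ) * (‖μ‖ * W) ≤ C2 * ((C * ‖μn‖) * W) := by
              apply mul_le_mul_of_nonneg_left _ (NNReal.coe_nonneg _)
              exact mul_le_mul_of_nonneg_right hμ1 hW0
          _ = (C2 * C * W) * ‖μn‖ := by ring
      have h0 : ‖μn‖ = 0 := by
        have := norm_nonneg μn
        rw [hY] at hfin
        nlinarith
      rw [h0, mul_zero] at hμ1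
      exact norm_eq_zero.mp (le_antisymm hμ1 (norm_nonneg _))

lemma hajos (k : ℕ) : ∀ F : ℝ[X], (X + 1) ^ k ∣ F → F.support.card ≤ k → F = 0 := by
  induction k with
  | zero =>
    intro F _ h
    simpa using h
  | succ k ih =>
    intro F hd hc
    by_contra hne
    obtain ⟨e, he⟩ : F.support.Nonempty := Polynomial.support_nonempty.mpr hne
    have h1 : (X + 1) ^ k ∣ X * derivative F - C (e : ℝ) * F := by
      apply dvd_sub
      · have := Polynomial.pow_sub_one_dvd_derivative_of_pow_dvd hd
        rw [Nat.add_sub_cancel] at this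
        exact this.mul_left _
      · exact ((pow_dvd_pow _ (Nat.le_succ k)).trans hd).mul_left _
    have hcoef : ∀ j : ℕ, (X * derivative F - C (e : ℝ) * F).coeff j = ((j : ℝ) - e) * F.coeff j := by
      intro j
      rw [coeff_sub, coeff_C_mul]
      cases j with
      | zero => simp
      | succ j =>
        rw [coeff_X_mul, coeff_derivative]
        push_cast
        ring
    have h2 : (X * derivative F - C (e : ℝ) * F).support ⊆ F.support.erase e := by
      intro j hj
      rw [mem_support_iff, hcoef] at hj
      rw [Finset.mem_erase, mem_support_iff]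
      constructor
      · rintro rfl
        simp at hj
      · intro h; rw [h, mul_zero] at hj; exact hj rfl
    have h3 := ih _ h1 ((Finset.card_le_card h2).trans (by
      rw [Finset.card_erase_of_mem he]; omega))
    have h4 : F = C (F.coeff e) * X ^ e := by
      ext j
      rw [coeff_C_mul, coeff_X_pow]
      split_ifs with h
      · rw [h, mul_one]
      · rw [mul_zero]
        have := hcoef j
        rw [h3, coeff_zero] at this
        have h5 : (j : ℝ) - e ≠ 0 := by
          rw [sub_ne_zero]; exact_mod_cast h
        exact (mul_eq_zero.mp this.symm).resolve_left h5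
    have h5 : F.eval (-1) = 0 := by
      have : (X + 1 : ℝ[X]) ∣ F := (dvd_pow_self _ (Nat.succ_ne_zero k)).trans hd
      obtain ⟨Q, hQ⟩ := this
      rw [hQ]; simp
    rw [h4] at h5
    simp only [eval_mul, eval_C, eval_pow, eval_X, mul_eq_zero] at h5
    rcases h5 with h5 | h5
    · exact (mem_support_iff.mp he) h5
    · exact absurd h5 (pow_ne_zero _ (by norm_num))

lemma toeplitz (k N r0 : ℕ) (hr : r0 ≤ k) (z : Fin N → ℝ)
    (h : ∀ t : Fin N, ∑ i : Fin N, z i *
      (if t.val ≤ r0 + i.val then ((k.choose (r0 + i.val - t.val) : ℕ) : ℝ) else 0) = 0) : z = 0 := by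
  classical
  set Z : ℝ[X] := ∑ i : Fin N, C (z i) * X ^ (N - 1 - i.val) with hZ
  have hcoef : ∀ d, ((X + 1) ^ k * Z).coeff d = ∑ i : Fin N, z i *
      (if N - 1 - i.val ≤ d then ((k.choose (d - (N - 1 - i.val)) : ℕ) : ℝ) else 0) := by
    intro d
    rw [hZ, Finset.mul_sum, finsetSum_coeff]
    apply Finset.sum_congr rfl
    intro i _
    have : (X + 1 : ℝ[X]) ^ k * (C (z i) * X ^ (N - 1 - i.val)) =
        C (z i) * ((X + 1) ^ k * X ^ (N - 1 - i.val)) := by ring
    rw [this, coeff_C_mul, coeff_mul_X_pow', coeff_X_add_one_pow]
  have h1 : ((X + 1) ^ k * Z).support ⊆ Finset.range (k + N) \ Finset.Ico r0 (r0 + N) := by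
    intro d hd
    rw [mem_support_iff] at hd
    rw [Finset.mem_sdiff, Finset.mem_range, Finset.mem_Ico]
    constructor
    · by_contra hcon
      apply hd
      rw [hcoef]
      apply Finset.sum_eq_zero
      intro i _
      rw [Nat.choose_eq_zero_of_lt (by have := i.isLt; omega)]
      simp
    · rintro ⟨a1, a2⟩
      apply hd
      rw [hcoef]
      have := h ⟨r0 + N - 1 - d, by omega⟩
      refine Eq.trans (Finset.sum_congr rfl ?_) this
      intro i _
      have hi := i.isLt
      by_cases hc : N - 1 - i.val ≤ d
      · rw [if_pos hc, if_pos (by show r0 + N - 1 - d ≤ r0 + i.val; omega)]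
        congr 3
        show d - (N - 1 - i.val) = r0 + i.val - (r0 + N - 1 - d)
        omega
      · rw [if_neg hc, if_neg (by show ¬ (r0 + N - 1 - d ≤ r0 + i.val); omega)]
  have h2 : ((X + 1) ^ k * Z).support.card ≤ k := by
    refine (Finset.card_le_card h1).trans ?_
    rw [Finset.card_sdiff_of_subset (by
      intro d hd
      rw [Finset.mem_Ico] at hd
      rw [Finset.mem_range]; omega)]
    simp
  have h3 := hajos k _ (dvd_mul_right _ _) h2
  have h4 : Z = 0 := by
    rcases mul_eq_zero.mp h3 with h | h
    · exact absurd h (pow_ne_zero _ (by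
        intro h'
        have := congrArg (fun p => Polynomial.coeff p 1) h'
        simp [coeff_one] at this))
    · exact h
  funext i
  have h5 := congrArg (fun p => Polynomial.coeff p (N - 1 - i.val)) h4
  simp only [hZ, finsetSum_coeff, coeff_C_mul, coeff_X_pow, coeff_zero] at h5
  rw [Finset.sum_eq_single i] at h5
  · simpa using h5
  · intro j _ hj
    have h1 := i.isLt
    have h2 := j.isLt
    have : ¬ (N - 1 - i.val = N - 1 - j.val) := by
      intro h; apply hj; apply Fin.ext; omega
    simp [this]
  · simp

end Pool.Agent.H13.Km
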