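import Pool.Agent.H13.KmA

set_option autoImplicit false
set_option maxHeartbeats 4000000

namespace Pool.Agent.H13.Km

/-- the start of row `k` -/
def off (N k : ℕ) : ℕ := k * N + k.choose 2

lemma off_succ (N k : ℕ) : off N (k + 1) = off N k + (N + k) := by
  unfold off
  rw [Nat.choose_succ_succ' k 1, Nat.choose_one_right]
  ring

lemma off_mono (N : ℕ) : Monotone (off N) := by
  apply monotone_nat_of_le_succ
  intro k
  rw [off_succ]; omega

lemma le_off (N : ℕ) (hN : 1 ≤ N) : ∀ k, k ≤ off N k := by
  intro k
  induction k with
  | zero => exact Nat.zero_le _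
  | succ k ih => rw [off_succ]; omega

/-- the columns -/
abbrev Col (N s : ℕ) : Type := Σ k : Fin (s + 1), Fin (N + k.val)

def pos {N s : ℕ} (i : Col N s) : ℕ := off N i.1.val + i.2.val

noncomputable def wv {N s : ℕ} (i : Col N s) (t : Fin N) : ℝ :=
  if t.val ≤ i.2.val then ((i.1.val.choose (i.2.val - t.val) : ℕ) : ℝ) else 0

lemma col_ext {N s : ℕ} (i j : Col N s) (h1 : i.1.val = j.1.val) (h2 : i.2.val = j.2.val) : i = j := by
  obtain ⟨⟨k, hk⟩, ⟨r, hr⟩⟩ := i
  obtain ⟨⟨k', hk'⟩, ⟨r', hr'⟩⟩ := j
  simp only at h1 h2
  subst h1; subst h2; rfl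

theorem chunk_li (N s : ℕ) (hN : 1 ≤ N) (j : ℕ) (z : Col N s → ℝ)
    (hz : ∀ i, pos i / N ≠ j → z i = 0)
    (hs : ∀ t : Fin N, ∑ i, z i * wv i t = 0) : z = 0 := by
  classical
  have hz' : ∀ i, z i ≠ 0 → j * N ≤ pos i ∧ pos i < j * N + N := by
    intro i hi
    have h1 : pos i / N = j := by
      by_contra h; exact hi (hz i h)
    have h2 := Nat.div_add_mod (pos i) N
    have h3 := Nat.mod_lt (pos i) hN
    rw [h1] at h2
    rw [mul_comm j N]
    omega
  obtain ⟨k0, hk0a, hk0b⟩ : ∃ k0, off N k0 ≤ j * N ∧ j * N < off N (k0 + 1) := by
    have hex : ∃ k, j * N < off N (k + 1) := ⟨j * N, by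
      have := le_off N hN (j * N + 1); omega⟩
    refine ⟨Nat.find hex, ?_, Nat.find_spec hex⟩
    rcases Nat.eq_zero_or_pos (Nat.find hex) with h | h
    · rw [h]; simp [off]
    · have := Nat.find_min hex (Nat.sub_lt h one_pos)
      have e : Nat.find hex - 1 + 1 = Nat.find hex := by omega
      rw [e] at this
      exact not_lt.mp this
  have hs0 := off_succ N k0
  have hs1 := off_succ N (k0 + 1)
  set r0 := j * N - off N k0 with hr0
  have hrow : ∀ i : Col N s, z i ≠ 0 →
      (i.1.val = k0 ∧ r0 ≤ i.2.val ∧ i.2.val < r0 + N) ∨
        (i.1.val = k0 + 1 ∧ i.2.val + (N + k0) < r0 + N) := by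
    intro i hi
    obtain ⟨h1, h2⟩ := hz' i hi
    unfold pos at h1 h2
    have h3 := i.2.isLt
    rcases Nat.lt_trichotomy i.1.val k0 with h | h | h
    · exfalso
      have := off_mono N (show i.1.val + 1 ≤ k0 from h)
      rw [off_succ] at this
      omega
    · left
      have ho := congrArg (off N) h
      refine ⟨h, by omega, by omega⟩
    · right
      rcases Nat.lt_or_ge (k0 + 1) i.1.val with h' | h'
      · exfalso
        have := off_mono N (show k0 + 1 + 1 ≤ i.1.val from h')
        omega
      · have h4 : i.1.val = k0 + 1 := by omega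
        have ho := congrArg (off N) h4
        exact ⟨h4, by omega⟩
  by_cases hc : r0 ≤ k0
  · -- a single row
    by_cases hks : k0 < s + 1
    · let e : Fin N → Col N s := fun i => ⟨⟨k0, hks⟩, ⟨r0 + i.val, by
        have := i.isLt
        show r0 + i.val < N + k0
        omega⟩⟩
      have he : Function.Injective e := by
        intro a b hab
        simp only [e, Sigma.mk.injEq, heq_eq_eq, Fin.mk.injEq, true_and] at hab
        exact Fin.ext (by omega)
      have hT := toeplitz k0 N r0 hc (fun i => z (e i)) (by
        intro t
        refine Eq.trans ?_ (hs t)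
        apply Fintype.sum_of_injective e he
        · intro i hi
          by_cases hzi : z i = 0
          · rw [hzi, zero_mul]
          · exfalso
            apply hi
            rcases hrow i hzi with ⟨h1, h2, h3⟩ | ⟨h1, h2⟩
            · exact ⟨⟨i.2.val - r0, by omega⟩, col_ext _ _ h1.symm (by
                show r0 + (i.2.val - r0) = i.2.val
                omega)⟩
            · omega
        · intro i
          rfl)
      funext i
      by_contra hzi
      rcases hrow i hzi with ⟨h1, h2, h3⟩ | ⟨h1, h2⟩
      · have := congrFun hT ⟨i.2.val - r0, by omega⟩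
        apply hzi
        have he2 : e ⟨i.2.val - r0, by omega⟩ = i := col_ext _ _ h1.symm (by
                show r0 + (i.2.val - r0) = i.2.val
                omega)
        rw [← he2]
        exact this
      · omega
    · funext i
      by_contra hzi
      have := i.1.isLt
      rcases hrow i hzi with ⟨h1, h2, h3⟩ | ⟨h1, h2⟩ <;> omega
  · push Not at hc
    have hrN : r0 < N + k0 := by omega
    have B1 : ∀ n : ℕ, ∀ i : Col N s, i.1.val = k0 + 1 → N - i.2.val ≤ n → z i = 0 := by
      intro n
      induction n using Nat.strong_induction_on with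
      | _ n ih =>
        intro i hi1 hi2
        by_contra hzi
        rcases hrow i hzi with ⟨h1, h2, h3⟩ | ⟨h1, h2⟩
        · omega
        · have ht : i.2.val < N := by omega
          have h5 := hs ⟨i.2.val, ht⟩
          rw [Finset.sum_eq_single i] at h5
          · simp only [wv, le_refl, if_true, Nat.sub_self, Nat.choose_zero_right, Nat.cast_one,
              mul_one] at h5
            exact hzi h5
          · intro i' _ hne
            by_cases hzi' : z i' = 0
            · rw [hzi', zero_mul]
            rcases hrow i' hzi' with ⟨h1', h2', h3'⟩ | ⟨h1', h2'⟩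
            · have : wv i' ⟨i.2.val, ht⟩ = 0 := by
                unfold wv
                split_ifs with hle
                · rw [Nat.choose_eq_zero_of_lt]
                  · simp
                  · show i'.1.val < i'.2.val - i.2.val
                    omega
                · rfl
              rw [this, mul_zero]
            · rcases Nat.lt_trichotomy i'.2.val i.2.val with hlt | heq | hgt
              · have : wv i' ⟨i.2.val, ht⟩ = 0 := by
                  unfold wv
                  rw [if_neg]
                  show ¬ (i.2.val ≤ i'.2.val)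
                  omega
                rw [this, mul_zero]
              · exact absurd (col_ext _ _ (h1'.trans hi1.symm) heq) hne
              · exact absurd (ih (N - i'.2.val) (by omega) i' h1' le_rfl) hzi'
          · intro h; exact absurd (Finset.mem_univ _) h
    have B2 : ∀ n : ℕ, ∀ i : Col N s, i.1.val = k0 → i.2.val ≤ n → z i = 0 := by
      intro n
      induction n using Nat.strong_induction_on with
      | _ n ih =>
        intro i hi1 hi2
        by_contra hzi
        rcases hrow i hzi with ⟨h1, h2, h3⟩ | ⟨h1, h2⟩
        · have hlt2 := i.2.isLt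
          have ht : i.2.val - k0 < N := by omega
          have h5 := hs ⟨i.2.val - k0, ht⟩
          rw [Finset.sum_eq_single i] at h5
          · have hw1 : wv i ⟨i.2.val - k0, ht⟩ = 1 := by
              unfold wv
              rw [if_pos (by show i.2.val - k0 ≤ i.2.val; omega)]
              have : i.2.val - (i.2.val - k0) = i.1.val := by omega
              show (((i.1.val.choose (i.2.val - (i.2.val - k0)) : ℕ)) : ℝ) = 1
              rw [this, Nat.choose_self, Nat.cast_one]
            rw [hw1, mul_one] at h5
            exact hzi h5
          · intro i' _ hne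
            by_cases hzi' : z i' = 0
            · rw [hzi', zero_mul]
            rcases hrow i' hzi' with ⟨h1', h2', h3'⟩ | ⟨h1', h2'⟩
            · rcases Nat.lt_trichotomy i'.2.val i.2.val with hlt | heq | hgt
              · exact absurd (ih i'.2.val (by omega) i' h1' le_rfl) hzi'
              · exact absurd (col_ext _ _ (h1'.trans hi1.symm) heq) hne
              · have : wv i' ⟨i.2.val - k0, ht⟩ = 0 := by
                  unfold wv
                  split_ifs with hle
                  · rw [Nat.choose_eq_zero_of_lt]
                    · simp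
                    · show i'.1.val < i'.2.val - (i.2.val - k0)
                      omega
                  · rfl
                rw [this, mul_zero]
            · exact absurd (B1 _ i' h1' le_rfl) hzi'
          · intro h; exact absurd (Finset.mem_univ _) h
        · omega
    funext i
    by_contra hzi
    rcases hrow i hzi with ⟨h1, h2, h3⟩ | ⟨h1, h2⟩
    · exact hzi (B2 _ i h1 le_rfl)
    · exact hzi (B1 _ i h1 le_rfl)

theorem exists_params (N s n : ℕ) (hN : 1 ≤ N) (hn : off N (s + 1) ≤ n * N) :
    ∃ y : ℕ → ℝ, (∀ b, 0 < y b) ∧ ∀ μ : Col N s → ℝ,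
      (∀ b < n, ∀ t : Fin N, ∑ i, μ i * y b ^ ((N + s) * i.1.val + i.2.val) * wv i t = 0) → μ = 0 := by
  obtain ⟨y, hy, h⟩ := lemG N (fun i : Col N s => (N + s) * i.1.val + i.2.val) wv
    (fun i => pos i / N) (by
      intro i i' hlt
      have hp : pos i < pos i' := by
        by_contra hcon
        have := Nat.div_le_div_right (c := N) (not_lt.mp hcon)
        omega
      unfold pos at hp
      have h1 := i.2.isLt
      have h2 := i'.2.isLt
      have h3 := i.1.isLt
      show (N + s) * i.1.val + i.2.val < (N + s) * i'.1.val + i'.2.val
      rcases Nat.lt_trichotomy i.1.val i'.1.val with h | h | h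
      · have : (N + s) * (i.1.val + 1) ≤ (N + s) * i'.1.val := Nat.mul_le_mul_left _ h
        rw [mul_add, mul_one] at this
        omega
      · have ho := congrArg (off N) h
        have ho2 : (N + s) * i.1.val = (N + s) * i'.1.val := by rw [h]
        omega
      · exfalso
        have := off_mono N (show i'.1.val + 1 ≤ i.1.val from h)
        rw [off_succ] at this
        omega)
    (fun j z h1 h2 => chunk_li N s hN j z h1 h2) n
  refine ⟨y, hy, fun μ hμ => h μ ?_ hμ⟩
  intro i hi
  exfalso
  have h1 := i.1.isLt
  have h2 := i.2.isLt
  have h3 : pos i < off N (s + 1) := by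
    have := off_mono N (show i.1.val + 1 ≤ s + 1 by omega)
    rw [off_succ] at this
    unfold pos
    omega
  have h4 : pos i / N < n := by
    rw [Nat.div_lt_iff_lt_mul hN]
    omega
  omega

end Pool.Agent.H13.Km
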