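import Pool.Agent.H13.KmB

set_option autoImplicit false
set_option maxHeartbeats 4000000

open Polynomial Classical

namespace Pool.Agent.H13.Km

noncomputable def MV {V : Type} [DecidableEq V] (s : ℕ) (G : SimpleGraph V) (x y : V → ℝ) :
    Matrix (V × V) (V × Fin (s + 1)) ℝ :=
  Matrix.of fun e c =>
    if G.Adj e.1 e.2 then
      (if c.1 = e.1 then
          (x e.1 - x e.2) ^ (s - (c.2 : ℕ)) * (y e.1 - y e.2) ^ (c.2 : ℕ)
       else if c.1 = e.2 then
          -((x e.1 - x e.2) ^ (s - (c.2 : ℕ)) * (y e.1 - y e.2) ^ (c.2 : ℕ))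
       else 0)
    else (0 : ℝ)

section
variable {V : Type} [Fintype V] [DecidableEq V]

lemma mulVec_eq (s : ℕ) (G : SimpleGraph V) (x y : V → ℝ) (u : V × Fin (s + 1) → ℝ) (e : V × V) :
    (MV s G x y).mulVec u e = if G.Adj e.1 e.2 then
      ∑ t : Fin (s + 1), (x e.1 - x e.2) ^ (s - (t : ℕ)) * (y e.1 - y e.2) ^ (t : ℕ) *
        (u (e.1, t) - u (e.2, t)) else 0 := by
  unfold MV Matrix.mulVec dotProduct
  rw [Fintype.sum_prod_type]
  simp only [Matrix.of_apply]
  by_cases h : G.Adj e.1 e.2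
  · have hne : e.1 ≠ e.2 := G.ne_of_adj h
    simp only [if_pos h]
    have h1 : ∀ c : V, (∑ t : Fin (s + 1), (if c = e.1 then
          (x e.1 - x e.2) ^ (s - (t : ℕ)) * (y e.1 - y e.2) ^ (t : ℕ)
       else if c = e.2 then
          -((x e.1 - x e.2) ^ (s - (t : ℕ)) * (y e.1 - y e.2) ^ (t : ℕ))
       else 0) * u (c, t)) =
       (if c = e.1 then ∑ t : Fin (s + 1), (x e.1 - x e.2) ^ (s - (t : ℕ)) *
          (y e.1 - y e.2) ^ (t : ℕ) * u (e.1, t) else 0) +
       (if c = e.2 then ∑ t : Fin (s + 1), -((x e.1 - x e.2) ^ (s - (t : ℕ)) *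
          (y e.1 - y e.2) ^ (t : ℕ)) * u (e.2, t) else 0) := by
      intro c
      by_cases c1 : c = e.1
      · subst c1
        simp [hne]
      · by_cases c2 : c = e.2
        · subst c2
          simp [c1]
        · simp [c1, c2]
    rw [Finset.sum_congr rfl (fun c _ => h1 c), Finset.sum_add_distrib, Finset.sum_ite_eq',
      Finset.sum_ite_eq']
    simp only [Finset.mem_univ, if_true]
    rw [← Finset.sum_add_distrib]
    apply Finset.sum_congr rfl
    intro t _
    ring
  · simp [h]

lemma mem_ker (s : ℕ) (G : SimpleGraph V) (x y : V → ℝ) (u : V × Fin (s + 1) → ℝ) :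
    u ∈ LinearMap.ker (MV s G x y).mulVecLin ↔ ∀ i j, G.Adj i j →
      ∑ t : Fin (s + 1), (x i - x j) ^ (s - (t : ℕ)) * (y i - y j) ^ (t : ℕ) *
        (u (i, t) - u (j, t)) = 0 := by
  rw [LinearMap.mem_ker, Matrix.mulVecLin_apply]
  constructor
  · intro h i j hij
    have := congrFun h (i, j)
    rw [mulVec_eq, if_pos hij] at this
    exact this
  · intro h
    funext e
    rw [mulVec_eq]
    split_ifs with h'
    · exact h _ _ h'
    · rfl

lemma rank_add (s : ℕ) (G : SimpleGraph V) (x y : V → ℝ) :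
    (MV s G x y).rank + Module.finrank ℝ (LinearMap.ker (MV s G x y).mulVecLin) =
      Fintype.card V * (s + 1) := by
  have := LinearMap.finrank_range_add_finrank_ker (MV s G x y).mulVecLin
  rw [Module.finrank_fintype_fun_eq_card, Fintype.card_prod, Fintype.card_fin] at this
  exact this

lemma rank_ge (s : ℕ) (G : SimpleGraph V) (x y : V → ℝ) {I : Type} [Fintype I]
    (φ : (V × Fin (s + 1) → ℝ) →ₗ[ℝ] (I → ℝ))
    (h : ∀ u ∈ LinearMap.ker (MV s G x y).mulVecLin, φ u = 0 → u = 0) :
    Fintype.card V * (s + 1) ≤ (MV s G x y).rank + Fintype.card I := by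
  rw [← rank_add s G x y]
  have : Module.finrank ℝ (LinearMap.ker (MV s G x y).mulVecLin) ≤ Fintype.card I := by
    rw [← Module.finrank_fintype_fun_eq_card (R := ℝ) (η := I)]
    apply LinearMap.finrank_le_finrank_of_injective (f := φ.domRestrict _)
    rw [← LinearMap.ker_eq_bot, LinearMap.ker_eq_bot']
    intro u hu
    exact Subtype.ext (h u.1 u.2 hu)
  omega

lemma rank_le (s : ℕ) (G : SimpleGraph V) (x y : V → ℝ) {I : Type} [Fintype I]
    (ψ : (I → ℝ) →ₗ[ℝ] (V × Fin (s + 1) → ℝ)) (hinj : Function.Injective ψ)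
    (h : ∀ g, ψ g ∈ LinearMap.ker (MV s G x y).mulVecLin) :
    (MV s G x y).rank + Fintype.card I ≤ Fintype.card V * (s + 1) := by
  rw [← rank_add s G x y]
  have : Fintype.card I ≤ Module.finrank ℝ (LinearMap.ker (MV s G x y).mulVecLin) := by
    rw [← Module.finrank_fintype_fun_eq_card (R := ℝ) (η := I)]
    apply LinearMap.finrank_le_finrank_of_injective (f := ψ.codRestrict _ h)
    intro a b hab
    exact hinj (congrArg Subtype.val hab)
  omega

end

/-- index set of size C(s+2,2) -/
abbrev Ix (s : ℕ) : Type := Σ t : Fin (s + 1), Fin (t.val + 1)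

lemma card_Ix (s : ℕ) : Fintype.card (Ix s) = (s + 2).choose 2 := by
  rw [Fintype.card_sigma]
  simp only [Fintype.card_fin]
  rw [Fin.sum_univ_eq_sum_range (fun t => t + 1) (s + 1)]
  induction s with
  | zero => rfl
  | succ s ih =>
    rw [Finset.sum_range_succ, ih, Nat.choose_succ_succ' (s + 2) 1, Nat.choose_one_right]
    ring

lemma dif0 (M : ℕ) (P : ℝ[X]) (hP : P.natDegree < M) :
    ∑ a ∈ Finset.range (M + 1), ((-1 : ℝ) ^ (M - a) * (M.choose a : ℝ)) * P.eval (a : ℝ) = 0 := by
  have h1 := congrFun (Polynomial.fwdDiff_iter_eq_zero_of_degree_lt hP) (0 : ℝ)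
  rw [fwdDiff_iter_eq_sum_shift] at h1
  simp only [Pi.zero_apply] at h1
  rw [← h1]
  apply Finset.sum_congr rfl
  intro a _
  rw [zsmul_eq_mul]
  push_cast
  simp

/-- the weights -/
noncomputable def lam (m : ℕ) (a : Fin m) : ℝ := (-1 : ℝ) ^ (m - 1 - a.val) * ((m - 1).choose a.val : ℝ)

lemma lam_ne (m : ℕ) (a : Fin m) : lam m a ≠ 0 := by
  unfold lam
  apply mul_ne_zero
  · exact pow_ne_zero _ (by norm_num)
  · have : 0 < (m - 1).choose a.val := Nat.choose_pos (by have := a.isLt; omega)
    exact_mod_cast this.ne'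

lemma dif1 (m : ℕ) (hm : 1 ≤ m) (P : ℝ[X]) (hP : P.natDegree < m - 1) :
    ∑ a : Fin m, lam m a * P.eval ((a.val : ℕ) : ℝ) = 0 := by
  have h := dif0 (m - 1) P hP
  rw [Nat.sub_add_cancel hm] at h
  rw [← h]
  exact Fin.sum_univ_eq_sum_range (fun a => ((-1 : ℝ) ^ (m - 1 - a) * ((m - 1).choose a : ℝ)) *
    P.eval (a : ℝ)) m

/-- the combinatorial identity for one row -/
lemma row_id (N k K t' : ℕ) (ht : t' < N) (Y : ℝ) (f : ℕ → ℝ) :
    (∑ i ∈ Finset.range (k + 1), ((k.choose i : ℕ) : ℝ) * (Y ^ (K + 1)) ^ i * (Y ^ K) ^ (k - i) *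
      f (t' + i)) * Y ^ t' =
    ∑ r : Fin (N + k), f r.val * Y ^ (K * k + r.val) *
      (if t' ≤ r.val then ((k.choose (r.val - t') : ℕ) : ℝ) else 0) := by
  rw [Fin.sum_univ_eq_sum_range (fun r => f r * Y ^ (K * k + r) *
      (if t' ≤ r then ((k.choose (r - t') : ℕ) : ℝ) else 0)) (N + k)]
  have h1 : Finset.Ico t' (t' + (k + 1)) ⊆ Finset.range (N + k) := by
    intro r hr
    rw [Finset.mem_Ico] at hr
    rw [Finset.mem_range]; omega
  rw [← Finset.sum_subset h1]
  · rw [Finset.sum_Ico_eq_sum_range, Finset.sum_mul]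
    rw [Nat.add_sub_cancel_left]
    apply Finset.sum_congr rfl
    intro i hi
    rw [Finset.mem_range] at hi
    rw [if_pos (by omega), Nat.add_sub_cancel_left]
    have : (Y ^ (K + 1)) ^ i * (Y ^ K) ^ (k - i) * Y ^ t' = Y ^ (K * k + (t' + i)) := by
      rw [← pow_mul, ← pow_mul, ← pow_add, ← pow_add]
      congr 1
      obtain ⟨j, rfl⟩ : ∃ j, k = i + j := ⟨k - i, by omega⟩
      rw [Nat.add_sub_cancel_left]
      ring
    rw [← this]; ring
  · intro r _ hr
    rw [Finset.mem_Ico] at hr
    split_ifs with h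
    · rw [Nat.choose_eq_zero_of_lt (by omega)]
      simp
    · simp

theorem bip (s m n : ℕ) (hm : s + 2 ≤ m) (h : off (m - s - 1) (s + 1) ≤ n * (m - s - 1)) :
    ∃ x y : Fin m ⊕ Fin n → ℝ, (m + n) * (s + 1) ≤
      (MV s (completeBipartiteGraph (Fin m) (Fin n)) x y).rank + (s + 2).choose 2 := by
  obtain ⟨N, hN⟩ : ∃ N, N = m - s - 1 := ⟨_, rfl⟩
  rw [← hN] at h
  have hN1 : 1 ≤ N := by omega
  have hmN : m = N + s + 1 := by omega
  obtain ⟨Y, hY, hpar⟩ := exists_params N s n hN1 h
  set c : ℕ → ℝ := fun b => Y b ^ (N + s + 1) with hc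
  set d : ℕ → ℝ := fun b => Y b ^ (N + s) with hd
  have hc0 : ∀ b, c b ≠ 0 := fun b => pow_ne_zero _ (hY b).ne'
  set x : Fin m ⊕ Fin n → ℝ := Sum.elim (fun a => (a.val : ℝ)) (fun b => - (d b.val / c b.val)) with hx
  set y : Fin m ⊕ Fin n → ℝ := Sum.elim (fun _ => 0) (fun b => - (1 / c b.val)) with hy
  refine ⟨x, y, ?_⟩
  rw [← card_Ix s]
  have hcard : Fintype.card (Fin m ⊕ Fin n) = m + n := by simp
  rw [← hcard]
  let φ : (((Fin m ⊕ Fin n) × Fin (s + 1)) → ℝ) →ₗ[ℝ] (Ix s → ℝ) :=
    { toFun := fun u i => ∑ a : Fin m, lam m a * ((a.val : ℕ) : ℝ) ^ (N + (s - i.1.val) + i.2.val) *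
        u (Sum.inl a, i.1)
      map_add' := by
        intro u u'
        funext i
        simp only [Pi.add_apply, mul_add, Finset.sum_add_distrib]
      map_smul' := by
        intro r u
        funext i
        simp only [Pi.smul_apply, smul_eq_mul, RingHom.id_apply, Finset.mul_sum]
        apply Finset.sum_congr rfl
        intro a _
        ring }
  apply rank_ge s _ x y φ
  intro u hu hφ
  rw [mem_ker] at hu
  -- the simplified equations
  have hE : ∀ (a : Fin m) (b : Fin n), ∑ t : Fin (s + 1), (c b.val * (a.val : ℝ) + d b.val) ^ (s - (t : ℕ)) *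
      (u (Sum.inl a, t) - u (Sum.inr b, t)) = 0 := by
    intro a b
    have h1 := hu (Sum.inl a) (Sum.inr b) (by simp [completeBipartiteGraph])
    have hdy : y (Sum.inl a) - y (Sum.inr b) = 1 / c b.val := by simp [hy]
    have hdx : x (Sum.inl a) - x (Sum.inr b) =
        (c b.val * (a.val : ℝ) + d b.val) * (1 / c b.val) := by
      have := hc0 b.val
      simp only [hx, Sum.elim_inl, Sum.elim_inr]
      field_simp
      ring
    rw [hdx, hdy] at h1
    have h2 : (∑ t : Fin (s + 1), (c b.val * (a.val : ℝ) + d b.val) ^ (s - (t : ℕ)) *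
      (u (Sum.inl a, t) - u (Sum.inr b, t))) * (1 / c b.val) ^ s = 0 := by
      rw [← h1, Finset.sum_mul]
      apply Finset.sum_congr rfl
      intro t _
      have ht := t.isLt
      have : (1 / c b.val) ^ s = (1 / c b.val) ^ (s - (t : ℕ)) * (1 / c b.val) ^ (t : ℕ) := by
        rw [← pow_add]; congr 1; omega
      rw [mul_pow, this]; ring
    exact (mul_eq_zero.mp h2).resolve_right (pow_ne_zero _ (one_div_ne_zero (hc0 _)))
  -- moments
  set μ' : Fin (s + 1) → ℕ → ℝ := fun k r => ∑ a : Fin m, lam m a * ((a.val : ℕ) : ℝ) ^ r *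
    u (Sum.inl a, Fin.rev k) with hμ'
  have hμ0 : (fun i : Col N s => μ' i.1 i.2.val) = 0 := by
    apply hpar
    intro b hb t'
    have key : ∑ k : Fin (s + 1), ∑ i ∈ Finset.range (k.val + 1), ((k.val.choose i : ℕ) : ℝ) *
        (c b) ^ i * (d b) ^ (k.val - i) * μ' k (t'.val + i) = 0 := by
      have h1 : ∑ a : Fin m, lam m a * ((a.val : ℕ) : ℝ) ^ t'.val *
          (∑ t : Fin (s + 1), (c b * (a.val : ℝ) + d b) ^ (s - (t : ℕ)) *
            (u (Sum.inl a, t) - u (Sum.inr ⟨b, hb⟩, t))) = 0 := by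
        apply Finset.sum_eq_zero
        intro a _
        rw [hE a ⟨b, hb⟩, mul_zero]
      have h2 : ∑ a : Fin m, lam m a * ((a.val : ℕ) : ℝ) ^ t'.val *
          (∑ t : Fin (s + 1), (c b * (a.val : ℝ) + d b) ^ (s - (t : ℕ)) *
            u (Sum.inr ⟨b, hb⟩, t)) = 0 := by
        simp only [Finset.mul_sum]
        rw [Finset.sum_comm]
        apply Finset.sum_eq_zero
        intro t _
        have h3 := dif1 m (by omega) (X ^ t'.val * (C (c b) * X + C (d b)) ^ (s - (t : ℕ))) (by
          have e1 := t'.isLt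
          have e2 : (X ^ t'.val * (C (c b) * X + C (d b)) ^ (s - (t : ℕ))).natDegree ≤
              t'.val + (s - (t : ℕ)) := by
            refine natDegree_mul_le.trans (add_le_add (natDegree_X_pow_le _) ?_)
            refine natDegree_pow_le.trans ?_
            calc (s - (t : ℕ)) * (C (c b) * X + C (d b)).natDegree ≤ (s - (t : ℕ)) * 1 :=
                  Nat.mul_le_mul_left _ natDegree_linear_le
              _ = _ := mul_one _
          omega)
        simp only [eval_mul, eval_pow, eval_X, eval_add, eval_C] at h3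
        have h4 : ∑ a : Fin m, lam m a * ((a.val : ℕ) : ℝ) ^ t'.val *
            ((c b * (a.val : ℝ) + d b) ^ (s - (t : ℕ)) * u (Sum.inr ⟨b, hb⟩, t)) =
            (∑ a : Fin m, lam m a * (((a.val : ℕ) : ℝ) ^ t'.val *
              (c b * (a.val : ℝ) + d b) ^ (s - (t : ℕ)))) * u (Sum.inr ⟨b, hb⟩, t) := by
          rw [Finset.sum_mul]
          apply Finset.sum_congr rfl
          intro a _
          ring
        rw [h4, h3, zero_mul]
      have h3 : ∑ a : Fin m, lam m a * ((a.val : ℕ) : ℝ) ^ t'.val *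
          (∑ t : Fin (s + 1), (c b * (a.val : ℝ) + d b) ^ (s - (t : ℕ)) *
            u (Sum.inl a, t)) = 0 := by
        have : ∑ a : Fin m, lam m a * ((a.val : ℕ) : ℝ) ^ t'.val *
          (∑ t : Fin (s + 1), (c b * (a.val : ℝ) + d b) ^ (s - (t : ℕ)) *
            (u (Sum.inl a, t) - u (Sum.inr ⟨b, hb⟩, t))) =
          (∑ a : Fin m, lam m a * ((a.val : ℕ) : ℝ) ^ t'.val *
          (∑ t : Fin (s + 1), (c b * (a.val : ℝ) + d b) ^ (s - (t : ℕ)) *
            u (Sum.inl a, t))) - ∑ a : Fin m, lam m a * ((a.val : ℕ) : ℝ) ^ t'.val *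
          (∑ t : Fin (s + 1), (c b * (a.val : ℝ) + d b) ^ (s - (t : ℕ)) *
            u (Sum.inr ⟨b, hb⟩, t)) := by
          rw [← Finset.sum_sub_distrib]
          apply Finset.sum_congr rfl
          intro a _
          rw [← mul_sub, ← Finset.sum_sub_distrib]
          congr 1
          apply Finset.sum_congr rfl
          intro t _
          ring
        rw [h1, h2, sub_zero] at this
        exact this.symm
      rw [← h3]
      have h4 : ∀ a : Fin m, ∑ t : Fin (s + 1), (c b * (a.val : ℝ) + d b) ^ (s - (t : ℕ)) *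
            u (Sum.inl a, t) = ∑ k : Fin (s + 1), (c b * (a.val : ℝ) + d b) ^ k.val *
            u (Sum.inl a, Fin.rev k) := by
        intro a
        rw [← Equiv.sum_comp Fin.revPerm]
        apply Finset.sum_congr rfl
        intro k _
        have : s - ((Fin.revPerm k : Fin (s + 1)) : ℕ) = k.val := by
          rw [Fin.revPerm_apply, Fin.val_rev]
          have := k.isLt
          omega
        rw [this]; rfl
      simp only [h4, Finset.mul_sum]
      rw [Finset.sum_comm (s := (Finset.univ : Finset (Fin m)))]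
      apply Finset.sum_congr rfl
      intro k _
      rw [hμ']
      simp only [Finset.mul_sum]
      rw [Finset.sum_comm]
      apply Finset.sum_congr rfl
      intro a _
      rw [add_pow, Finset.sum_mul, Finset.mul_sum]
      apply Finset.sum_congr rfl
      intro i _
      rw [mul_pow, pow_add]
      ring
    show ∑ i : Col N s, μ' i.1 i.2.val * Y b ^ ((N + s) * i.1.val + i.2.val) * wv i t' = 0
    rw [Fintype.sum_sigma]
    have h5 : ∀ k : Fin (s + 1), ∑ r : Fin (N + k.val), μ' k r.val *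
        Y b ^ ((N + s) * k.val + r.val) * wv (⟨k, r⟩ : Col N s) t' =
        (∑ i ∈ Finset.range (k.val + 1), ((k.val.choose i : ℕ) : ℝ) *
        (c b) ^ i * (d b) ^ (k.val - i) * μ' k (t'.val + i)) * Y b ^ t'.val := by
      intro k
      exact (row_id N k.val (N + s) t'.val t'.isLt (Y b) (μ' k)).symm
    rw [Finset.sum_congr rfl (fun k _ => h5 k), ← Finset.sum_mul, key, zero_mul]
  have hall : ∀ k : Fin (s + 1), ∀ r < m, μ' k r = 0 := by
    intro k r hr
    rcases Nat.lt_or_ge r (N + k.val) with h1 | h1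
    · exact congrFun hμ0 ⟨k, ⟨r, h1⟩⟩
    · have hk := k.isLt
      have h2 := congrFun hφ ⟨Fin.rev k, ⟨r - (N + k.val), by
        rw [Fin.val_rev]; omega⟩⟩
      have h3 : N + (s - (Fin.rev k).val) + (r - (N + k.val)) = r := by
        rw [Fin.val_rev]; omega
      have h4 : ∑ a : Fin m, lam m a * ((a.val : ℕ) : ℝ) ^ (N + (s - (Fin.rev k).val) + (r - (N + k.val))) *
        u (Sum.inl a, Fin.rev k) = 0 := h2
      rw [h3] at h4
      exact h4
  have hinjA : Function.Injective (fun a : Fin m => ((a.val : ℕ) : ℝ)) := by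
    intro a b hab
    have h9 : ((a.val : ℕ) : ℝ) = ((b.val : ℕ) : ℝ) := hab
    exact Fin.ext (by exact_mod_cast h9)
  have hUA : ∀ (a : Fin m) (t : Fin (s + 1)), u (Sum.inl a, t) = 0 := by
    intro a t
    have h1 := Matrix.eq_zero_of_forall_pow_sum_mul_pow_eq_zero
      (f := fun a : Fin m => ((a.val : ℕ) : ℝ)) (v := fun a => lam m a * u (Sum.inl a, t)) hinjA (by
        intro i
        have := hall (Fin.rev t) i.val i.isLt
        rw [hμ'] at this
        simp only [Fin.rev_rev] at this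
        rw [← this]
        apply Finset.sum_congr rfl
        intro j _
        ring)
    have h2 := congrFun h1 a
    exact (mul_eq_zero.mp h2).resolve_left (lam_ne m a)
  have hUB : ∀ (b : Fin n) (t : Fin (s + 1)), u (Sum.inr b, t) = 0 := by
    intro b t
    have h1 := Matrix.eq_zero_of_forall_index_sum_pow_mul_eq_zero
      (f := fun j : Fin (s + 1) => c b.val * ((j.val : ℕ) : ℝ) + d b.val)
      (v := fun k => u (Sum.inr b, Fin.rev k)) (by
        intro j j' hjj
        have h2 : c b.val * ((j.val : ℕ) : ℝ) = c b.val * ((j'.val : ℕ) : ℝ) := by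
          have := hjj
          simp only at this
          linarith
        have h3 := mul_left_cancel₀ (hc0 b.val) h2
        exact Fin.ext (by exact_mod_cast h3)) (by
        intro j
        have hj : j.val < m := by have := j.isLt; omega
        have h2 := hE ⟨j.val, hj⟩ b
        simp only [hUA, zero_sub, mul_neg, Finset.sum_neg_distrib, neg_eq_zero] at h2
        rw [← h2]
        rw [← Equiv.sum_comp Fin.revPerm]
        apply Finset.sum_congr rfl
        intro k _
        have : s - (k : ℕ) = ((Fin.revPerm k : Fin (s + 1)) : ℕ) := by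
          rw [Fin.revPerm_apply, Fin.val_rev]
          have := k.isLt
          omega
        rw [this]
        simp)
    have := congrFun h1 (Fin.rev t)
    simpa using this
  funext ⟨v, t⟩
  rcases v with a | b
  · exact hUA a t
  · exact hUB b t

end Pool.Agent.H13.Km
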