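import Pool.Agent.H13.KmC

set_option autoImplicit false
set_option maxHeartbeats 4000000

open Polynomial Classical Topology

namespace Pool.Agent.H13.Km

section
variable {V : Type} [Fintype V] [DecidableEq V]

/-- lower bound for the complete graph -/
theorem complete_ge (s : ℕ) (hV : s + 1 ≤ Fintype.card V) : ∃ x y : V → ℝ,
    Fintype.card V * (s + 1) ≤ (MV s (⊤ : SimpleGraph V) x y).rank + (s + 2).choose 2 := by
  set e := Fintype.equivFin V with he
  refine ⟨fun v => ((e v).val : ℝ), fun v => ((e v).val : ℝ) ^ 2, ?_⟩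
  rw [← card_Ix s]
  let φ : ((V × Fin (s + 1)) → ℝ) →ₗ[ℝ] (Ix s → ℝ) :=
    { toFun := fun u i => u (e.symm ⟨i.2.val, by
        have h1 := i.2.isLt
        have h2 := i.1.isLt
        omega⟩, i.1)
      map_add' := fun u u' => rfl
      map_smul' := fun r u => rfl }
  apply rank_ge s _ _ _ φ
  intro u hu hφ
  rw [mem_ker] at hu
  have main : ∀ q : ℕ, ∀ v : V, (e v).val = q → ∀ t, u (v, t) = 0 := by
    intro q
    induction q using Nat.strong_induction_on with
    | _ q ih =>
      intro v hv
      have hhigh : ∀ t : Fin (s + 1), q ≤ t.val → u (v, t) = 0 := by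
        intro t ht
        have h1 := congrFun hφ ⟨t, ⟨q, by omega⟩⟩
        have h2 : e.symm ⟨q, by have := (e v).isLt; omega⟩ = v := by
          rw [Equiv.symm_apply_eq]
          exact Fin.ext hv.symm
        have h3 : u (e.symm ⟨q, by have := (e v).isLt; omega⟩, t) = 0 := h1
        rw [h2] at h3
        exact h3
      have heq : ∀ j : ℕ, j < q → ∑ t : Fin (s + 1), ((q : ℝ) + j) ^ (t : ℕ) * u (v, t) = 0 := by
        intro j hj
        set w := e.symm ⟨j, by have := (e v).isLt; omega⟩ with hw
        have hew : (e w).val = j := by rw [hw]; simp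
        have hne : v ≠ w := by
          intro h
          rw [h] at hv
          omega
        have h1 := hu v w hne
        simp only [hv, hew] at h1
        have h2 : (∑ t : Fin (s + 1), ((q : ℝ) + j) ^ (t : ℕ) * u (v, t)) * ((q : ℝ) - j) ^ s = 0 := by
          rw [← h1, Finset.sum_mul]
          apply Finset.sum_congr rfl
          intro t _
          have ht := t.isLt
          rw [ih j hj w hew t, sub_zero]
          have e1 : ((q : ℝ) ^ 2 - (j : ℝ) ^ 2) = ((q : ℝ) + j) * ((q : ℝ) - j) := by ring
          have e2 : ((q : ℝ) - j) ^ s = ((q : ℝ) - j) ^ (s - (t : ℕ)) * ((q : ℝ) - j) ^ (t : ℕ) := by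
            rw [← pow_add]; congr 1; omega
          rw [e1, mul_pow, e2]; ring
        have h3 : ((q : ℝ) - j) ≠ 0 := by
          have : (j : ℝ) < q := by exact_mod_cast hj
          linarith
        exact (mul_eq_zero.mp h2).resolve_right (pow_ne_zero _ h3)
      set M' := min q (s + 1) with hM'
      set U : ℕ → ℝ := fun t => if h : t < s + 1 then u (v, ⟨t, h⟩) else 0 with hU
      have hUt : ∀ t : Fin (s + 1), U t.val = u (v, t) := by
        intro t
        rw [hU]
        show (if h : t.val < s + 1 then u (v, ⟨t.val, h⟩) else 0) = u (v, t)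
        rw [dif_pos t.isLt]
      have hU0 : ∀ t, M' ≤ t → U t = 0 := by
        intro t ht
        rw [hU]
        show (if h : t < s + 1 then u (v, ⟨t, h⟩) else 0) = 0
        split_ifs with h
        · apply hhigh
          show q ≤ t
          omega
        · rfl
      have h4 := Matrix.eq_zero_of_forall_index_sum_pow_mul_eq_zero
        (f := fun j : Fin M' => (q : ℝ) + (j.val : ℕ)) (v := fun t : Fin M' => U t.val) (by
          intro a b hab
          have h9 : (q : ℝ) + ((a.val : ℕ) : ℝ) = q + ((b.val : ℕ) : ℝ) := hab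
          have h10 : ((a.val : ℕ) : ℝ) = ((b.val : ℕ) : ℝ) := by linarith
          exact Fin.ext (by exact_mod_cast h10)) (by
          intro j
          have hj := j.isLt
          have h5 := heq j.val (by omega)
          have h6 : ∑ t : Fin (s + 1), ((q : ℝ) + ((j.val : ℕ) : ℝ)) ^ (t : ℕ) * u (v, t) =
              ∑ t ∈ Finset.range (s + 1), ((q : ℝ) + ((j.val : ℕ) : ℝ)) ^ t * U t := by
            rw [← Fin.sum_univ_eq_sum_range (fun t => ((q : ℝ) + ((j.val : ℕ) : ℝ)) ^ t * U t) (s + 1)]
            apply Finset.sum_congr rfl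
            intro t _
            rw [hUt]
          rw [h6] at h5
          rw [Fin.sum_univ_eq_sum_range (fun t => ((q : ℝ) + ((j.val : ℕ) : ℝ)) ^ t * U t) M']
          rw [← h5]
          apply Finset.sum_subset
          · intro t ht
            rw [Finset.mem_range] at ht ⊢
            omega
          · intro t _ ht
            rw [Finset.mem_range] at ht
            rw [hU0 t (by omega), mul_zero])
      intro t
      rcases Nat.lt_or_ge t.val M' with h | h
      · have := congrFun h4 ⟨t.val, h⟩
        rw [← hUt]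
        exact this
      · have := hU0 t.val h
        rw [← hUt]
        exact this
  funext ⟨v, t⟩
  exact main _ v rfl t

/-- the trivial motions -/
noncomputable def Pg (s : ℕ) (x y : V → ℝ) (g : Ix s → ℝ) (v : V) : ℝ[X] :=
  ∑ i : Ix s, C (g i) * ((C (x v) * X - C (y v)) ^ i.2.val * X ^ (i.1.val - i.2.val))

omit [Fintype V] [DecidableEq V] in
lemma Pg_eval (s : ℕ) (x y : V → ℝ) (g : Ix s → ℝ) (v : V) (z : ℝ) :
    (Pg s x y g v).eval z = ∑ i : Ix s, g i * ((x v * z - y v) ^ i.2.val * z ^ (i.1.val - i.2.val)) := by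
  unfold Pg
  rw [eval_finsetSum]
  simp

omit [Fintype V] [DecidableEq V] in
lemma Pg_deg (s : ℕ) (x y : V → ℝ) (g : Ix s → ℝ) (v : V) : (Pg s x y g v).natDegree < s + 1 := by
  unfold Pg
  apply Nat.lt_succ_of_le
  apply natDegree_sum_le_of_forall_le
  intro i _
  refine (natDegree_C_mul_le _ _).trans ?_
  refine natDegree_mul_le.trans ?_
  have h1 : ((C (x v) * X - C (y v)) ^ i.2.val).natDegree ≤ i.2.val := by
    refine natDegree_pow_le.trans ?_
    calc i.2.val * (C (x v) * X - C (y v)).natDegree ≤ i.2.val * 1 := by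
          apply Nat.mul_le_mul_left
          rw [sub_eq_add_neg, ← C_neg]
          exact natDegree_linear_le
      _ = _ := mul_one _
  have h2 := natDegree_X_pow_le (R := ℝ) (i.1.val - i.2.val)
  have h3 := i.2.isLt
  have h4 := i.1.isLt
  omega

/-- upper bound for the complete graph, distinct abscissae -/
theorem complete_le_inj (s : ℕ) (hV : s + 1 ≤ Fintype.card V) (x y : V → ℝ)
    (hx : Function.Injective x) :
    (MV s (⊤ : SimpleGraph V) x y).rank + (s + 2).choose 2 ≤ Fintype.card V * (s + 1) := by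
  rw [← card_Ix s]
  let ψ : (Ix s → ℝ) →ₗ[ℝ] ((V × Fin (s + 1)) → ℝ) :=
    { toFun := fun g p => (Pg s x y g p.1).coeff p.2.val
      map_add' := by
        intro g g'
        funext p
        simp only [Pg, Pi.add_apply, map_add, add_mul, Finset.sum_add_distrib, coeff_add]
      map_smul' := by
        intro r g
        funext p
        simp only [Pg, Pi.smul_apply, smul_eq_mul, RingHom.id_apply, finsetSum_coeff, coeff_C_mul,
          Finset.mul_sum, mul_assoc] }
  apply rank_le s _ x y ψ
  · rw [← LinearMap.ker_eq_bot, LinearMap.ker_eq_bot']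
    intro g hg
    have hP : ∀ v, Pg s x y g v = 0 := by
      intro v
      ext t
      rw [coeff_zero]
      rcases Nat.lt_or_ge t (s + 1) with h | h
      · exact congrFun hg (v, ⟨t, h⟩)
      · exact coeff_eq_zero_of_natDegree_lt (lt_of_lt_of_le (Pg_deg s x y g v) h)
    set Q : ℕ → ℝ[X] := fun k => ∑ i : Ix s, if i.2.val = k then C (g i) * X ^ (i.1.val - i.2.val) else 0
      with hQ
    obtain ⟨em⟩ : Nonempty (Fin (s + 1) ↪ V) := by
      apply Function.Embedding.nonempty_of_card_le
      simpa using hV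
    set bad : Set ℝ := Set.range (fun p : V × V => (y p.1 - y p.2) / (x p.1 - x p.2)) with hbad
    have hbadf : bad.Finite := Set.finite_range _
    have hQz : ∀ z, z ∉ bad → ∀ k : Fin (s + 1), (Q k.val).eval z = 0 := by
      intro z hz
      have h1 := Matrix.eq_zero_of_forall_index_sum_mul_pow_eq_zero
        (f := fun j : Fin (s + 1) => x (em j) * z - y (em j))
        (v := fun k : Fin (s + 1) => (Q k.val).eval z) (by
          intro a b hab
          by_contra hne
          apply hz
          refine ⟨(em a, em b), ?_⟩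
          have h2 : x (em a) * z - y (em a) = x (em b) * z - y (em b) := hab
          have h3 : x (em a) - x (em b) ≠ 0 := by
            rw [sub_ne_zero]
            intro h; exact hne (em.injective (hx h))
          show (y (em a) - y (em b)) / (x (em a) - x (em b)) = z
          rw [div_eq_iff h3]
          linarith) (by
          intro j
          have h2 := congrArg (fun p => Polynomial.eval z p) (hP (em j))
          simp only [Pg_eval, eval_zero] at h2
          rw [← h2]
          rw [Fin.sum_univ_eq_sum_range (fun k => (Q k).eval z * (x (em j) * z - y (em j)) ^ k) (s + 1)]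
          simp only [hQ, eval_finsetSum, Finset.sum_mul]
          rw [Finset.sum_comm]
          apply Finset.sum_congr rfl
          intro i _
          rw [Finset.sum_eq_single i.2.val]
          · simp; ring
          · intro k _ hk
            rw [if_neg (fun h => hk h.symm)]
            simp
          · intro h
            exfalso; apply h
            have h3 := i.2.isLt
            have h4 := i.1.isLt
            rw [Finset.mem_range]; omega)
      intro k
      exact congrFun h1 k
    have hQ0 : ∀ k : Fin (s + 1), Q k.val = 0 := by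
      intro k
      apply Polynomial.eq_zero_of_infinite_isRoot
      exact (Set.infinite_univ.sdiff hbadf).mono (fun z hz => hQz z hz.2 k)
    funext i
    have h3 := i.2.isLt
    have h4 := i.1.isLt
    have h5 := congrArg (fun p => Polynomial.coeff p (i.1.val - i.2.val)) (hQ0 ⟨i.2.val, by omega⟩)
    simp only [hQ, finsetSum_coeff, coeff_zero] at h5
    rw [Finset.sum_eq_single i] at h5
    · simpa using h5
    · intro i' _ hne
      split_ifs with h
      · rw [coeff_C_mul, coeff_X_pow, if_neg, mul_zero]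
        intro h'
        apply hne
        have h6 := i'.2.isLt
        have h7 := i'.1.isLt
        have h8 : i'.1.val = i.1.val := by omega
        obtain ⟨⟨t, ht⟩, ⟨k, hk⟩⟩ := i
        obtain ⟨⟨t', ht'⟩, ⟨k', hk'⟩⟩ := i'
        simp only at h8 h
        subst h8; subst h; rfl
      · exact coeff_zero _
    · intro h; exact absurd (Finset.mem_univ _) h
  · intro g
    rw [mem_ker]
    intro i j hij
    have hne : i ≠ j := hij
    have hdx : x i - x j ≠ 0 := by
      rw [sub_ne_zero]; intro h; exact hne (hx h)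
    set z := (y i - y j) / (x i - x j) with hz
    have hyz : y i - y j = (x i - x j) * z := by rw [hz]; field_simp
    have hev : ∀ v, (Pg s x y g v).eval z = ∑ t : Fin (s + 1), (Pg s x y g v).coeff t.val * z ^ t.val := by
      intro v
      rw [eval_eq_sum_range' (Pg_deg s x y g v)]
      exact (Fin.sum_univ_eq_sum_range (fun t => (Pg s x y g v).coeff t * z ^ t) (s + 1)).symm
    have heq : (Pg s x y g i).eval z = (Pg s x y g j).eval z := by
      rw [Pg_eval, Pg_eval]
      have : x i * z - y i = x j * z - y j := by linarith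
      rw [this]
    rw [hev, hev] at heq
    have h1 : ∑ t : Fin (s + 1), (x i - x j) ^ (s - (t : ℕ)) * (y i - y j) ^ (t : ℕ) *
        ((Pg s x y g i).coeff t.val - (Pg s x y g j).coeff t.val) =
        (x i - x j) ^ s * (∑ t : Fin (s + 1), (Pg s x y g i).coeff t.val * z ^ t.val -
          ∑ t : Fin (s + 1), (Pg s x y g j).coeff t.val * z ^ t.val) := by
      rw [← Finset.sum_sub_distrib, Finset.mul_sum]
      apply Finset.sum_congr rfl
      intro t _
      have ht := t.isLt
      have e2 : (x i - x j) ^ s = (x i - x j) ^ (s - (t : ℕ)) * (x i - x j) ^ (t : ℕ) := by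
        rw [← pow_add]; congr 1; omega
      rw [hyz, mul_pow, e2]; ring
    show ∑ t : Fin (s + 1), (x i - x j) ^ (s - (t : ℕ)) * (y i - y j) ^ (t : ℕ) *
        ((Pg s x y g i).coeff t.val - (Pg s x y g j).coeff t.val) = 0
    rw [h1, heq, sub_self, mul_zero]

/-- lower semicontinuity of the rank -/
theorem semi (s : ℕ) (G : SimpleGraph V) (x y ν : V → ℝ) (ρ : ℕ) (h : ρ ≤ (MV s G x y).rank) :
    ∀ᶠ τ in 𝓝 (0 : ℝ), ρ ≤ (MV s G (fun v => x v + τ * ν v) y).rank := by
  set Lm : Matrix (V × V) (V × Fin (s + 1)) ℝ →ₗ[ℝ]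
      ((V × Fin (s + 1) → ℝ) →L[ℝ] (V × V → ℝ)) :=
    (LinearMap.toContinuousLinearMap :
      ((V × Fin (s + 1) → ℝ) →ₗ[ℝ] (V × V → ℝ)) ≃ₗ[ℝ] _).toLinearMap ∘ₗ
      (Matrix.toLin' : Matrix (V × V) (V × Fin (s + 1)) ℝ ≃ₗ[ℝ] _).toLinearMap with hLm
  have hLc : Continuous Lm := LinearMap.continuous_of_finiteDimensional Lm
  have hMc : Continuous (fun τ : ℝ => MV s G (fun v => x v + τ * ν v) y) := by
    apply continuous_matrix
    intro e c
    unfold MV
    simp only [Matrix.of_apply]
    split_ifs <;> fun_prop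
  have hcomp := hLc.comp hMc
  have hopen := isOpen_setOfPred_nat_le_rank (𝕜 := ℝ) (E := (V × Fin (s + 1) → ℝ))
    (F := (V × V → ℝ)) ρ
  have hiff : ∀ A : Matrix (V × V) (V × Fin (s + 1)) ℝ, (ρ ≤ A.rank ↔
      Lm A ∈ { f : (V × Fin (s + 1) → ℝ) →L[ℝ] (V × V → ℝ) |
        (ρ : Cardinal) ≤ (f : (V × Fin (s + 1) → ℝ) →ₗ[ℝ] (V × V → ℝ)).rank }) := by
    intro A
    show ρ ≤ A.rank ↔ (ρ : Cardinal) ≤ LinearMap.rank A.mulVecLin
    unfold LinearMap.rank Matrix.rank
    rw [← Module.finrank_eq_rank]
    exact Nat.cast_le.symm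
  have hmem := hopen.preimage hcomp
  have h0 : (0 : ℝ) ∈ (Lm ∘ fun τ : ℝ => MV s G (fun v => x v + τ * ν v) y) ⁻¹'
      { f : (V × Fin (s + 1) → ℝ) →L[ℝ] (V × V → ℝ) |
        (ρ : Cardinal) ≤ (f : (V × Fin (s + 1) → ℝ) →ₗ[ℝ] (V × V → ℝ)).rank } := by
    exact (hiff (MV s G (fun v => x v + 0 * ν v) y)).mp (by simpa using h)
  filter_upwards [hmem.mem_nhds h0] with τ hτ
  exact (hiff _).mpr hτ

/-- upper bound for the complete graph -/
theorem complete_le (s : ℕ) (hV : s + 1 ≤ Fintype.card V) (x y : V → ℝ) :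
    (MV s (⊤ : SimpleGraph V) x y).rank + (s + 2).choose 2 ≤ Fintype.card V * (s + 1) := by
  set ν : V → ℝ := fun v => ((Fintype.equivFin V v).val : ℝ) with hν
  have hνi : Function.Injective ν := by
    intro a b hab
    have h9 : (((Fintype.equivFin V a).val : ℕ) : ℝ) = (((Fintype.equivFin V b).val : ℕ) : ℝ) := hab
    exact (Fintype.equivFin V).injective (Fin.ext (by exact_mod_cast h9))
  have h1 := semi s (⊤ : SimpleGraph V) x y ν _ le_rfl
  have h2 : {τ : ℝ | (MV s (⊤ : SimpleGraph V) x y).rank ≤
      (MV s (⊤ : SimpleGraph V) (fun v => x v + τ * ν v) y).rank}.Infinite :=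
    infinite_of_mem_nhds 0 h1
  set bad : Set ℝ := Set.range (fun p : V × V => (x p.2 - x p.1) / (ν p.1 - ν p.2)) with hbad
  obtain ⟨τ, hτ1, hτ2⟩ := (h2.sdiff (Set.finite_range (fun p : V × V =>
    (x p.2 - x p.1) / (ν p.1 - ν p.2)))).nonempty
  have h3 := complete_le_inj s hV (fun v => x v + τ * ν v) y (by
    intro a b hab
    by_contra hne
    apply hτ2
    refine ⟨(a, b), ?_⟩
    have h4 : x a + τ * ν a = x b + τ * ν b := hab
    have h5 : ν a - ν b ≠ 0 := by
      rw [sub_ne_zero]; intro h; exact hne (hνi h)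
    show (x b - x a) / (ν a - ν b) = τ
    rw [div_eq_iff h5]
    linarith)
  have h4 : (MV s (⊤ : SimpleGraph V) x y).rank ≤
      (MV s (⊤ : SimpleGraph V) (fun v => x v + τ * ν v) y).rank := hτ1
  omega

end

/-- the rank of the bipartite matrix is at most the number of edges -/
theorem bip_le (s m n : ℕ) (x y : Fin m ⊕ Fin n → ℝ) :
    (MV s (completeBipartiteGraph (Fin m) (Fin n)) x y).rank ≤ m * n := by
  let Ψ : (((Fin m ⊕ Fin n) × Fin (s + 1)) → ℝ) →ₗ[ℝ] (Fin m × Fin n → ℝ) :=
    { toFun := fun u p => ∑ t : Fin (s + 1), (x (Sum.inl p.1) - x (Sum.inr p.2)) ^ (s - (t : ℕ)) *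
        (y (Sum.inl p.1) - y (Sum.inr p.2)) ^ (t : ℕ) * (u (Sum.inl p.1, t) - u (Sum.inr p.2, t))
      map_add' := by
        intro u u'
        funext p
        simp only [Pi.add_apply]
        rw [← Finset.sum_add_distrib]
        apply Finset.sum_congr rfl
        intro t _
        ring
      map_smul' := by
        intro r u
        funext p
        simp only [Pi.smul_apply, smul_eq_mul, RingHom.id_apply, Finset.mul_sum]
        apply Finset.sum_congr rfl
        intro t _
        ring }
  have hle : LinearMap.ker Ψ ≤ LinearMap.ker (MV s (completeBipartiteGraph (Fin m) (Fin n)) x y).mulVecLin := by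
    intro u hu
    rw [mem_ker]
    have h1 : ∀ (a : Fin m) (b : Fin n), ∑ t : Fin (s + 1), (x (Sum.inl a) - x (Sum.inr b)) ^ (s - (t : ℕ)) *
        (y (Sum.inl a) - y (Sum.inr b)) ^ (t : ℕ) * (u (Sum.inl a, t) - u (Sum.inr b, t)) = 0 :=
      fun a b => congrFun (LinearMap.mem_ker.mp hu) (a, b)
    intro i j hij
    rcases i with a | b <;> rcases j with a' | b'
    · simp [completeBipartiteGraph] at hij
    · exact h1 a b'
    · have h2 := h1 a' b
      have h3 : ∑ t : Fin (s + 1), (x (Sum.inr b) - x (Sum.inl a')) ^ (s - (t : ℕ)) *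
        (y (Sum.inr b) - y (Sum.inl a')) ^ (t : ℕ) * (u (Sum.inr b, t) - u (Sum.inl a', t)) =
        (-1) ^ (s + 1) * ∑ t : Fin (s + 1), (x (Sum.inl a') - x (Sum.inr b)) ^ (s - (t : ℕ)) *
        (y (Sum.inl a') - y (Sum.inr b)) ^ (t : ℕ) * (u (Sum.inl a', t) - u (Sum.inr b, t)) := by
        rw [Finset.mul_sum]
        apply Finset.sum_congr rfl
        intro t _
        have ht := t.isLt
        have e1 : x (Sum.inr b) - x (Sum.inl a') = (-1) * (x (Sum.inl a') - x (Sum.inr b)) := by ring
        have e2 : y (Sum.inr b) - y (Sum.inl a') = (-1) * (y (Sum.inl a') - y (Sum.inr b)) := by ring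
        have e3 : ((-1 : ℝ)) ^ (s + 1) = (-1) ^ (s - (t : ℕ)) * (-1) ^ (t : ℕ) * (-1) := by
          rw [← pow_add, ← pow_succ]; congr 1; omega
        rw [e1, e2, mul_pow, mul_pow, e3]; ring
      rw [h3, h2, mul_zero]
    · simp [completeBipartiteGraph] at hij
  have h1 := rank_add s (completeBipartiteGraph (Fin m) (Fin n)) x y
  have h2 := LinearMap.finrank_range_add_finrank_ker Ψ
  rw [Module.finrank_fintype_fun_eq_card, Fintype.card_prod, Fintype.card_fin] at h2
  have h3 : Module.finrank ℝ (LinearMap.range Ψ) ≤ m * n := by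
    refine (Submodule.finrank_le _).trans (le_of_eq ?_)
    rw [Module.finrank_fintype_fun_eq_card, Fintype.card_prod, Fintype.card_fin, Fintype.card_fin]
  have h4 := Submodule.finrank_mono hle
  omega

theorem main_thm (s m n : ℕ) (hs : 1 ≤ s) (hm : 2 ≤ m) (hn : 2 ≤ n) (hmn : s + 2 ≤ m + n) :
    (∃ x y : Fin m ⊕ Fin n → ℝ, ∀ x' y' : Fin m ⊕ Fin n → ℝ,
      (MV s (⊤ : SimpleGraph (Fin m ⊕ Fin n)) x' y').rank ≤
        (MV s (completeBipartiteGraph (Fin m) (Fin n)) x y).rank) ↔
      (((s : ℤ) + 1) * ((m : ℤ) + (n : ℤ)) - (((s + 2).choose 2 : ℕ) : ℤ) ≤ (m : ℤ) * (n : ℤ)) := by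
  have hcard : Fintype.card (Fin m ⊕ Fin n) = m + n := by simp
  have hV : s + 1 ≤ Fintype.card (Fin m ⊕ Fin n) := by rw [hcard]; omega
  constructor
  · rintro ⟨x, y, h⟩
    obtain ⟨x', y', h'⟩ := complete_ge (V := Fin m ⊕ Fin n) s hV
    have h1 := h x' y'
    have h2 := bip_le s m n x y
    rw [hcard] at h'
    have h3 : (m + n) * (s + 1) ≤ m * n + (s + 2).choose 2 := by omega
    have h4 : ((m : ℤ) + n) * (s + 1) ≤ m * n + ((s + 2).choose 2 : ℕ) := by exact_mod_cast h3
    linarith
  · intro h
    -- arithmetic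
    have hch : (2 : ℤ) * (((s + 2).choose 2 : ℕ) : ℤ) = ((s : ℤ) + 2) * (s + 1) := by
      have := Nat.triangle_succ (s + 1)
      have h5 : (s + 2).choose 2 * 2 = (s + 2) * (s + 1) := by
        rw [Nat.choose_two_right]
        exact Nat.div_mul_cancel (by
          have := Nat.even_mul_succ_self (s + 1)
          rw [mul_comm] at this
          exact this.two_dvd)
      have h6 : (((s + 2).choose 2 : ℕ) : ℤ) * 2 = ((s : ℤ) + 2) * (s + 1) := by exact_mod_cast h5
      linarith
    have hch1 : (2 : ℤ) * (((s + 1).choose 2 : ℕ) : ℤ) = ((s : ℤ) + 1) * s := by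
      have h5 : (s + 1).choose 2 * 2 = (s + 1) * s := by
        rw [Nat.choose_two_right]
        exact Nat.div_mul_cancel (by
          have := Nat.even_mul_succ_self s
          rw [mul_comm] at this
          exact this.two_dvd)
      have h6 : (((s + 1).choose 2 : ℕ) : ℤ) * 2 = ((s : ℤ) + 1) * s := by exact_mod_cast h5
      linarith
    have hpq : ((s : ℤ) + 1) * s ≤ 2 * (((m : ℤ) - s - 1) * ((n : ℤ) - s - 1)) := by nlinarith
    have hs' : (1 : ℤ) ≤ s := by exact_mod_cast hs
    have hmn' : (s : ℤ) + 2 ≤ m + n := by exact_mod_cast hmn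
    have hm2 : s + 2 ≤ m := by
      by_contra hcon
      push Not at hcon
      have h7 : (m : ℤ) - s - 1 ≤ 0 := by
        have : (m : ℤ) < s + 2 := by exact_mod_cast hcon
        linarith
      have h8 : (n : ℤ) - s - 1 < 0 := by
        by_contra h9
        push Not at h9
        nlinarith
      nlinarith [sq_nonneg (((m : ℤ) - s - 1) - ((n : ℤ) - s - 1)),
        mul_nonneg (sub_nonneg.mpr h7) (sub_nonneg.mpr h8.le)]
    have hoff : off (m - s - 1) (s + 1) ≤ n * (m - s - 1) := by
      unfold off
      obtain ⟨p, hp⟩ : ∃ p, m = s + 1 + p := ⟨m - s - 1, by omega⟩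
      have hp2 : m - s - 1 = p := by omega
      rw [hp2]
      have : (((s + 1) * p + (s + 1).choose 2 : ℕ) : ℤ) ≤ ((n * p : ℕ) : ℤ) := by
        push_cast
        rw [hp] at hpq
        push_cast at hpq
        nlinarith
      exact_mod_cast this
    obtain ⟨x, y, hxy⟩ := bip s m n hm2 hoff
    refine ⟨x, y, ?_⟩
    intro x' y'
    have h9 := complete_le (V := Fin m ⊕ Fin n) s hV x' y'
    rw [hcard] at h9
    omega

end Pool.Agent.H13.Km
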