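import Mathlib

/-! Definitions for van Lint's pairing problem (MP_7e7d68_co). -/

namespace Pool.Agent.H13.Lint

/-- `G ⊆ A × B`, with `A = Fin (2n)` and `B = Fin m`, is a bipartite graph.  It has the pairing
property if for every splitting of `A` into `n` pairs `{e (s, false), e (s, true)}` (`s < n`) there
are pairwise distinct vertices `k s` of `B`, with `k s` a common neighbour of the `s`-th pair. -/
def PairingProperty (n m : ℕ) (G : Fin (2 * n) → Fin m → Prop) : Prop :=
  ∀ e : (Fin n × Bool) ≃ Fin (2 * n), ∃ k : Fin n → Fin m, Function.Injective k ∧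
    ∀ s, G (e (s, false)) (k s) ∧ G (e (s, true)) (k s)

/-- degree of the vertex `a ∈ A` -/
noncomputable def degA {n m : ℕ} (G : Fin (2 * n) → Fin m → Prop) (a : Fin (2 * n)) : ℕ :=
  {b | G a b}.ncard

/-- `Δ_A(G)`: the maximum degree among the vertices of `A` -/
noncomputable def maxDegA {n m : ℕ} (G : Fin (2 * n) → Fin m → Prop) : ℕ :=
  Finset.univ.sup (degA G)

/-- `λ(n, m)` -/
noncomputable def lam2 (n m : ℕ) : ℕ :=
  sInf {d | ∃ G : Fin (2 * n) → Fin m → Prop, PairingProperty n m G ∧ maxDegA G = d}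

/-- `λ(n)`: the least value of `λ(n, m)` over all `m ≥ n` -/
noncomputable def lam (n : ℕ) : ℕ :=
  sInf {d | ∃ m, n ≤ m ∧ lam2 n m = d}

end Pool.Agent.H13.Lint
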