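import Mathlib

/-! Lower bound for van Lint's pairing problem: weighted random subset argument. -/

namespace Pool.Agent.H13.Lint

open Finset

section Expect

variable {B : Type*} [Fintype B] [DecidableEq B]

/-- product weight -/
noncomputable def wt (p : B → ℝ) (U : Finset B) : ℝ :=
  (∏ b ∈ U, p b) * ∏ b ∈ univ \ U, (1 - p b)

/-- expectation over random subset -/
noncomputable def Ex (p : B → ℝ) (f : Finset B → ℝ) : ℝ := ∑ U : Finset B, wt p U * f U

/-- indicator -/
noncomputable def ind (S U : Finset B) : ℝ := if S ⊆ U then 1 else 0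

theorem wt_nonneg {p : B → ℝ} (h0 : ∀ b, 0 ≤ p b) (h1 : ∀ b, p b ≤ 1) (U : Finset B) :
    0 ≤ wt p U :=
  mul_nonneg (prod_nonneg fun b _ => h0 b) (prod_nonneg fun b _ => by linarith [h1 b])

theorem Ex_ind (p : B → ℝ) (S : Finset B) : Ex p (ind S) = ∏ b ∈ S, p b := by
  have h := Finset.prod_add p (fun b => if b ∈ S then 0 else 1 - p b) univ
  rw [powerset_univ] at h
  have h1 : ∏ b, (p b + (if b ∈ S then 0 else 1 - p b)) = ∏ b ∈ S, p b := by
    rw [← Finset.prod_subset (Finset.subset_univ S)
      (f := fun b => p b + (if b ∈ S then 0 else 1 - p b))]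
    · apply Finset.prod_congr rfl
      intro b hb
      simp [hb]
    · intro b _ hb
      simp [hb]
  rw [h1] at h
  rw [h]
  unfold Ex
  apply Finset.sum_congr rfl
  intro U _
  unfold wt ind
  by_cases hS : S ⊆ U
  · rw [if_pos hS, mul_one]
    congr 1
    apply Finset.prod_congr rfl
    intro b hb
    rw [if_neg]
    intro hbS
    exact (Finset.mem_sdiff.1 hb).2 (hS hbS)
  · rw [if_neg hS, mul_zero]
    obtain ⟨b, hbS, hbU⟩ := Finset.not_subset.1 hS
    symm
    apply mul_eq_zero_of_right
    apply Finset.prod_eq_zero (i := b) (by simp [hbU])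
    simp [hbS]

theorem Ex_const (p : B → ℝ) (c : ℝ) : Ex p (fun _ => c) = c := by
  have h := Ex_ind p ∅
  have e : ∀ U : Finset B, ind ∅ U = 1 := fun U => by unfold ind; simp
  unfold Ex at h ⊢
  simp only [e, prod_empty, mul_one] at h
  rw [← Finset.sum_mul, h, one_mul]

theorem Ex_add (p : B → ℝ) (f g : Finset B → ℝ) :
    Ex p (fun U => f U + g U) = Ex p f + Ex p g := by
  unfold Ex; rw [← Finset.sum_add_distrib]; apply Finset.sum_congr rfl; intros; ring

theorem Ex_sub (p : B → ℝ) (f g : Finset B → ℝ) :
    Ex p (fun U => f U - g U) = Ex p f - Ex p g := by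
  unfold Ex; rw [← Finset.sum_sub_distrib]; apply Finset.sum_congr rfl; intros; ring

theorem Ex_mul (p : B → ℝ) (c : ℝ) (f : Finset B → ℝ) :
    Ex p (fun U => c * f U) = c * Ex p f := by
  unfold Ex; rw [Finset.mul_sum]; apply Finset.sum_congr rfl; intros; ring

theorem Ex_sum {ι : Type*} (p : B → ℝ) (s : Finset ι) (f : ι → Finset B → ℝ) :
    Ex p (fun U => ∑ i ∈ s, f i U) = ∑ i ∈ s, Ex p (f i) := by
  unfold Ex
  rw [Finset.sum_comm]
  apply Finset.sum_congr rfl; intros; rw [Finset.mul_sum]

theorem Ex_mono {p : B → ℝ} (h0 : ∀ b, 0 ≤ p b) (h1 : ∀ b, p b ≤ 1) {f g : Finset B → ℝ}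
    (h : ∀ U, f U ≤ g U) : Ex p f ≤ Ex p g :=
  Finset.sum_le_sum fun U _ => mul_le_mul_of_nonneg_left (h U) (wt_nonneg h0 h1 U)

theorem Ex_card (p : B → ℝ) : Ex p (fun U => (U.card : ℝ)) = ∑ b, p b := by
  have : ∀ U : Finset B, (U.card : ℝ) = ∑ b, ind {b} U := by
    intro U
    unfold ind
    simp
  simp_rw [this]
  rw [Ex_sum]
  apply Finset.sum_congr rfl
  intro b _
  rw [Ex_ind]; simp

omit [Fintype B] in
theorem ind_mul (S S' U : Finset B) : ind S U * ind S' U = ind (S ∪ S') U := by
  unfold ind
  by_cases h : S ⊆ U <;> by_cases h' : S' ⊆ U <;> simp [h, h', Finset.union_subset_iff]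

end Expect

section Main

variable {A B : Type*} [Fintype A] [DecidableEq A] [Fintype B] [DecidableEq B]

/-- The key inequality. -/
theorem key (N : A → Finset B) (ℓ : ℕ) (hℓ : ∀ a, (N a).card ≤ ℓ)
    (hstar : ∀ U : Finset B, ∃ T : Finset A, T.card ≤ 2 * U.card ∧
      ∀ a a', a ≠ a' → a ∉ T → a' ∉ T → ¬ (N a ∩ N a' ⊆ U))
    (D L τ : ℝ) (hD : 0 < D) (hL : 0 < L) (hτ : 0 < τ) :
    (Fintype.card A : ℝ) * (Fintype.card A - 1) - D * (Fintype.card A) * ℓ / L ≤
      4 * (Fintype.card A : ℝ) ^ 2 * ℓ / D +
      (Fintype.card A : ℝ) * (ℓ * D ^ 2 * Real.exp L / τ + τ) := by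
  classical
  set d : B → ℕ := fun b => (univ.filter (fun a => b ∈ N a)).card with hd
  set p : B → ℝ := fun b => min 1 (d b / D) with hp
  have hp0 : ∀ b, 0 ≤ p b := fun b => le_min zero_le_one (by positivity)
  have hp1 : ∀ b, p b ≤ 1 := fun b => min_le_left _ _
  have hdpos : ∀ a b, b ∈ N a → 0 < d b := by
    intro a b hb
    exact Finset.card_pos.2 ⟨a, by simp [hb]⟩
  have hppos : ∀ a b, b ∈ N a → 0 < p b := by
    intro a b hb
    have := hdpos a b hb
    exact lt_min zero_lt_one (by positivity)
  -- double counting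
  have hdsum : (∑ b, (d b : ℝ)) ≤ Fintype.card A * ℓ := by
    have h1 : ∑ b, d b = ∑ a, (N a).card := by
      have := Finset.sum_card_bipartiteAbove_eq_sum_card_bipartiteBelow
        (s := (univ : Finset A)) (t := (univ : Finset B)) (fun a b => b ∈ N a)
      simp only [Finset.bipartiteAbove, Finset.bipartiteBelow] at this
      rw [hd, ← this]
      apply Finset.sum_congr rfl
      intro a _
      congr 1
      ext b; simp
    have h2 : ∑ a, (N a).card ≤ Fintype.card A * ℓ := by
      calc ∑ a, (N a).card ≤ ∑ _a : A, ℓ := Finset.sum_le_sum fun a _ => hℓ a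
        _ = Fintype.card A * ℓ := by simp
    exact_mod_cast h1 ▸ h2
  set S : A → A → Finset B := fun a a' => N a ∩ N a' with hS
  set π : Finset B → ℝ := fun S => ∏ b ∈ S, p b with hπ
  have hπ_anti : ∀ S S' : Finset B, S ⊆ S' → π S' ≤ π S := by
    intro S S' h
    exact Finset.prod_le_prod_of_subset_of_le_one h (fun i _ => hp0 i) (fun i _ _ => hp1 i)
  have hπ0 : ∀ S, 0 ≤ π S := fun S => Finset.prod_nonneg fun b _ => hp0 b
  have hπpos : ∀ a a', 0 < π (S a a') := by
    intro a a'
    apply Finset.prod_pos
    intro b hb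
    exact hppos a b (Finset.mem_inter.1 hb).1
  set ε : ℝ := Real.exp (-L) with hε
  have hεpos : 0 < ε := Real.exp_pos _
  set Gd : A → Finset A := fun a => univ.filter (fun a' => a ≠ a' ∧ ε ≤ π (S a a')) with hGd
  set X : A → Finset B → ℝ := fun a U => ∑ a' ∈ Gd a, (π (S a a'))⁻¹ * ind (S a a') U with hX
  set μ : A → ℝ := fun a => ((Gd a).card : ℝ) with hμ
  have hEX : ∀ a, Ex p (X a) = μ a := by
    intro a
    rw [hX]
    simp only
    rw [Ex_sum]
    simp_rw [Ex_mul, Ex_ind]
    rw [hμ]
    simp only
    rw [Finset.card_eq_sum_ones, Nat.cast_sum]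
    apply Finset.sum_congr rfl
    intro a' _
    have := (hπpos a a').ne'
    simp only [Nat.cast_one]
    exact inv_mul_cancel₀ this
  -- second moment
  have hVar : ∀ a, Ex p (fun U => (X a U - μ a) ^ 2) ≤ ℓ * D ^ 2 * Real.exp L := by
    intro a
    have e1 : Ex p (fun U => (X a U - μ a) ^ 2) =
        ∑ a' ∈ Gd a, ∑ a'' ∈ Gd a, ((π (S a a' ∩ S a a''))⁻¹ - 1) := by
      have e2 : ∀ U, (X a U - μ a) ^ 2 = (X a U) ^ 2 - (2 * μ a) * X a U + μ a ^ 2 := by
        intro U; ring
      simp_rw [e2]
      have e3 : Ex p (fun U => (X a U) ^ 2 - (2 * μ a) * X a U + μ a ^ 2) =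
          Ex p (fun U => (X a U) ^ 2) - (2 * μ a) * μ a + μ a ^ 2 := by
        rw [Ex_add, Ex_sub, Ex_mul, Ex_const, hEX]
      rw [e3]
      have e4 : Ex p (fun U => (X a U) ^ 2) =
          ∑ a' ∈ Gd a, ∑ a'' ∈ Gd a, (π (S a a' ∩ S a a''))⁻¹ := by
        have e5 : ∀ U, (X a U) ^ 2 = ∑ a' ∈ Gd a, ∑ a'' ∈ Gd a,
            ((π (S a a'))⁻¹ * (π (S a a''))⁻¹) * ind (S a a' ∪ S a a'') U := by
          intro U
          rw [hX]
          simp only
          rw [sq, Finset.sum_mul_sum]
          apply Finset.sum_congr rfl; intro a' _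
          apply Finset.sum_congr rfl; intro a'' _
          rw [← ind_mul]; ring
        simp_rw [e5]
        rw [Ex_sum]
        apply Finset.sum_congr rfl; intro a' _
        rw [Ex_sum]
        apply Finset.sum_congr rfl; intro a'' _
        rw [Ex_mul, Ex_ind]
        have h1 : (∏ b ∈ S a a' ∪ S a a'', p b) * π (S a a' ∩ S a a'') =
            π (S a a') * π (S a a'') := Finset.prod_union_inter
        have h2 : 0 < π (S a a' ∩ S a a'') :=
          lt_of_lt_of_le (hπpos a a') (hπ_anti _ _ Finset.inter_subset_left)
        have h3 := hπpos a a'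
        have h4 := hπpos a a''
        apply eq_inv_of_mul_eq_one_left
        calc (π (S a a'))⁻¹ * (π (S a a''))⁻¹ * (∏ b ∈ S a a' ∪ S a a'', p b) *
              π (S a a' ∩ S a a'')
            = ((∏ b ∈ S a a' ∪ S a a'', p b) * π (S a a' ∩ S a a'')) *
              ((π (S a a'))⁻¹ * (π (S a a''))⁻¹) := by ring
          _ = (π (S a a') * π (S a a'')) * ((π (S a a'))⁻¹ * (π (S a a''))⁻¹) := by rw [h1]
          _ = 1 := by field_simp
      rw [e4]
      simp_rw [Finset.sum_sub_distrib]
      simp only [Finset.sum_const, nsmul_eq_mul, mul_one]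
      rw [hμ]
      ring
    rw [e1]
    have hbound : ∀ a' ∈ Gd a, ∀ a'' ∈ Gd a, ((π (S a a' ∩ S a a''))⁻¹ - 1) ≤
        ∑ b ∈ (N a).filter (fun b => (d b : ℝ) < D),
          Real.exp L * ((if b ∈ N a' then 1 else 0) * (if b ∈ N a'' then 1 else 0)) := by
      intro a' ha' a'' ha''
      by_cases hex : ∃ b ∈ S a a' ∩ S a a'', p b < 1
      · obtain ⟨b, hb, hb1⟩ := hex
        have hb' := Finset.mem_inter.1 hb
        have hb2 := Finset.mem_inter.1 hb'.1
        have hb3 := Finset.mem_inter.1 hb'.2
        have hdb : (d b : ℝ) < D := by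
          by_contra hge
          push Not at hge
          have : p b = 1 := by
            rw [hp]
            simp only
            rw [min_eq_left]
            rw [le_div_iff₀ hD]; linarith
          linarith
        have h5 : Real.exp L * ((if b ∈ N a' then 1 else 0) * (if b ∈ N a'' then 1 else 0)) ≤
          ∑ b ∈ (N a).filter (fun b => (d b : ℝ) < D),
            Real.exp L * ((if b ∈ N a' then 1 else 0) * (if b ∈ N a'' then 1 else 0)) := by
          apply Finset.single_le_sum (f := fun b => Real.exp L *
            ((if b ∈ N a' then (1 : ℝ) else 0) * (if b ∈ N a'' then 1 else 0)))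
          · intro i _
            have := Real.exp_pos L
            positivity
          · simp [hb2.1, hdb]
        rw [if_pos hb2.2, if_pos hb3.2] at h5
        have h6 : (π (S a a' ∩ S a a''))⁻¹ ≤ Real.exp L := by
          have h7 : ε ≤ π (S a a' ∩ S a a'') :=
            le_trans (by simp only [hGd, mem_filter] at ha'; exact ha'.2.2)
              (hπ_anti _ _ Finset.inter_subset_left)
          calc (π (S a a' ∩ S a a''))⁻¹ ≤ ε⁻¹ := inv_anti₀ hεpos h7
            _ = Real.exp L := by rw [hε, Real.exp_neg, inv_inv]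
        linarith
      · push Not at hex
        have h8 : π (S a a' ∩ S a a'') = 1 := by
          apply Finset.prod_eq_one
          intro b hb
          exact le_antisymm (hp1 b) (hex b hb)
        rw [h8]
        simp only [inv_one, sub_self]
        apply Finset.sum_nonneg
        intro i _
        have := Real.exp_pos L
        positivity
    calc ∑ a' ∈ Gd a, ∑ a'' ∈ Gd a, ((π (S a a' ∩ S a a''))⁻¹ - 1)
        ≤ ∑ a' ∈ Gd a, ∑ a'' ∈ Gd a, ∑ b ∈ (N a).filter (fun b => (d b : ℝ) < D),
          Real.exp L * ((if b ∈ N a' then 1 else 0) * (if b ∈ N a'' then 1 else 0)) :=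
          Finset.sum_le_sum fun a' ha' => Finset.sum_le_sum fun a'' ha'' => hbound a' ha' a'' ha''
      _ ≤ ∑ a' : A, ∑ a'' : A, ∑ b ∈ (N a).filter (fun b => (d b : ℝ) < D),
          Real.exp L * ((if b ∈ N a' then 1 else 0) * (if b ∈ N a'' then 1 else 0)) := by
          have hnn : ∀ a' a'' : A, 0 ≤ ∑ b ∈ (N a).filter (fun b => (d b : ℝ) < D),
            Real.exp L * ((if b ∈ N a' then (1:ℝ) else 0) * (if b ∈ N a'' then 1 else 0)) := by
            intro a' a''
            apply Finset.sum_nonneg
            intro i _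
            have := Real.exp_pos L
            positivity
          refine le_trans (Finset.sum_le_sum fun a' _ =>
            Finset.sum_le_univ_sum_of_nonneg (fun a'' => hnn a' a'')) ?_
          exact Finset.sum_le_univ_sum_of_nonneg
            (fun a' => Finset.sum_nonneg fun a'' _ => hnn a' a'')
      _ = ∑ b ∈ (N a).filter (fun b => (d b : ℝ) < D), Real.exp L * ((d b : ℝ) * (d b : ℝ)) := by
          have : ∀ a' : A, ∑ a'' : A, ∑ b ∈ (N a).filter (fun b => (d b : ℝ) < D),
              Real.exp L * ((if b ∈ N a' then (1:ℝ) else 0) * (if b ∈ N a'' then 1 else 0)) =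
              ∑ b ∈ (N a).filter (fun b => (d b : ℝ) < D),
              Real.exp L * ((if b ∈ N a' then (1:ℝ) else 0) * (d b : ℝ)) := by
            intro a'
            rw [Finset.sum_comm]
            apply Finset.sum_congr rfl
            intro b _
            rw [← Finset.mul_sum, ← Finset.mul_sum]
            congr 2
            simp [hd]
          simp_rw [this]
          rw [Finset.sum_comm]
          apply Finset.sum_congr rfl
          intro b _
          rw [← Finset.mul_sum, ← Finset.sum_mul]
          congr 2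
          simp [hd]
      _ ≤ ∑ b ∈ (N a).filter (fun b => (d b : ℝ) < D), Real.exp L * (D * D) := by
          apply Finset.sum_le_sum
          intro b hb
          have h9 : (d b : ℝ) < D := (Finset.mem_filter.1 hb).2
          have h10 : (0 : ℝ) ≤ d b := Nat.cast_nonneg _
          have := Real.exp_pos L
          gcongr
      _ ≤ ℓ * D ^ 2 * Real.exp L := by
          rw [Finset.sum_const, nsmul_eq_mul]
          have h11 : ((((N a).filter (fun b => (d b : ℝ) < D)).card : ℕ) : ℝ) ≤ ℓ := by
            exact_mod_cast le_trans (Finset.card_filter_le _ _) (hℓ a)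
          have := Real.exp_pos L
          nlinarith [mul_pos this (mul_pos hD hD), mul_le_mul_of_nonneg_right h11
            (le_of_lt (mul_pos this (mul_pos hD hD)))]
  -- main pointwise inequality
  have hmain : ∀ U : Finset B, ∑ a, X a U ≤
      4 * (Fintype.card A : ℝ) * U.card +
        ∑ a, ((X a U - μ a) ^ 2 / τ + τ) := by
    intro U
    obtain ⟨T, hT, hTU⟩ := hstar U
    have hXnn : ∀ a, 0 ≤ X a U := by
      intro a
      apply Finset.sum_nonneg
      intro a' _
      apply mul_nonneg (inv_nonneg.2 (hπ0 _))
      unfold ind; split_ifs <;> norm_num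
    have hterm : ∀ a a', 0 ≤ (π (S a a'))⁻¹ * ind (S a a') U := by
      intro a a'
      apply mul_nonneg (inv_nonneg.2 (hπ0 _))
      unfold ind; split_ifs <;> norm_num
    have hsymm : ∀ a a', S a a' = S a' a := fun a a' => Finset.inter_comm _ _
    have h1 : ∑ a, X a U ≤ 2 * ∑ a ∈ T, X a U := by
      have e1 : ∑ a, X a U = ∑ a, ∑ a', (if a ≠ a' ∧ ε ≤ π (S a a') then
          (π (S a a'))⁻¹ * ind (S a a') U else 0) := by
        apply Finset.sum_congr rfl
        intro a _
        rw [hX, hGd]
        simp only
        rw [Finset.sum_filter]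
      have e2 : ∀ a, X a U = ∑ a', (if a ≠ a' ∧ ε ≤ π (S a a') then
          (π (S a a'))⁻¹ * ind (S a a') U else 0) := by
        intro a
        rw [hX, hGd]
        simp only
        rw [Finset.sum_filter]
      have e3 : ∀ a', X a' U = ∑ a, (if a ≠ a' ∧ ε ≤ π (S a a') then
          (π (S a a'))⁻¹ * ind (S a a') U else 0) := by
        intro a'
        rw [e2]
        apply Finset.sum_congr rfl
        intro a _
        rw [hsymm a' a]
        simp only [ne_comm]
      rw [e1]
      have e4 : ∀ a a', (if a ≠ a' ∧ ε ≤ π (S a a') then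
          (π (S a a'))⁻¹ * ind (S a a') U else 0) ≤
          (if a ∈ T then (if a ≠ a' ∧ ε ≤ π (S a a') then
          (π (S a a'))⁻¹ * ind (S a a') U else 0) else 0) +
          (if a' ∈ T then (if a ≠ a' ∧ ε ≤ π (S a a') then
          (π (S a a'))⁻¹ * ind (S a a') U else 0) else 0) := by
        intro a a'
        have := hterm a a'
        by_cases hg : a ≠ a' ∧ ε ≤ π (S a a')
        · simp only [hg]
          by_cases ha : a ∈ T
          · simp only [ha, if_true]
            split_ifs <;> linarith
          · by_cases ha' : a' ∈ T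
            · simp [ha, ha']
            · have hn := hTU a a' hg.1 ha ha'
              simp only [ha, ha', if_false]
              unfold ind
              rw [if_neg hn]; simp
        · simp [hg]
      refine le_trans (Finset.sum_le_sum fun a _ => Finset.sum_le_sum fun a' _ => e4 a a') ?_
      simp_rw [Finset.sum_add_distrib]
      have e5 : ∑ a, ∑ a', (if a ∈ T then (if a ≠ a' ∧ ε ≤ π (S a a') then
          (π (S a a'))⁻¹ * ind (S a a') U else 0) else 0) = ∑ a ∈ T, X a U := by
        rw [← Finset.sum_filter_add_sum_filter_not univ (fun a => a ∈ T)]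
        rw [Finset.sum_eq_zero (s := univ.filter (fun a => ¬ a ∈ T))]
        · rw [add_zero]
          rw [Finset.filter_mem_eq_inter, Finset.univ_inter]
          apply Finset.sum_congr rfl
          intro a ha
          simp only [ha, if_true]
          exact (e2 a).symm
        · intro a ha
          simp [(Finset.mem_filter.1 ha).2]
      have e6 : ∑ a, ∑ a', (if a' ∈ T then (if a ≠ a' ∧ ε ≤ π (S a a') then
          (π (S a a'))⁻¹ * ind (S a a') U else 0) else 0) = ∑ a ∈ T, X a U := by
        rw [Finset.sum_comm]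
        rw [← Finset.sum_filter_add_sum_filter_not univ (fun a => a ∈ T)]
        rw [Finset.sum_eq_zero (s := univ.filter (fun a => ¬ a ∈ T))]
        · rw [add_zero]
          rw [Finset.filter_mem_eq_inter, Finset.univ_inter]
          apply Finset.sum_congr rfl
          intro a ha
          simp only [ha, if_true]
          exact (e3 a).symm
        · intro a ha
          simp [(Finset.mem_filter.1 ha).2]
      rw [e5, e6]
      linarith
    have h2 : ∑ a ∈ T, X a U ≤ ∑ a ∈ T, (Fintype.card A : ℝ) + ∑ a, |X a U - μ a| := by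
      have : ∑ a ∈ T, X a U ≤ ∑ a ∈ T, ((Fintype.card A : ℝ) + |X a U - μ a|) := by
        apply Finset.sum_le_sum
        intro a _
        have h3 : μ a ≤ Fintype.card A := by
          rw [hμ]
          show ((Gd a).card : ℝ) ≤ _
          exact_mod_cast Finset.card_le_univ _
        have := le_abs_self (X a U - μ a)
        linarith
      rw [Finset.sum_add_distrib] at this
      have h4 : ∑ a ∈ T, |X a U - μ a| ≤ ∑ a, |X a U - μ a| :=
        Finset.sum_le_univ_sum_of_nonneg fun a => abs_nonneg _
      linarith
    have h5 : ∀ a, |X a U - μ a| ≤ ((X a U - μ a) ^ 2 / τ + τ) / 2 := by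
      intro a
      have h6 : (0 : ℝ) ≤ (|X a U - μ a| - τ) ^ 2 := sq_nonneg _
      have h7 : |X a U - μ a| ^ 2 = (X a U - μ a) ^ 2 := sq_abs _
      have h8 : (X a U - μ a) ^ 2 / τ * τ = (X a U - μ a) ^ 2 := by field_simp
      have h9 : 2 * |X a U - μ a| * τ ≤ ((X a U - μ a) ^ 2 / τ + τ) * τ := by
        rw [add_mul, h8, ← h7]; nlinarith
      have := le_of_mul_le_mul_right h9 hτ
      linarith
    have h10 : ∑ a, |X a U - μ a| ≤ (∑ a, ((X a U - μ a) ^ 2 / τ + τ)) / 2 := by
      rw [Finset.sum_div]
      exact Finset.sum_le_sum fun a _ => h5 a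
    have h11 : ∑ a ∈ T, (Fintype.card A : ℝ) ≤ 2 * (Fintype.card A : ℝ) * U.card := by
      rw [Finset.sum_const, nsmul_eq_mul]
      have : (T.card : ℝ) ≤ 2 * U.card := by exact_mod_cast hT
      have h12 : (0 : ℝ) ≤ Fintype.card A := Nat.cast_nonneg _
      nlinarith
    linarith
  have hE := Ex_mono hp0 hp1 hmain
  rw [Ex_sum, Ex_add, Ex_mul, Ex_card, Ex_sum] at hE
  simp_rw [hEX] at hE
  have hE2 : ∀ a, Ex p (fun U => (X a U - μ a) ^ 2 / τ + τ) ≤
      ℓ * D ^ 2 * Real.exp L / τ + τ := by
    intro a
    rw [Ex_add, Ex_const]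
    have e : (fun U : Finset B => (X a U - μ a) ^ 2 / τ) =
        fun U => τ⁻¹ * (X a U - μ a) ^ 2 := by
      funext U; rw [div_eq_inv_mul]
    rw [e, Ex_mul]
    have := hVar a
    have h13 : τ⁻¹ * Ex p (fun U => (X a U - μ a) ^ 2) ≤ τ⁻¹ * (ℓ * D ^ 2 * Real.exp L) :=
      mul_le_mul_of_nonneg_left this (inv_nonneg.2 hτ.le)
    rw [div_eq_inv_mul]
    linarith
  have hE3 : ∑ a : A, Ex p (fun U => (X a U - μ a) ^ 2 / τ + τ) ≤
      (Fintype.card A : ℝ) * (ℓ * D ^ 2 * Real.exp L / τ + τ) := by
    refine le_trans (Finset.sum_le_sum fun a _ => hE2 a) ?_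
    rw [Finset.sum_const, Finset.card_univ, nsmul_eq_mul]
  have hpsum : ∑ b, p b ≤ Fintype.card A * ℓ / D := by
    calc ∑ b, p b ≤ ∑ b, (d b : ℝ) / D := Finset.sum_le_sum fun b _ => min_le_right _ _
      _ = (∑ b, (d b : ℝ)) / D := by rw [Finset.sum_div]
      _ ≤ _ := by gcongr
  -- counting bad pairs
  have hbad : (Fintype.card A : ℝ) * (Fintype.card A - 1) - D * (Fintype.card A) * ℓ / L ≤
      ∑ a, μ a := by
    set bad : Finset (A × A) := univ.filter (fun q => q.1 ≠ q.2 ∧ π (S q.1 q.2) < ε) with hbaddef
    have hlog : (bad.card : ℝ) * L ≤ D * (Fintype.card A) * ℓ := by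
      calc (bad.card : ℝ) * L = ∑ q ∈ bad, L := by rw [Finset.sum_const, nsmul_eq_mul]
        _ ≤ ∑ q ∈ bad, (- Real.log (π (S q.1 q.2))) := by
          apply Finset.sum_le_sum
          intro q hq
          have hq' := (Finset.mem_filter.1 hq).2.2
          have : Real.log (π (S q.1 q.2)) < Real.log ε := Real.log_lt_log (hπpos _ _) hq'
          rw [hε, Real.log_exp] at this
          linarith
        _ ≤ ∑ q : A × A, (- Real.log (π (S q.1 q.2))) := by
          apply Finset.sum_le_univ_sum_of_nonneg
          intro q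
          have : Real.log (π (S q.1 q.2)) ≤ 0 := by
            apply Real.log_nonpos (hπ0 _)
            calc π (S q.1 q.2) ≤ π ∅ := hπ_anti _ _ (Finset.empty_subset _)
              _ = 1 := by simp [hπ]
          linarith
        _ = ∑ q : A × A, ∑ b, (if b ∈ N q.1 then 1 else 0) * (if b ∈ N q.2 then 1 else 0) *
              (- Real.log (p b)) := by
          apply Finset.sum_congr rfl
          intro q _
          rw [hπ]
          simp only
          rw [Real.log_prod]
          · rw [← Finset.sum_neg_distrib, hS]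
            simp only
            rw [← Finset.sum_filter_add_sum_filter_not univ (fun b => b ∈ N q.1 ∩ N q.2)
              (fun b => (if b ∈ N q.1 then 1 else 0) * (if b ∈ N q.2 then 1 else 0) *
              (- Real.log (p b)))]
            rw [Finset.sum_eq_zero (s := univ.filter (fun b => ¬ b ∈ N q.1 ∩ N q.2)), add_zero]
            · rw [Finset.filter_mem_eq_inter, Finset.univ_inter]
              apply Finset.sum_congr rfl
              intro b hb
              have := Finset.mem_inter.1 hb
              simp [this.1, this.2]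
            · intro b hb
              have := (Finset.mem_filter.1 hb).2
              rw [Finset.mem_inter, not_and_or] at this
              rcases this with h | h <;> simp [h]
          · intro b hb
            exact (hppos _ b (Finset.mem_inter.1 hb).1).ne'
        _ = ∑ b, (d b : ℝ) * (d b : ℝ) * (- Real.log (p b)) := by
          rw [Finset.sum_comm]
          apply Finset.sum_congr rfl
          intro b _
          rw [← Finset.sum_mul]
          congr 1
          have e7 : ∀ f g : A → ℝ, ∑ q : A × A, f q.1 * g q.2 = (∑ a, f a) * ∑ a, g a := by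
            intro f g
            rw [Fintype.sum_prod_type, Finset.sum_mul_sum]
          rw [e7 (fun a => if b ∈ N a then 1 else 0) (fun a => if b ∈ N a then 1 else 0)]
          simp [hd]
        _ ≤ ∑ b, D * (d b : ℝ) := by
          apply Finset.sum_le_sum
          intro b _
          by_cases hdb : D ≤ d b
          · have : p b = 1 := by
              rw [hp]
              simp only
              rw [min_eq_left]
              rw [le_div_iff₀ hD]; linarith
            rw [this, Real.log_one]
            have : (0:ℝ) ≤ D * d b := by positivity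
            simpa using this
          · push Not at hdb
            rcases Nat.eq_zero_or_pos (d b) with h0 | h0
            · simp [h0]
            · have h0' : (0 : ℝ) < d b := by exact_mod_cast h0
              have hpb : p b = d b / D := by
                rw [hp]
                simp only
                rw [min_eq_right]
                rw [div_le_one hD]; exact hdb.le
              rw [hpb, ← Real.log_inv, inv_div]
              have h14 : Real.log (D / d b) ≤ D / d b - 1 :=
                Real.log_le_sub_one_of_pos (by positivity)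
              have h15 : (d b : ℝ) * d b * Real.log (D / d b) ≤ d b * d b * (D / d b - 1) :=
                mul_le_mul_of_nonneg_left h14 (by positivity)
              have h16 : (d b : ℝ) * d b * (D / d b - 1) = D * d b - d b * d b := by
                field_simp
              nlinarith
        _ = D * ∑ b, (d b : ℝ) := by rw [Finset.mul_sum]
        _ ≤ D * (Fintype.card A * ℓ) := mul_le_mul_of_nonneg_left hdsum hD.le
        _ = D * (Fintype.card A) * ℓ := by ring
    have hcard : (Fintype.card A : ℝ) * (Fintype.card A - 1) ≤ ∑ a, μ a + bad.card := by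
      have h17 : (univ : Finset (A × A)) ⊆
          (univ.filter (fun q : A × A => q.1 = q.2)) ∪
          ((univ.filter (fun q : A × A => q.1 ≠ q.2 ∧ ε ≤ π (S q.1 q.2))) ∪ bad) := by
        intro q _
        simp only [hbaddef, mem_union, mem_filter, mem_univ, true_and]
        by_cases h : q.1 = q.2
        · exact Or.inl h
        · rcases le_or_gt ε (π (S q.1 q.2)) with h' | h'
          · exact Or.inr (Or.inl ⟨h, h'⟩)
          · exact Or.inr (Or.inr ⟨h, h'⟩)
      have h18 := Finset.card_le_card h17
      have h19 := le_trans h18 (le_trans (Finset.card_union_le _ _)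
        (Nat.add_le_add_left (Finset.card_union_le _ _) _))
      rw [Finset.card_univ, Fintype.card_prod] at h19
      have h20 : (univ.filter (fun q : A × A => q.1 = q.2)).card = Fintype.card A := by
        rw [← Finset.card_univ (α := A)]
        symm
        apply Finset.card_bij (fun a _ => (a, a))
        · intro a _; simp
        · intro a _ b _ h; exact (Prod.ext_iff.1 h).1
        · intro q hq
          refine ⟨q.1, mem_univ _, ?_⟩
          have := (Finset.mem_filter.1 hq).2
          ext <;> simp [this]
      have h21 : (univ.filter (fun q : A × A => q.1 ≠ q.2 ∧ ε ≤ π (S q.1 q.2))).card =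
          ∑ a, (Gd a).card := by
        rw [Finset.card_eq_sum_ones, Finset.sum_filter, Fintype.sum_prod_type]
        apply Finset.sum_congr rfl
        intro a _
        rw [hGd]
        simp only
        rw [Finset.card_eq_sum_ones, Finset.sum_filter]
      rw [h20, h21] at h19
      have h22 : ((Fintype.card A * Fintype.card A : ℕ) : ℝ) ≤
          ((Fintype.card A + (∑ a, (Gd a).card + bad.card) : ℕ) : ℝ) := by exact_mod_cast h19
      push_cast at h22
      rw [hμ]
      simp only
      linarith
    have h23 : (bad.card : ℝ) ≤ D * (Fintype.card A) * ℓ / L := by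
      rw [le_div_iff₀ hL]; exact hlog
    linarith
  have hfin : 4 * (Fintype.card A : ℝ) * (∑ b, p b) ≤ 4 * (Fintype.card A : ℝ) ^ 2 * ℓ / D := by
    have h24 : (0 : ℝ) ≤ 4 * (Fintype.card A : ℝ) := by positivity
    calc 4 * (Fintype.card A : ℝ) * (∑ b, p b) ≤
        4 * (Fintype.card A : ℝ) * (Fintype.card A * ℓ / D) :=
          mul_le_mul_of_nonneg_left hpsum h24
      _ = _ := by ring
  linarith

end Main

end Pool.Agent.H13.Lint
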