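import Mathlib
import Pool.Agent.H13.LintDefs

/-! The pairing property forces the covering property. -/

namespace Pool.Agent.H13.Lint

open Finset

variable {n m : ℕ}

/-- `k` disjoint pairs whose common neighbourhoods lie in `U` -/
def PP (N : Fin (2 * n) → Finset (Fin m)) (U : Finset (Fin m)) (k : ℕ) : Prop :=
  ∃ j : Fin k × Bool → Fin (2 * n), Function.Injective j ∧
    ∀ i, N (j (i, false)) ∩ N (j (i, true)) ⊆ U

theorem PP_le (G : Fin (2 * n) → Fin m → Prop) (h : PairingProperty n m G)
    (N : Fin (2 * n) → Finset (Fin m)) (hN : ∀ a b, b ∈ N a ↔ G a b)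
    (U : Finset (Fin m)) (k : ℕ) (hk : PP N U k) : k ≤ U.card := by
  classical
  obtain ⟨j, hj, hjU⟩ := hk
  rcases Nat.eq_zero_or_pos k with rfl | hkpos
  · exact Nat.zero_le _
  have hkn : k ≤ n := by
    have := Fintype.card_le_of_injective j hj
    simp at this
    omega
  let f : Fin n × Bool → Fin (2 * n) := fun x =>
    if hx : x.1.1 < k then j (⟨x.1.1, hx⟩, x.2) else j (⟨0, hkpos⟩, false)
  let s : Finset (Fin n × Bool) := univ.filter (fun x => x.1.1 < k)
  have hinj : Set.InjOn f s := by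
    intro x hx y hy hxy
    have hx' : x.1.1 < k := by simpa [s] using hx
    have hy' : y.1.1 < k := by simpa [s] using hy
    simp only [f, hx', hy', dif_pos] at hxy
    have := hj hxy
    rw [Prod.mk.injEq, Fin.mk.injEq] at this
    exact Prod.ext (Fin.ext this.1) this.2
  obtain ⟨g, hg⟩ := Finset.exists_equiv_extend_of_card_eq (α := Fin n × Bool)
    (t := (univ : Finset (Fin (2 * n)))) (by simp [mul_comm]) (s := s) (f := f)
    (Finset.subset_univ _) hinj
  let e : (Fin n × Bool) ≃ Fin (2 * n) :=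
    g.trans (Equiv.subtypeUnivEquiv (fun x => Finset.mem_univ x))
  have he : ∀ i : Fin k, ∀ c : Bool, e (⟨i.1, lt_of_lt_of_le i.2 hkn⟩, c) = j (i, c) := by
    intro i c
    have h1 := hg (⟨i.1, lt_of_lt_of_le i.2 hkn⟩, c) (by simp [s])
    simp only [e, Equiv.trans_apply]
    rw [Equiv.subtypeUnivEquiv_apply, h1]
    simp [f]
  obtain ⟨κ, hκ, hκG⟩ := h e
  have : (univ : Finset (Fin k)).card ≤ U.card := by
    apply Finset.card_le_card_of_injOn (fun i => κ ⟨i.1, lt_of_lt_of_le i.2 hkn⟩)
    · intro i _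
      have h2 := hκG ⟨i.1, lt_of_lt_of_le i.2 hkn⟩
      rw [he, he] at h2
      apply hjU i
      rw [Finset.mem_inter, hN, hN]
      exact h2
    · intro i _ i' _ hii
      have := hκ hii
      rw [Fin.mk.injEq] at this
      exact Fin.ext this
  simpa using this

theorem PP_succ (N : Fin (2 * n) → Finset (Fin m)) (U : Finset (Fin m)) (k : ℕ)
    (j : Fin k × Bool → Fin (2 * n)) (hj : Function.Injective j)
    (hjU : ∀ i, N (j (i, false)) ∩ N (j (i, true)) ⊆ U) (a a' : Fin (2 * n)) (haa : a ≠ a')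
    (ha : ∀ x, j x ≠ a) (ha' : ∀ x, j x ≠ a') (hU : N a ∩ N a' ⊆ U) : PP N U (k + 1) := by
  let j' : Fin (k + 1) × Bool → Fin (2 * n) := fun x =>
    if hx : x.1.1 < k then j (⟨x.1.1, hx⟩, x.2) else if x.2 then a' else a
  refine ⟨j', ?_, ?_⟩
  · rintro ⟨⟨x, hx⟩, c⟩ ⟨⟨y, hy⟩, c'⟩ hxy
    simp only [j'] at hxy
    by_cases h1 : x < k <;> by_cases h2 : y < k
    · simp only [h1, h2, dif_pos] at hxy
      have := hj hxy
      rw [Prod.mk.injEq, Fin.mk.injEq] at this
      simp [this.1, this.2]
    · exfalso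
      rw [dif_pos h1, dif_neg h2] at hxy
      cases c'
      · exact ha _ (by simpa using hxy)
      · exact ha' _ (by simpa using hxy)
    · exfalso
      rw [dif_neg h1, dif_pos h2] at hxy
      cases c
      · exact ha _ (by simpa using hxy.symm)
      · exact ha' _ (by simpa using hxy.symm)
    · have hxk : x = k := by omega
      have hyk : y = k := by omega
      subst hxk
      subst hyk
      rw [dif_neg h1, dif_neg h2] at hxy
      cases c <;> cases c'
      · rfl
      · exact absurd (by simpa using hxy) haa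
      · exact absurd (by simpa using hxy) haa.symm
      · rfl
  · rintro ⟨i, hi⟩
    by_cases h1 : i < k
    · simp only [j', h1, dif_pos]
      exact hjU ⟨i, h1⟩
    · simp only [j', h1, dif_neg, not_false_eq_true]
      simpa using hU

theorem star_of_pairing (G : Fin (2 * n) → Fin m → Prop) (h : PairingProperty n m G)
    (N : Fin (2 * n) → Finset (Fin m)) (hN : ∀ a b, b ∈ N a ↔ G a b)
    (U : Finset (Fin m)) : ∃ T : Finset (Fin (2 * n)), T.card ≤ 2 * U.card ∧
      ∀ a a', a ≠ a' → a ∉ T → a' ∉ T → ¬ (N a ∩ N a' ⊆ U) := by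
  classical
  have h0 : PP N U 0 := ⟨fun x => x.1.elim0, fun x => x.1.elim0, fun i => i.elim0⟩
  set K := Nat.findGreatest (PP N U) U.card with hK
  have hPK : PP N U K := Nat.findGreatest_spec (m := 0) (Nat.zero_le _) h0
  have hKU : K ≤ U.card := Nat.findGreatest_le _
  have hnot : ¬ PP N U (K + 1) := by
    intro h1
    have h2 := PP_le G h N hN U (K + 1) h1
    have h3 := Nat.le_findGreatest h2 h1
    omega
  obtain ⟨j, hj, hjU⟩ := hPK
  refine ⟨univ.image j, ?_, ?_⟩
  · calc (univ.image j).card ≤ (univ : Finset (Fin K × Bool)).card := Finset.card_image_le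
      _ = 2 * K := by simp [mul_comm]
      _ ≤ 2 * U.card := by omega
  · intro a a' haa ha ha' hU
    apply hnot
    refine PP_succ N U K j hj hjU a a' haa ?_ ?_ hU
    · intro x hx; exact ha (Finset.mem_image.2 ⟨x, Finset.mem_univ _, hx⟩)
    · intro x hx; exact ha' (Finset.mem_image.2 ⟨x, Finset.mem_univ _, hx⟩)

end Pool.Agent.H13.Lint
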