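import Mathlib
import Pool.Agent.H13.LintDefs

/-! Upper bound for van Lint's pairing problem: random functions. -/

namespace Pool.Agent.H13.Lint

open Finset

section Count

variable {r q : ℕ}

/-- the common neighbours of `f` and `g` lie in `U` -/
def Rel (U : Finset (Fin r × Fin q)) (f g : Fin r → Fin q) : Prop :=
  ∀ t, f t = g t → (t, f t) ∈ U

instance (U : Finset (Fin r × Fin q)) (f g : Fin r → Fin q) : Decidable (Rel U f g) := by
  unfold Rel; infer_instance

theorem card_fiber (U : Finset (Fin r × Fin q)) (hq : 0 < q) (t : Fin r) :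
    (Fintype.card {p : Fin q × Fin q // p.1 = p.2 → (t, p.1) ∈ U} : ℝ) ≤
      (q : ℝ) ^ 2 * Real.exp (-(((univ.filter (fun x : Fin q => (t, x) ∉ U)).card : ℝ) /
        (q : ℝ) ^ 2)) := by
  classical
  set c := (univ.filter (fun x : Fin q => (t, x) ∉ U)).card with hc
  have h1 : Fintype.card {p : Fin q × Fin q // p.1 = p.2 → (t, p.1) ∈ U} + c = q * q := by
    rw [Fintype.card_subtype]
    have h2 : c = (univ.filter (fun p : Fin q × Fin q => ¬ (p.1 = p.2 → (t, p.1) ∈ U))).card := by
      rw [hc]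
      apply Finset.card_bij (fun x _ => (x, x))
      · intro x hx
        simpa using (Finset.mem_filter.1 hx).2
      · intro x _ y _ h
        exact (Prod.ext_iff.1 h).1
      · rintro ⟨x, y⟩ hp
        have := (Finset.mem_filter.1 hp).2
        push Not at this
        obtain ⟨h3, h4⟩ := this
        simp only at h3 h4
        subst h3
        exact ⟨x, by simp [h4], rfl⟩
    rw [h2, Finset.card_filter_add_card_filter_not]
    simp
  have h3 : (Fintype.card {p : Fin q × Fin q // p.1 = p.2 → (t, p.1) ∈ U} : ℝ) =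
      (q : ℝ) ^ 2 - c := by
    have : ((Fintype.card {p : Fin q × Fin q // p.1 = p.2 → (t, p.1) ∈ U} + c : ℕ) : ℝ) =
      ((q * q : ℕ) : ℝ) := by exact_mod_cast h1
    push_cast at this
    linarith
  rw [h3]
  have hq' : (0 : ℝ) < (q : ℝ) ^ 2 := by positivity
  have h4 : 1 - (c : ℝ) / (q : ℝ) ^ 2 ≤ Real.exp (-((c : ℝ) / (q : ℝ) ^ 2)) :=
    Real.one_sub_le_exp_neg _
  calc (q : ℝ) ^ 2 - c = (q : ℝ) ^ 2 * (1 - (c : ℝ) / (q : ℝ) ^ 2) := by field_simp
    _ ≤ _ := mul_le_mul_of_nonneg_left h4 hq'.le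

theorem card_Rel (U : Finset (Fin r × Fin q)) (hq : 0 < q) :
    (Fintype.card {p : (Fin r → Fin q) × (Fin r → Fin q) // Rel U p.1 p.2} : ℝ) ≤
      ((q : ℝ) ^ r) ^ 2 * Real.exp (-(((r : ℝ) * q - U.card) / (q : ℝ) ^ 2)) := by
  classical
  have h1 : Fintype.card {p : (Fin r → Fin q) × (Fin r → Fin q) // Rel U p.1 p.2} ≤
      Fintype.card (∀ t : Fin r, {p : Fin q × Fin q // p.1 = p.2 → (t, p.1) ∈ U}) := by
    apply Fintype.card_le_of_injective (fun p t => ⟨(p.1.1 t, p.1.2 t), p.2 t⟩)
    rintro ⟨⟨f, g⟩, h⟩ ⟨⟨f', g'⟩, h'⟩ heq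
    simp only [Subtype.mk.injEq, Prod.mk.injEq]
    constructor
    · funext t
      have := congrFun heq t
      simp only [Subtype.mk.injEq, Prod.mk.injEq] at this
      exact this.1
    · funext t
      have := congrFun heq t
      simp only [Subtype.mk.injEq, Prod.mk.injEq] at this
      exact this.2
  rw [Fintype.card_pi] at h1
  have h2 : ((∏ t : Fin r, Fintype.card {p : Fin q × Fin q // p.1 = p.2 → (t, p.1) ∈ U} : ℕ) : ℝ) ≤
      ∏ t : Fin r, (q : ℝ) ^ 2 *
        Real.exp (-(((univ.filter (fun x : Fin q => (t, x) ∉ U)).card : ℝ) / (q : ℝ) ^ 2)) := by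
    push_cast
    apply Finset.prod_le_prod
    · intro t _; positivity
    · intro t _; exact card_fiber U hq t
  have h3 : ∏ t : Fin r, (q : ℝ) ^ 2 *
        Real.exp (-(((univ.filter (fun x : Fin q => (t, x) ∉ U)).card : ℝ) / (q : ℝ) ^ 2)) =
      ((q : ℝ) ^ r) ^ 2 * Real.exp (-(((r : ℝ) * q - U.card) / (q : ℝ) ^ 2)) := by
    rw [Finset.prod_mul_distrib, Finset.prod_const, Finset.card_univ, Fintype.card_fin,
      ← Real.exp_sum]
    congr 1
    · rw [← pow_mul, ← pow_mul, mul_comm]
    · congr 1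
      rw [Finset.sum_neg_distrib, ← Finset.sum_div]
      congr 2
      have h4 : ∑ t : Fin r, (univ.filter (fun x : Fin q => (t, x) ∉ U)).card = (Uᶜ).card := by
        rw [Finset.compl_eq_univ_sdiff]
        have : (univ \ U) = univ.filter (fun p : Fin r × Fin q => p ∉ U) := by
          ext p; simp
        rw [this, Finset.card_eq_sum_ones, Finset.sum_filter, Fintype.sum_prod_type]
        apply Finset.sum_congr rfl
        intro t _
        rw [Finset.card_eq_sum_ones, Finset.sum_filter]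
      have h5 : (Uᶜ).card + U.card = r * q := by
        rw [Finset.card_compl]
        simp only [Fintype.card_prod, Fintype.card_fin]
        have : U.card ≤ r * q := by
          have := Finset.card_le_univ U
          simpa using this
        omega
      rw [← Nat.cast_sum, h4]
      have : (((Uᶜ).card + U.card : ℕ) : ℝ) = ((r * q : ℕ) : ℝ) := by exact_mod_cast h5
      push_cast at this
      linarith
  calc (Fintype.card {p : (Fin r → Fin q) × (Fin r → Fin q) // Rel U p.1 p.2} : ℝ)
      ≤ ((∏ t : Fin r, Fintype.card {p : Fin q × Fin q // p.1 = p.2 → (t, p.1) ∈ U} : ℕ) : ℝ) := by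
        exact_mod_cast h1
    _ ≤ _ := h2
    _ = _ := h3

variable {n : ℕ}

theorem card_bad (U : Finset (Fin r × Fin q)) {k : ℕ} (j : Fin k × Bool → Fin (2 * n))
    (hj : Function.Injective j) :
    (univ.filter (fun F : Fin (2 * n) → (Fin r → Fin q) =>
      ∀ i, Rel U (F (j (i, false))) (F (j (i, true))))).card ≤
      (Fintype.card {p : (Fin r → Fin q) × (Fin r → Fin q) // Rel U p.1 p.2}) ^ k *
        (q ^ r) ^ (2 * n - 2 * k) := by
  classical
  rw [← Fintype.card_subtype]
  have h1 : Fintype.card ((Fin k → {p : (Fin r → Fin q) × (Fin r → Fin q) // Rel U p.1 p.2}) ×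
      (((univ.image j)ᶜ : Finset (Fin (2 * n))) → (Fin r → Fin q))) =
      (Fintype.card {p : (Fin r → Fin q) × (Fin r → Fin q) // Rel U p.1 p.2}) ^ k *
        (q ^ r) ^ (2 * n - 2 * k) := by
    rw [Fintype.card_prod, Fintype.card_fun, Fintype.card_fun, Fintype.card_coe,
      Finset.card_compl, Finset.card_image_of_injective _ hj, Fintype.card_fun]
    simp [mul_comm]
  rw [← h1]
  apply Fintype.card_le_of_injective
    (fun F => ((fun i => ⟨(F.1 (j (i, false)), F.1 (j (i, true))), F.2 i⟩), fun a => F.1 a.1))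
  rintro ⟨F, hF⟩ ⟨F', hF'⟩ heq
  rw [Prod.mk.injEq] at heq
  obtain ⟨e1, e2⟩ := heq
  simp only [Subtype.mk.injEq]
  funext a
  by_cases ha : a ∈ univ.image j
  · obtain ⟨⟨i, c⟩, _, rfl⟩ := Finset.mem_image.1 ha
    have := congrFun e1 i
    simp only [Subtype.mk.injEq, Prod.mk.injEq] at this
    cases c
    · exact this.1
    · exact this.2
  · exact congrFun e2 ⟨a, by simpa using ha⟩

theorem card_bad_real (hq : 0 < q) (U : Finset (Fin r × Fin q)) {k : ℕ}
    (j : Fin k × Bool → Fin (2 * n)) (hj : Function.Injective j) (hU : U.card ≤ n) :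
    ((univ.filter (fun F : Fin (2 * n) → (Fin r → Fin q) =>
      ∀ i, Rel U (F (j (i, false))) (F (j (i, true))))).card : ℝ) ≤
      ((q : ℝ) ^ r) ^ (2 * n) * (Real.exp (-(((r : ℝ) * q - n) / (q : ℝ) ^ 2))) ^ k := by
  have h1 := card_bad U j hj
  have hk : 2 * k ≤ 2 * n := by
    have := Fintype.card_le_of_injective j hj
    simp at this
    omega
  have h2 := card_Rel U hq
  have h3 : Real.exp (-(((r : ℝ) * q - U.card) / (q : ℝ) ^ 2)) ≤
      Real.exp (-(((r : ℝ) * q - n) / (q : ℝ) ^ 2)) := by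
    apply Real.exp_le_exp.2
    apply neg_le_neg
    have : (U.card : ℝ) ≤ n := by exact_mod_cast hU
    gcongr
  have hqr : (0 : ℝ) ≤ ((q : ℝ) ^ r) := by positivity
  calc ((univ.filter (fun F : Fin (2 * n) → (Fin r → Fin q) =>
      ∀ i, Rel U (F (j (i, false))) (F (j (i, true))))).card : ℝ)
      ≤ (((Fintype.card {p : (Fin r → Fin q) × (Fin r → Fin q) // Rel U p.1 p.2}) ^ k *
        (q ^ r) ^ (2 * n - 2 * k) : ℕ) : ℝ) := by exact_mod_cast h1
    _ = (Fintype.card {p : (Fin r → Fin q) × (Fin r → Fin q) // Rel U p.1 p.2} : ℝ) ^ k *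
        ((q : ℝ) ^ r) ^ (2 * n - 2 * k) := by push_cast; ring
    _ ≤ (((q : ℝ) ^ r) ^ 2 * Real.exp (-(((r : ℝ) * q - n) / (q : ℝ) ^ 2))) ^ k *
        ((q : ℝ) ^ r) ^ (2 * n - 2 * k) := by
        apply mul_le_mul_of_nonneg_right _ (by positivity)
        apply pow_le_pow_left₀ (by positivity)
        exact le_trans h2 (mul_le_mul_of_nonneg_left h3 (by positivity))
    _ = ((q : ℝ) ^ r) ^ (2 * n) * (Real.exp (-(((r : ℝ) * q - n) / (q : ℝ) ^ 2))) ^ k := by
        rw [mul_pow, ← pow_mul]
        have : ((q : ℝ) ^ r) ^ (2 * n) =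
            ((q : ℝ) ^ r) ^ (2 * k) * ((q : ℝ) ^ r) ^ (2 * n - 2 * k) := by
          rw [← pow_add]; congr 1; omega
        rw [this]; ring

/-- the bipartite graph of a family of functions -/
def graphOf (F : Fin (2 * n) → (Fin r → Fin q)) : Fin (2 * n) → Fin (r * q) → Prop :=
  fun a b => F a (finProdFinEquiv.symm b).1 = (finProdFinEquiv.symm b).2

theorem fail_gives (hr : 0 < r) (hq : 0 < q) (F : Fin (2 * n) → (Fin r → Fin q))
    (h : ¬ PairingProperty n (r * q) (graphOf F)) :
    ∃ k ∈ range n, ∃ j : Fin (k + 1) × Bool → Fin (2 * n), Function.Injective j ∧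
      ∃ u : Fin (k + 1) → Fin r × Fin q,
        ∀ i, Rel (univ.image u) (F (j (i, false))) (F (j (i, true))) := by
  classical
  unfold PairingProperty at h
  push Not at h
  obtain ⟨e, he⟩ := h
  let t : Fin n → Finset (Fin r × Fin q) := fun s =>
    univ.filter (fun x => F (e (s, false)) x.1 = x.2 ∧ F (e (s, true)) x.1 = x.2)
  have hH : ¬ ∀ S : Finset (Fin n), S.card ≤ (S.biUnion t).card := by
    intro hall
    obtain ⟨f, hf, hft⟩ := (Finset.all_card_le_biUnion_card_iff_exists_injective t).1 hall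
    obtain ⟨s, hs⟩ := he (fun s => finProdFinEquiv (f s)) (finProdFinEquiv.injective.comp hf)
    have h1 := (Finset.mem_filter.1 (hft s)).2
    unfold graphOf at hs
    simp only [Equiv.symm_apply_apply] at hs
    exact hs h1.1 h1.2
  push Not at hH
  obtain ⟨S, hS⟩ := hH
  obtain ⟨k, hk⟩ : ∃ k, S.card = k + 1 := ⟨S.card - 1, by omega⟩
  have hSn : S.card ≤ n := by simpa using Finset.card_le_univ S
  refine ⟨k, Finset.mem_range.2 (by omega), ?_⟩
  let σ : Fin (k + 1) ≃ S := (Finset.equivFinOfCardEq hk).symm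
  refine ⟨fun x => e ((σ x.1).1, x.2), ?_, ?_⟩
  · rintro ⟨i, c⟩ ⟨i', c'⟩ hii
    have := e.injective hii
    rw [Prod.mk.injEq] at this
    have h2 := σ.injective (Subtype.ext this.1)
    exact Prod.ext h2 this.2
  · set W := S.biUnion t with hW
    have hWc : Fintype.card W ≤ Fintype.card (Fin (k + 1)) := by
      rw [Fintype.card_coe, Fintype.card_fin]; omega
    obtain ⟨emb⟩ := Function.Embedding.nonempty_of_card_le hWc
    let u : Fin (k + 1) → Fin r × Fin q := fun i =>
      if h : ∃ w : W, emb w = i then (h.choose).1 else (⟨0, hr⟩, ⟨0, hq⟩)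
    have hu : ∀ w ∈ W, w ∈ univ.image u := by
      intro w hw
      refine Finset.mem_image.2 ⟨emb ⟨w, hw⟩, Finset.mem_univ _, ?_⟩
      have hex : ∃ w' : W, emb w' = emb ⟨w, hw⟩ := ⟨⟨w, hw⟩, rfl⟩
      simp only [u, hex, dif_pos]
      have := emb.injective hex.choose_spec
      rw [this]
    refine ⟨u, ?_⟩
    intro i t' ht'
    apply hu
    rw [hW, Finset.mem_biUnion]
    refine ⟨(σ i).1, (σ i).2, ?_⟩
    simp only [t, Finset.mem_filter, Finset.mem_univ, true_and]
    exact ht'.symm

theorem geo (z : ℝ) (h0 : 0 ≤ z) (h1 : z ≤ 1 / 3) (N : ℕ) :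
    ∑ k ∈ range N, z ^ (k + 1) ≤ 1 / 2 - 1 / 2 * (1 / 3) ^ N := by
  induction N with
  | zero => simp
  | succ N ih =>
    rw [Finset.sum_range_succ]
    have h2 : z ^ (N + 1) ≤ (1 / 3) ^ (N + 1) := pow_le_pow_left₀ h0 h1 _
    have h3 : ((1 : ℝ) / 3) ^ (N + 1) = (1 / 3) ^ N * (1 / 3) := pow_succ _ _
    rw [h3] at h2 ⊢
    linarith

theorem exists_good (hr : 0 < r) (hq : 0 < q)
    (hz : (2 * (n : ℝ)) ^ 2 * ((r : ℝ) * q) *
      Real.exp (-(((r : ℝ) * q - n) / (q : ℝ) ^ 2)) ≤ 1 / 3) :
    ∃ F : Fin (2 * n) → (Fin r → Fin q), PairingProperty n (r * q) (graphOf F) := by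
  classical
  by_contra hcon
  push Not at hcon
  set T : ℝ := ((q : ℝ) ^ r) ^ (2 * n) with hT
  have hTpos : 0 < T := by positivity
  set ex := Real.exp (-(((r : ℝ) * q - n) / (q : ℝ) ^ 2)) with hex
  have hcover : (univ : Finset (Fin (2 * n) → (Fin r → Fin q))) ⊆
      (range n).biUnion (fun k =>
        (univ.filter (fun j : Fin (k + 1) × Bool → Fin (2 * n) => Function.Injective j)).biUnion
        (fun j => (univ : Finset (Fin (k + 1) → Fin r × Fin q)).biUnion
          (fun u => univ.filter (fun F : Fin (2 * n) → (Fin r → Fin q) =>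
            ∀ i, Rel (univ.image u) (F (j (i, false))) (F (j (i, true))))))) := by
    intro F _
    obtain ⟨k, hk, j, hj, u, hu⟩ := fail_gives hr hq F (hcon F)
    simp only [Finset.mem_biUnion, Finset.mem_filter, Finset.mem_univ, true_and]
    exact ⟨k, hk, j, hj, u, hu⟩
  have hcard := Finset.card_le_card hcover
  have huniv : ((univ : Finset (Fin (2 * n) → (Fin r → Fin q))).card : ℝ) = T := by
    rw [Finset.card_univ]; simp [hT]
  have hb : (((range n).biUnion (fun k =>
        (univ.filter (fun j : Fin (k + 1) × Bool → Fin (2 * n) => Function.Injective j)).biUnion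
        (fun j => (univ : Finset (Fin (k + 1) → Fin r × Fin q)).biUnion
          (fun u => univ.filter (fun F : Fin (2 * n) → (Fin r → Fin q) =>
            ∀ i, Rel (univ.image u) (F (j (i, false))) (F (j (i, true)))))))).card : ℝ) ≤
      ∑ k ∈ range n, T * (((2 * (n : ℝ)) ^ 2 * ((r : ℝ) * q) * ex) ^ (k + 1)) := by
    refine le_trans (Nat.cast_le.2 Finset.card_biUnion_le) ?_
    rw [Nat.cast_sum]
    apply Finset.sum_le_sum
    intro k hk
    have hk' := Finset.mem_range.1 hk
    refine le_trans (Nat.cast_le.2 Finset.card_biUnion_le) ?_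
    rw [Nat.cast_sum]
    have hone : ∀ j ∈ (univ.filter (fun j : Fin (k + 1) × Bool → Fin (2 * n) =>
        Function.Injective j)),
        (((univ : Finset (Fin (k + 1) → Fin r × Fin q)).biUnion
          (fun u => univ.filter (fun F : Fin (2 * n) → (Fin r → Fin q) =>
            ∀ i, Rel (univ.image u) (F (j (i, false))) (F (j (i, true)))))).card : ℝ) ≤
        ((r : ℝ) * q) ^ (k + 1) * (T * ex ^ (k + 1)) := by
      intro j hj
      have hj' := (Finset.mem_filter.1 hj).2
      refine le_trans (Nat.cast_le.2 Finset.card_biUnion_le) ?_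
      rw [Nat.cast_sum]
      refine le_trans (Finset.sum_le_sum fun u _ =>
        card_bad_real hq (univ.image u) j hj' ?_) ?_
      · calc (univ.image u).card ≤ (univ : Finset (Fin (k + 1))).card := Finset.card_image_le
          _ = k + 1 := by simp
          _ ≤ n := by omega
      · rw [Finset.sum_const, nsmul_eq_mul, Finset.card_univ, Fintype.card_fun]
        simp only [Fintype.card_prod, Fintype.card_fin]
        push_cast
        exact le_refl _
    refine le_trans (Finset.sum_le_sum hone) ?_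
    rw [Finset.sum_const, nsmul_eq_mul]
    have hcj : (((univ.filter (fun j : Fin (k + 1) × Bool → Fin (2 * n) =>
        Function.Injective j)).card : ℕ) : ℝ) ≤ ((2 * (n : ℝ)) ^ 2) ^ (k + 1) := by
      have h1 : (univ.filter (fun j : Fin (k + 1) × Bool → Fin (2 * n) =>
        Function.Injective j)).card ≤ (2 * n) ^ (2 * (k + 1)) := by
        refine le_trans (Finset.card_filter_le _ _) ?_
        rw [Finset.card_univ, Fintype.card_fun]
        simp only [Fintype.card_prod, Fintype.card_fin, Fintype.card_bool]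
        rw [mul_comm (k + 1) 2]
      calc (((univ.filter (fun j : Fin (k + 1) × Bool → Fin (2 * n) =>
        Function.Injective j)).card : ℕ) : ℝ) ≤ (((2 * n) ^ (2 * (k + 1)) : ℕ) : ℝ) := by
            exact_mod_cast h1
        _ = ((2 * (n : ℝ)) ^ 2) ^ (k + 1) := by push_cast; rw [← pow_mul]
    have hexnn : 0 ≤ ex := (Real.exp_pos _).le
    calc (((univ.filter (fun j : Fin (k + 1) × Bool → Fin (2 * n) =>
        Function.Injective j)).card : ℕ) : ℝ) * (((r : ℝ) * q) ^ (k + 1) * (T * ex ^ (k + 1)))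
        ≤ ((2 * (n : ℝ)) ^ 2) ^ (k + 1) * (((r : ℝ) * q) ^ (k + 1) * (T * ex ^ (k + 1))) :=
          mul_le_mul_of_nonneg_right hcj (by positivity)
      _ = T * (((2 * (n : ℝ)) ^ 2 * ((r : ℝ) * q) * ex) ^ (k + 1)) := by
          rw [mul_pow, mul_pow]; ring
  rw [← Finset.mul_sum] at hb
  have hznn : 0 ≤ (2 * (n : ℝ)) ^ 2 * ((r : ℝ) * q) * ex := by
    have : 0 ≤ ex := (Real.exp_pos _).le
    positivity
  have hg := geo _ hznn hz n
  have h5 : T ≤ T * (1 / 2) := by
    calc T = ((univ : Finset (Fin (2 * n) → (Fin r → Fin q))).card : ℝ) := huniv.symm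
      _ ≤ _ := by exact_mod_cast hcard
      _ ≤ _ := hb
      _ ≤ T * (1 / 2) := by
        apply mul_le_mul_of_nonneg_left _ hTpos.le
        have : (0 : ℝ) ≤ 1 / 2 * (1 / 3) ^ n := by positivity
        linarith
  linarith

theorem degA_graphOf (F : Fin (2 * n) → (Fin r → Fin q)) (a : Fin (2 * n)) :
    degA (graphOf F) a ≤ r := by
  classical
  unfold degA
  have hsub : {b | graphOf F a b} ⊆
      ((univ.image (fun t : Fin r => finProdFinEquiv (t, F a t)) : Finset (Fin (r * q))) :
        Set (Fin (r * q))) := by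
    intro b hb
    rw [Finset.mem_coe, Finset.mem_image]
    refine ⟨(finProdFinEquiv.symm b).1, Finset.mem_univ _, ?_⟩
    have hb' : F a (finProdFinEquiv.symm b).1 = (finProdFinEquiv.symm b).2 := hb
    rw [hb']
    exact finProdFinEquiv.apply_symm_apply b
  calc Set.ncard {b | graphOf F a b} ≤ _ := Set.ncard_le_ncard hsub (Finset.finite_toSet _)
    _ = (univ.image (fun t : Fin r => finProdFinEquiv (t, F a t))).card := Set.ncard_coe_finset _
    _ ≤ (univ : Finset (Fin r)).card := Finset.card_image_le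
    _ = r := by simp

theorem lam_le (hr : 0 < r) (hq : 0 < q) (hn : n ≤ r * q)
    (hz : (2 * (n : ℝ)) ^ 2 * ((r : ℝ) * q) *
      Real.exp (-(((r : ℝ) * q - n) / (q : ℝ) ^ 2)) ≤ 1 / 3) : lam n ≤ r := by
  obtain ⟨F, hF⟩ := exists_good hr hq hz
  have h1 : lam2 n (r * q) ≤ maxDegA (graphOf F) := Nat.sInf_le ⟨_, hF, rfl⟩
  have h2 : maxDegA (graphOf F) ≤ r := Finset.sup_le fun a _ => degA_graphOf F a
  have h3 : lam n ≤ lam2 n (r * q) := Nat.sInf_le ⟨_, hn, rfl⟩
  omega

end Count

end Pool.Agent.H13.Lint
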