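import Mathlib
import Pool.Agent.H13.LintDefs
import Pool.Agent.H13.LintLower
import Pool.Agent.H13.LintStar
import Pool.Agent.H13.LintUpper

/-! Asymptotics for van Lint's pairing problem. -/

namespace Pool.Agent.H13.Lint

open Finset Filter

theorem lower_ineq {n m : ℕ} (hn : 0 < n) (G : Fin (2 * n) → Fin m → Prop)
    (h : PairingProperty n m G) (L : ℝ) (hL : 0 < L) :
    (3 / 4 : ℝ) * n - 1 ≤ 8 * (maxDegA G : ℝ) ^ 2 / L +
      256 * (maxDegA G : ℝ) ^ 3 * Real.exp L / n := by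
  classical
  set ℓ := maxDegA G with hℓdef
  let N : Fin (2 * n) → Finset (Fin m) := fun a => univ.filter (fun b => G a b)
  have hN : ∀ a b, b ∈ N a ↔ G a b := by intro a b; simp [N]
  have hdeg : ∀ a, (N a).card = degA G a := by
    intro a
    unfold degA
    rw [← Set.ncard_coe_finset]
    congr 1
    ext b; simp [N]
  have hℓ : ∀ a, (N a).card ≤ ℓ := by
    intro a
    rw [hdeg]
    exact Finset.le_sup (f := degA G) (Finset.mem_univ a)
  have hℓpos : 0 < ℓ := by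
    have e : (Fin n × Bool) ≃ Fin (2 * n) :=
      Fintype.equivOfCardEq (by simp [mul_comm])
    obtain ⟨k, -, hk⟩ := h e
    have h1 := (hk ⟨0, hn⟩).1
    have h2 : 0 < (N (e (⟨0, hn⟩, false))).card :=
      Finset.card_pos.2 ⟨_, (hN _ _).2 h1⟩
    exact lt_of_lt_of_le h2 (hℓ _)
  have hℓ' : (0 : ℝ) < ℓ := by exact_mod_cast hℓpos
  have hn' : (0 : ℝ) < n := by exact_mod_cast hn
  have hkey := key N ℓ hℓ (fun U => star_of_pairing G h N hN U) (8 * ℓ) L (n / 4)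
    (by positivity) hL (by positivity)
  rw [Fintype.card_fin] at hkey
  push_cast at hkey
  have e1 : 4 * (2 * (n : ℝ)) ^ 2 * ℓ / (8 * ℓ) = 2 * n * n := by
    field_simp; ring
  have e2 : (2 * (n : ℝ)) * (ℓ * (8 * ℓ) ^ 2 * Real.exp L / (n / 4) + n / 4) =
      2 * n * (256 * (ℓ : ℝ) ^ 3 * Real.exp L / n + n / 4) := by
    field_simp; ring
  have e3 : 8 * (ℓ : ℝ) * (2 * n) * ℓ / L = 2 * n * (8 * (ℓ : ℝ) ^ 2 / L) := by
    field_simp
  rw [e1, e2, e3] at hkey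
  have h5 : (2 * (n : ℝ)) * ((2 * n - 1) - 8 * (ℓ : ℝ) ^ 2 / L) ≤
      (2 * n) * (n + (256 * (ℓ : ℝ) ^ 3 * Real.exp L / n + n / 4)) := by
    linarith
  have h6 := le_of_mul_le_mul_left h5 (by positivity)
  linarith

theorem lam_lower_ineq {n : ℕ} (hn : 0 < n) (L : ℝ) (hL : 0 < L) :
    (3 / 4 : ℝ) * n - 1 ≤ 8 * (lam n : ℝ) ^ 2 / L +
      256 * (lam n : ℝ) ^ 3 * Real.exp L / n := by
  have h1 : lam n ∈ {d | ∃ m, n ≤ m ∧ lam2 n m = d} := Nat.sInf_mem ⟨_, n, le_refl _, rfl⟩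
  obtain ⟨m, hm, hlm⟩ := h1
  have h2 : lam2 n m ∈ {d | ∃ G : Fin (2 * n) → Fin m → Prop,
      PairingProperty n m G ∧ maxDegA G = d} := by
    apply Nat.sInf_mem
    refine ⟨_, fun _ _ => True, ?_, rfl⟩
    intro e
    exact ⟨Fin.castLE hm, Fin.castLE_injective hm, fun s => ⟨trivial, trivial⟩⟩
  obtain ⟨G, hG, hGd⟩ := h2
  rw [← hlm, ← hGd]
  exact lower_ineq hn G hG L hL

/-- eventual facts used below -/
theorem ev_facts : ∀ᶠ n : ℕ in atTop, (1000000 : ℝ) ≤ (n : ℝ) ∧ 1 ≤ Real.log n ∧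
    Real.log n ≤ (n : ℝ) ^ ((1 : ℝ) / 12) := by
  have h1 : ∀ᶠ x : ℝ in atTop, (1000000 : ℝ) ≤ x := eventually_ge_atTop _
  have h2 : ∀ᶠ x : ℝ in atTop, 1 ≤ Real.log x := Real.tendsto_log_atTop.eventually_ge_atTop 1
  have h3 : ∀ᶠ x : ℝ in atTop, Real.log x ≤ x ^ ((1 : ℝ) / 12) := by
    have := (isLittleO_log_rpow_atTop (r := (1 : ℝ) / 12) (by norm_num)).bound
      (show (0 : ℝ) < 1 by norm_num)
    filter_upwards [this, h1, h2] with x hx hx1 hx2
    rw [one_mul, Real.norm_eq_abs, Real.norm_eq_abs, abs_of_nonneg (by linarith),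
      abs_of_nonneg (by positivity)] at hx
    exact hx
  exact tendsto_natCast_atTop_atTop.eventually (h1.and (h2.and h3))

theorem lower_asym : ∀ᶠ n : ℕ in atTop,
    (1 / 8 : ℝ) * Real.sqrt (n * Real.log n) ≤ (lam n : ℝ) := by
  filter_upwards [ev_facts] with n hn
  obtain ⟨hx, hl1, hl2⟩ := hn
  set x : ℝ := (n : ℝ) with hxdef
  have hxpos : 0 < x := by linarith
  have hnpos : 0 < n := by
    have : (0 : ℝ) < (n : ℝ) := hxpos
    exact_mod_cast this
  by_contra hcon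
  push Not at hcon
  set s := Real.sqrt (x * Real.log x) with hs
  have hs2 : s ^ 2 = x * Real.log x := Real.sq_sqrt (by positivity)
  have hs0 : 0 ≤ s := Real.sqrt_nonneg _
  have hlam0 : (0 : ℝ) ≤ lam n := Nat.cast_nonneg _
  have hmain := lam_lower_ineq hnpos (Real.log x / 4) (by linarith)
  -- first term
  have ht1 : 8 * (lam n : ℝ) ^ 2 / (Real.log x / 4) ≤ x / 2 := by
    have h1 : (lam n : ℝ) ^ 2 ≤ (1 / 8 * s) ^ 2 := pow_le_pow_left₀ hlam0 hcon.le 2
    have h2 : (1 / 8 * s) ^ 2 = x * Real.log x / 64 := by rw [mul_pow, hs2]; ring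
    rw [h2] at h1
    rw [div_le_iff₀ (by linarith)]
    linarith
  have hexp : Real.exp (Real.log x / 4) = x ^ ((1 : ℝ) / 4) := by
    rw [Real.rpow_def_of_pos hxpos]; congr 1; ring
  have hs_le : s ≤ x ^ ((13 : ℝ) / 24) := by
    rw [hs]
    apply Real.sqrt_le_iff.2
    refine ⟨by positivity, ?_⟩
    rw [← Real.rpow_natCast, ← Real.rpow_mul hxpos.le]
    calc x * Real.log x ≤ x * x ^ ((1 : ℝ) / 12) := mul_le_mul_of_nonneg_left hl2 hxpos.le
      _ = x ^ (1 : ℝ) * x ^ ((1 : ℝ) / 12) := by rw [Real.rpow_one]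
      _ = x ^ ((13 : ℝ) / 24 * ((2 : ℕ) : ℝ)) := by
        rw [← Real.rpow_add hxpos]; congr 1; norm_num
  have hs3 : s ^ 3 ≤ x ^ ((13 : ℝ) / 8) := by
    calc s ^ 3 ≤ (x ^ ((13 : ℝ) / 24)) ^ 3 := pow_le_pow_left₀ hs0 hs_le 3
      _ = x ^ ((13 : ℝ) / 8) := by
        rw [← Real.rpow_natCast, ← Real.rpow_mul hxpos.le]; congr 1; norm_num
  have ht2 : 256 * (lam n : ℝ) ^ 3 * Real.exp (Real.log x / 4) / x ≤
      (1 / 2) * x ^ ((7 : ℝ) / 8) := by
    have h1 : (lam n : ℝ) ^ 3 ≤ (1 / 8 * s) ^ 3 := pow_le_pow_left₀ hlam0 hcon.le 3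
    have h2 : (1 / 8 * s) ^ 3 = s ^ 3 / 512 := by rw [mul_pow]; ring
    rw [h2] at h1
    rw [hexp, div_le_iff₀ hxpos]
    have h3 : x ^ ((13 : ℝ) / 8) * x ^ ((1 : ℝ) / 4) = x ^ ((7 : ℝ) / 8) * x := by
      rw [← Real.rpow_add hxpos]
      nth_rewrite 3 [← Real.rpow_one x]
      rw [← Real.rpow_add hxpos]; congr 1; norm_num
    have h4 : (0 : ℝ) ≤ x ^ ((1 : ℝ) / 4) := by positivity
    calc 256 * (lam n : ℝ) ^ 3 * x ^ ((1 : ℝ) / 4)
        ≤ 256 * (x ^ ((13 : ℝ) / 8) / 512) * x ^ ((1 : ℝ) / 4) := by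
          apply mul_le_mul_of_nonneg_right _ h4
          linarith
      _ = (1 / 2) * (x ^ ((13 : ℝ) / 8) * x ^ ((1 : ℝ) / 4)) := by ring
      _ = (1 / 2) * x ^ ((7 : ℝ) / 8) * x := by rw [h3]; ring
  have h78 : x ^ ((7 : ℝ) / 8) ≤ x / 4 := by
    have h1 : x ^ ((7 : ℝ) / 8) * x ^ ((1 : ℝ) / 8) = x := by
      rw [← Real.rpow_add hxpos]; norm_num
    have h2 : (4 : ℝ) ≤ x ^ ((1 : ℝ) / 8) := by
      have h3 : (4 : ℝ) = (65536 : ℝ) ^ ((1 : ℝ) / 8) := by
        rw [show (65536 : ℝ) = 4 ^ (8 : ℝ) by norm_num, ← Real.rpow_mul (by norm_num)]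
        norm_num
      rw [h3]
      exact Real.rpow_le_rpow (by norm_num) (by linarith) (by norm_num)
    have h4 : (0 : ℝ) ≤ x ^ ((7 : ℝ) / 8) := by positivity
    nlinarith
  rw [← hxdef] at hmain
  linarith

theorem upper_asym : ∀ᶠ n : ℕ in atTop,
    (lam n : ℝ) ≤ 5 * Real.sqrt (n * Real.log n) := by
  filter_upwards [ev_facts] with n hn
  obtain ⟨hx, hl1, hl2⟩ := hn
  set x : ℝ := (n : ℝ) with hxdef
  have hxpos : 0 < x := by linarith
  set l := Real.log x with hl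
  have hlpos : 0 < l := by linarith
  set w := Real.sqrt (x / (4 * l)) with hw
  have hwpos : 0 < w := Real.sqrt_pos.2 (by positivity)
  have hw2 : w ^ 2 = x / (4 * l) := Real.sq_sqrt (by positivity)
  set q := ⌈w⌉₊ with hq
  have hqpos : 0 < q := Nat.ceil_pos.2 hwpos
  have hq1 : w ≤ q := Nat.le_ceil w
  have hq2 : (q : ℝ) < w + 1 := Nat.ceil_lt_add_one hwpos.le
  set r := ⌈8 * l * q⌉₊ with hr
  have hq' : (0 : ℝ) < q := by exact_mod_cast hqpos
  have hrpos : 0 < r := Nat.ceil_pos.2 (by positivity)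
  have hr1 : 8 * l * q ≤ r := Nat.le_ceil _
  have hr2 : (r : ℝ) < 8 * l * q + 1 := Nat.ceil_lt_add_one (by positivity)
  have hqq : x / (4 * l) ≤ (q : ℝ) ^ 2 := by
    rw [← hw2]; exact pow_le_pow_left₀ hwpos.le hq1 2
  have hqq' : x ≤ 4 * l * (q : ℝ) ^ 2 := by
    rw [div_le_iff₀ (by positivity)] at hqq; linarith
  have hrq : 2 * x ≤ (r : ℝ) * q := by
    have h1 : 8 * l * q * q ≤ (r : ℝ) * q := mul_le_mul_of_nonneg_right hr1 hq'.le
    have h2 : 8 * l * q * q = 8 * l * (q : ℝ) ^ 2 := by ring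
    linarith
  have hnrq : n ≤ r * q := by
    have : (n : ℝ) ≤ ((r * q : ℕ) : ℝ) := by
      rw [← hxdef]; push_cast; linarith
    exact Nat.cast_le.1 this
  -- w ≤ sqrt x / 2
  have hsx : Real.sqrt x ^ 2 = x := Real.sq_sqrt hxpos.le
  have hsxpos : 0 < Real.sqrt x := Real.sqrt_pos.2 hxpos
  have hsx1000 : 1000 ≤ Real.sqrt x := by
    apply Real.le_sqrt_of_sq_le; linarith
  have hwx : w ≤ Real.sqrt x := by
    apply Real.sqrt_le_sqrt
    rw [div_le_iff₀ (by positivity)]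
    calc x = x * 1 := by ring
      _ ≤ x * (4 * l) := mul_le_mul_of_nonneg_left (by linarith) hxpos.le
  have hq3 : (q : ℝ) ≤ 2 * Real.sqrt x := by linarith
  have hlsx : l ≤ x ^ ((1 : ℝ) / 12) := hl2
  -- log x ≤ sqrt x / 10
  have hlx : 100 * l ≤ Real.sqrt x := by
    have h1 : x ^ ((1 : ℝ) / 12) * x ^ ((5 : ℝ) / 12) = Real.sqrt x := by
      rw [← Real.rpow_add hxpos, Real.sqrt_eq_rpow]; norm_num
    have h2 : (100 : ℝ) ≤ x ^ ((5 : ℝ) / 12) := by
      have h3 : (100 : ℝ) ≤ (1000000 : ℝ) ^ ((5 : ℝ) / 12) := by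
        rw [show (1000000 : ℝ) = 10 ^ (6 : ℝ) by norm_num, ← Real.rpow_mul (by norm_num)]
        rw [show (6 : ℝ) * (5 / 12) = 5 / 2 by norm_num]
        calc (100 : ℝ) = 10 ^ (2 : ℝ) := by norm_num
          _ ≤ 10 ^ ((5 : ℝ) / 2) := Real.rpow_le_rpow_of_exponent_le (by norm_num) (by norm_num)
      exact le_trans h3 (Real.rpow_le_rpow (by norm_num) hx (by norm_num))
    have h4 : (0 : ℝ) ≤ x ^ ((1 : ℝ) / 12) := by positivity
    calc 100 * l ≤ 100 * x ^ ((1 : ℝ) / 12) := by linarith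
      _ = x ^ ((1 : ℝ) / 12) * 100 := by ring
      _ ≤ x ^ ((1 : ℝ) / 12) * x ^ ((5 : ℝ) / 12) := mul_le_mul_of_nonneg_left h2 h4
      _ = Real.sqrt x := h1
  have hlam : lam n ≤ r := by
    apply lam_le hrpos hqpos hnrq
    rw [← hxdef]
    have hθ : 4 * l ≤ ((r : ℝ) * q - x) / (q : ℝ) ^ 2 := by
      rw [le_div_iff₀ (by positivity)]
      have h1 : 8 * l * q * q ≤ (r : ℝ) * q := mul_le_mul_of_nonneg_right hr1 hq'.le
      have h2 : 8 * l * q * q = 8 * l * (q : ℝ) ^ 2 := by ring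
      linarith
    have he : Real.exp (-(((r : ℝ) * q - x) / (q : ℝ) ^ 2)) ≤ (x ^ 4)⁻¹ := by
      calc Real.exp (-(((r : ℝ) * q - x) / (q : ℝ) ^ 2)) ≤ Real.exp (-(4 * l)) :=
            Real.exp_le_exp.2 (by linarith)
        _ = (x ^ 4)⁻¹ := by
          rw [Real.exp_neg, show (4 : ℝ) * l = ((4 : ℕ) : ℝ) * l by norm_num,
            Real.exp_nat_mul, hl, Real.exp_log hxpos]
    have hrqu : (r : ℝ) * q ≤ x ^ 2 / 12 := by
      have h1 : (r : ℝ) ≤ 9 * l * q := by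
        have : (1 : ℝ) ≤ l * q := by
          have h0 : (1 : ℝ) ≤ q := by exact_mod_cast hqpos
          calc (1 : ℝ) = 1 * 1 := by ring
            _ ≤ l * q := mul_le_mul hl1 h0 (by norm_num) hlpos.le
        linarith
      have h2 : (r : ℝ) * q ≤ 9 * l * q * q := mul_le_mul_of_nonneg_right h1 hq'.le
      have h3 : 9 * l * q * q ≤ 9 * l * (4 * x) := by
        have : (q : ℝ) * q ≤ 4 * x := by
          calc (q : ℝ) * q ≤ (2 * Real.sqrt x) * (2 * Real.sqrt x) :=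
                mul_le_mul hq3 hq3 hq'.le (by linarith)
            _ = 4 * (Real.sqrt x ^ 2) := by ring
            _ = 4 * x := by rw [hsx]
        calc 9 * l * q * q = 9 * l * ((q : ℝ) * q) := by ring
          _ ≤ 9 * l * (4 * x) := mul_le_mul_of_nonneg_left this (by linarith)
      have h4 : 9 * l * (4 * x) ≤ Real.sqrt x * x := by
        calc 9 * l * (4 * x) = (36 * l) * x := by ring
          _ ≤ Real.sqrt x * x := mul_le_mul_of_nonneg_right (by linarith) hxpos.le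
      have h5 : Real.sqrt x * x ≤ x ^ 2 / 12 := by
        have h6 : Real.sqrt x * 12 ≤ x := by
          calc Real.sqrt x * 12 ≤ Real.sqrt x * Real.sqrt x :=
                mul_le_mul_of_nonneg_left (by linarith) hsxpos.le
            _ = Real.sqrt x ^ 2 := by ring
            _ = x := hsx
        have h7 : (Real.sqrt x * 12) * x ≤ x * x := mul_le_mul_of_nonneg_right h6 hxpos.le
        have h8 : x ^ 2 / 12 = (x * x) / 12 := by ring
        rw [h8]
        linarith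
      linarith
    calc (2 * x) ^ 2 * ((r : ℝ) * q) * Real.exp (-(((r : ℝ) * q - x) / (q : ℝ) ^ 2))
        ≤ (2 * x) ^ 2 * (x ^ 2 / 12) * (x ^ 4)⁻¹ := by
          apply mul_le_mul _ he (Real.exp_pos _).le (by positivity)
          exact mul_le_mul_of_nonneg_left hrqu (by positivity)
      _ = 1 / 3 := by field_simp; norm_num
  have hrle : (r : ℝ) ≤ 5 * Real.sqrt (x * l) := by
    have h1 : l * w = Real.sqrt (x * l) / 2 := by
      have h2 : Real.sqrt (x * l) = 2 * (l * w) := by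
        rw [Real.sqrt_eq_iff_mul_self_eq (by positivity) (by positivity)]
        have : w * w = x / (4 * l) := by rw [← sq]; exact hw2
        symm
        calc 2 * (l * w) * (2 * (l * w)) = 4 * l * l * (w * w) := by ring
          _ = 4 * l * l * (x / (4 * l)) := by rw [this]
          _ = x * l := by field_simp
      linarith
    have h2 : Real.sqrt x ≤ Real.sqrt (x * l) := by
      apply Real.sqrt_le_sqrt
      calc x = x * 1 := by ring
        _ ≤ x * l := mul_le_mul_of_nonneg_left hl1 hxpos.le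
    have h3 : 8 * l * q ≤ 8 * (l * w) + 8 * l := by
      calc 8 * l * q ≤ 8 * l * (w + 1) := mul_le_mul_of_nonneg_left hq2.le (by linarith)
        _ = 8 * (l * w) + 8 * l := by ring
    have h4 : (r : ℝ) < 4 * Real.sqrt (x * l) + 8 * l + 1 := by linarith
    linarith
  calc (lam n : ℝ) ≤ r := by exact_mod_cast hlam
    _ ≤ _ := hrle

end Pool.Agent.H13.Lint
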