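import Pool.Agent.H13.NimDefs

set_option autoImplicit false

namespace Pool.Agent.H13.Nim

/-! ### Existence: the tower construction -/

lemma comb (t u v u' v' : ℕ) (hv : v < 2 ^ t) (hv' : v' < 2 ^ t) :
    (u * 2 ^ t + v) ^^^ (u' * 2 ^ t + v') = (u ^^^ u') * 2 ^ t + (v ^^^ v') := by
  have hF : 0 < 2 ^ t := by positivity
  have hx : v ^^^ v' < 2 ^ t := Nat.xor_lt_two_pow hv hv'
  have e1 : ∀ a b, b < 2 ^ t → (a * 2 ^ t + b) / 2 ^ t = a := by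
    intro a b hb
    rw [Nat.add_comm, Nat.add_mul_div_right _ _ hF, Nat.div_eq_of_lt hb, Nat.zero_add]
  have e2 : ∀ a b, b < 2 ^ t → (a * 2 ^ t + b) % 2 ^ t = b := by
    intro a b hb
    rw [Nat.add_comm, Nat.add_mul_mod_self_right, Nat.mod_eq_of_lt hb]
  rw [← Nat.div_add_mod ((u * 2 ^ t + v) ^^^ (u' * 2 ^ t + v')) (2 ^ t)]
  rw [Nat.xor_div_two_pow, Nat.xor_mod_two_pow, e1 _ _ hv, e1 _ _ hv', e2 _ _ hv, e2 _ _ hv',
    Nat.mul_comm]

/-- Level `a` product, on arguments reduced modulo `2 ^ 2 ^ a`. -/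
def nm : ℕ → ℕ → ℕ → ℕ
  | 0, m, n => (m % 2) * (n % 2)
  | a + 1, m, n =>
    ((nm a (m / 2 ^ 2 ^ a) (n / 2 ^ 2 ^ a)) ^^^ (nm a (m / 2 ^ 2 ^ a) n) ^^^
      (nm a m (n / 2 ^ 2 ^ a))) * 2 ^ 2 ^ a +
    (nm a m n ^^^ nm a (nm a (m / 2 ^ 2 ^ a) (n / 2 ^ 2 ^ a)) (2 ^ (2 ^ a - 1)))

lemma nm_lt (a : ℕ) : ∀ m n, nm a m n < 2 ^ 2 ^ a := by
  induction a with
  | zero =>
    intro m n
    have h1 : m % 2 < 2 := Nat.mod_lt _ (by norm_num)
    have h2 : n % 2 < 2 := Nat.mod_lt _ (by norm_num)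
    simp only [nm, pow_zero, pow_one]
    interval_cases (m % 2) <;> interval_cases (n % 2) <;> norm_num
  | succ a ih =>
    intro m n
    simp only [nm]
    have h1 : (nm a (m / 2 ^ 2 ^ a) (n / 2 ^ 2 ^ a)) ^^^ (nm a (m / 2 ^ 2 ^ a) n) ^^^
      (nm a m (n / 2 ^ 2 ^ a)) < 2 ^ 2 ^ a :=
      Nat.xor_lt_two_pow (Nat.xor_lt_two_pow (ih _ _) (ih _ _)) (ih _ _)
    have h2 : nm a m n ^^^ nm a (nm a (m / 2 ^ 2 ^ a) (n / 2 ^ 2 ^ a)) (2 ^ (2 ^ a - 1)) <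
      2 ^ 2 ^ a := Nat.xor_lt_two_pow (ih _ _) (ih _ _)
    have h3 : 2 ^ 2 ^ (a + 1) = 2 ^ 2 ^ a * 2 ^ 2 ^ a := by
      rw [← pow_add]; congr 1; rw [pow_succ]; ring
    rw [h3]
    nlinarith

lemma nm_comm (a : ℕ) : ∀ m n, nm a m n = nm a n m := by
  induction a with
  | zero => intro m n; simp only [nm]; ring
  | succ a ih =>
    intro m n
    simp only [nm]
    rw [ih (n / 2 ^ 2 ^ a) (m / 2 ^ 2 ^ a), ih n m, ih (n / 2 ^ 2 ^ a) m, ih n (m / 2 ^ 2 ^ a)]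
    congr 2
    rw [Nat.xor_assoc, Nat.xor_assoc, Nat.xor_comm (nm a (m / 2 ^ 2 ^ a) n)]

lemma nm_mod (a : ℕ) : ∀ m n, nm a (m % 2 ^ 2 ^ a) n = nm a m n := by
  induction a with
  | zero => intro m n; simp only [nm, pow_zero, pow_one, Nat.mod_mod]
  | succ a ih =>
    intro m n
    have h3 : 2 ^ 2 ^ (a + 1) = 2 ^ 2 ^ a * 2 ^ 2 ^ a := by
      rw [← pow_add]; congr 1; rw [pow_succ]; ring
    simp only [nm]
    have e1 : m % 2 ^ 2 ^ (a + 1) / 2 ^ 2 ^ a = (m / 2 ^ 2 ^ a) % 2 ^ 2 ^ a := by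
      rw [h3, Nat.mod_mul_right_div_self]
    have e2 : ∀ k, nm a (m % 2 ^ 2 ^ (a + 1)) k = nm a m k := by
      intro k
      rw [← ih (m % 2 ^ 2 ^ (a + 1)), h3, Nat.mod_mul_right_mod, ih]
    rw [e1, e2, e2, ih, ih]

lemma nm_mod' (a m n : ℕ) : nm a m (n % 2 ^ 2 ^ a) = nm a m n := by
  rw [nm_comm, nm_mod, nm_comm]

lemma nm_low (a u v n : ℕ) : nm a (u * 2 ^ 2 ^ a + v) n = nm a v n := by
  rw [← nm_mod a (u * 2 ^ 2 ^ a + v), Nat.mul_add_mod_self_right, nm_mod]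

lemma nm_low' (a u v n : ℕ) : nm a n (u * 2 ^ 2 ^ a + v) = nm a n v := by
  rw [nm_comm, nm_low, nm_comm]

lemma nm_xor (a : ℕ) : ∀ k m n, nm a k (m ^^^ n) = nm a k m ^^^ nm a k n := by
  induction a with
  | zero =>
    intro k m n
    simp only [nm]
    have hx : (m ^^^ n) % 2 = (m % 2) ^^^ (n % 2) := by
      have := Nat.xor_mod_two_pow (a := m) (b := n) (n := 1)
      simpa using this
    rw [hx]
    have h0 : k % 2 < 2 := Nat.mod_lt _ (by norm_num)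
    interval_cases (k % 2)
    · simp
    · simp
  | succ a ih =>
    intro k m n
    have ih' : ∀ k m n, nm a (m ^^^ n) k = nm a m k ^^^ nm a n k := by
      intro k m n
      rw [nm_comm, ih, nm_comm a k m, nm_comm a k n]
    simp only [nm]
    rw [comb _ _ _ _ _ (Nat.xor_lt_two_pow (nm_lt _ _ _) (nm_lt _ _ _))
      (Nat.xor_lt_two_pow (nm_lt _ _ _) (nm_lt _ _ _))]
    rw [Nat.xor_div_two_pow]
    simp only [ih, ih']
    congr 1
    · congr 1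
      ac_rfl
    · ac_rfl

lemma nm_xor' (a k m n : ℕ) : nm a (m ^^^ n) k = nm a m k ^^^ nm a n k := by
  rw [nm_comm, nm_xor, nm_comm a k m, nm_comm a k n]

lemma div_of (t u v : ℕ) (hv : v < 2 ^ t) : (u * 2 ^ t + v) / 2 ^ t = u := by
  have hF : 0 < 2 ^ t := by positivity
  rw [Nat.add_comm, Nat.add_mul_div_right _ _ hF, Nat.div_eq_of_lt hv, Nat.zero_add]

lemma nm_assoc (a : ℕ) : ∀ k m n, nm a (nm a k m) n = nm a k (nm a m n) := by
  induction a with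
  | zero =>
    intro k m n
    simp only [nm]
    have h0 : k % 2 < 2 := Nat.mod_lt _ (by norm_num)
    have h1 : m % 2 < 2 := Nat.mod_lt _ (by norm_num)
    have h2 : n % 2 < 2 := Nat.mod_lt _ (by norm_num)
    interval_cases (k % 2) <;> interval_cases (m % 2) <;> interval_cases (n % 2) <;> norm_num
  | succ a ih =>
    intro k m n
    have d1 : nm (a + 1) k m / 2 ^ 2 ^ a = ((nm a (k / 2 ^ 2 ^ a) (m / 2 ^ 2 ^ a)) ^^^
      (nm a (k / 2 ^ 2 ^ a) m) ^^^ (nm a k (m / 2 ^ 2 ^ a))) := by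
      simp only [nm]
      exact div_of _ _ _ (Nat.xor_lt_two_pow (nm_lt _ _ _) (nm_lt _ _ _))
    have d2 : nm (a + 1) m n / 2 ^ 2 ^ a = ((nm a (m / 2 ^ 2 ^ a) (n / 2 ^ 2 ^ a)) ^^^
      (nm a (m / 2 ^ 2 ^ a) n) ^^^ (nm a m (n / 2 ^ 2 ^ a))) := by
      simp only [nm]
      exact div_of _ _ _ (Nat.xor_lt_two_pow (nm_lt _ _ _) (nm_lt _ _ _))
    have l1 : ∀ z, nm a (nm (a + 1) k m) z = nm a (nm a k m ^^^
        nm a (nm a (k / 2 ^ 2 ^ a) (m / 2 ^ 2 ^ a)) (2 ^ (2 ^ a - 1))) z := by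
      intro z
      simp only [nm]
      rw [nm_low]
    have l2 : ∀ z, nm a z (nm (a + 1) m n) = nm a z (nm a m n ^^^
        nm a (nm a (m / 2 ^ 2 ^ a) (n / 2 ^ 2 ^ a)) (2 ^ (2 ^ a - 1))) := by
      intro z
      simp only [nm]
      rw [nm_low']
    have c : ∀ z w, nm (a + 1) z w = ((nm a (z / 2 ^ 2 ^ a) (w / 2 ^ 2 ^ a)) ^^^
      (nm a (z / 2 ^ 2 ^ a) w) ^^^ (nm a z (w / 2 ^ 2 ^ a))) * 2 ^ 2 ^ a +
      (nm a z w ^^^ nm a (nm a (z / 2 ^ 2 ^ a) (w / 2 ^ 2 ^ a)) (2 ^ (2 ^ a - 1))) :=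
      fun z w => rfl
    rw [c (nm (a + 1) k m) n, c k (nm (a + 1) m n), d1, d2]
    simp only [l1, l2]
    generalize k / 2 ^ 2 ^ a = k1
    generalize m / 2 ^ 2 ^ a = m1
    generalize n / 2 ^ 2 ^ a = n1
    generalize 2 ^ (2 ^ a - 1) = h
    simp only [nm_xor, nm_xor']
    have hA : Std.Associative (nm a) := ⟨ih⟩
    have hC : Std.Commutative (nm a) := ⟨nm_comm a⟩
    congr 1
    · congr 1
      ac_rfl
    · ac_rfl

lemma nm_zero (a n : ℕ) : nm a 0 n = 0 := by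
  have h := nm_xor' a n 0 0
  rw [Nat.xor_self] at h
  rw [h, Nat.xor_self]

lemma nm_zero' (a n : ℕ) : nm a n 0 = 0 := by rw [nm_comm, nm_zero]

lemma one_lt_F (a : ℕ) : 1 < 2 ^ 2 ^ a := Nat.one_lt_two_pow (by positivity)

lemma nm_one (a : ℕ) : ∀ n, nm a 1 n = n % 2 ^ 2 ^ a := by
  induction a with
  | zero => intro n; simp [nm]
  | succ a ih =>
    intro n
    have h3 : 2 ^ 2 ^ (a + 1) = 2 ^ 2 ^ a * 2 ^ 2 ^ a := by
      rw [← pow_add]; congr 1; rw [pow_succ]; ring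
    simp only [nm]
    rw [Nat.div_eq_of_lt (one_lt_F a)]
    simp only [nm_zero, ih, Nat.zero_xor, Nat.xor_zero]
    rw [h3, ← Nat.mod_mul_right_div_self]
    have := Nat.div_add_mod (n % (2 ^ 2 ^ a * 2 ^ 2 ^ a)) (2 ^ 2 ^ a)
    rw [Nat.mod_mul_right_mod] at this
    rw [Nat.mul_comm]
    exact this

lemma nm_succ (a m n : ℕ) (hm : m < 2 ^ 2 ^ a) (hn : n < 2 ^ 2 ^ a) : nm (a + 1) m n = nm a m n := by
  simp only [nm]
  rw [Nat.div_eq_of_lt hm, Nat.div_eq_of_lt hn]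
  simp only [nm_zero, nm_zero', Nat.xor_zero, Nat.zero_mul, Nat.zero_add]

lemma F_mono {a b : ℕ} (h : a ≤ b) : 2 ^ 2 ^ a ≤ 2 ^ 2 ^ b :=
  Nat.pow_le_pow_right (by norm_num) (Nat.pow_le_pow_right (by norm_num) h)

lemma nm_stable (a b m n : ℕ) (hab : a ≤ b) (hm : m < 2 ^ 2 ^ a) (hn : n < 2 ^ 2 ^ a) :
    nm b m n = nm a m n := by
  induction b, hab using Nat.le_induction with
  | base => rfl
  | succ b hab ih =>
    rw [nm_succ b m n (hm.trans_le (F_mono hab)) (hn.trans_le (F_mono hab)), ih]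

lemma lt_F (n : ℕ) : n < 2 ^ 2 ^ n :=
  lt_trans Nat.lt_two_pow_self (Nat.pow_lt_pow_right (by norm_num) Nat.lt_two_pow_self)

/-- The nim product. -/
def nimMul (m n : ℕ) : ℕ := nm (m + n) m n

lemma nimMul_eq (a m n : ℕ) (hm : m < 2 ^ 2 ^ a) (hn : n < 2 ^ 2 ^ a) : nimMul m n = nm a m n := by
  unfold nimMul
  have h1 : m < 2 ^ 2 ^ (m + n) := (lt_F m).trans_le (F_mono (by omega))
  have h2 : n < 2 ^ 2 ^ (m + n) := (lt_F n).trans_le (F_mono (by omega))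
  rcases le_total a (m + n) with h | h
  · exact nm_stable a (m + n) m n h hm hn
  · exact (nm_stable (m + n) a m n h h1 h2).symm

theorem isNimMul_nimMul : IsNimMul nimMul := by
  have F_ltF : ∀ a, 2 ^ 2 ^ a < 2 ^ 2 ^ (a + 1) := fun a =>
    Nat.pow_lt_pow_right (by norm_num) (Nat.pow_lt_pow_right (by norm_num) (Nat.lt_succ_self a))
  have Fdiv : ∀ a, 2 ^ 2 ^ a / 2 ^ 2 ^ a = 1 := fun a => Nat.div_self (by positivity)
  refine ⟨?_, ?_, ?_, ?_, ?_⟩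
  · intro a n hn
    rw [nimMul_eq (a + 1) _ _ (F_ltF a) (hn.trans (F_ltF a))]
    simp only [nm]
    have hF0 : ∀ k, nm a (2 ^ 2 ^ a) k = 0 := by
      intro k
      rw [← nm_mod, Nat.mod_self, nm_zero]
    rw [Fdiv, Nat.div_eq_of_lt hn]
    simp only [nm_zero', nm_zero, hF0, Nat.zero_xor, Nat.xor_zero, nm_one, Nat.mod_eq_of_lt hn]
    ring
  · intro a
    rw [nimMul_eq (a + 1) _ _ (F_ltF a) (F_ltF a)]
    simp only [nm]
    have hF0 : ∀ k, nm a (2 ^ 2 ^ a) k = 0 := by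
      intro k
      rw [← nm_mod, Nat.mod_self, nm_zero]
    have hF0' : ∀ k, nm a k (2 ^ 2 ^ a) = 0 := by
      intro k
      rw [nm_comm, hF0]
    rw [Fdiv]
    simp only [hF0, hF0', Nat.zero_xor, Nat.xor_zero, nm_one, Nat.mod_eq_of_lt (one_lt_F a)]
    have hh : 2 ^ (2 ^ a - 1) < 2 ^ 2 ^ a :=
      Nat.pow_lt_pow_right (by norm_num) (Nat.sub_lt (by positivity) (by norm_num))
    rw [Nat.mod_eq_of_lt hh]
    have h2 : 2 ^ 2 ^ a = 2 * 2 ^ (2 ^ a - 1) := by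
      rw [← pow_succ']
      congr 1
      have : 0 < 2 ^ a := by positivity
      omega
    rw [h2]
    omega
  · intro m n
    unfold nimMul
    rw [nm_comm, Nat.add_comm]
  · intro k m n
    have hk : k < 2 ^ 2 ^ (k + m + n) := (lt_F k).trans_le (F_mono (by omega))
    have hm : m < 2 ^ 2 ^ (k + m + n) := (lt_F m).trans_le (F_mono (by omega))
    have hn : n < 2 ^ 2 ^ (k + m + n) := (lt_F n).trans_le (F_mono (by omega))
    rw [nimMul_eq (k + m + n) k m hk hm, nimMul_eq (k + m + n) m n hm hn,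
      nimMul_eq (k + m + n) _ _ (nm_lt _ _ _) hn, nimMul_eq (k + m + n) _ _ hk (nm_lt _ _ _),
      nm_assoc]
  · intro k m n
    have hk : k < 2 ^ 2 ^ (k + m + n) := (lt_F k).trans_le (F_mono (by omega))
    have hm : m < 2 ^ 2 ^ (k + m + n) := (lt_F m).trans_le (F_mono (by omega))
    have hn : n < 2 ^ 2 ^ (k + m + n) := (lt_F n).trans_le (F_mono (by omega))
    rw [nimMul_eq (k + m + n) k m hk hm, nimMul_eq (k + m + n) k n hk hn,
      nimMul_eq (k + m + n) _ _ hk (Nat.xor_lt_two_pow hm hn), nm_xor]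

/-! ### Consequences of the rules -/

section Rules

variable {op : ℕ → ℕ → ℕ} (H : IsNimMul op)

include H

lemma distrib' (k m n : ℕ) : op (m ^^^ n) k = op m k ^^^ op n k := by
  rw [H.comm, H.distrib, H.comm k m, H.comm k n]

lemma op_zero (n : ℕ) : op n 0 = 0 := by
  have h := H.distrib n 0 0
  rw [Nat.xor_self] at h
  rw [h, Nat.xor_self]

lemma zero_op (n : ℕ) : op 0 n = 0 := by rw [H.comm, op_zero H]

lemma one_op (n : ℕ) : op 1 n = n := by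
  set a := n + op 1 n with ha
  have h1 : n < 2 ^ 2 ^ a := (lt_F n).trans_le (F_mono (by omega))
  have h2 : op 1 n < 2 ^ 2 ^ a := (lt_F _).trans_le (F_mono (by omega))
  have e1 := H.assoc (2 ^ 2 ^ a) 1 n
  rw [H.small a 1 (one_lt_F a), Nat.mul_one, H.small a n h1, H.small a _ h2] at e1
  exact (Nat.eq_of_mul_eq_mul_left (by positivity) e1).symm

/-- Closure below the Fermat powers, and the determination of products by the rules. -/
lemma op_eq_nm (a : ℕ) : ∀ m n, m < 2 ^ 2 ^ a → n < 2 ^ 2 ^ a → op m n = nm a m n := by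
  induction a with
  | zero =>
    intro m n hm hn
    simp only [pow_zero, pow_one] at hm hn
    interval_cases m <;> interval_cases n <;>
      simp only [zero_op H, op_zero H, one_op H, nm]
  | succ a ih =>
    intro m n hm hn
    have h3 : 2 ^ 2 ^ (a + 1) = 2 ^ 2 ^ a * 2 ^ 2 ^ a := by
      rw [← pow_add]; congr 1; rw [pow_succ]; ring
    have hF : 0 < 2 ^ 2 ^ a := by positivity
    have hm1 : m / 2 ^ 2 ^ a < 2 ^ 2 ^ a := by
      rw [h3] at hm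
      exact Nat.div_lt_of_lt_mul hm
    have hn1 : n / 2 ^ 2 ^ a < 2 ^ 2 ^ a := by
      rw [h3] at hn
      exact Nat.div_lt_of_lt_mul hn
    have hm0 : m % 2 ^ 2 ^ a < 2 ^ 2 ^ a := Nat.mod_lt _ hF
    have hn0 : n % 2 ^ 2 ^ a < 2 ^ 2 ^ a := Nat.mod_lt _ hF
    have split : ∀ u v, u < 2 ^ 2 ^ a → v < 2 ^ 2 ^ a →
        u * 2 ^ 2 ^ a + v = op (2 ^ 2 ^ a) u ^^^ v := by
      intro u v hu hv
      rw [H.small a u hu]
      have := comb (2 ^ a) u 0 0 v hF hv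
      rw [Nat.xor_zero, Nat.zero_xor, Nat.zero_mul, Nat.zero_add, Nat.add_zero] at this
      rw [← this, Nat.mul_comm]
    have hsq : op (2 ^ 2 ^ a) (2 ^ 2 ^ a) = 2 ^ 2 ^ a ^^^ 2 ^ (2 ^ a - 1) := by
      rw [H.sq]
      have hh : 2 ^ (2 ^ a - 1) < 2 ^ 2 ^ a :=
        Nat.pow_lt_pow_right (by norm_num) (Nat.sub_lt (by positivity) (by norm_num))
      have h4 := split 1 _ (one_lt_F a) hh
      rw [H.comm, one_op H, Nat.one_mul] at h4
      rw [← h4]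
      have h2 : 2 ^ 2 ^ a = 2 * 2 ^ (2 ^ a - 1) := by
        rw [← pow_succ']
        congr 1
        have : 0 < 2 ^ a := by positivity
        omega
      omega
    have hh : 2 ^ (2 ^ a - 1) < 2 ^ 2 ^ a :=
        Nat.pow_lt_pow_right (by norm_num) (Nat.sub_lt (by positivity) (by norm_num))
    have em : m = op (2 ^ 2 ^ a) (m / 2 ^ 2 ^ a) ^^^ m % 2 ^ 2 ^ a := by
      rw [← split _ _ hm1 hm0, Nat.mul_comm, Nat.div_add_mod]
    have en : n = op (2 ^ 2 ^ a) (n / 2 ^ 2 ^ a) ^^^ n % 2 ^ 2 ^ a := by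
      rw [← split _ _ hn1 hn0, Nat.mul_comm, Nat.div_add_mod]
    simp only [nm]
    rw [split _ _ (Nat.xor_lt_two_pow (Nat.xor_lt_two_pow (nm_lt _ _ _) (nm_lt _ _ _)) (nm_lt _ _ _))
      (Nat.xor_lt_two_pow (nm_lt _ _ _) (nm_lt _ _ _))]
    rw [← nm_mod' a (m / 2 ^ 2 ^ a) n, ← nm_mod a m (n / 2 ^ 2 ^ a), ← nm_mod a m n,
      ← nm_mod' a _ n]
    rw [← ih _ _ hm1 hn1, ← ih _ _ hm1 hn0, ← ih _ _ hm0 hn1, ← ih _ _ hm0 hn0]
    rw [← ih (op (m / 2 ^ 2 ^ a) (n / 2 ^ 2 ^ a)) (2 ^ (2 ^ a - 1)) (by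
      rw [ih _ _ hm1 hn1]; exact nm_lt _ _ _) hh]
    conv_lhs => rw [em, en]
    generalize m / 2 ^ 2 ^ a = m1
    generalize n / 2 ^ 2 ^ a = n1
    generalize m % 2 ^ 2 ^ a = m0
    generalize n % 2 ^ 2 ^ a = n0
    have hA : Std.Associative op := ⟨H.assoc⟩
    have hC : Std.Commutative op := ⟨H.comm⟩
    have e1 : op (op (2 ^ 2 ^ a) m1) (op (2 ^ 2 ^ a) n1) =
        op (op (2 ^ 2 ^ a) (2 ^ 2 ^ a)) (op m1 n1) := by ac_rfl
    simp only [H.distrib, distrib' H, e1, hsq]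
    ac_rfl

lemma op_unique {op' : ℕ → ℕ → ℕ} (H' : IsNimMul op') : op = op' := by
  funext m n
  have h1 : m < 2 ^ 2 ^ (m + n) := (lt_F m).trans_le (F_mono (by omega))
  have h2 : n < 2 ^ 2 ^ (m + n) := (lt_F n).trans_le (F_mono (by omega))
  rw [op_eq_nm H _ m n h1 h2, op_eq_nm H' _ m n h1 h2]

lemma op_lt (a m n : ℕ) (hm : m < 2 ^ 2 ^ a) (hn : n < 2 ^ 2 ^ a) : op m n < 2 ^ 2 ^ a := by
  rw [op_eq_nm H a m n hm hn]
  exact nm_lt _ _ _

end Rules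

theorem existsUnique_nimMul : ∃! op : ℕ → ℕ → ℕ, IsNimMul op :=
  ⟨nimMul, isNimMul_nimMul, fun _ h => op_unique h isNimMul_nimMul⟩

/-! ### The parity of the squares of powers of two -/

section Parity

variable {op : ℕ → ℕ → ℕ} (H : IsNimMul op)

include H

lemma split_add (a u v : ℕ) (hu : u < 2 ^ 2 ^ a) (hv : v < 2 ^ 2 ^ a) :
    u * 2 ^ 2 ^ a + v = op (2 ^ 2 ^ a) u ^^^ v := by
  rw [H.small a u hu]
  have := comb (2 ^ a) u 0 0 v (by positivity) hv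
  rw [Nat.xor_zero, Nat.zero_xor, Nat.zero_mul, Nat.zero_add, Nat.add_zero] at this
  rw [← this, Nat.mul_comm]

lemma sq_F (a : ℕ) : op (2 ^ 2 ^ a) (2 ^ 2 ^ a) = 2 ^ 2 ^ a ^^^ 2 ^ (2 ^ a - 1) := by
  rw [H.sq]
  have hh : 2 ^ (2 ^ a - 1) < 2 ^ 2 ^ a :=
    Nat.pow_lt_pow_right (by norm_num) (Nat.sub_lt (by positivity) (by norm_num))
  have h4 := split_add H a 1 _ (one_lt_F a) hh
  rw [H.comm, one_op H, Nat.one_mul] at h4
  rw [← h4]
  have h2 : 2 ^ 2 ^ a = 2 * 2 ^ (2 ^ a - 1) := by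
    rw [← pow_succ']
    congr 1
    have : 0 < 2 ^ a := by positivity
    omega
  omega

lemma even_op (a w : ℕ) (hw : w < 2 ^ 2 ^ a) : op (2 ^ 2 ^ a) w % 2 = 0 := by
  rw [H.small a w hw]
  have h2 : 2 ^ 2 ^ a = 2 * 2 ^ (2 ^ a - 1) := by
    rw [← pow_succ']
    congr 1
    have : 0 < 2 ^ a := by positivity
    omega
  rw [h2, Nat.mul_assoc]
  exact Nat.mul_mod_right _ _

omit H in
lemma xor_par (x y : ℕ) : (x ^^^ y) % 2 = (x % 2 + y % 2) % 2 := by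
  have h := Nat.xor_mod_two_pow (a := x) (b := y) (n := 1)
  simp only [pow_one] at h
  rw [h]
  have h0 : x % 2 < 2 := Nat.mod_lt _ (by norm_num)
  have h1 : y % 2 < 2 := Nat.mod_lt _ (by norm_num)
  interval_cases (x % 2) <;> interval_cases (y % 2) <;> rfl

lemma sq_add (u v : ℕ) : op (u ^^^ v) (u ^^^ v) = op u u ^^^ op v v := by
  rw [H.distrib, distrib' H, distrib' H, H.comm v u]
  rw [Nat.xor_assoc, ← Nat.xor_assoc (op u v), Nat.xor_self, Nat.zero_xor]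

lemma h_succ (b : ℕ) : 2 ^ (2 ^ (b + 1) - 1) = op (2 ^ 2 ^ b) (2 ^ (2 ^ b - 1)) := by
  have hh : 2 ^ (2 ^ b - 1) < 2 ^ 2 ^ b :=
    Nat.pow_lt_pow_right (by norm_num) (Nat.sub_lt (by positivity) (by norm_num))
  rw [H.small b _ hh, ← pow_add]
  congr 1
  have : 0 < 2 ^ b := by positivity
  rw [pow_succ]
  omega

lemma exists_inv (b : ℕ) : ∃ g, g < 2 ^ 2 ^ b ∧ op (2 ^ (2 ^ b - 1)) g = 1 := by
  induction b with
  | zero =>
    refine ⟨1, by norm_num, ?_⟩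
    have : 2 ^ (2 ^ 0 - 1) = 1 := by norm_num
    rw [this, one_op H]
  | succ b ih =>
    obtain ⟨g, hg, hg1⟩ := ih
    have hlt : 2 ^ 2 ^ b < 2 ^ 2 ^ (b + 1) :=
      Nat.pow_lt_pow_right (by norm_num) (Nat.pow_lt_pow_right (by norm_num) (Nat.lt_succ_self b))
    have hy1 : 2 ^ 2 ^ b ^^^ 1 < 2 ^ 2 ^ (b + 1) :=
      Nat.xor_lt_two_pow hlt (one_lt_F (b + 1))
    refine ⟨op (op (2 ^ 2 ^ b ^^^ 1) g) g, ?_, ?_⟩
    · exact op_lt H _ _ _ (op_lt H _ _ _ hy1 (hg.trans hlt)) (hg.trans hlt)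
    · rw [h_succ H]
      have hA : Std.Associative op := ⟨H.assoc⟩
      have hC : Std.Commutative op := ⟨H.comm⟩
      have e1 : op (op (2 ^ 2 ^ b) (2 ^ (2 ^ b - 1))) (op (op (2 ^ 2 ^ b ^^^ 1) g) g) =
          op (op (2 ^ 2 ^ b) (2 ^ 2 ^ b ^^^ 1)) (op (op (2 ^ (2 ^ b - 1)) g) g) := by ac_rfl
      have e2 : op (2 ^ 2 ^ b) (2 ^ 2 ^ b ^^^ 1) = 2 ^ (2 ^ b - 1) := by
        rw [H.distrib, sq_F H, H.comm _ 1, one_op H, Nat.xor_comm (2 ^ 2 ^ b) (2 ^ (2 ^ b - 1)),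
          Nat.xor_assoc, Nat.xor_self, Nat.xor_zero]
      rw [e1, e2, hg1, one_op H, hg1]

lemma par_zero (b k : ℕ) (hk : k < 2 ^ b) :
    op (2 ^ (2 ^ (b + 1) + k)) (2 ^ (2 ^ (b + 1) + k)) % 2 = 0 := by
  have hA : Std.Associative op := ⟨H.assoc⟩
  have hC : Std.Commutative op := ⟨H.comm⟩
  have hlt : 2 ^ 2 ^ b < 2 ^ 2 ^ (b + 1) :=
    Nat.pow_lt_pow_right (by norm_num) (Nat.pow_lt_pow_right (by norm_num) (Nat.lt_succ_self b))
  have hk1 : 2 ^ k < 2 ^ 2 ^ b := Nat.pow_lt_pow_right (by norm_num) hk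
  have hs : op (2 ^ k) (2 ^ k) < 2 ^ 2 ^ b := op_lt H _ _ _ hk1 hk1
  have hh : 2 ^ (2 ^ b - 1) < 2 ^ 2 ^ b :=
    Nat.pow_lt_pow_right (by norm_num) (Nat.sub_lt (by positivity) (by norm_num))
  have e0 : 2 ^ (2 ^ (b + 1) + k) = op (2 ^ 2 ^ (b + 1)) (2 ^ k) := by
    rw [H.small _ _ (hk1.trans hlt), pow_add]
  have e1 : op (op (2 ^ 2 ^ (b + 1)) (2 ^ k)) (op (2 ^ 2 ^ (b + 1)) (2 ^ k)) =
      op (op (2 ^ 2 ^ (b + 1)) (2 ^ 2 ^ (b + 1))) (op (2 ^ k) (2 ^ k)) := by ac_rfl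
  rw [e0, e1, sq_F H, distrib' H, xor_par, even_op H _ _ (hs.trans hlt), h_succ H, H.assoc,
    even_op H _ _ (op_lt H _ _ _ hh hs)]

lemma par_formula (b k : ℕ) (hk : k < 2 ^ b) :
    op (2 ^ (2 ^ (b + 1) + (2 ^ b + k))) (2 ^ (2 ^ (b + 1) + (2 ^ b + k))) % 2 =
      op (op (2 ^ (2 ^ b - 1)) (2 ^ k)) (op (2 ^ (2 ^ b - 1)) (2 ^ k)) % 2 := by
  have hA : Std.Associative op := ⟨H.assoc⟩
  have hC : Std.Commutative op := ⟨H.comm⟩
  have hlt : 2 ^ 2 ^ b < 2 ^ 2 ^ (b + 1) :=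
    Nat.pow_lt_pow_right (by norm_num) (Nat.pow_lt_pow_right (by norm_num) (Nat.lt_succ_self b))
  have hk1 : 2 ^ k < 2 ^ 2 ^ b := Nat.pow_lt_pow_right (by norm_num) hk
  have hs : op (2 ^ k) (2 ^ k) < 2 ^ 2 ^ b := op_lt H _ _ _ hk1 hk1
  have hh : 2 ^ (2 ^ b - 1) < 2 ^ 2 ^ b :=
    Nat.pow_lt_pow_right (by norm_num) (Nat.sub_lt (by positivity) (by norm_num))
  have e0' : 2 ^ (2 ^ b + k) = op (2 ^ 2 ^ b) (2 ^ k) := by
    rw [H.small _ _ hk1, pow_add]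
  have hlt2 : 2 ^ (2 ^ b + k) < 2 ^ 2 ^ (b + 1) := by
    apply Nat.pow_lt_pow_right (by norm_num)
    rw [pow_succ]
    omega
  have e0 : 2 ^ (2 ^ (b + 1) + (2 ^ b + k)) = op (2 ^ 2 ^ (b + 1)) (2 ^ (2 ^ b + k)) := by
    rw [H.small _ _ hlt2, pow_add]
  have e1 : op (op (2 ^ 2 ^ (b + 1)) (2 ^ (2 ^ b + k))) (op (2 ^ 2 ^ (b + 1)) (2 ^ (2 ^ b + k))) =
      op (op (2 ^ 2 ^ (b + 1)) (2 ^ 2 ^ (b + 1))) (op (2 ^ (2 ^ b + k)) (2 ^ (2 ^ b + k))) := by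
    ac_rfl
  have hs' : op (2 ^ (2 ^ b + k)) (2 ^ (2 ^ b + k)) < 2 ^ 2 ^ (b + 1) := op_lt H _ _ _ hlt2 hlt2
  have e2 : op (2 ^ (2 ^ b + k)) (2 ^ (2 ^ b + k)) =
      op (2 ^ 2 ^ b) (op (2 ^ k) (2 ^ k)) ^^^ op (2 ^ (2 ^ b - 1)) (op (2 ^ k) (2 ^ k)) := by
    have : op (op (2 ^ 2 ^ b) (2 ^ k)) (op (2 ^ 2 ^ b) (2 ^ k)) =
      op (op (2 ^ 2 ^ b) (2 ^ 2 ^ b)) (op (2 ^ k) (2 ^ k)) := by ac_rfl
    rw [e0', this, sq_F H, distrib' H]
  have e3 : op (2 ^ (2 ^ (b + 1) - 1)) (op (2 ^ (2 ^ b + k)) (2 ^ (2 ^ b + k))) =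
      (op (2 ^ 2 ^ b) (op (2 ^ (2 ^ b - 1)) (op (2 ^ k) (2 ^ k))) ^^^
        op (op (2 ^ (2 ^ b - 1)) (2 ^ k)) (op (2 ^ (2 ^ b - 1)) (2 ^ k))) ^^^
      op (2 ^ 2 ^ b) (op (2 ^ (2 ^ b - 1)) (op (2 ^ (2 ^ b - 1)) (op (2 ^ k) (2 ^ k)))) := by
    rw [e2, h_succ H, H.distrib]
    congr 1
    · have : op (op (2 ^ 2 ^ b) (2 ^ (2 ^ b - 1))) (op (2 ^ 2 ^ b) (op (2 ^ k) (2 ^ k))) =
        op (op (2 ^ 2 ^ b) (2 ^ 2 ^ b)) (op (2 ^ (2 ^ b - 1)) (op (2 ^ k) (2 ^ k))) := by ac_rfl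
      rw [this, sq_F H, distrib' H]
      congr 1
      ac_rfl
    · ac_rfl
  rw [e0, e1, sq_F H, distrib' H, xor_par, even_op H _ _ hs', e3, xor_par, xor_par,
    even_op H _ _ (op_lt H _ _ _ hh hs), even_op H _ _ (op_lt H _ _ _ hh (op_lt H _ _ _ hh hs))]
  omega

lemma exists_par_one (b : ℕ) : ∃ k, k < 2 ^ b ∧
    op (op (2 ^ (2 ^ b - 1)) (2 ^ k)) (op (2 ^ (2 ^ b - 1)) (2 ^ k)) % 2 = 1 := by
  by_contra hcon
  push Not at hcon
  have h0 : ∀ k, k < 2 ^ b →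
      op (op (2 ^ (2 ^ b - 1)) (2 ^ k)) (op (2 ^ (2 ^ b - 1)) (2 ^ k)) % 2 = 0 := by
    intro k hk
    have := hcon k hk
    omega
  have hall : ∀ t, t ≤ 2 ^ b → ∀ m, m < 2 ^ t →
      op (op (2 ^ (2 ^ b - 1)) m) (op (2 ^ (2 ^ b - 1)) m) % 2 = 0 := by
    intro t
    induction t with
    | zero =>
      intro _ m hm
      have : m = 0 := by simpa using hm
      subst this
      rw [op_zero H, op_zero H]
    | succ t ih =>
      intro ht m hm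
      rcases Nat.lt_or_ge m (2 ^ t) with h | h
      · exact ih (by omega) m h
      · have hv : m - 2 ^ t < 2 ^ t := by
          rw [pow_succ] at hm
          omega
        have hm' : m = 2 ^ t ^^^ (m - 2 ^ t) := by
          have := comb t 1 0 0 (m - 2 ^ t) (by positivity) hv
          rw [Nat.xor_zero, Nat.zero_xor, Nat.zero_mul, Nat.zero_add, Nat.add_zero,
            Nat.one_mul] at this
          rw [this]
          omega
        rw [hm', H.distrib, sq_add H, xor_par, h0 t (by omega), ih (by omega) _ hv]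
  obtain ⟨g, hg, hg1⟩ := exists_inv H b
  have := hall (2 ^ b) le_rfl g hg
  rw [hg1, one_op H] at this
  omega

/-- No two dilated square sequences agree modulo two. -/
theorem no_coincidence (e e' : ℕ) (hlt : e < e')
    (h : ∀ n, op (2 ^ e * n) (2 ^ e * n) % 2 = op (2 ^ e' * n) (2 ^ e' * n) % 2) : False := by
  have hper : ∀ j, e ≤ j → op (2 ^ (j + (e' - e))) (2 ^ (j + (e' - e))) % 2 =
      op (2 ^ j) (2 ^ j) % 2 := by
    intro j hj
    have := h (2 ^ (j - e))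
    rw [← pow_add, ← pow_add] at this
    have e1 : e + (j - e) = j := by omega
    have e2 : e' + (j - e) = j + (e' - e) := by omega
    rw [e1, e2] at this
    exact this.symm
  set q := e' - e with hq
  have hq0 : 0 < q := by omega
  set b := q + e with hb
  have hb1 : q + e < 2 ^ b := Nat.lt_two_pow_self
  have hb2 : 2 ^ (b + 1) = 2 ^ b + 2 ^ b := by rw [pow_succ]; omega
  have hzero : ∀ j, 2 ^ (b + 1) ≤ j → op (2 ^ j) (2 ^ j) % 2 = 0 := by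
    intro j
    induction j using Nat.strong_induction_on with
    | _ j ih =>
      intro hj
      rcases Nat.lt_or_ge j (2 ^ (b + 1) + 2 ^ b) with h1 | h1
      · have := par_zero H b (j - 2 ^ (b + 1)) (by omega)
        have e1 : 2 ^ (b + 1) + (j - 2 ^ (b + 1)) = j := by omega
        rw [e1] at this
        exact this
      · have h2 := hper (j - q) (by omega)
        have e1 : j - q + q = j := by omega
        rw [e1] at h2
        rw [h2]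
        exact ih (j - q) (by omega) (by omega)
  obtain ⟨k, hk, hk1⟩ := exists_par_one H b
  rw [← par_formula H b k hk, hzero _ (by omega)] at hk1
  omega

end Parity

/-! ### Regular sequences -/

lemma exists_coincidence (K : Submodule ℤ (ℕ → ℤ)) (hK : K.FG) (u : ℕ → ℕ → ℤ)
    (hu : ∀ e, u e ∈ K) : ∃ e e', e < e' ∧ ∀ n, ((u e n : ℤ) : ZMod 2) = ((u e' n : ℤ) : ZMod 2) := by
  let φ : (ℕ → ℤ) →ₗ[ℤ] (ℕ → ZMod 2) :=
    { toFun := fun f n => ((f n : ℤ) : ZMod 2)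
      map_add' := fun f g => by funext n; simp
      map_smul' := fun c f => by funext n; simp }
  have hfg : (K.map φ).FG := hK.map φ
  have : Module.Finite ℤ (K.map φ) := Module.Finite.iff_fg.2 hfg
  have htor : Module.IsTorsion ℤ (K.map φ) := by
    intro x
    refine ⟨⟨2, by simp⟩, ?_⟩
    apply Subtype.ext
    funext n
    have : ((2 : ℤ) • (x : ℕ → ZMod 2)) n = 0 := by
      simp only [Pi.smul_apply]
      have h2 : ∀ z : ZMod 2, (2 : ℤ) • z = 0 := by decide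
      exact h2 _
    exact this
  have : _root_.Finite (K.map φ) := Module.finite_of_fg_torsion _ htor
  let w : ℕ → (K.map φ) := fun e => ⟨φ (u e), Submodule.mem_map_of_mem (hu e)⟩
  obtain ⟨e, e', hne, heq⟩ := Finite.exists_ne_map_eq_of_infinite w
  have key : ∀ n, ((u e n : ℤ) : ZMod 2) = ((u e' n : ℤ) : ZMod 2) := by
    intro n
    have := congrArg (fun x : (K.map φ) => (x : ℕ → ZMod 2) n) heq
    exact this
  rcases Nat.lt_or_gt_of_ne hne with h | h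
  · exact ⟨e, e', h, key⟩
  · exact ⟨e', e, h, fun n => (key n).symm⟩

lemma not_of_mem {op : ℕ → ℕ → ℕ} (H : IsNimMul op) (K : Submodule ℤ (ℕ → ℤ)) (hK : K.FG)
    (hu : ∀ e : ℕ, (fun n : ℕ => ((op (2 ^ e * n) (2 ^ e * n) : ℕ) : ℤ)) ∈ K) : False := by
  obtain ⟨e, e', hlt, h⟩ := exists_coincidence K hK _ hu
  refine no_coincidence H e e' hlt (fun n => ?_)
  have := h n
  rw [ZMod.intCast_eq_intCast_iff] at this
  have h2 := this.eq
  omega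

theorem squares_not_twoRegular {op : ℕ → ℕ → ℕ} (H : IsNimMul op) :
    ¬ TwoRegular (fun n => (op n n : ℤ)) := by
  intro hK
  refine not_of_mem H _ hK (fun e => ?_)
  apply Submodule.subset_span
  exact ⟨e, 0, by positivity, by simp⟩

theorem table_not_twoRegular {op : ℕ → ℕ → ℕ} (H : IsNimMul op) :
    ¬ TwoRegularArray (fun m n => (op m n : ℤ)) := by
  intro hK
  let δ : (ℕ → ℕ → ℤ) →ₗ[ℤ] (ℕ → ℤ) :=
    { toFun := fun f n => f n n
      map_add' := fun f g => rfl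
      map_smul' := fun c f => rfl }
  refine not_of_mem H _ (hK.map δ) (fun e => ?_)
  refine ⟨fun m n => ((op (2 ^ e * m) (2 ^ e * n) : ℕ) : ℤ), ?_, rfl⟩
  apply Submodule.subset_span
  exact ⟨e, 0, 0, by positivity, by positivity, by simp⟩

end Pool.Agent.H13.Nim
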