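import Mathlib

set_option autoImplicit false

namespace Pool.Agent.H13.Nim

/-- `IsNimMul op`: the binary operation `op` on the naturals obeys the rules of the nim product.
Here `^^^` is the nim sum (bitwise exclusive or of natural numbers). Rules (a) and (b) are `small`
and `sq`; rule (c) is associativity and distributivity over the nim sum; and `op` is commutative. -/
structure IsNimMul (op : ℕ → ℕ → ℕ) : Prop where
  small : ∀ a n : ℕ, n < 2 ^ (2 ^ a) → op (2 ^ (2 ^ a)) n = 2 ^ (2 ^ a) * n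
  sq : ∀ a : ℕ, op (2 ^ (2 ^ a)) (2 ^ (2 ^ a)) = 3 * 2 ^ (2 ^ a) / 2
  comm : ∀ m n : ℕ, op m n = op n m
  assoc : ∀ k m n : ℕ, op (op k m) n = op k (op m n)
  distrib : ∀ k m n : ℕ, op k (m ^^^ n) = op k m ^^^ op k n

/-- 2-regular sequences of integers: the 2-kernel generates a finitely generated
`ℤ`-submodule of the module of all integer sequences. -/
def TwoRegular (s : ℕ → ℤ) : Prop :=
  (Submodule.span ℤ {t : ℕ → ℤ | ∃ e r : ℕ, r < 2 ^ e ∧ t = fun n => s (2 ^ e * n + r)}).FG

/-- 2-regular two-dimensional arrays of integers. -/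
def TwoRegularArray (t : ℕ → ℕ → ℤ) : Prop :=
  (Submodule.span ℤ {u : ℕ → ℕ → ℤ | ∃ e r r' : ℕ, r < 2 ^ e ∧ r' < 2 ^ e ∧
    u = fun m n => t (2 ^ e * m + r) (2 ^ e * n + r')}).FG

end Pool.Agent.H13.Nim
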