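import Mathlib

set_option autoImplicit false

namespace Pool.Agent.H13.Peb

open Finset

variable {V : Type} [Fintype V] [DecidableEq V]

/-- One pebbling move. -/
def Move (G : SimpleGraph V) (A B : V → ℕ) : Prop :=
  ∃ u v : V, G.Adj u v ∧ 2 ≤ A u ∧
    B = Function.update (Function.update A u (A u - 2)) v (A v + 1)

/-- Neighbours. -/
noncomputable def nb (G : SimpleGraph V) (w : V) : Finset V := by
  classical exact Finset.univ.filter (fun x => G.Adj w x)

omit [DecidableEq V] in
lemma mem_nb (G : SimpleGraph V) (w x : V) : x ∈ nb G w ↔ G.Adj w x := by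
  classical
  simp [nb]

/-- Messages. -/
noncomputable def msg (G : SimpleGraph V) (C : V → ℕ) : ℕ → V → V → ℕ
  | 0, _, _ => 0
  | t + 1, w, u => (C w + ∑ x ∈ (nb G w).erase u, msg G C t x w) / 2

/-- Input for a message. -/
noncomputable def inn (G : SimpleGraph V) (C : V → ℕ) (t : ℕ) (w u : V) : ℕ :=
  C w + ∑ x ∈ (nb G w).erase u, msg G C t x w

lemma msg_succ (G : SimpleGraph V) (C : V → ℕ) (t : ℕ) (w u : V) :
    msg G C (t + 1) w u = inn G C t w u / 2 := rfl

lemma msg_mono_succ (G : SimpleGraph V) (C : V → ℕ) (t : ℕ) :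
    ∀ w u, msg G C t w u ≤ msg G C (t + 1) w u := by
  induction t with
  | zero => intro w u; exact Nat.zero_le _
  | succ t ih =>
    intro w u
    rw [msg_succ, msg_succ]
    apply Nat.div_le_div_right
    unfold inn
    gcongr
    exact ih _ _

/-- Covered vertices at time `t`. -/
def Cov (G : SimpleGraph V) (C : V → ℕ) (t : ℕ) (u : V) : Prop :=
  1 ≤ C u ∨ ∃ w, G.Adj w u ∧ 1 ≤ msg G C t w u

lemma cov_mono_succ {G : SimpleGraph V} {C : V → ℕ} {t : ℕ} {u : V} (h : Cov G C t u) :
    Cov G C (t + 1) u := by
  rcases h with h | ⟨w, hw, h⟩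
  · exact Or.inl h
  · exact Or.inr ⟨w, hw, h.trans (msg_mono_succ G C t w u)⟩

lemma cov_mono {G : SimpleGraph V} {C : V → ℕ} {s t : ℕ} (hst : s ≤ t) {u : V} (h : Cov G C s u) :
    Cov G C t u := by
  induction t, hst using Nat.le_induction with
  | base => exact h
  | succ t _ ih => exact cov_mono_succ ih

lemma cov_move {G : SimpleGraph V} {C C' : V → ℕ} (h : Move G C C') (t : ℕ) (u : V)
    (hu : Cov G C' t u) : Cov G C (t + 1) u := by
  obtain ⟨a, b, hab, ha2, rfl⟩ := h
  have hne : a ≠ b := hab.ne
  set C' : V → ℕ := Function.update (Function.update C a (C a - 2)) b (C b + 1) with hC'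
  have Ca : C' a = C a - 2 := by
    rw [hC', Function.update_of_ne hne, Function.update_self]
  have Cb : C' b = C b + 1 := by
    rw [hC', Function.update_self]
  have Co : ∀ x, x ≠ a → x ≠ b → C' x = C x := by
    intro x hxa hxb
    rw [hC', Function.update_of_ne hxb, Function.update_of_ne hxa]
  have key : ∀ t : ℕ, (msg G C' t a b + 1 ≤ msg G C (t + 1) a b) ∧
      (msg G C' t b a ≤ msg G C (t + 1) b a + 1) ∧
      (∀ x y, G.Adj x y → ¬ (x = a ∧ y = b) → ¬ (x = b ∧ y = a) →
        msg G C' t x y ≤ msg G C (t + 1) x y) := by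
    intro t
    induction t with
    | zero =>
      refine ⟨?_, ?_, ?_⟩
      · rw [msg_succ]
        have : C a ≤ inn G C 0 a b := Nat.le_add_right _ _
        have h0 : msg G C' 0 a b = 0 := rfl
        omega
      · exact Nat.zero_le _
      · intro x y _ _ _
        exact Nat.zero_le _
    | succ t ih =>
      obtain ⟨i1, i2, i3⟩ := ih
      refine ⟨?_, ?_, ?_⟩
      · rw [msg_succ, msg_succ]
        have hs : ∑ x ∈ (nb G a).erase b, msg G C' t x a ≤
            ∑ x ∈ (nb G a).erase b, msg G C (t + 1) x a := by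
          apply Finset.sum_le_sum
          intro x hx
          rw [Finset.mem_erase, mem_nb] at hx
          exact i3 x a hx.2.symm (fun h => hx.2.ne h.1.symm) (fun h => hx.1 h.1)
        unfold inn
        rw [Ca]
        omega
      · rw [msg_succ, msg_succ]
        have hs : ∑ x ∈ (nb G b).erase a, msg G C' t x b ≤
            ∑ x ∈ (nb G b).erase a, msg G C (t + 1) x b := by
          apply Finset.sum_le_sum
          intro x hx
          rw [Finset.mem_erase, mem_nb] at hx
          exact i3 x b hx.2.symm (fun h => hx.1 h.1) (fun h => hx.2.ne h.1.symm)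
        unfold inn
        rw [Cb]
        omega
      · intro x y hxy h1 h2
        rw [msg_succ, msg_succ]
        by_cases hxa : x = a
        · subst hxa
          have hyb : y ≠ b := fun h => h1 ⟨rfl, h⟩
          have hb : b ∈ (nb G x).erase y := by
            rw [Finset.mem_erase, mem_nb]
            exact ⟨hyb.symm, hab⟩
          have hs : ∑ z ∈ ((nb G x).erase y).erase b, msg G C' t z x ≤
              ∑ z ∈ ((nb G x).erase y).erase b, msg G C (t + 1) z x := by
            apply Finset.sum_le_sum
            intro z hz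
            rw [Finset.mem_erase, Finset.mem_erase, mem_nb] at hz
            exact i3 z x hz.2.2.symm (fun h => hz.2.2.ne h.1.symm) (fun h => hz.1 h.1)
          have e1 := Finset.add_sum_erase _ (fun z => msg G C' t z x) hb
          have e2 := Finset.add_sum_erase _ (fun z => msg G C (t + 1) z x) hb
          unfold inn
          rw [Ca]
          omega
        · by_cases hxb : x = b
          · subst hxb
            have hya : y ≠ a := fun h => h2 ⟨rfl, h⟩
            have ha : a ∈ (nb G x).erase y := by
              rw [Finset.mem_erase, mem_nb]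
              exact ⟨hya.symm, hab.symm⟩
            have hs : ∑ z ∈ ((nb G x).erase y).erase a, msg G C' t z x ≤
                ∑ z ∈ ((nb G x).erase y).erase a, msg G C (t + 1) z x := by
              apply Finset.sum_le_sum
              intro z hz
              rw [Finset.mem_erase, Finset.mem_erase, mem_nb] at hz
              exact i3 z x hz.2.2.symm (fun h => hz.1 h.1) (fun h => hz.2.2.ne h.1.symm)
            have e1 := Finset.add_sum_erase _ (fun z => msg G C' t z x) ha
            have e2 := Finset.add_sum_erase _ (fun z => msg G C (t + 1) z x) ha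
            unfold inn
            rw [Cb]
            omega
          · have hs : ∑ z ∈ (nb G x).erase y, msg G C' t z x ≤
                ∑ z ∈ (nb G x).erase y, msg G C (t + 1) z x := by
              apply Finset.sum_le_sum
              intro z hz
              rw [Finset.mem_erase, mem_nb] at hz
              exact i3 z x hz.2.symm (fun h => hxb h.2) (fun h => hxa h.2)
            unfold inn
            rw [Co x hxa hxb]
            omega
  rcases hu with hu | ⟨w, hw, hu⟩
  · by_cases hua : u = a
    · subst hua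
      exact Or.inl (by omega)
    · by_cases hub : u = b
      · subst hub
        refine Or.inr ⟨a, hab, ?_⟩
        have := (key t).1
        omega
      · rw [Co u hua hub] at hu
        exact Or.inl hu
  · by_cases hua : u = a
    · subst hua
      exact Or.inl (by omega)
    · by_cases hub : u = b
      · subst hub
        refine Or.inr ⟨a, hab, ?_⟩
        have := (key t).1
        omega
      · exact Or.inr ⟨w, hw, hu.trans ((key t).2.2 w u hw (fun h => hub h.2) (fun h => hua h.2))⟩

lemma cov_reach_aux {G : SimpleGraph V} {C C' : V → ℕ} (h : Relation.ReflTransGen (Move G) C C')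
    (u : V) : ∀ t, Cov G C' t u → ∃ t, Cov G C t u := by
  induction h with
  | refl => intro t ht; exact ⟨t, ht⟩
  | tail _ hm ih =>
    intro t ht
    exact ih (t + 1) (cov_move hm t u ht)

lemma cov_reach {G : SimpleGraph V} {C C' : V → ℕ} (h : Relation.ReflTransGen (Move G) C C')
    (u : V) (hu : 1 ≤ C' u) : ∃ t, Cov G C t u :=
  cov_reach_aux h u 0 (Or.inl hu)

/-! ### Counting -/

/-- Total of all messages at time `t`. -/
noncomputable def tot (G : SimpleGraph V) (C : V → ℕ) (t : ℕ) : ℕ :=
  ∑ w, ∑ x ∈ nb G w, msg G C t x w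

omit [DecidableEq V] in
lemma swap_sum (G : SimpleGraph V) (f : V → V → ℕ) :
    ∑ w, ∑ x ∈ nb G w, f x w = ∑ w, ∑ u ∈ nb G w, f w u := by
  classical
  have h1 : ∀ (g : V → V → ℕ), ∑ w, ∑ x ∈ nb G w, g w x =
      ∑ w, ∑ x, if G.Adj w x then g w x else 0 := by
    intro g
    apply Finset.sum_congr rfl
    intro w _
    rw [nb, Finset.sum_filter]
  rw [h1 (fun w x => f x w), h1 (fun w u => f w u), Finset.sum_comm]
  apply Finset.sum_congr rfl
  intro w _
  apply Finset.sum_congr rfl
  intro x _
  simp only [G.adj_comm]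

/-- Darts with odd input. -/
noncomputable def oddc (G : SimpleGraph V) (C : V → ℕ) (t : ℕ) : ℕ :=
  ∑ w, ∑ u ∈ nb G w, inn G C t w u % 2

lemma inn_sum (G : SimpleGraph V) (hG : ∀ w, (nb G w).card = 3) (C : V → ℕ) (t : ℕ) :
    ∑ w, ∑ u ∈ nb G w, inn G C t w u = 3 * ∑ w, C w + 2 * tot G C t := by
  unfold tot
  rw [Finset.mul_sum, Finset.mul_sum, ← Finset.sum_add_distrib]
  apply Finset.sum_congr rfl
  intro w _
  unfold inn
  rw [Finset.sum_add_distrib, Finset.sum_const, hG w, smul_eq_mul]
  congr 1
  have h1 : ∀ u ∈ nb G w, ∑ x ∈ (nb G w).erase u, msg G C t x w + msg G C t u w =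
      ∑ x ∈ nb G w, msg G C t x w := fun u hu =>
    Finset.sum_erase_add _ _ hu
  have h2 : ∑ u ∈ nb G w, (∑ x ∈ (nb G w).erase u, msg G C t x w + msg G C t u w) =
      3 * ∑ x ∈ nb G w, msg G C t x w := by
    rw [Finset.sum_congr rfl h1, Finset.sum_const, hG w, smul_eq_mul]
  rw [Finset.sum_add_distrib] at h2
  omega

lemma tot_succ (G : SimpleGraph V) (hG : ∀ w, (nb G w).card = 3) (C : V → ℕ) (t : ℕ) :
    2 * tot G C (t + 1) + oddc G C t = 3 * ∑ w, C w + 2 * tot G C t := by
  rw [← inn_sum G hG C t]
  unfold tot oddc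
  rw [swap_sum G (msg G C (t + 1)), Finset.mul_sum, ← Finset.sum_add_distrib]
  apply Finset.sum_congr rfl
  intro w _
  rw [Finset.mul_sum, ← Finset.sum_add_distrib]
  apply Finset.sum_congr rfl
  intro u _
  rw [msg_succ]
  omega

lemma tot_mono (G : SimpleGraph V) (C : V → ℕ) (t : ℕ) : tot G C t ≤ tot G C (t + 1) := by
  unfold tot
  apply Finset.sum_le_sum
  intro w _
  apply Finset.sum_le_sum
  intro x _
  exact msg_mono_succ G C t x w

/-- The covered set. -/
noncomputable def S (G : SimpleGraph V) (C : V → ℕ) (t : ℕ) : Finset V := by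
  classical exact Finset.univ.filter (fun u => Cov G C t u)

lemma mem_S (G : SimpleGraph V) (C : V → ℕ) (t : ℕ) (u : V) : u ∈ S G C t ↔ Cov G C t u := by
  classical
  simp [S]

/-- Number of boundary darts of a set. -/
noncomputable def bd (G : SimpleGraph V) (T : Finset V) : ℕ := ∑ w ∈ T, ((nb G w) \ T).card

lemma S_zero_card (G : SimpleGraph V) (C : V → ℕ) : (S G C 0).card ≤ ∑ w, C w := by
  have h1 : ∀ u ∈ S G C 0, 1 ≤ C u := by
    intro u hu
    rw [mem_S] at hu
    rcases hu with h | ⟨w, _, h⟩
    · exact h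
    · have : msg G C 0 w u = 0 := rfl
      omega
  calc (S G C 0).card = ∑ u ∈ S G C 0, 1 := by simp
    _ ≤ ∑ u ∈ S G C 0, C u := Finset.sum_le_sum h1
    _ ≤ ∑ u, C u := Finset.sum_le_sum_of_subset (Finset.subset_univ _)

lemma new_card (G : SimpleGraph V) (hG : ∀ w, (nb G w).card = 3) (C : V → ℕ) (t : ℕ) :
    2 * (S G C (t + 1) \ S G C t).card ≤ 3 * ∑ w, C w := by
  have h1 : ∀ u ∈ S G C (t + 1) \ S G C t,
      ∑ x ∈ nb G u, msg G C t x u + 1 ≤ ∑ x ∈ nb G u, msg G C (t + 1) x u := by
    intro u hu
    rw [Finset.mem_sdiff, mem_S, mem_S] at hu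
    obtain ⟨h1, h2⟩ := hu
    rcases h1 with h1 | ⟨w, hw, h1⟩
    · exact absurd (Or.inl h1) h2
    · have h0 : ∀ x, G.Adj x u → msg G C t x u = 0 := by
        intro x hx
        by_contra hne
        exact h2 (Or.inr ⟨x, hx, by omega⟩)
      have hz : ∑ x ∈ nb G u, msg G C t x u = 0 := by
        apply Finset.sum_eq_zero
        intro x hx
        rw [mem_nb] at hx
        exact h0 x hx.symm
      rw [hz, Nat.zero_add]
      refine h1.trans (Finset.single_le_sum (f := fun x => msg G C (t + 1) x u)
        (fun _ _ => Nat.zero_le _) ?_)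
      rw [mem_nb]
      exact hw.symm
  have h2 : tot G C t + (S G C (t + 1) \ S G C t).card ≤ tot G C (t + 1) := by
    unfold tot
    rw [← Finset.sum_sdiff (Finset.subset_univ (S G C (t + 1) \ S G C t)),
      ← Finset.sum_sdiff (Finset.subset_univ (S G C (t + 1) \ S G C t)) (f := fun w =>
        ∑ x ∈ nb G w, msg G C (t + 1) x w)]
    have h3 : ∑ w ∈ Finset.univ \ (S G C (t + 1) \ S G C t), ∑ x ∈ nb G w, msg G C t x w ≤
        ∑ w ∈ Finset.univ \ (S G C (t + 1) \ S G C t), ∑ x ∈ nb G w, msg G C (t + 1) x w := by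
      apply Finset.sum_le_sum
      intro w _
      apply Finset.sum_le_sum
      intro x _
      exact msg_mono_succ G C t x w
    have h4 : ∑ w ∈ (S G C (t + 1) \ S G C t), ∑ x ∈ nb G w, msg G C t x w +
        (S G C (t + 1) \ S G C t).card ≤
        ∑ w ∈ (S G C (t + 1) \ S G C t), ∑ x ∈ nb G w, msg G C (t + 1) x w := by
      have := Finset.sum_le_sum h1
      rw [Finset.sum_add_distrib] at this
      simpa using this
    omega
  have h3 := tot_succ G hG C t
  omega

lemma bd_le (G : SimpleGraph V) (hG : ∀ w, (nb G w).card = 3) (C : V → ℕ) (t : ℕ) :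
    2 * bd G (S G C t) ≤ 15 * ∑ w, C w := by
  -- darts to vertices never covered by time t+1
  have h1 : ∑ w ∈ S G C t, ((nb G w) \ S G C (t + 1)).card ≤ oddc G C t := by
    unfold oddc
    refine le_trans (Finset.sum_le_sum ?_) (Finset.sum_le_sum_of_subset (Finset.subset_univ (S G C t)))
    intro w hw
    have hle : ∑ u ∈ (nb G w) \ S G C (t + 1), inn G C t w u % 2 ≤
        ∑ u ∈ nb G w, inn G C t w u % 2 :=
      Finset.sum_le_sum_of_subset Finset.sdiff_subset
    refine le_trans ?_ hle
    rw [Finset.card_eq_sum_ones]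
    apply Finset.sum_le_sum
    intro u hu
    rw [Finset.mem_sdiff, mem_nb, mem_S] at hu
    obtain ⟨hwu, hu⟩ := hu
    have hle1 : inn G C t w u ≤ 1 := by
      by_contra hcon
      apply hu
      refine Or.inr ⟨w, hwu, ?_⟩
      rw [msg_succ]
      omega
    have hge1 : 1 ≤ inn G C t w u := by
      rw [mem_S] at hw
      rcases hw with hw | ⟨x, hx, hw⟩
      · exact hw.trans (Nat.le_add_right _ _)
      · have hxu : x ≠ u := by
          rintro rfl
          apply hu
          apply cov_mono_succ
          cases t with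
          | zero => exact absurd hw (by simp [msg])
          | succ t =>
            apply cov_mono_succ
            rw [msg_succ] at hw
            have h2 : 1 ≤ inn G C t x w := by omega
            unfold inn at h2
            by_cases hC : 1 ≤ C x
            · exact Or.inl hC
            · have h3 : 1 ≤ ∑ y ∈ (nb G x).erase w, msg G C t y x := by omega
              obtain ⟨y, hy, hy1⟩ := Finset.exists_ne_zero_of_sum_ne_zero
                (show ∑ y ∈ (nb G x).erase w, msg G C t y x ≠ 0 by omega)
              rw [Finset.mem_erase, mem_nb] at hy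
              exact Or.inr ⟨y, hy.2.symm, by omega⟩
        refine hw.trans (le_trans ?_ (Nat.le_add_left _ _))
        refine Finset.single_le_sum (f := fun x => msg G C t x w) (fun _ _ => Nat.zero_le _) ?_
        rw [Finset.mem_erase, mem_nb]
        exact ⟨hxu, hx.symm⟩
    omega
  have h2 : bd G (S G C t) ≤ ∑ w ∈ S G C t, ((nb G w) \ S G C (t + 1)).card +
      3 * (S G C (t + 1) \ S G C t).card := by
    have h3 : ∀ w, ((nb G w) \ S G C t).card ≤ ((nb G w) \ S G C (t + 1)).card +
        ((nb G w) ∩ (S G C (t + 1) \ S G C t)).card := by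
      intro w
      refine le_trans (Finset.card_le_card ?_) (Finset.card_union_le _ _)
      intro x hx
      rw [Finset.mem_sdiff] at hx
      rw [Finset.mem_union, Finset.mem_sdiff, Finset.mem_inter, Finset.mem_sdiff]
      by_cases h : x ∈ S G C (t + 1)
      · exact Or.inr ⟨hx.1, h, hx.2⟩
      · exact Or.inl ⟨hx.1, h⟩
    have h4 : ∑ w ∈ S G C t, ((nb G w) ∩ (S G C (t + 1) \ S G C t)).card ≤
        3 * (S G C (t + 1) \ S G C t).card := by
      generalize (S G C (t + 1) \ S G C t) = T
      have h5 : ∀ w, ((nb G w) ∩ T).card = ∑ u ∈ T, if u ∈ nb G w then 1 else 0 := by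
        intro w
        rw [← Finset.sum_filter, ← Finset.card_eq_sum_ones]
        congr 1
        ext x
        simp only [Finset.mem_inter, Finset.mem_filter]
        tauto
      have h6 : ∀ u, ∑ w, (if u ∈ nb G w then 1 else 0) = 3 := by
        intro u
        rw [← Finset.sum_filter, ← Finset.card_eq_sum_ones, ← hG u]
        congr 1
        ext x
        simp only [Finset.mem_filter, Finset.mem_univ, true_and, mem_nb, G.adj_comm]
      calc ∑ w ∈ S G C t, ((nb G w) ∩ T).card ≤ ∑ w, ((nb G w) ∩ T).card :=
            Finset.sum_le_sum_of_subset (Finset.subset_univ _)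
        _ = ∑ w, ∑ u ∈ T, (if u ∈ nb G w then 1 else 0) := by
            apply Finset.sum_congr rfl
            intro w _
            exact h5 w
        _ = ∑ u ∈ T, ∑ w, (if u ∈ nb G w then 1 else 0) := Finset.sum_comm
        _ = 3 * T.card := by
            rw [Finset.sum_congr rfl (fun u _ => h6 u), Finset.sum_const, smul_eq_mul, mul_comm]
    unfold bd
    refine (Finset.sum_le_sum (fun w _ => h3 w)).trans ?_
    rw [Finset.sum_add_distrib]
    omega
  have h3 := tot_succ G hG C t
  have h4 := tot_mono G C t
  have h5 := new_card G hG C t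
  omega

/-- The lower bound: a solvable configuration on a cubic graph yields a half-size set with a small
boundary. -/
theorem half_set (G : SimpleGraph V) (hG : ∀ w, (nb G w).card = 3) (C : V → ℕ)
    (hC : ∀ r : V, ∃ E' : V → ℕ, Relation.ReflTransGen (Move G) C E' ∧ 1 ≤ E' r)
    (hsmall : 2 * ∑ w, C w < Fintype.card V) :
    ∃ T : Finset V, 2 * T.card ≤ Fintype.card V ∧
      Fintype.card V < 2 * T.card + 3 * ∑ w, C w + 1 ∧ 2 * bd G T ≤ 15 * ∑ w, C w := by
  have hcov : ∀ r : V, ∃ t, Cov G C t r := by
    intro r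
    obtain ⟨E', h1, h2⟩ := hC r
    exact cov_reach h1 r h2
  choose τ hτ using hcov
  have hT : ∃ t, Fintype.card V < 2 * (S G C t).card := by
    refine ⟨Finset.univ.sup τ, ?_⟩
    have : S G C (Finset.univ.sup τ) = Finset.univ := by
      ext r
      simp only [Finset.mem_univ, iff_true, mem_S]
      exact cov_mono (Finset.le_sup (Finset.mem_univ r)) (hτ r)
    rw [this, Finset.card_univ]
    omega
  classical
  have hspec := Nat.find_spec hT
  have hmin := fun m (hm : m < Nat.find hT) => Nat.find_min hT hm
  set t := Nat.find hT with ht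
  have ht0 : t ≠ 0 := by
    intro h0
    rw [h0] at hspec
    have := S_zero_card G C
    omega
  obtain ⟨t', ht'⟩ := Nat.exists_eq_succ_of_ne_zero ht0
  rw [ht'] at hspec
  have h1 := hmin t' (by omega)
  refine ⟨S G C t', by omega, ?_, bd_le G hG C t'⟩
  have h2 := new_card G hG C t'
  have h3 : (S G C (t' + 1)).card ≤ (S G C t').card + (S G C (t' + 1) \ S G C t').card := by
    have := Finset.card_le_card (show S G C (t' + 1) ⊆ S G C t' ∪ (S G C (t' + 1) \ S G C t') by
      intro x hx
      rw [Finset.mem_union, Finset.mem_sdiff]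
      by_cases h : x ∈ S G C t'
      · exact Or.inl h
      · exact Or.inr ⟨hx, h⟩)
    exact this.trans (Finset.card_union_le _ _)
  have h4 : Fintype.card V < 2 * (S G C (t' + 1)).card := hspec
  omega

end Pool.Agent.H13.Peb
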