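import Pool.Agent.H13.PebB

set_option autoImplicit false

namespace Pool.Agent.H13.Peb

open Finset

variable {V : Type} [Fintype V] [DecidableEq V]

/-- Pushing `k` pebbles across an edge. -/
def push (A : V → ℕ) (u v : V) (k : ℕ) : V → ℕ :=
  fun x => if x = u then A u - 2 * k else if x = v then A v + k else A x

omit [Fintype V] in
lemma push_reach {G : SimpleGraph V} {u v : V} (h : G.Adj u v) (k : ℕ) :
    ∀ A : V → ℕ, 2 * k ≤ A u → Relation.ReflTransGen (Move G) A (push A u v k) := by
  induction k with
  | zero =>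
    intro A _
    have : push A u v 0 = A := by
      funext x
      unfold push
      split_ifs with h1 h2
      · rw [h1]; omega
      · rw [h2]; omega
      · rfl
    rw [this]
  | succ k ih =>
    intro A hA
    refine Relation.ReflTransGen.tail (ih A (by omega)) ⟨u, v, h, ?_, ?_⟩
    · unfold push
      rw [if_pos rfl]
      omega
    · have hne : u ≠ v := h.ne
      funext x
      by_cases hxv : x = v
      · subst hxv
        rw [Function.update_self]
        unfold push
        rw [if_neg hne.symm, if_pos rfl, if_neg hne.symm, if_pos rfl]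
        omega
      · rw [Function.update_of_ne hxv]
        by_cases hxu : x = u
        · subst hxu
          rw [Function.update_self]
          unfold push
          rw [if_pos rfl, if_pos rfl]
          omega
        · rw [Function.update_of_ne hxu]
          unfold push
          rw [if_neg hxu, if_neg hxv, if_neg hxu, if_neg hxv]

omit [Fintype V] in
lemma path_reach {G : SimpleGraph V} {v r : V} (p : G.Walk v r) :
    ∀ (A : V → ℕ) (k : ℕ), 2 ^ p.length * k ≤ A v →
      ∃ A' : V → ℕ, Relation.ReflTransGen (Move G) A A' ∧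
        ∀ x, A x + (if x = r then k else 0) ≤ A' x + (if x = v then 2 ^ p.length * k else 0) := by
  induction p with
  | nil =>
    intro A k _
    exact ⟨A, Relation.ReflTransGen.refl, fun x => by simp⟩
  | @cons v w r h p ih =>
    intro A k hA
    rw [SimpleGraph.Walk.length_cons] at hA
    have hA' : 2 * (2 ^ p.length * k) ≤ A v := by
      rw [← mul_assoc, ← pow_succ']
      exact hA
    have hne : v ≠ w := h.ne
    obtain ⟨A', h1, h2⟩ := ih (push A v w (2 ^ p.length * k)) k (by
      unfold push
      rw [if_neg hne.symm, if_pos rfl]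
      omega)
    refine ⟨A', (push_reach h _ A hA').trans h1, fun x => ?_⟩
    have h3 := h2 x
    rw [SimpleGraph.Walk.length_cons]
    have h4 : 2 ^ (p.length + 1) * k = 2 * (2 ^ p.length * k) := by
      rw [← mul_assoc, ← pow_succ']
    rw [h4]
    unfold push at h3
    by_cases hxv : x = v
    · subst hxv
      rw [if_pos rfl, if_neg hne] at h3
      rw [if_pos rfl]
      omega
    · rw [if_neg hxv] at h3 ⊢
      by_cases hxw : x = w
      · subst hxw
        rw [if_pos rfl, if_pos rfl] at h3
        omega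
      · rw [if_neg hxw, if_neg hxw] at h3
        exact h3

omit [Fintype V] in
lemma gather {G : SimpleGraph V} (r : V) (R : ℕ) (d : V → ℕ) (T : Finset V) :
    ∀ A : V → ℕ, r ∉ T → (∀ v ∈ T, 2 ^ R ≤ A v) → (∀ v ∈ T, d v ≤ R) →
      (∀ v ∈ T, ∃ p : G.Walk v r, p.length = d v) →
      ∃ A' : V → ℕ, Relation.ReflTransGen (Move G) A A' ∧
        A r + ∑ v ∈ T, 2 ^ (R - d v) ≤ A' r := by
  induction T using Finset.induction_on with
  | empty =>
    intro A _ _ _ _
    exact ⟨A, Relation.ReflTransGen.refl, by simp⟩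
  | insert v T hv ih =>
    intro A hr hA hd hp
    obtain ⟨p, hpl⟩ := hp v (Finset.mem_insert_self v T)
    have hdv := hd v (Finset.mem_insert_self v T)
    have hpow : 2 ^ p.length * 2 ^ (R - d v) = 2 ^ R := by
      rw [hpl, ← pow_add]
      congr 1
      omega
    obtain ⟨A1, h1, h2⟩ := path_reach p A (2 ^ (R - d v)) (by
      rw [hpow]
      exact hA v (Finset.mem_insert_self v T))
    have hvr : v ≠ r := fun h => hr (h ▸ Finset.mem_insert_self v T)
    obtain ⟨A', h3, h4⟩ := ih A1 (fun h => hr (Finset.mem_insert_of_mem h)) (by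
        intro x hx
        have hxv : x ≠ v := fun h => hv (h ▸ hx)
        have h5 := h2 x
        rw [if_neg hxv] at h5
        have h6 := hA x (Finset.mem_insert_of_mem hx)
        omega)
      (fun x hx => hd x (Finset.mem_insert_of_mem hx))
      (fun x hx => hp x (Finset.mem_insert_of_mem hx))
    refine ⟨A', h1.trans h3, ?_⟩
    rw [Finset.sum_insert hv]
    have h5 := h2 r
    rw [if_pos rfl, if_neg hvr.symm] at h5
    omega

/-! ### Balls -/

/-- The ball of radius `j` around `r`. -/
noncomputable def ball (G : SimpleGraph V) (r : V) (j : ℕ) : Finset V := by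
  classical exact Finset.univ.filter (fun v => G.dist r v ≤ j)

omit [DecidableEq V] in
lemma mem_ball (G : SimpleGraph V) (r v : V) (j : ℕ) : v ∈ ball G r j ↔ G.dist r v ≤ j := by
  classical
  simp [ball]

omit [DecidableEq V] in
lemma nb_ball {G : SimpleGraph V} (hc : G.Connected) {r w x : V} {j : ℕ} (hw : w ∈ ball G r j)
    (hx : x ∈ nb G w) : x ∈ ball G r (j + 1) := by
  rw [mem_ball] at hw ⊢
  rw [mem_nb] at hx
  have h1 := hc.dist_triangle (u := r) (v := w) (w := x)
  have h2 : G.dist w x = 1 := SimpleGraph.dist_eq_one_iff_adj.2 hx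
  omega

lemma ball_succ_subset {G : SimpleGraph V} (hc : G.Connected) (r : V) (j : ℕ) :
    ball G r (j + 1) ⊆ ball G r j ∪ (ball G r j).biUnion (nb G) := by
  intro v hv
  rw [mem_ball] at hv
  rw [Finset.mem_union]
  by_cases h : G.dist r v ≤ j
  · left
    rw [mem_ball]
    exact h
  · right
    obtain ⟨p, hp⟩ := hc.exists_walk_length_eq_dist r v
    have hpl : p.length = j + 1 := by omega
    have hnn : ¬ p.Nil := by
      intro hn
      have := SimpleGraph.Walk.length_eq_zero_iff.2 hn
      omega
    rw [Finset.mem_biUnion]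
    refine ⟨p.penultimate, ?_, ?_⟩
    · rw [mem_ball]
      have h1 := SimpleGraph.dist_le p.dropLast
      have h2 : p.dropLast.length = j := by
        rw [SimpleGraph.Walk.length_dropLast]
        omega
      omega
    · rw [mem_nb]
      exact p.adj_penultimate hnn

lemma ball_card_le {G : SimpleGraph V} (hc : G.Connected) (hG : ∀ w, (nb G w).card = 3) (r : V)
    (j : ℕ) : (ball G r j).card ≤ 4 ^ j := by
  induction j with
  | zero =>
    have : ball G r 0 ⊆ {r} := by
      intro v hv
      rw [mem_ball] at hv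
      have h0 : G.dist r v = 0 := by omega
      rw [hc.dist_eq_zero_iff] at h0
      rw [Finset.mem_singleton]
      exact h0.symm
    exact (Finset.card_le_card this).trans (by simp)
  | succ j ih =>
    refine (Finset.card_le_card (ball_succ_subset hc r j)).trans ?_
    refine (Finset.card_union_le _ _).trans ?_
    have h1 : ((ball G r j).biUnion (nb G)).card ≤ (ball G r j).card * 3 :=
      Finset.card_biUnion_le_card_mul _ _ _ (fun w _ => (hG w).le)
    rw [pow_succ]
    omega

/-- Number of darts from `X` to `Y`. -/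
noncomputable def ed (G : SimpleGraph V) (X Y : Finset V) : ℕ := ∑ w ∈ X, (nb G w ∩ Y).card

lemma ed_comm (G : SimpleGraph V) (X Y : Finset V) : ed G X Y = ed G Y X := by
  unfold ed
  have h : ∀ (Y : Finset V) (w : V), (nb G w ∩ Y).card = ∑ u ∈ Y, if u ∈ nb G w then 1 else 0 := by
    intro Y w
    rw [← Finset.sum_filter, ← Finset.card_eq_sum_ones]
    congr 1
    ext x
    simp only [Finset.mem_inter, Finset.mem_filter]
    tauto
  rw [Finset.sum_congr rfl (fun w _ => h Y w), Finset.sum_congr rfl (fun w _ => h X w),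
    Finset.sum_comm]
  apply Finset.sum_congr rfl
  intro u _
  apply Finset.sum_congr rfl
  intro w _
  have : u ∈ nb G w ↔ w ∈ nb G u := by
    rw [mem_nb, mem_nb, G.adj_comm]
  by_cases hh : u ∈ nb G w
  · rw [if_pos hh, if_pos (this.1 hh)]
  · rw [if_neg hh, if_neg (fun h' => hh (this.2 h'))]

lemma ball_growth {G : SimpleGraph V} (hc : G.Connected) (hG : ∀ w, (nb G w).card = 3) (r : V)
    (j L : ℕ) (hL : 4 ^ (j + 1) ≤ L) (hloc : ∀ S : Finset V, S.card ≤ L → ed G S S ≤ 2 * S.card) :
    2 * (ball G r j).card ≤ (ball G r (j + 1)).card := by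
  set S := ball G r j with hS
  set S' := ball G r (j + 1) with hS'
  have hsub : S ⊆ S' := by
    intro v hv
    rw [hS, mem_ball] at hv
    rw [hS', mem_ball]
    omega
  have h1 : ed G S S ≤ 2 * S.card := hloc S (((ball_card_le hc hG r j).trans
    (Nat.pow_le_pow_right (by norm_num) (Nat.le_succ j))).trans hL)
  have h2 : ed G S' S' ≤ 2 * S'.card := hloc S' ((ball_card_le hc hG r (j + 1)).trans hL)
  have h3 : ∀ w ∈ S, (nb G w ∩ S).card + (nb G w ∩ (S' \ S)).card = 3 := by
    intro w hw
    rw [← hG w, ← Finset.card_union_of_disjoint]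
    · congr 1
      ext x
      rw [Finset.mem_union, Finset.mem_inter, Finset.mem_inter, Finset.mem_sdiff]
      constructor
      · rintro (h | h)
        · exact h.1
        · exact h.1
      · intro h
        by_cases hx : x ∈ S
        · exact Or.inl ⟨h, hx⟩
        · exact Or.inr ⟨h, nb_ball hc hw h, hx⟩
    · rw [Finset.disjoint_left]
      intro x hx hx'
      rw [Finset.mem_inter] at hx
      rw [Finset.mem_inter, Finset.mem_sdiff] at hx'
      exact hx'.2.2 hx.2
  have h4 : ed G S S + ed G S (S' \ S) = 3 * S.card := by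
    unfold ed
    rw [← Finset.sum_add_distrib, Finset.sum_congr rfl h3, Finset.sum_const, smul_eq_mul, mul_comm]
  have h5 : ∀ w, (nb G w ∩ S).card + (nb G w ∩ (S' \ S)).card ≤ (nb G w ∩ S').card := by
    intro w
    rw [← Finset.card_union_of_disjoint]
    · apply Finset.card_le_card
      intro x hx
      rw [Finset.mem_union, Finset.mem_inter, Finset.mem_inter, Finset.mem_sdiff] at hx
      rw [Finset.mem_inter]
      rcases hx with h | h
      · exact ⟨h.1, hsub h.2⟩
      · exact ⟨h.1, h.2.1⟩
    · rw [Finset.disjoint_left]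
      intro x hx hx'
      rw [Finset.mem_inter] at hx
      rw [Finset.mem_inter, Finset.mem_sdiff] at hx'
      exact hx'.2.2 hx.2
  have h6 : ed G S S + ed G S (S' \ S) + ed G (S' \ S) S ≤ ed G S' S' := by
    have e1 : ed G S' S' = ed G S S' + ed G (S' \ S) S' := by
      unfold ed
      rw [add_comm, Finset.sum_sdiff hsub]
    have e2 : ed G S S + ed G S (S' \ S) ≤ ed G S S' := by
      unfold ed
      rw [← Finset.sum_add_distrib]
      exact Finset.sum_le_sum (fun w _ => h5 w)
    have e3 : ed G (S' \ S) S ≤ ed G (S' \ S) S' := by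
      unfold ed
      apply Finset.sum_le_sum
      intro w _
      exact Finset.card_le_card (Finset.inter_subset_inter_left hsub)
    omega
  have h7 := ed_comm G (S' \ S) S
  omega

lemma ball_card_ge {G : SimpleGraph V} (hc : G.Connected) (hG : ∀ w, (nb G w).card = 3) (r : V)
    (R : ℕ) (hloc : ∀ S : Finset V, S.card ≤ 4 ^ R → ed G S S ≤ 2 * S.card) (j : ℕ) (hj : j ≤ R) :
    2 ^ j ≤ (ball G r j).card := by
  induction j with
  | zero =>
    have : r ∈ ball G r 0 := by
      rw [mem_ball, SimpleGraph.dist_self]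
    exact Finset.card_pos.2 ⟨r, this⟩
  | succ j ih =>
    have h1 := ih (by omega)
    have h2 := ball_growth hc hG r j (4 ^ R) (Nat.pow_le_pow_right (by norm_num) hj) hloc
    rw [pow_succ]
    omega

/-- Total weight of a ball. -/
noncomputable def wt (G : SimpleGraph V) (r : V) (R : ℕ) : ℕ :=
  ∑ v ∈ ball G r R, 2 ^ (R - G.dist r v)

lemma wt_succ (G : SimpleGraph V) (r : V) (R : ℕ) :
    wt G r (R + 1) + (ball G r R).card = 2 * wt G r R + (ball G r (R + 1)).card := by
  have hsub : ball G r R ⊆ ball G r (R + 1) := by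
    intro v hv
    rw [mem_ball] at hv ⊢
    omega
  have e1 : wt G r (R + 1) = ∑ v ∈ ball G r (R + 1) \ ball G r R, 2 ^ (R + 1 - G.dist r v) +
      ∑ v ∈ ball G r R, 2 ^ (R + 1 - G.dist r v) := by
    unfold wt
    rw [Finset.sum_sdiff hsub]
  have e2 : ∑ v ∈ ball G r (R + 1) \ ball G r R, 2 ^ (R + 1 - G.dist r v) =
      (ball G r (R + 1) \ ball G r R).card := by
    rw [Finset.card_eq_sum_ones]
    apply Finset.sum_congr rfl
    intro v hv
    rw [Finset.mem_sdiff, mem_ball, mem_ball] at hv
    have : R + 1 - G.dist r v = 0 := by omega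
    rw [this, pow_zero]
  have e3 : ∑ v ∈ ball G r R, 2 ^ (R + 1 - G.dist r v) = 2 * wt G r R := by
    unfold wt
    rw [Finset.mul_sum]
    apply Finset.sum_congr rfl
    intro v hv
    rw [mem_ball] at hv
    rw [← pow_succ']
    congr 1
    omega
  have e4 := Finset.card_sdiff_add_card_eq_card hsub
  omega

lemma wt_ge {G : SimpleGraph V} (hc : G.Connected) (hG : ∀ w, (nb G w).card = 3) (r : V)
    (R : ℕ) (hloc : ∀ S : Finset V, S.card ≤ 4 ^ R → ed G S S ≤ 2 * S.card) (j : ℕ) (hj : j ≤ R) :
    j * 2 ^ j + 2 * (ball G r j).card ≤ 2 * wt G r j := by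
  induction j with
  | zero =>
    unfold wt
    rw [Nat.zero_mul, Nat.zero_add, Finset.card_eq_sum_ones]
    apply Nat.mul_le_mul_left
    apply Finset.sum_le_sum
    intro v _
    exact Nat.one_le_two_pow
  | succ j ih =>
    have h1 := ih (by omega)
    have h2 := wt_succ G r j
    have h3 := ball_card_ge hc hG r R hloc j (by omega)
    have h4 : (j + 1) * 2 ^ (j + 1) = 2 * (j * 2 ^ j) + 2 * 2 ^ j := by
      rw [pow_succ]; ring
    rw [h4]
    omega

/-- The uniform configuration is many-fold solvable. -/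
theorem uniform_solvable {G : SimpleGraph V} (hc : G.Connected) (hG : ∀ w, (nb G w).card = 3)
    (Q : ℕ) (hloc : ∀ S : Finset V, S.card ≤ 4 ^ (2 * Q) → ed G S S ≤ 2 * S.card) (r : V) :
    ∃ D' : V → ℕ, Relation.ReflTransGen (Move G) (fun _ => 2 ^ (2 * Q)) D' ∧
      Q * 2 ^ (2 * Q) ≤ D' r := by
  have hr : r ∈ ball G r (2 * Q) := by
    rw [mem_ball, SimpleGraph.dist_self]
    exact Nat.zero_le _
  obtain ⟨A', h1, h2⟩ := gather (G := G) r (2 * Q) (fun v => G.dist r v)
    ((ball G r (2 * Q)).erase r) (fun _ => 2 ^ (2 * Q)) (Finset.notMem_erase _ _)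
    (fun _ _ => le_rfl)
    (fun v hv => by
      rw [Finset.mem_erase, mem_ball] at hv
      exact hv.2)
    (fun v _ => by
      obtain ⟨p, hp⟩ := hc.exists_walk_length_eq_dist v r
      exact ⟨p, by rw [hp, SimpleGraph.dist_comm]⟩)
  refine ⟨A', h1, ?_⟩
  have h3 := Finset.add_sum_erase (ball G r (2 * Q)) (fun v => 2 ^ (2 * Q - G.dist r v)) hr
  simp only [SimpleGraph.dist_self, Nat.sub_zero] at h3
  have h4 : wt G r (2 * Q) ≤ A' r := by
    unfold wt
    rw [← h3]
    exact h2
  have h5 := wt_ge hc hG r (2 * Q) hloc (2 * Q) le_rfl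
  have h6 : 2 * Q * 2 ^ (2 * Q) = 2 * (Q * 2 ^ (2 * Q)) := by ring
  omega

end Pool.Agent.H13.Peb
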