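import Mathlib

set_option autoImplicit false

namespace Pool.Agent.H13.Peb

open Finset

section Perm

variable {α : Type} [Fintype α] [DecidableEq α]

lemma perm_prescribed (k : ℕ) (x y : Fin k → α) (hx : Function.Injective x) :
    ((Finset.univ : Finset (Equiv.Perm α)).filter (fun σ => ∀ i, σ (x i) = y i)).card ≤
      (Fintype.card α - k).factorial := by
  classical
  rcases Finset.eq_empty_or_nonempty
    ((Finset.univ : Finset (Equiv.Perm α)).filter (fun σ => ∀ i, σ (x i) = y i)) with h | ⟨σ0, h0⟩
  · rw [h]; simp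
  · rw [Finset.mem_filter] at h0
    let p : α → Prop := fun a => a ∉ Set.range x
    have hcard : Fintype.card {f : Equiv.Perm α // ∀ a, ¬ p a → f a = a} =
        (Fintype.card α - k).factorial := by
      rw [← Fintype.card_congr (Equiv.Perm.subtypeEquivSubtypePerm p), Fintype.card_perm]
      congr 1
      have h1 : Fintype.card {a // p a} = Fintype.card α - Fintype.card {a // a ∈ Set.range x} :=
        Fintype.card_subtype_compl _
      have h2 : Fintype.card {a // a ∈ Set.range x} = k := by
        have := Set.card_range_of_injective hx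
        rw [Fintype.card_fin] at this
        exact (Fintype.card_congr (Equiv.refl _)).trans this
      rw [h1, h2]
    rw [← hcard, ← Fintype.card_coe]
    refine Fintype.card_le_of_injective
      (fun σ => ⟨σ0⁻¹ * σ.1, ?_⟩) ?_
    · intro a ha
      have hσ := σ.2
      rw [Finset.mem_filter] at hσ
      have ha' : a ∈ Set.range x := not_not.1 ha
      obtain ⟨i, rfl⟩ := ha'
      have hk : σ0⁻¹ (y i) = x i := by
        rw [Equiv.Perm.inv_eq_iff_eq]
        exact (h0.2 i).symm
      rw [Equiv.Perm.mul_apply, hσ.2 i, hk]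
    · intro σ τ h
      have h1 : σ0⁻¹ * σ.1 = σ0⁻¹ * τ.1 := congrArg Subtype.val h
      exact Subtype.ext (mul_left_cancel h1)

lemma exists_perm_map (A B : Finset α) (h : A.card = B.card) :
    ∃ τ : Equiv.Perm α, A.map τ.toEmbedding = B := by
  classical
  let e : {x // x ∈ A} ≃ {x // x ∈ B} := Finset.equivOfCardEq h
  refine ⟨e.extendSubtype, ?_⟩
  apply Finset.eq_of_subset_of_card_le
  · intro y hy
    rw [Finset.mem_map] at hy
    obtain ⟨x, hx, rfl⟩ := hy
    exact e.extendSubtype_mem x hx
  · rw [Finset.card_map, h]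

lemma perm_map_count (A A' : Finset α) :
    ((Finset.univ : Finset (Equiv.Perm α)).filter (fun σ => A.map σ.toEmbedding = A')).card *
      (Fintype.card α).choose A.card ≤ (Fintype.card α).factorial := by
  classical
  rcases Finset.eq_empty_or_nonempty
    ((Finset.univ : Finset (Equiv.Perm α)).filter (fun σ => A.map σ.toEmbedding = A')) with h | ⟨σ0, h0⟩
  · rw [h]; simp
  · rw [Finset.mem_filter] at h0
    have hA' : A'.card = A.card := by rw [← h0.2, Finset.card_map]
    have hfib : ∀ B ∈ (Finset.univ : Finset α).powersetCard A.card,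
        ((Finset.univ : Finset (Equiv.Perm α)).filter (fun σ => A.map σ.toEmbedding = B)).card =
        ((Finset.univ : Finset (Equiv.Perm α)).filter (fun σ => A.map σ.toEmbedding = A')).card := by
      intro B hB
      rw [Finset.mem_powersetCard] at hB
      obtain ⟨τ, hτ⟩ := exists_perm_map A' B (hA'.trans hB.2.symm)
      symm
      refine Finset.card_bij (fun σ _ => τ * σ) ?_ ?_ ?_
      · intro σ hσ
        rw [Finset.mem_filter] at hσ ⊢
        refine ⟨Finset.mem_univ _, ?_⟩
        rw [← hτ, ← hσ.2, Finset.map_map]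
        rfl
      · intro σ _ σ' _ h
        exact mul_left_cancel h
      · intro σ hσ
        rw [Finset.mem_filter] at hσ
        refine ⟨τ⁻¹ * σ, ?_, by group⟩
        rw [Finset.mem_filter]
        refine ⟨Finset.mem_univ _, ?_⟩
        have h1 : A.map (τ⁻¹ * σ).toEmbedding = (A.map σ.toEmbedding).map (τ⁻¹).toEmbedding := by
          rw [Finset.map_map]; rfl
        rw [h1, hσ.2, ← hτ, Finset.map_map]
        ext z
        have hz : ∀ a, τ⁻¹ (τ a) = a := fun a => by rw [Equiv.Perm.inv_eq_iff_eq]
        simp only [Finset.mem_map, Function.Embedding.trans_apply, Equiv.coe_toEmbedding,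
          hz, exists_eq_right]
    have hsum := Finset.card_eq_sum_card_fiberwise (s := (Finset.univ : Finset (Equiv.Perm α)))
      (f := fun σ => A.map σ.toEmbedding) (t := (Finset.univ : Finset α).powersetCard A.card)
      (fun σ _ => by
        rw [Finset.mem_coe, Finset.mem_powersetCard]
        exact ⟨Finset.subset_univ _, Finset.card_map _⟩)
    rw [Finset.sum_congr rfl hfib, Finset.sum_const, Finset.card_powersetCard, Finset.card_univ,
      Finset.card_univ, Fintype.card_perm, smul_eq_mul] at hsum
    rw [hsum, mul_comm]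

end Perm

/-! ### Binomial estimates -/

lemma choose_lower (m j : ℕ) (hj : 3 * j ≤ m) : (2 * m).choose m ≤ 2 ^ j * (2 * m).choose (m - j) := by
  induction j with
  | zero => simp
  | succ j ih =>
    have h1 := ih (by omega)
    have h2 := Nat.choose_succ_right_eq (2 * m) (m - (j + 1))
    have e1 : m - (j + 1) + 1 = m - j := by omega
    have e2 : 2 * m - (m - (j + 1)) = m + j + 1 := by omega
    rw [e1, e2] at h2
    have h3 : (2 * m).choose (m - j) ≤ 2 * (2 * m).choose (m - (j + 1)) := by
      have hpos : 0 < m - j := by omega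
      have h4 : (2 * m).choose (m - j) * (m - j) ≤ 2 * (2 * m).choose (m - (j + 1)) * (m - j) := by
        rw [h2]
        have h5 : m + j + 1 ≤ 2 * (m - j) := by omega
        calc (2 * m).choose (m - (j + 1)) * (m + j + 1)
            ≤ (2 * m).choose (m - (j + 1)) * (2 * (m - j)) := Nat.mul_le_mul_left _ h5
          _ = 2 * (2 * m).choose (m - (j + 1)) * (m - j) := by ring
      exact Nat.le_of_mul_le_mul_right h4 hpos
    calc (2 * m).choose m ≤ 2 ^ j * (2 * m).choose (m - j) := h1
      _ ≤ 2 ^ j * (2 * (2 * m).choose (m - (j + 1))) := Nat.mul_le_mul_left _ h3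
      _ = 2 ^ (j + 1) * (2 * m).choose (m - (j + 1)) := by rw [pow_succ]; ring

lemma choose_mid (m s a : ℕ) (hm : 0 < m) (hs : 3 * s ≤ m) (h1 : m ≤ a + s) (h2 : a ≤ m + s) :
    4 ^ m ≤ 2 * m * (2 ^ s * (2 * m).choose a) := by
  have h3 : (2 * m).choose m ≤ 2 ^ s * (2 * m).choose a := by
    rcases le_total a m with h | h
    · have h4 := choose_lower m (m - a) (by omega)
      have e : m - (m - a) = a := by omega
      rw [e] at h4
      refine h4.trans (Nat.mul_le_mul_right _ (Nat.pow_le_pow_right (by norm_num) (by omega)))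
    · have h4 := choose_lower m (a - m) (by omega)
      have e : (2 * m).choose (m - (a - m)) = (2 * m).choose a := by
        rw [← Nat.choose_symm (show a ≤ 2 * m by omega)]
        congr 1
        omega
      rw [e] at h4
      refine h4.trans (Nat.mul_le_mul_right _ (Nat.pow_le_pow_right (by norm_num) (by omega)))
  have h5 := Nat.four_pow_le_two_mul_self_mul_centralBinom m hm
  rw [Nat.centralBinom] at h5
  exact h5.trans (Nat.mul_le_mul_left _ h3)

/-- Few small sets. -/
lemma small_sets {α : Type} [Fintype α] [DecidableEq α] (κ : ℕ) (hn : Fintype.card α = 128 * κ) :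
    ((Finset.univ : Finset (Finset α)).filter (fun T => T.card ≤ κ)).card ≤ 2 ^ (20 * κ) := by
  have h1 := Fintype.sum_pow_mul_eq_add_pow α (1 : ℕ) 16
  simp only [one_pow, one_mul] at h1
  rw [hn] at h1
  have h2 : ((Finset.univ : Finset (Finset α)).filter (fun T => T.card ≤ κ)).card * 16 ^ (127 * κ) ≤
      17 ^ (128 * κ) := by
    have h3 : (1 + 16 : ℕ) = 17 := rfl
    rw [← h3, ← h1, ← smul_eq_mul, ← Finset.sum_const]
    refine le_trans (Finset.sum_le_sum ?_) (Finset.sum_le_sum_of_subset (Finset.filter_subset _ _))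
    intro T hT
    rw [Finset.mem_filter] at hT
    apply Nat.pow_le_pow_right (by norm_num)
    omega
  have h3 : 17 ^ (128 * κ) ≤ 2 ^ (16 * κ) * 16 ^ (128 * κ) := by
    have e : 17 ^ (128 * κ) = (17 ^ 8) ^ (16 * κ) := by
      rw [← pow_mul]; congr 1; ring
    have e' : 2 ^ (16 * κ) * 16 ^ (128 * κ) = (2 * 16 ^ 8) ^ (16 * κ) := by
      rw [mul_pow, ← pow_mul]; congr 2; ring
    rw [e, e']
    exact Nat.pow_le_pow_left (by norm_num) _
  have h4 : 2 ^ (16 * κ) * 16 ^ (128 * κ) = 2 ^ (20 * κ) * 16 ^ (127 * κ) := by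
    have e1 : (16 : ℕ) ^ (128 * κ) = 16 ^ κ * 16 ^ (127 * κ) := by
      rw [← pow_add]; congr 1; ring
    have e2 : (16 : ℕ) ^ κ = 2 ^ (4 * κ) := by
      rw [pow_mul]; norm_num
    rw [e1, e2, ← mul_assoc, ← pow_add]
    congr 2
    ring
  have h5 := h2.trans (h3.trans h4.le)
  exact Nat.le_of_mul_le_mul_right h5 (by positivity)

end Pool.Agent.H13.Peb
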