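import Pool.Agent.H13.PebC
import Pool.Agent.H13.PebP

set_option autoImplicit false

namespace Pool.Agent.H13.Peb

open Finset

variable {n : ℕ} [NeZero n]

/-- Two cycles joined by a matching. -/
def GA (σ : Equiv.Perm (ZMod n)) : SimpleGraph (ZMod n × Bool) where
  Adj x y := (x.2 = y.2 ∧ x.1 ≠ y.1 ∧ (y.1 = x.1 + 1 ∨ x.1 = y.1 + 1)) ∨
    (x.2 = false ∧ y.2 = true ∧ y.1 = σ x.1) ∨ (x.2 = true ∧ y.2 = false ∧ x.1 = σ y.1)
  symm := ⟨by
    rintro x y (⟨h1, h2, h3⟩ | ⟨h1, h2, h3⟩ | ⟨h1, h2, h3⟩)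
    · exact Or.inl ⟨h1.symm, h2.symm, h3.symm⟩
    · exact Or.inr (Or.inr ⟨h2, h1, h3⟩)
    · exact Or.inr (Or.inl ⟨h2, h1, h3⟩)⟩
  loopless := ⟨by
    rintro x (⟨_, h2, _⟩ | ⟨h1, h2, _⟩ | ⟨h1, h2, _⟩)
    · exact h2 rfl
    · rw [h1] at h2; exact Bool.noConfusion h2
    · rw [h1] at h2; exact Bool.noConfusion h2⟩

omit [NeZero n] in
lemma one_ne (hn : 3 ≤ n) : (1 : ZMod n) ≠ 0 := by
  intro h
  have h1 : ((1 : ℕ) : ZMod n) = 0 := by exact_mod_cast h
  rw [ZMod.natCast_eq_zero_iff] at h1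
  have := Nat.le_of_dvd (by norm_num) h1
  omega

omit [NeZero n] in
lemma two_ne (hn : 3 ≤ n) : (2 : ZMod n) ≠ 0 := by
  intro h
  have h1 : ((2 : ℕ) : ZMod n) = 0 := by exact_mod_cast h
  rw [ZMod.natCast_eq_zero_iff] at h1
  have := Nat.le_of_dvd (by norm_num) h1
  omega

lemma nb_false (hn : 3 ≤ n) (σ : Equiv.Perm (ZMod n)) (i : ZMod n) :
    nb (GA σ) (i, false) = {(i + 1, false), (i - 1, false), (σ i, true)} := by
  ext ⟨j, b⟩
  rw [mem_nb]
  simp only [GA, Finset.mem_insert, Finset.mem_singleton, Prod.mk.injEq]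
  constructor
  · rintro (⟨h1, _, h3⟩ | ⟨_, h2, h3⟩ | ⟨h1, _, _⟩)
    · rcases h3 with h3 | h3
      · exact Or.inl ⟨h3, h1.symm⟩
      · right; left
        exact ⟨by rw [h3]; ring, h1.symm⟩
    · exact Or.inr (Or.inr ⟨h3, h2⟩)
    · exact absurd h1 (by simp)
  · rintro (⟨h1, h2⟩ | ⟨h1, h2⟩ | ⟨h1, h2⟩)
    · left
      refine ⟨h2.symm, ?_, Or.inl h1⟩
      intro h
      rw [h1] at h
      exact one_ne hn (by simpa using h.symm)
    · left
      refine ⟨h2.symm, ?_, Or.inr (by rw [h1]; ring)⟩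
      intro h
      rw [h1] at h
      exact one_ne hn (by simpa using h.symm)
    · exact Or.inr (Or.inl ⟨by simp, h2, h1⟩)

lemma nb_true (hn : 3 ≤ n) (σ : Equiv.Perm (ZMod n)) (i : ZMod n) :
    nb (GA σ) (i, true) = {(i + 1, true), (i - 1, true), (σ.symm i, false)} := by
  ext ⟨j, b⟩
  rw [mem_nb]
  simp only [GA, Finset.mem_insert, Finset.mem_singleton, Prod.mk.injEq]
  constructor
  · rintro (⟨h1, _, h3⟩ | ⟨h1, _, _⟩ | ⟨_, h2, h3⟩)
    · rcases h3 with h3 | h3
      · exact Or.inl ⟨h3, h1.symm⟩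
      · right; left
        exact ⟨by rw [h3]; ring, h1.symm⟩
    · exact absurd h1 (by simp)
    · exact Or.inr (Or.inr ⟨by rw [h3, Equiv.symm_apply_apply], h2⟩)
  · rintro (⟨h1, h2⟩ | ⟨h1, h2⟩ | ⟨h1, h2⟩)
    · left
      refine ⟨h2.symm, ?_, Or.inl h1⟩
      intro h
      rw [h1] at h
      exact one_ne hn (by simpa using h.symm)
    · left
      refine ⟨h2.symm, ?_, Or.inr (by rw [h1]; ring)⟩
      intro h
      rw [h1] at h
      exact one_ne hn (by simpa using h.symm)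
    · exact Or.inr (Or.inr ⟨by simp, h2, by rw [h1, Equiv.apply_symm_apply]⟩)

omit [NeZero n] in
lemma distinct3 (hn : 3 ≤ n) (i j : ZMod n) (b c : Bool) (hbc : b ≠ c) :
    ((i + 1, b) : ZMod n × Bool) ∉ ({(i - 1, b), (j, c)} : Finset (ZMod n × Bool)) ∧
    ((i - 1, b) : ZMod n × Bool) ∉ ({(j, c)} : Finset (ZMod n × Bool)) := by
  constructor
  · rw [Finset.mem_insert, Finset.mem_singleton]
    rintro (h | h)
    · have h1 : i + 1 = i - 1 := congrArg Prod.fst h
      apply two_ne hn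
      have : (2 : ZMod n) = (i + 1) - (i - 1) := by ring
      rw [this, h1, sub_self]
    · exact hbc (congrArg Prod.snd h)
  · rw [Finset.mem_singleton]
    intro h
    exact hbc (congrArg Prod.snd h)

lemma nb_sum_false (hn : 3 ≤ n) (σ : Equiv.Perm (ZMod n)) (i : ZMod n) (f : ZMod n × Bool → ℕ) :
    ∑ u ∈ nb (GA σ) (i, false), f u = f (i + 1, false) + f (i - 1, false) + f (σ i, true) := by
  obtain ⟨h1, h2⟩ := distinct3 hn i (σ i) false true (by simp)
  rw [nb_false hn, Finset.sum_insert h1, Finset.sum_insert h2, Finset.sum_singleton, add_assoc]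

lemma nb_sum_true (hn : 3 ≤ n) (σ : Equiv.Perm (ZMod n)) (i : ZMod n) (f : ZMod n × Bool → ℕ) :
    ∑ u ∈ nb (GA σ) (i, true), f u = f (i + 1, true) + f (i - 1, true) + f (σ.symm i, false) := by
  obtain ⟨h1, h2⟩ := distinct3 hn i (σ.symm i) true false (by simp)
  rw [nb_true hn, Finset.sum_insert h1, Finset.sum_insert h2, Finset.sum_singleton, add_assoc]

lemma nb_card (hn : 3 ≤ n) (σ : Equiv.Perm (ZMod n)) (w : ZMod n × Bool) :
    (nb (GA σ) w).card = 3 := by
  obtain ⟨i, b⟩ := w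
  rw [Finset.card_eq_sum_ones]
  cases b
  · rw [nb_sum_false hn]
  · rw [nb_sum_true hn]

lemma ga_connected (hn : 3 ≤ n) (σ : Equiv.Perm (ZMod n)) : (GA σ).Connected := by
  have hstep : ∀ (i : ZMod n) (b : Bool), (GA σ).Adj (i, b) (i + 1, b) := by
    intro i b
    left
    refine ⟨rfl, ?_, Or.inl rfl⟩
    intro h
    have h' : i = i + 1 := h
    exact one_ne hn (by simpa using h'.symm)
  have h0 : ∀ (m : ℕ), (GA σ).Reachable ((0 : ZMod n), false) ((m : ZMod n), false) := by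
    intro m
    induction m with
    | zero => simp only [Nat.cast_zero]; exact SimpleGraph.Reachable.refl _
    | succ m ih =>
      have := hstep (m : ZMod n) false
      rw [Nat.cast_succ]
      exact ih.trans this.reachable
  have h1 : ∀ x : ZMod n × Bool, (GA σ).Reachable ((0 : ZMod n), false) x := by
    rintro ⟨i, b⟩
    cases b
    · have := h0 i.val
      rw [ZMod.natCast_zmod_val] at this
      exact this
    · have h2 := h0 (σ.symm i).val
      rw [ZMod.natCast_zmod_val] at h2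
      have h3 : (GA σ).Adj (σ.symm i, false) (i, true) := by
        right; left
        exact ⟨rfl, rfl, by simp⟩
      exact h2.trans h3.reachable
  have : Nonempty (ZMod n × Bool) := ⟨(0, false)⟩
  exact SimpleGraph.Connected.mk (fun x y => (h1 x).symm.trans (h1 y))

/-! ### Slices -/

/-- Lower slice. -/
def slA (S : Finset (ZMod n × Bool)) : Finset (ZMod n) := Finset.univ.filter (fun i => (i, false) ∈ S)

/-- Upper slice. -/
def slB (S : Finset (ZMod n × Bool)) : Finset (ZMod n) := Finset.univ.filter (fun i => (i, true) ∈ S)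

lemma mem_slA (S : Finset (ZMod n × Bool)) (i : ZMod n) : i ∈ slA S ↔ (i, false) ∈ S := by
  simp [slA]

lemma mem_slB (S : Finset (ZMod n × Bool)) (i : ZMod n) : i ∈ slB S ↔ (i, true) ∈ S := by
  simp [slB]

lemma sum_slices (S : Finset (ZMod n × Bool)) (f : ZMod n × Bool → ℕ) :
    ∑ w ∈ S, f w = ∑ i ∈ slA S, f (i, false) + ∑ i ∈ slB S, f (i, true) := by
  have h1 : ∑ w ∈ S, f w = ∑ w, if w ∈ S then f w else 0 := by
    rw [← Finset.sum_filter]
    congr 1
    ext w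
    simp
  rw [h1, Fintype.sum_prod_type]
  simp only [Fintype.sum_bool]
  rw [Finset.sum_add_distrib, add_comm, slA, slB, Finset.sum_filter, Finset.sum_filter]

lemma card_slices (S : Finset (ZMod n × Bool)) : S.card = (slA S).card + (slB S).card := by
  rw [Finset.card_eq_sum_ones, sum_slices, ← Finset.card_eq_sum_ones, ← Finset.card_eq_sum_ones]

/-- Indicator. -/
def ind (p : Prop) [Decidable p] : ℕ := if p then 1 else 0

lemma bd_formula (hn : 3 ≤ n) (σ : Equiv.Perm (ZMod n)) (S : Finset (ZMod n × Bool)) :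
    bd (GA σ) S = ∑ i ∈ slA S, (ind (i + 1 ∉ slA S) + ind (i - 1 ∉ slA S) + ind (σ i ∉ slB S)) +
      ∑ i ∈ slB S, (ind (i + 1 ∉ slB S) + ind (i - 1 ∉ slB S) + ind (σ.symm i ∉ slA S)) := by
  unfold bd
  have h : ∀ w, ((nb (GA σ) w) \ S).card = ∑ u ∈ nb (GA σ) w, ind (u ∉ S) := by
    intro w
    unfold ind
    rw [← Finset.sum_filter, ← Finset.card_eq_sum_ones]
    congr 1
    ext x
    rw [Finset.mem_sdiff, Finset.mem_filter]
  rw [sum_slices]
  congr 1
  · apply Finset.sum_congr rfl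
    intro i _
    rw [h, nb_sum_false hn]
    simp only [mem_slA, mem_slB]
  · apply Finset.sum_congr rfl
    intro i _
    rw [h, nb_sum_true hn]
    simp only [mem_slA, mem_slB]

lemma ed_formula (hn : 3 ≤ n) (σ : Equiv.Perm (ZMod n)) (S : Finset (ZMod n × Bool)) :
    ed (GA σ) S S = ∑ i ∈ slA S, (ind (i + 1 ∈ slA S) + ind (i - 1 ∈ slA S) + ind (σ i ∈ slB S)) +
      ∑ i ∈ slB S, (ind (i + 1 ∈ slB S) + ind (i - 1 ∈ slB S) + ind (σ.symm i ∈ slA S)) := by
  unfold ed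
  have h : ∀ w, ((nb (GA σ) w) ∩ S).card = ∑ u ∈ nb (GA σ) w, ind (u ∈ S) := by
    intro w
    unfold ind
    rw [← Finset.sum_filter, ← Finset.card_eq_sum_ones]
    rfl
  rw [sum_slices]
  congr 1
  · apply Finset.sum_congr rfl
    intro i _
    rw [h, nb_sum_false hn]
    simp only [mem_slA, mem_slB]
  · apply Finset.sum_congr rfl
    intro i _
    rw [h, nb_sum_true hn]
    simp only [mem_slA, mem_slB]

/-! ### Shifts -/

/-- Places where membership changes. -/
def chg (A : Finset (ZMod n)) : Finset (ZMod n) := Finset.univ.filter (fun i => ¬ (i ∈ A ↔ i + 1 ∈ A))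

lemma sum_to_univ (A : Finset (ZMod n)) (p : ZMod n → Prop) [DecidablePred p] :
    ∑ i ∈ A, ind (p i) = ∑ i, ind (i ∈ A ∧ p i) := by
  have : ∑ i, ind (i ∈ A ∧ p i) = ∑ i, if i ∈ A then ind (p i) else 0 := by
    apply Finset.sum_congr rfl
    intro i _
    unfold ind
    by_cases h : i ∈ A <;> simp [h]
  rw [this, ← Finset.sum_filter]
  congr 1
  ext i
  simp

lemma shift_sum (f : ZMod n → ℕ) : ∑ i, f (i - 1) = ∑ i, f i :=
  Equiv.sum_comp (Equiv.subRight (1 : ZMod n)) f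

lemma chg_card (A : Finset (ZMod n)) : (chg A).card =
    ∑ i ∈ A, ind (i + 1 ∉ A) + ∑ i ∈ A, ind (i - 1 ∉ A) := by
  have e1 := sum_to_univ A (fun i => i + 1 ∉ A)
  have e2 := sum_to_univ A (fun i => i - 1 ∉ A)
  beta_reduce at e1 e2
  rw [e1, e2]
  have h1 : ∑ i, ind (i ∈ A ∧ i - 1 ∉ A) = ∑ i, ind (i + 1 ∈ A ∧ i ∉ A) := by
    rw [← shift_sum (fun i => ind (i + 1 ∈ A ∧ i ∉ A))]
    apply Finset.sum_congr rfl
    intro i _
    simp only [sub_add_cancel]
  rw [h1, ← Finset.sum_add_distrib, chg, Finset.card_filter]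
  apply Finset.sum_congr rfl
  intro i _
  unfold ind
  by_cases h : i ∈ A <;> by_cases h' : i + 1 ∈ A <;> simp [h, h']

lemma in_shift (A : Finset (ZMod n)) : ∑ i ∈ A, ind (i - 1 ∈ A) = ∑ i ∈ A, ind (i + 1 ∈ A) := by
  have e1 := sum_to_univ A (fun i => i - 1 ∈ A)
  have e2 := sum_to_univ A (fun i => i + 1 ∈ A)
  beta_reduce at e1 e2
  rw [e1, e2, ← shift_sum (fun i => ind (i ∈ A ∧ i + 1 ∈ A))]
  apply Finset.sum_congr rfl
  intro i _
  simp only [sub_add_cancel]
  unfold ind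
  by_cases h : i ∈ A <;> by_cases h' : i - 1 ∈ A <;> simp [h, h']

lemma cross_sum (σ : Equiv.Perm (ZMod n)) (A B : Finset (ZMod n)) :
    ∑ i ∈ B, ind (σ.symm i ∈ A) = ∑ i ∈ A, ind (σ i ∈ B) := by
  have e1 := sum_to_univ B (fun i => σ.symm i ∈ A)
  have e2 := sum_to_univ A (fun i => σ i ∈ B)
  beta_reduce at e1 e2
  rw [e1, e2, ← Equiv.sum_comp σ]
  apply Finset.sum_congr rfl
  intro i _
  simp only [Equiv.symm_apply_apply]
  unfold ind
  by_cases h : i ∈ A <;> by_cases h' : σ i ∈ B <;> simp [h, h']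

lemma symm_card (σ : Equiv.Perm (ZMod n)) (A B : Finset (ZMod n)) :
    (symmDiff (A.map σ.toEmbedding) B).card =
      ∑ i ∈ A, ind (σ i ∉ B) + ∑ i ∈ B, ind (σ.symm i ∉ A) := by
  have h1 : (symmDiff (A.map σ.toEmbedding) B).card = ((A.map σ.toEmbedding) \ B).card +
      (B \ (A.map σ.toEmbedding)).card := by
    rw [← Finset.card_union_of_disjoint]
    · rfl
    · rw [Finset.disjoint_left]
      intro x hx hx'
      rw [Finset.mem_sdiff] at hx hx'
      exact hx.2 hx'.1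
  rw [h1]
  congr 1
  · have : (A.map σ.toEmbedding) \ B = (A.filter (fun i => σ i ∉ B)).map σ.toEmbedding := by
      ext x
      simp only [Finset.mem_sdiff, Finset.mem_map, Finset.mem_filter, Equiv.coe_toEmbedding]
      constructor
      · rintro ⟨⟨a, ha, rfl⟩, h⟩
        exact ⟨a, ⟨ha, h⟩, rfl⟩
      · rintro ⟨a, ⟨ha, h⟩, rfl⟩
        exact ⟨⟨a, ha, rfl⟩, h⟩
    rw [this, Finset.card_map, Finset.card_filter]
    rfl
  · have : B \ (A.map σ.toEmbedding) = B.filter (fun i => σ.symm i ∉ A) := by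
      ext x
      simp only [Finset.mem_sdiff, Finset.mem_map, Finset.mem_filter, Equiv.coe_toEmbedding]
      constructor
      · rintro ⟨h, h'⟩
        exact ⟨h, fun hx => h' ⟨_, hx, Equiv.apply_symm_apply σ x⟩⟩
      · rintro ⟨h, h'⟩
        refine ⟨h, ?_⟩
        rintro ⟨a, ha, rfl⟩
        exact h' (by rw [Equiv.symm_apply_apply]; exact ha)
    rw [this, Finset.card_filter]
    rfl

lemma bd_eq (hn : 3 ≤ n) (σ : Equiv.Perm (ZMod n)) (S : Finset (ZMod n × Bool)) :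
    bd (GA σ) S = (chg (slA S)).card + (chg (slB S)).card +
      (symmDiff ((slA S).map σ.toEmbedding) (slB S)).card := by
  rw [bd_formula hn, chg_card, chg_card, symm_card]
  simp only [Finset.sum_add_distrib]
  ring

lemma ed_eq (hn : 3 ≤ n) (σ : Equiv.Perm (ZMod n)) (S : Finset (ZMod n × Bool)) :
    ed (GA σ) S S = 2 * (∑ i ∈ slA S, ind (i + 1 ∈ slA S) + ∑ i ∈ slB S, ind (i + 1 ∈ slB S) +
      ∑ i ∈ slA S, ind (σ i ∈ slB S)) := by
  rw [ed_formula hn]
  simp only [Finset.sum_add_distrib]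
  rw [in_shift, in_shift, cross_sum]
  ring

end Pool.Agent.H13.Peb
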