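import Pool.Agent.H13.PebG

set_option autoImplicit false

namespace Pool.Agent.H13.Peb

open Finset

section P1

variable {n : ℕ} [NeZero n]

lemma chg_inj (A A' : Finset (ZMod n)) (h : chg A = chg A') (h0 : (0 : ZMod n) ∈ A ↔ (0 : ZMod n) ∈ A') :
    A = A' := by
  have key : ∀ m : ℕ, (m : ZMod n) ∈ A ↔ (m : ZMod n) ∈ A' := by
    intro m
    induction m with
    | zero => simpa using h0
    | succ m ih =>
      have h1 : (m : ZMod n) ∈ chg A ↔ (m : ZMod n) ∈ chg A' := by rw [h]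
      simp only [chg, Finset.mem_filter, Finset.mem_univ, true_and] at h1
      rw [Nat.cast_succ]
      tauto
  ext i
  have := key i.val
  rw [ZMod.natCast_zmod_val] at this
  exact this

lemma card_small_chg (κ : ℕ) (hn : n = 128 * κ) :
    ((Finset.univ : Finset (Finset (ZMod n))).filter (fun A => (chg A).card ≤ κ)).card ≤
      2 * 2 ^ (20 * κ) := by
  have h1 := small_sets (α := ZMod n) κ (by rw [ZMod.card, hn])
  have h2 : ((Finset.univ : Finset (Finset (ZMod n))).filter (fun A => (chg A).card ≤ κ)).card ≤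
      (((Finset.univ : Finset (Finset (ZMod n))).filter (fun T => T.card ≤ κ)) ×ˢ
        (Finset.univ : Finset Bool)).card := by
    refine Finset.card_le_card_of_injOn (fun A => (chg A, decide ((0 : ZMod n) ∈ A))) ?_ ?_
    · intro A hA
      rw [Finset.mem_coe, Finset.mem_filter] at hA
      rw [Finset.mem_coe, Finset.mem_product, Finset.mem_filter]
      exact ⟨⟨Finset.mem_univ _, hA.2⟩, Finset.mem_univ _⟩
    · intro A _ A' _ h
      have e1 : chg A = chg A' := congrArg Prod.fst h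
      have e2 : decide ((0 : ZMod n) ∈ A) = decide ((0 : ZMod n) ∈ A') := congrArg Prod.snd h
      exact chg_inj A A' e1 (decide_eq_decide.1 e2)
  rw [Finset.card_product, Finset.card_univ, Fintype.card_bool] at h2
  omega

/-- Permutations with a bad half-size cut. -/
noncomputable def Bad1 (n : ℕ) [NeZero n] (κ : ℕ) : Finset (Equiv.Perm (ZMod n)) := by
  classical exact Finset.univ.filter (fun σ => ∃ S : Finset (ZMod n × Bool),
    n ≤ S.card + κ ∧ S.card ≤ n ∧ bd (GA σ) S ≤ κ)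

lemma bad1_card (κ : ℕ) (hκ : 1 ≤ κ) (hn : n = 128 * κ) :
    4 * (Bad1 n κ).card ≤ n.factorial := by
  classical
  set 𝒜 := (Finset.univ : Finset (Finset (ZMod n))).filter (fun A => (chg A).card ≤ κ) with h𝒜
  set 𝒯 := (Finset.univ : Finset (Finset (ZMod n))).filter (fun T => T.card ≤ κ) with h𝒯
  set I := (𝒜 ×ˢ (𝒜 ×ˢ 𝒯)).filter (fun x => 64 * κ ≤ x.1.card + κ ∧ x.1.card ≤ 64 * κ + κ) with hI
  let ev : Finset (ZMod n) × (Finset (ZMod n) × Finset (ZMod n)) → Finset (Equiv.Perm (ZMod n)) :=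
    fun x => Finset.univ.filter (fun σ => x.1.map σ.toEmbedding = symmDiff x.2.2 x.2.1)
  have hsub : Bad1 n κ ⊆ I.biUnion ev := by
    intro σ hσ
    simp only [Bad1, Finset.mem_filter, Finset.mem_univ, true_and] at hσ
    obtain ⟨S, h1, h2, h3⟩ := hσ
    rw [bd_eq (by omega)] at h3
    rw [card_slices] at h1 h2
    have h4 : (slA S).card ≤ (slB S).card +
        (symmDiff ((slA S).map σ.toEmbedding) (slB S)).card := by
      rw [← Finset.card_map σ.toEmbedding (s := slA S)]
      refine (Finset.card_le_card ?_).trans (Finset.card_union_le _ _)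
      intro x hx
      rw [Finset.mem_union, Finset.mem_symmDiff]
      by_cases h : x ∈ slB S
      · exact Or.inl h
      · exact Or.inr (Or.inl ⟨hx, h⟩)
    have h5 : (slB S).card ≤ (slA S).card +
        (symmDiff ((slA S).map σ.toEmbedding) (slB S)).card := by
      rw [← Finset.card_map σ.toEmbedding (s := slA S)]
      refine (Finset.card_le_card ?_).trans (Finset.card_union_le _ _)
      intro x hx
      rw [Finset.mem_union, Finset.mem_symmDiff]
      by_cases h : x ∈ (slA S).map σ.toEmbedding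
      · exact Or.inl h
      · exact Or.inr (Or.inr ⟨hx, h⟩)
    rw [Finset.mem_biUnion]
    refine ⟨(slA S, slB S, symmDiff ((slA S).map σ.toEmbedding) (slB S)), ?_, ?_⟩
    · rw [hI, Finset.mem_filter, Finset.mem_product, Finset.mem_product, h𝒜, h𝒯]
      simp only [Finset.mem_filter, Finset.mem_univ, true_and]
      refine ⟨⟨?_, ?_, ?_⟩, ?_, ?_⟩ <;> omega
    · simp only [ev, Finset.mem_filter, Finset.mem_univ, true_and]
      rw [symmDiff_symmDiff_cancel_right]
  have hev : ∀ x ∈ I, (ev x).card * 4 ^ (64 * κ) ≤ 128 * κ * 2 ^ κ * n.factorial := by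
    intro x hx
    rw [hI, Finset.mem_filter] at hx
    have h1 := perm_map_count x.1 (symmDiff x.2.2 x.2.1)
    rw [ZMod.card] at h1
    have h2 := choose_mid (64 * κ) κ x.1.card (by omega) (by omega) hx.2.1 hx.2.2
    have e : 2 * (64 * κ) = n := by omega
    rw [e] at h2
    calc (ev x).card * 4 ^ (64 * κ) ≤ (ev x).card * (n * (2 ^ κ * n.choose x.1.card)) :=
          Nat.mul_le_mul_left _ h2
      _ = n * 2 ^ κ * ((ev x).card * n.choose x.1.card) := by ring
      _ ≤ n * 2 ^ κ * n.factorial := Nat.mul_le_mul_left _ h1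
      _ = 128 * κ * 2 ^ κ * n.factorial := by rw [← hn]
  have hIcard : I.card ≤ 4 * 2 ^ (60 * κ) := by
    have h1 : 𝒜.card ≤ 2 * 2 ^ (20 * κ) := card_small_chg κ hn
    have h2 : 𝒯.card ≤ 2 ^ (20 * κ) := small_sets (α := ZMod n) κ (by rw [ZMod.card, hn])
    calc I.card ≤ (𝒜 ×ˢ (𝒜 ×ˢ 𝒯)).card := Finset.card_filter_le _ _
      _ = 𝒜.card * (𝒜.card * 𝒯.card) := by rw [Finset.card_product, Finset.card_product]
      _ ≤ (2 * 2 ^ (20 * κ)) * ((2 * 2 ^ (20 * κ)) * 2 ^ (20 * κ)) := by gcongr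
      _ = 4 * 2 ^ (60 * κ) := by
          have : 2 ^ (60 * κ) = 2 ^ (20 * κ) * 2 ^ (20 * κ) * 2 ^ (20 * κ) := by
            rw [← pow_add, ← pow_add]; congr 1; ring
          rw [this]; ring
  have hB : (Bad1 n κ).card * 4 ^ (64 * κ) ≤ (4 * 2 ^ (60 * κ)) * (128 * κ * 2 ^ κ * n.factorial) := by
    calc (Bad1 n κ).card * 4 ^ (64 * κ) ≤ (I.biUnion ev).card * 4 ^ (64 * κ) :=
          Nat.mul_le_mul_right _ (Finset.card_le_card hsub)
      _ ≤ (∑ x ∈ I, (ev x).card) * 4 ^ (64 * κ) := Nat.mul_le_mul_right _ Finset.card_biUnion_le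
      _ = ∑ x ∈ I, (ev x).card * 4 ^ (64 * κ) := Finset.sum_mul _ _ _
      _ ≤ ∑ x ∈ I, 128 * κ * 2 ^ κ * n.factorial := Finset.sum_le_sum hev
      _ = I.card * (128 * κ * 2 ^ κ * n.factorial) := by rw [Finset.sum_const, smul_eq_mul]
      _ ≤ _ := Nat.mul_le_mul_right _ hIcard
  have hfin : 4 * ((4 * 2 ^ (60 * κ)) * (128 * κ * 2 ^ κ * n.factorial)) ≤ n.factorial * 4 ^ (64 * κ) := by
    have h1 : κ ≤ 2 ^ κ := Nat.lt_two_pow_self.le
    have h2 : (2048 : ℕ) ≤ 2 ^ (66 * κ) := by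
      calc (2048 : ℕ) = 2 ^ 11 := by norm_num
        _ ≤ 2 ^ (66 * κ) := Nat.pow_le_pow_right (by norm_num) (by omega)
    have h3 : 4 ^ (64 * κ) = 2 ^ (66 * κ) * 2 ^ κ * 2 ^ (60 * κ) * 2 ^ κ := by
      rw [← pow_add, ← pow_add, ← pow_add]
      have : (4 : ℕ) = 2 ^ 2 := by norm_num
      rw [this, ← pow_mul]
      congr 1
      ring
    rw [h3]
    calc 4 * ((4 * 2 ^ (60 * κ)) * (128 * κ * 2 ^ κ * n.factorial))
        = n.factorial * (2048 * κ * 2 ^ (60 * κ) * 2 ^ κ) := by ring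
      _ ≤ n.factorial * (2 ^ (66 * κ) * 2 ^ κ * 2 ^ (60 * κ) * 2 ^ κ) := by gcongr
  have h4 : 4 * (Bad1 n κ).card * 4 ^ (64 * κ) ≤ n.factorial * 4 ^ (64 * κ) := by
    calc 4 * (Bad1 n κ).card * 4 ^ (64 * κ) = 4 * ((Bad1 n κ).card * 4 ^ (64 * κ)) := by ring
      _ ≤ 4 * ((4 * 2 ^ (60 * κ)) * (128 * κ * 2 ^ κ * n.factorial)) := Nat.mul_le_mul_left _ hB
      _ ≤ _ := hfin
  exact Nat.le_of_mul_le_mul_right h4 (by positivity)

end P1

section P2

variable {n : ℕ} [NeZero n]

lemma walk_out (A : Finset (ZMod n)) (L : ℕ) (hA : A.card ≤ L) (hL : L < n) (a : ZMod n)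
    (ha : a ∈ A) : ∃ c : ℕ, c < L ∧ a + c ∈ A ∧ a + c + 1 ∉ A := by
  by_contra hcon
  push Not at hcon
  have h1 : ∀ c : ℕ, c ≤ L → a + c ∈ A := by
    intro c
    induction c with
    | zero => intro _; simpa using ha
    | succ c ih =>
      intro hc
      have := hcon c (by omega) (ih (by omega))
      rw [Nat.cast_succ, ← add_assoc]
      exact this
  have h2 : (Finset.range (L + 1)).card ≤ A.card := by
    refine Finset.card_le_card_of_injOn (fun c : ℕ => a + (c : ZMod n)) ?_ ?_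
    · intro c hc
      rw [Finset.mem_coe, Finset.mem_range] at hc
      exact h1 c (by omega)
    · intro c hc d hd h
      rw [Finset.mem_coe, Finset.mem_range] at hc hd
      have h3 : (c : ZMod n) = (d : ZMod n) := add_left_cancel h
      rw [ZMod.natCast_eq_natCast_iff'] at h3
      rwa [Nat.mod_eq_of_lt (by omega), Nat.mod_eq_of_lt (by omega)] at h3
  rw [Finset.card_range] at h2
  omega

/-- Permutations with a dense small set. -/
noncomputable def Bad2 (n : ℕ) [NeZero n] (L : ℕ) : Finset (Equiv.Perm (ZMod n)) := by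
  classical exact Finset.univ.filter (fun σ => ∃ S : Finset (ZMod n × Bool),
    S.card ≤ L ∧ 2 * S.card < ed (GA σ) S S)

/-- Index type of patterns. -/
abbrev Pat (n p q k L : ℕ) : Type :=
  (Fin p → ZMod n) × (Fin q → ZMod n) × (Fin k → Fin p) × (Fin k → Fin q) × (Fin k → Fin L) ×
    (Fin k → Fin L)

/-- Event of a pattern. -/
noncomputable def evt (n p q k L : ℕ) [NeZero n] (z : Pat n p q k L) :
    Finset (Equiv.Perm (ZMod n)) := by
  classical exact Finset.univ.filter (fun σ =>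
    Function.Injective (fun i => z.1 (z.2.2.1 i) - ((z.2.2.2.2.1 i : ℕ) : ZMod n)) ∧
    ∀ i, σ (z.1 (z.2.2.1 i) - ((z.2.2.2.2.1 i : ℕ) : ZMod n)) =
      z.2.1 (z.2.2.2.1 i) - ((z.2.2.2.2.2 i : ℕ) : ZMod n))

lemma evt_card (p q k L : ℕ) (z : Pat n p q k L) : (evt n p q k L z).card ≤ (n - k).factorial := by
  classical
  by_cases hinj : Function.Injective (fun i => z.1 (z.2.2.1 i) - ((z.2.2.2.2.1 i : ℕ) : ZMod n))
  · have := perm_prescribed k (fun i => z.1 (z.2.2.1 i) - ((z.2.2.2.2.1 i : ℕ) : ZMod n))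
      (fun i => z.2.1 (z.2.2.2.1 i) - ((z.2.2.2.2.2 i : ℕ) : ZMod n)) hinj
    rw [ZMod.card] at this
    refine le_trans (Finset.card_le_card ?_) this
    intro σ hσ
    simp only [evt, Finset.mem_filter, Finset.mem_univ, true_and] at hσ ⊢
    exact hσ.2
  · have : evt n p q k L z = ∅ := by
      ext σ
      simp only [evt, Finset.mem_filter, Finset.mem_univ, true_and, Finset.notMem_empty, iff_false]
      intro h
      exact hinj h.1
    rw [this]
    simp

lemma bad2_subset (L : ℕ) (hL : L < n) (hn : 3 ≤ n) :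
    Bad2 n L ⊆ (Finset.range (L + 1) ×ˢ Finset.range (L + 1)).biUnion (fun pq =>
      (Finset.univ : Finset (Pat n pq.1 pq.2 (pq.1 + pq.2 + 1) L)).biUnion
        (evt n pq.1 pq.2 (pq.1 + pq.2 + 1) L)) := by
  classical
  intro σ hσ
  simp only [Bad2, Finset.mem_filter, Finset.mem_univ, true_and] at hσ
  obtain ⟨S, hS, hed⟩ := hσ
  rw [ed_eq hn, card_slices] at hed
  rw [card_slices] at hS
  set A := slA S with hA
  set B := slB S with hB
  set EA := A.filter (fun i => i + 1 ∉ A) with hEA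
  set EB := B.filter (fun i => i + 1 ∉ B) with hEB
  set X := A.filter (fun i => σ i ∈ B) with hX
  have c1 : ∑ i ∈ A, ind (i + 1 ∈ A) + EA.card = A.card := by
    rw [hEA, Finset.card_filter, ← Finset.sum_add_distrib, Finset.card_eq_sum_ones]
    apply Finset.sum_congr rfl
    intro i _
    unfold ind
    by_cases h : i + 1 ∈ A <;> simp [h]
  have c2 : ∑ i ∈ B, ind (i + 1 ∈ B) + EB.card = B.card := by
    rw [hEB, Finset.card_filter, ← Finset.sum_add_distrib, Finset.card_eq_sum_ones]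
    apply Finset.sum_congr rfl
    intro i _
    unfold ind
    by_cases h : i + 1 ∈ B <;> simp [h]
  have c3 : ∑ i ∈ A, ind (σ i ∈ B) = X.card := by
    rw [hX, Finset.card_filter]
    rfl
  rw [c3] at hed
  have hXc : EA.card + EB.card + 1 ≤ X.card := by omega
  have hEAc : EA.card ≤ A.card := Finset.card_filter_le _ _
  have hEBc : EB.card ≤ B.card := Finset.card_filter_le _ _
  obtain ⟨X', hX'X, hX'c⟩ := Finset.exists_subset_card_eq hXc
  rw [Finset.mem_biUnion]
  refine ⟨(EA.card, EB.card), ?_, ?_⟩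
  · rw [Finset.mem_product, Finset.mem_range, Finset.mem_range]
    constructor
    · show EA.card < L + 1
      omega
    · show EB.card < L + 1
      omega
  · -- enumerations
    let eA := EA.equivFin
    let eB := EB.equivFin
    let eX : {x // x ∈ X'} ≃ Fin (EA.card + EB.card + 1) := Finset.equivFinOfCardEq hX'c
    have hxA : ∀ i : Fin (EA.card + EB.card + 1), ((eX.symm i : {x // x ∈ X'}) : ZMod n) ∈ A := by
      intro i
      have := hX'X (eX.symm i).2
      rw [hX, Finset.mem_filter] at this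
      exact this.1
    have hxB : ∀ i : Fin (EA.card + EB.card + 1), σ ((eX.symm i : {x // x ∈ X'}) : ZMod n) ∈ B := by
      intro i
      have := hX'X (eX.symm i).2
      rw [hX, Finset.mem_filter] at this
      exact this.2
    have hwA : ∀ i, ∃ c : ℕ, c < L ∧ ((eX.symm i : {x // x ∈ X'}) : ZMod n) + c ∈ EA := by
      intro i
      obtain ⟨c, h1, h2, h3⟩ := walk_out A L (by omega) hL _ (hxA i)
      exact ⟨c, h1, Finset.mem_filter.2 ⟨h2, h3⟩⟩
    have hwB : ∀ i, ∃ c : ℕ, c < L ∧ σ ((eX.symm i : {x // x ∈ X'}) : ZMod n) + c ∈ EB := by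
      intro i
      obtain ⟨c, h1, h2, h3⟩ := walk_out B L (by omega) hL _ (hxB i)
      exact ⟨c, h1, Finset.mem_filter.2 ⟨h2, h3⟩⟩
    choose cA hcA1 hcA2 using hwA
    choose cB hcB1 hcB2 using hwB
    rw [Finset.mem_biUnion]
    refine ⟨((fun j => ((eA.symm j : {x // x ∈ EA}) : ZMod n)),
      (fun j => ((eB.symm j : {x // x ∈ EB}) : ZMod n)),
      (fun i => eA ⟨_, hcA2 i⟩), (fun i => eB ⟨_, hcB2 i⟩), (fun i => ⟨cA i, hcA1 i⟩),
      (fun i => ⟨cB i, hcB1 i⟩)), Finset.mem_univ _, ?_⟩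
    simp only [evt, Finset.mem_filter, Finset.mem_univ, true_and, Equiv.symm_apply_apply,
      add_sub_cancel_right]
    refine ⟨?_, fun _ => trivial⟩
    intro i j hij
    exact eX.symm.injective (Subtype.ext hij)

/-- The threshold. -/
def thr (L : ℕ) : ℕ := 4 * (L + 1) ^ 2 * (2 ^ (2 * L + 1) * (L + 1) ^ (4 * (2 * L + 1)))

lemma bad2_card (L h : ℕ) (hn : n = 2 * h) (hh : thr L ≤ h) (hL : L < n) (hL2 : 2 * L + 1 ≤ h)
    (hn3 : 3 ≤ n) :
    4 * (Bad2 n L).card ≤ n.factorial := by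
  classical
  have hterm : ∀ pq ∈ (Finset.range (L + 1) ×ˢ Finset.range (L + 1)),
      4 * (L + 1) ^ 2 * ((Finset.univ : Finset (Pat n pq.1 pq.2 (pq.1 + pq.2 + 1) L)).biUnion
        (evt n pq.1 pq.2 (pq.1 + pq.2 + 1) L)).card ≤ n.factorial := by
    rintro ⟨p, q⟩ hpq
    rw [Finset.mem_product, Finset.mem_range, Finset.mem_range] at hpq
    simp only at hpq ⊢
    obtain ⟨hp, hq⟩ := hpq
    set k := p + q + 1 with hk
    have h1 : ((Finset.univ : Finset (Pat n p q k L)).biUnion (evt n p q k L)).card ≤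
        (n ^ p * (n ^ q * (p ^ k * (q ^ k * (L ^ k * L ^ k))))) * (n - k).factorial := by
      refine (Finset.card_biUnion_le_card_mul _ _ _ (fun z _ => evt_card p q k L z)).trans ?_
      rw [Finset.card_univ]
      simp only [Fintype.card_prod, Fintype.card_fun, Fintype.card_fin, ZMod.card]
      exact le_rfl
    have hkL : k ≤ 2 * L + 1 := by omega
    have h2 : h ^ k * (n - k).factorial ≤ n.factorial := by
      have h3 := Nat.factorial_mul_descFactorial (show k ≤ n by omega)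
      have h4 := Nat.pow_sub_le_descFactorial n k
      have h5 : h ^ k ≤ (n + 1 - k) ^ k := Nat.pow_le_pow_left (by omega) k
      rw [← h3, mul_comm]
      exact Nat.mul_le_mul_left _ (h5.trans h4)
    have hpL : p ^ k ≤ (L + 1) ^ k := Nat.pow_le_pow_left (by omega) k
    have hqL : q ^ k ≤ (L + 1) ^ k := Nat.pow_le_pow_left (by omega) k
    have hLL : L ^ k ≤ (L + 1) ^ k := Nat.pow_le_pow_left (by omega) k
    have h6 : p ^ k * (q ^ k * (L ^ k * L ^ k)) ≤ (L + 1) ^ (4 * (2 * L + 1)) := by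
      calc p ^ k * (q ^ k * (L ^ k * L ^ k))
          ≤ (L + 1) ^ k * ((L + 1) ^ k * ((L + 1) ^ k * (L + 1) ^ k)) := by gcongr
        _ = (L + 1) ^ (4 * k) := by rw [← pow_add, ← pow_add, ← pow_add]; congr 1; ring
        _ ≤ _ := Nat.pow_le_pow_right (by omega) (by omega)
    have h7 : n ^ p * n ^ q ≤ 2 ^ (2 * L + 1) * h ^ (p + q) := by
      rw [← pow_add, hn, mul_pow]
      exact Nat.mul_le_mul_right _ (Nat.pow_le_pow_right (by norm_num) (by omega))
    calc 4 * (L + 1) ^ 2 * ((Finset.univ : Finset (Pat n p q k L)).biUnion (evt n p q k L)).card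
        ≤ 4 * (L + 1) ^ 2 *
          ((n ^ p * (n ^ q * (p ^ k * (q ^ k * (L ^ k * L ^ k))))) * (n - k).factorial) :=
          Nat.mul_le_mul_left _ h1
      _ = (4 * (L + 1) ^ 2 * ((n ^ p * n ^ q) * (p ^ k * (q ^ k * (L ^ k * L ^ k))))) *
          (n - k).factorial := by ring
      _ ≤ (4 * (L + 1) ^ 2 * ((2 ^ (2 * L + 1) * h ^ (p + q)) * (L + 1) ^ (4 * (2 * L + 1)))) *
          (n - k).factorial := by gcongr
      _ = (thr L * h ^ (p + q)) * (n - k).factorial := by unfold thr; ring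
      _ ≤ (h * h ^ (p + q)) * (n - k).factorial := by gcongr
      _ = h ^ k * (n - k).factorial := by rw [hk, pow_succ]; ring
      _ ≤ n.factorial := h2
  have hsub := Finset.card_le_card (bad2_subset (n := n) L hL hn3)
  have hle := hsub.trans Finset.card_biUnion_le
  have h8 : 4 * (L + 1) ^ 2 * (Bad2 n L).card ≤ (L + 1) ^ 2 * n.factorial := by
    calc 4 * (L + 1) ^ 2 * (Bad2 n L).card ≤ 4 * (L + 1) ^ 2 * _ := Nat.mul_le_mul_left _ hle
      _ = ∑ pq ∈ (Finset.range (L + 1) ×ˢ Finset.range (L + 1)), _ := Finset.mul_sum _ _ _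
      _ ≤ ∑ pq ∈ (Finset.range (L + 1) ×ˢ Finset.range (L + 1)), n.factorial :=
          Finset.sum_le_sum hterm
      _ = (L + 1) ^ 2 * n.factorial := by
          rw [Finset.sum_const, Finset.card_product, Finset.card_range, smul_eq_mul]
          ring
  have h9 : (L + 1) ^ 2 * (4 * (Bad2 n L).card) ≤ (L + 1) ^ 2 * n.factorial := by
    calc (L + 1) ^ 2 * (4 * (Bad2 n L).card) = 4 * (L + 1) ^ 2 * (Bad2 n L).card := by ring
      _ ≤ _ := h8
  exact Nat.le_of_mul_le_mul_left h9 (by positivity)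

end P2

/-- Good permutations exist. -/
theorem exists_good (L : ℕ) : ∃ (κ : ℕ), 1 ≤ κ ∧ ∃ (hne : NeZero (128 * κ)),
    ∃ σ : Equiv.Perm (ZMod (128 * κ)),
      (∀ S : Finset (ZMod (128 * κ) × Bool),
        ¬ (128 * κ ≤ S.card + κ ∧ S.card ≤ 128 * κ ∧ bd (GA σ) S ≤ κ)) ∧
      (∀ S : Finset (ZMod (128 * κ) × Bool), S.card ≤ L → ed (GA σ) S S ≤ 2 * S.card) := by
  classical
  set κ := thr L + L + 1 with hκ
  have hne : NeZero (128 * κ) := ⟨by omega⟩
  refine ⟨κ, by omega, hne, ?_⟩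
  have h1 := bad1_card (n := 128 * κ) κ (by omega) rfl
  have h2 := bad2_card (n := 128 * κ) L (64 * κ) (by ring) (by omega) (by omega) (by omega) (by omega)
  have h3 : ∃ σ : Equiv.Perm (ZMod (128 * κ)), σ ∉ Bad1 (128 * κ) κ ∪ Bad2 (128 * κ) L := by
    by_contra hcon
    push Not at hcon
    have h4 : (Finset.univ : Finset (Equiv.Perm (ZMod (128 * κ)))).card ≤
        (Bad1 (128 * κ) κ ∪ Bad2 (128 * κ) L).card :=
      Finset.card_le_card (fun σ _ => hcon σ)
    have h5 := h4.trans (Finset.card_union_le _ _)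
    rw [Finset.card_univ, Fintype.card_perm, ZMod.card] at h5
    have h6 := Nat.factorial_pos (128 * κ)
    omega
  obtain ⟨σ, hσ⟩ := h3
  rw [Finset.mem_union, not_or] at hσ
  refine ⟨σ, ?_, ?_⟩
  · intro S hS
    apply hσ.1
    simp only [Bad1, Finset.mem_filter, Finset.mem_univ, true_and]
    exact ⟨S, hS⟩
  · intro S hS
    by_contra hcon
    apply hσ.2
    simp only [Bad2, Finset.mem_filter, Finset.mem_univ, true_and]
    exact ⟨S, hS, by omega⟩

end Pool.Agent.H13.Peb
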