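import Pool.Agent.H13.PnDefs

set_option autoImplicit false
set_option maxHeartbeats 4000000

namespace Pool.Agent.H13.Pn

def mrg {C : Type} (p : C → ℕ) (a b : C) : C → ℕ := fun x => if p x = p b then p a else p x
def sg {C : Type} (p : C → ℕ) (a b : C) : ℤ := if p a = p b then 1 else -1

def Gs {C : Type} : List (C × C) → (C → ℕ) → ℤ
  | [], _ => 1
  | x :: L, p => sg p x.1 x.2 * Gs L (mrg p x.1 x.2)

lemma mrg_iff {C : Type} (p : C → ℕ) (r : C → C → Prop)
    (h : ∀ x y, p x = p y ↔ Relation.EqvGen r x y) (a b : C) (x y : C) :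
    mrg p a b x = mrg p a b y ↔ Relation.EqvGen (fun u v => r u v ∨ (u = a ∧ v = b)) x y := by
  set r' : C → C → Prop := fun u v => r u v ∨ (u = a ∧ v = b) with hr'
  have hmono : ∀ u v, Relation.EqvGen r u v → Relation.EqvGen r' u v := by
    intro u v huv
    induction huv with
    | rel u v huv => exact Relation.EqvGen.rel _ _ (Or.inl huv)
    | refl u => exact Relation.EqvGen.refl _
    | symm u v _ ih => exact ih.symm
    | trans u v w _ _ ih1 ih2 => exact ih1.trans _ _ _ ih2
  have hab : Relation.EqvGen r' a b := Relation.EqvGen.rel _ _ (Or.inr ⟨rfl, rfl⟩)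
  constructor
  · intro hxy
    unfold mrg at hxy
    by_cases h1 : p x = p b <;> by_cases h2 : p y = p b
    · exact hmono _ _ ((h x y).mp (h1.trans h2.symm))
    · rw [if_pos h1, if_neg h2] at hxy
      have e1 := hmono _ _ ((h x b).mp h1)
      have e2 := hmono _ _ ((h a y).mp hxy)
      exact e1.trans _ _ _ ((hab.symm _ _).trans _ _ _ e2)
    · rw [if_neg h1, if_pos h2] at hxy
      have e1 := hmono _ _ ((h x a).mp hxy)
      have e2 := hmono _ _ ((h b y).mp h2.symm)
      exact e1.trans _ _ _ (hab.trans _ _ _ e2)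
    · rw [if_neg h1, if_neg h2] at hxy
      exact hmono _ _ ((h x y).mp hxy)
  · intro hxy
    have key : ∀ u v, p u = p v → mrg p a b u = mrg p a b v := by
      intro u v huv
      unfold mrg
      rw [huv]
    induction hxy with
    | rel u v huv =>
      rcases huv with huv | ⟨rfl, rfl⟩
      · exact key _ _ ((h u v).mpr (Relation.EqvGen.rel _ _ huv))
      · unfold mrg
        rw [if_pos rfl]
        split_ifs <;> rfl
    | refl u => rfl
    | symm u v _ ih => exact ih.symm
    | trans u v w _ _ ih1 ih2 => exact ih1.trans ih2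

lemma card_mrg {C : Type} [Fintype C] [DecidableEq C] (p : C → ℕ) (a b : C) :
    (-1 : ℤ) ^ (Finset.univ.image (mrg p a b)).card =
      (-1 : ℤ) ^ (Finset.univ.image p).card * sg p a b := by
  by_cases hab : p a = p b
  · have : mrg p a b = p := by
      funext x
      unfold mrg
      split_ifs with h
      · rw [h, hab]
      · rfl
    rw [this]
    simp [sg, hab]
  · have : Finset.univ.image (mrg p a b) = (Finset.univ.image p).erase (p b) := by
      ext t
      simp only [Finset.mem_image, Finset.mem_univ, true_and, Finset.mem_erase]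
      constructor
      · rintro ⟨x, rfl⟩
        unfold mrg
        split_ifs with h
        · exact ⟨hab, a, rfl⟩
        · exact ⟨h, x, rfl⟩
      · rintro ⟨ht, x, rfl⟩
        exact ⟨x, by unfold mrg; rw [if_neg ht]⟩
    rw [this, Finset.card_erase_of_mem (Finset.mem_image_of_mem _ (Finset.mem_univ _))]
    have hpos : 0 < (Finset.univ.image p).card :=
      Finset.card_pos.mpr ⟨p b, Finset.mem_image_of_mem _ (Finset.mem_univ _)⟩
    obtain ⟨k, hk⟩ : ∃ k, (Finset.univ.image p).card = k + 1 := ⟨_, (Nat.succ_pred_eq_of_pos hpos).symm⟩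
    rw [hk]
    simp [sg, hab, pow_succ]

lemma card_quot {C : Type} [Fintype C] [DecidableEq C] (p : C → ℕ) (r : C → C → Prop)
    (h : ∀ x y, p x = p y ↔ Relation.EqvGen r x y) :
    Nat.card (Quot r) = (Finset.univ.image p).card := by
  have h1 : ∀ x y, r x y → (⟨p x, Finset.mem_image_of_mem _ (Finset.mem_univ _)⟩ :
      {t // t ∈ Finset.univ.image p}) = ⟨p y, Finset.mem_image_of_mem _ (Finset.mem_univ _)⟩ := by
    intro x y hxy
    exact Subtype.ext ((h x y).mpr (Relation.EqvGen.rel _ _ hxy))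
  rw [Nat.card_eq_of_bijective (Quot.lift (fun x => (⟨p x,
    Finset.mem_image_of_mem _ (Finset.mem_univ _)⟩ : {t // t ∈ Finset.univ.image p})) h1)]
  · rw [Nat.card_eq_fintype_card, Fintype.card_coe]
  · constructor
    · rintro ⟨x⟩ ⟨y⟩ hxy
      have : p x = p y := congrArg Subtype.val hxy
      exact Quot.eqvGen_sound ((h x y).mp this)
    · rintro ⟨t, ht⟩
      obtain ⟨x, _, rfl⟩ := Finset.mem_image.mp ht
      exact ⟨Quot.mk _ x, rfl⟩

lemma sign_classes {C : Type} [Fintype C] [DecidableEq C] (L : List (C × C)) :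
    ∀ (p : C → ℕ) (r : C → C → Prop), (∀ x y, p x = p y ↔ Relation.EqvGen r x y) →
    (-1 : ℤ) ^ Nat.card (Quot (fun u v => r u v ∨ (u, v) ∈ L)) =
      (-1 : ℤ) ^ (Finset.univ.image p).card * Gs L p := by
  induction L with
  | nil =>
    intro p r h
    simp only [List.not_mem_nil, or_false, Gs, mul_one]
    rw [← card_quot p r h]
  | cons ab L ih =>
    obtain ⟨a, b⟩ := ab
    intro p r h
    have h2 := ih (mrg p a b) (fun u v => r u v ∨ (u = a ∧ v = b)) (mrg_iff p r h a b)
    rw [card_mrg] at h2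
    have h3 : (fun u v => (r u v ∨ u = a ∧ v = b) ∨ (u, v) ∈ L) =
        (fun u v => r u v ∨ (u, v) ∈ (a, b) :: L) := by
      funext u v
      simp only [List.mem_cons, Prod.mk.injEq, or_assoc]
    rw [h3] at h2
    rw [h2]
    simp [Gs, mul_assoc]

/-- the quotient only depends on the generated equivalence -/
lemma card_quot_congr {C : Type} (r r' : C → C → Prop)
    (h1 : ∀ x y, r x y → r' x y ∨ r' y x) (h2 : ∀ x y, r' x y → r x y ∨ r y x) :
    Nat.card (Quot r) = Nat.card (Quot r') := by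
  have a1 : ∀ x y, r x y → Quot.mk r' x = Quot.mk r' y := by
    intro x y h
    rcases h1 x y h with h | h
    · exact Quot.sound h
    · exact (Quot.sound h).symm
  have a2 : ∀ x y, r' x y → Quot.mk r x = Quot.mk r y := by
    intro x y h
    rcases h2 x y h with h | h
    · exact Quot.sound h
    · exact (Quot.sound h).symm
  exact Nat.card_congr
    { toFun := Quot.lift (Quot.mk r') a1
      invFun := Quot.lift (Quot.mk r) a2
      left_inv := by rintro ⟨x⟩; rfl
      right_inv := by rintro ⟨x⟩; rfl }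

/-- coding of labels -/
lemma Gs_code {C : Type} (code : C → ℕ) (L : List (C × C)) :
    ∀ p : ℕ → ℕ, Gs L (fun x => p (code x)) = Gs (L.map (fun x => (code x.1, code x.2))) p := by
  induction L with
  | nil => intro p; rfl
  | cons a L ih =>
    intro p
    simp only [List.map_cons, Gs]
    rw [← ih]
    rfl

/-- edge data: the four corners d, pd, a, pa -/
structure ED where
  d : ℕ
  pd : ℕ
  a : ℕ
  pa : ℕ

def prs (e : ED) (b : Bool) : List (ℕ × ℕ) :=
  if b then [(e.d, e.a), (e.pd, e.pa)] else [(e.d, e.pa), (e.a, e.pd)]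

def Fs : List ED → (ℕ → ℕ) → ℤ
  | [], _ => 1
  | e :: es, p =>
      sg p e.d e.pa * (sg (mrg p e.d e.pa) e.a e.pd *
        Fs es (mrg (mrg p e.d e.pa) e.a e.pd)) -
      sg p e.d e.a * (sg (mrg p e.d e.a) e.pd e.pa *
        Fs es (mrg (mrg p e.d e.a) e.pd e.pa))

lemma sum_states (n : ℕ) : ∀ (e : Fin n → ED) (p : ℕ → ℕ),
    ∑ s : Fin n → Bool, (∏ i, if s i = true then (-1 : ℤ) else 1) *
      Gs (List.ofFn (fun i => prs (e i) (s i))).flatten p = Fs (List.ofFn e) p := by
  induction n with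
  | zero =>
    intro e p
    simp [Fs, Gs]
  | succ n ih =>
    intro e p
    rw [← Equiv.sum_comp (Fin.consEquiv (fun _ => Bool))]
    rw [Fintype.sum_prod_type]
    simp only [Fin.consEquiv, Equiv.coe_fn_mk, Fin.prod_univ_succ, Fin.cons_zero, Fin.cons_succ,
      List.ofFn_succ, List.flatten_cons, Fintype.sum_bool]
    simp only [prs, if_true, if_false, Bool.false_eq_true, List.cons_append, List.nil_append, Gs,
      Fs]
    have h1 := ih (fun i => e i.succ) (mrg (mrg p (e 0).d (e 0).a) (e 0).pd (e 0).pa)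
    have h2 := ih (fun i => e i.succ) (mrg (mrg p (e 0).d (e 0).pa) (e 0).a (e 0).pd)
    rw [← h1, ← h2]
    simp only [prs, Finset.mul_sum]
    rw [← Finset.sum_add_distrib, ← Finset.sum_sub_distrib]
    apply Finset.sum_congr rfl
    intro s _
    ring

lemma Fs_congr (es : List ED) : ∀ (p p' : ℕ → ℕ) (A : List ℕ)
    (_ : ∀ e ∈ es, e.d ∈ A ∧ e.pd ∈ A ∧ e.a ∈ A ∧ e.pa ∈ A)
    (_ : ∀ x ∈ A, ∀ y ∈ A, (p x = p y ↔ p' x = p' y)), Fs es p = Fs es p' := by
  have hm : ∀ (p p' : ℕ → ℕ) (A : List ℕ) (a b : ℕ), a ∈ A → b ∈ A →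
      (∀ x ∈ A, ∀ y ∈ A, (p x = p y ↔ p' x = p' y)) →
      (∀ x ∈ A, ∀ y ∈ A, (mrg p a b x = mrg p a b y ↔ mrg p' a b x = mrg p' a b y)) := by
    intro p p' A a b ha hb h x hx y hy
    unfold mrg
    have e1 := h x hx b hb
    have e2 := h y hy b hb
    have e3 := h x hx y hy
    have e4 := h a ha y hy
    have e5 := h x hx a ha
    by_cases h1 : p x = p b
    · have h1' := e1.mp h1
      rw [if_pos h1, if_pos h1']
      by_cases h2 : p y = p b
      · rw [if_pos h2, if_pos (e2.mp h2)]
        simp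
      · rw [if_neg h2, if_neg (fun hh => h2 (e2.mpr hh))]
        exact e4
    · rw [if_neg h1, if_neg (fun hh => h1 (e1.mpr hh))]
      by_cases h2 : p y = p b
      · rw [if_pos h2, if_pos (e2.mp h2)]
        exact e5
      · rw [if_neg h2, if_neg (fun hh => h2 (e2.mpr hh))]
        exact e3
  have hs : ∀ (p p' : ℕ → ℕ) (A : List ℕ) (a b : ℕ), a ∈ A → b ∈ A →
      (∀ x ∈ A, ∀ y ∈ A, (p x = p y ↔ p' x = p' y)) → sg p a b = sg p' a b := by
    intro p p' A a b ha hb h
    unfold sg
    have e := h a ha b hb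
    by_cases h1 : p a = p b
    · rw [if_pos h1, if_pos (e.mp h1)]
    · rw [if_neg h1, if_neg (fun hh => h1 (e.mpr hh))]
  induction es with
  | nil => intro p p' A _ _; rfl
  | cons e es ih =>
    intro p p' A hA h
    obtain ⟨m1, m2, m3, m4⟩ := hA e List.mem_cons_self
    have hA' : ∀ e ∈ es, e.d ∈ A ∧ e.pd ∈ A ∧ e.a ∈ A ∧ e.pa ∈ A :=
      fun e' he' => hA e' (List.mem_cons_of_mem _ he')
    simp only [Fs]
    rw [hs p p' A e.d e.pa m1 m4 h, hs p p' A e.d e.a m1 m3 h]
    have k1 := hm p p' A e.d e.pa m1 m4 h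
    have k2 := hm p p' A e.d e.a m1 m3 h
    rw [hs _ _ A e.a e.pd m3 m2 k1, hs _ _ A e.pd e.pa m2 m4 k2]
    rw [ih _ _ A hA' (hm _ _ A e.a e.pd m3 m2 k1), ih _ _ A hA' (hm _ _ A e.pd e.pa m2 m4 k2)]

end Pool.Agent.H13.Pn
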