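import Pool.Agent.H13.PnA

set_option autoImplicit false
set_option maxHeartbeats 4000000

namespace Pool.Agent.H13.Pn

def getN : List ℕ → ℕ → ℕ
  | [], _ => 0
  | h :: _, 0 => h
  | _ :: t, n + 1 => getN t n

def idx (x : ℕ) : List ℕ → ℕ
  | [] => 0
  | h :: t => bif Nat.beq h x then 0 else idx x t + 1

def lk (A q : List ℕ) (x : ℕ) : ℕ := getN q (idx x A)

def rl (u v : ℕ) : List ℕ → List ℕ
  | [] => []
  | h :: t => (bif Nat.beq h v then u else h) :: rl u v t

def mrgL (A q : List ℕ) (a b : ℕ) : List ℕ := rl (lk A q a) (lk A q b) q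

def can (l : List ℕ) : List ℕ := l.map (fun t => idx t l)

def brq (A A' : List ℕ) (a b c d : ℕ) (q : List ℕ) : List ℕ :=
  can (A'.map (lk A (mrgL A (mrgL A q a b) c d)))

def sgb (u v : ℕ) : ℤ := bif Nat.beq u v then 1 else -1

def brs (A : List ℕ) (a b c d : ℕ) (q : List ℕ) : ℤ :=
  sgb (lk A q a) (lk A q b) * sgb (lk A (mrgL A q a b) c) (lk A (mrgL A q a b) d)

def leq : List ℕ → List ℕ → Bool
  | [], [] => true
  | [], _ :: _ => false
  | _ :: _, [] => false
  | h :: t, h' :: t' => bif Nat.beq h h' then leq t t' else false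

def enc : List ℕ → ℕ
  | [] => 0
  | h :: t => h + 64 * enc t

def ins (k : ℕ) (q : List ℕ) (w : ℤ) : List (ℕ × List ℕ × ℤ) → List (ℕ × List ℕ × ℤ)
  | [] => [(k, q, w)]
  | (k', q', w') :: t =>
    bif (bif Nat.beq k k' then leq q q' else false) then (k', q', w' + w) :: t
    else (k', q', w') :: ins k q w t

def stp (A A' : List ℕ) (e : ED) : List (ℕ × List ℕ × ℤ) → List (ℕ × List ℕ × ℤ)
  | [] => []
  | (_, q, w) :: t =>
    ins (enc (brq A A' e.d e.pa e.a e.pd q)) (brq A A' e.d e.pa e.a e.pd q)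
      (brs A e.d e.pa e.a e.pd q * w)
      (ins (enc (brq A A' e.d e.a e.pd e.pa q)) (brq A A' e.d e.a e.pd e.pa q)
        (-(brs A e.d e.a e.pd e.pa q * w)) (stp A A' e t))

def used : List ED → ℕ → Bool
  | [], _ => false
  | e :: es, x => Nat.beq e.d x || (Nat.beq e.pd x || (Nat.beq e.a x || (Nat.beq e.pa x || used es x)))

def flt (f : ℕ → Bool) : List ℕ → List ℕ
  | [] => []
  | h :: t => bif f h then h :: flt f t else flt f t

def sumw : List (ℕ × List ℕ × ℤ) → ℤ
  | [] => 0
  | (_, _, w) :: t => w + sumw t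

def run : List ED → List ℕ → List (ℕ × List ℕ × ℤ) → ℤ
  | [], _, W => sumw W
  | e :: es, A, W => run es (flt (used es) A) (stp A (flt (used es) A) e W)

def vl (es : List ED) (A : List ℕ) : List (ℕ × List ℕ × ℤ) → ℤ
  | [] => 0
  | (_, q, w) :: t => w * Fs es (lk A q) + vl es A t

lemma beq_t {u v : ℕ} (h : u = v) : Nat.beq u v = true := by
  subst h; exact Nat.beq_refl _

lemma idx_lt (x : ℕ) : ∀ A : List ℕ, x ∈ A → idx x A < A.length
  | [], h => by simp at h
  | a :: A, h => by
    unfold idx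
    by_cases hb : a = x
    · simp [hb]
    · have : Nat.beq a x = false := by
        cases hh : Nat.beq a x
        · rfl
        · exact absurd (Nat.eq_of_beq_eq_true hh) hb
      rw [this]
      have hx : x ∈ A := by
        rcases List.mem_cons.mp h with h | h
        · exact absurd h.symm hb
        · exact h
      have := idx_lt x A hx
      simp only [cond_false, List.length_cons]
      omega

lemma getN_map (f : ℕ → ℕ) : ∀ (q : List ℕ) (n : ℕ), n < q.length → getN (q.map f) n = f (getN q n)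
  | [], n, h => by simp at h
  | a :: q, 0, _ => rfl
  | a :: q, n + 1, h => by
    simp only [List.map_cons, getN]
    exact getN_map f q n (by simpa using h)

lemma rl_eq (u v : ℕ) : ∀ q : List ℕ, rl u v q = q.map (fun t => if t = v then u else t)
  | [] => rfl
  | a :: q => by
    simp only [rl, List.map_cons, rl_eq u v q]
    congr 1
    by_cases h : a = v
    · have : Nat.beq a v = true := beq_t h
      simp [this, h]
    · have : Nat.beq a v = false := by
        cases hh : Nat.beq a v
        · rfl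
        · exact absurd (Nat.eq_of_beq_eq_true hh) h
      simp [this, h]

lemma getN_idx (h : ℕ → ℕ) (x : ℕ) : ∀ A : List ℕ, x ∈ A → getN (A.map h) (idx x A) = h x
  | [], hx => by simp at hx
  | a :: A, hx => by
    unfold idx
    by_cases hb : a = x
    · have : Nat.beq a x = true := beq_t hb
      rw [this]
      simp [getN, hb]
    · have : Nat.beq a x = false := by
        cases hh : Nat.beq a x
        · rfl
        · exact absurd (Nat.eq_of_beq_eq_true hh) hb
      rw [this]
      have hx' : x ∈ A := by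
        rcases List.mem_cons.mp hx with h | h
        · exact absurd h.symm hb
        · exact h
      simp only [List.map_cons, cond_false, getN]
      exact getN_idx h x A hx'

lemma idx_inj (A : List ℕ) : ∀ x ∈ A, ∀ y ∈ A, idx x A = idx y A → x = y := by
  intro x hx y hy h
  have h1 := getN_idx id x A hx
  have h2 := getN_idx id y A hy
  rw [h] at h1
  exact h1.symm.trans h2

lemma lk_map (A q : List ℕ) (hq : q.length = A.length) (f : ℕ → ℕ) (x : ℕ) (hx : x ∈ A) :
    lk A (q.map f) x = f (lk A q x) :=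
  getN_map f q _ (hq ▸ idx_lt x A hx)

lemma lk_mrgL (A q : List ℕ) (hq : q.length = A.length) (a b x : ℕ) (hx : x ∈ A) :
    lk A (mrgL A q a b) x = mrg (lk A q) a b x := by
  unfold mrgL
  rw [rl_eq, lk_map A q hq _ x hx]
  rfl

lemma mrgL_len (A q : List ℕ) (a b : ℕ) : (mrgL A q a b).length = q.length := by
  unfold mrgL
  rw [rl_eq, List.length_map]

lemma lk2 (A q : List ℕ) (hq : q.length = A.length) (a b c d x : ℕ)
    (hc : c ∈ A) (hd : d ∈ A) (hx : x ∈ A) :
    lk A (mrgL A (mrgL A q a b) c d) x = mrg (mrg (lk A q) a b) c d x := by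
  rw [lk_mrgL A _ ((mrgL_len A q a b).trans hq) c d x hx]
  unfold mrg
  rw [lk_mrgL A q hq a b x hx, lk_mrgL A q hq a b c hc, lk_mrgL A q hq a b d hd]
  rfl

lemma brq_len (A A' : List ℕ) (a b c d : ℕ) (q : List ℕ) :
    (brq A A' a b c d q).length = A'.length := by
  simp [brq, can]

lemma brq_iff (A A' : List ℕ) (hA : ∀ x ∈ A', x ∈ A) (a b c d : ℕ) (q : List ℕ)
    (hq : q.length = A.length) (hc : c ∈ A) (hd : d ∈ A) :
    ∀ x ∈ A', ∀ y ∈ A', (lk A' (brq A A' a b c d q) x = lk A' (brq A A' a b c d q) y ↔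
      mrg (mrg (lk A q) a b) c d x = mrg (mrg (lk A q) a b) c d y) := by
  intro x hx y hy
  have h1 : brq A A' a b c d q = A'.map (fun x => idx (lk A (mrgL A (mrgL A q a b) c d) x)
      (A'.map (lk A (mrgL A (mrgL A q a b) c d)))) := by
    simp [brq, can]
  rw [h1]
  unfold lk
  rw [getN_idx _ x A' hx, getN_idx _ y A' hy]
  have e1 := lk2 A q hq a b c d x hc hd (hA x hx)
  have e2 := lk2 A q hq a b c d y hc hd (hA y hy)
  unfold lk at e1 e2
  constructor
  · intro h
    have := idx_inj (A'.map (fun x => getN (mrgL A (mrgL A q a b) c d) (idx x A)))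
      _ (List.mem_map_of_mem hx) _ (List.mem_map_of_mem hy) h
    rw [← e1, ← e2]
    exact this
  · intro h
    rw [← e1, ← e2] at h
    rw [h]

lemma sgb_eq (u v : ℕ) : sgb u v = if u = v then 1 else -1 := by
  unfold sgb
  by_cases h : u = v
  · have : Nat.beq u v = true := beq_t h
    simp [this, h]
  · have : Nat.beq u v = false := by
      cases hh : Nat.beq u v
      · rfl
      · exact absurd (Nat.eq_of_beq_eq_true hh) h
    simp [this, h]

lemma brs_eq (A : List ℕ) (a b c d : ℕ) (q : List ℕ)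
    (hq : q.length = A.length) (hc : c ∈ A) (hd : d ∈ A) :
    brs A a b c d q = sg (lk A q) a b * sg (mrg (lk A q) a b) c d := by
  unfold brs sg
  rw [sgb_eq, sgb_eq, lk_mrgL A q hq a b c hc, lk_mrgL A q hq a b d hd]

lemma leq_sound : ∀ q q' : List ℕ, leq q q' = true → q = q'
  | [], [], _ => rfl
  | [], _ :: _, h => by simp [leq] at h
  | _ :: _, [], h => by simp [leq] at h
  | a :: q, a' :: q', h => by
    unfold leq at h
    cases hh : Nat.beq a a'
    · rw [hh] at h; simp at h
    · rw [hh] at h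
      rw [Nat.eq_of_beq_eq_true hh, leq_sound q q' h]

lemma vl_ins (es : List ED) (A : List ℕ) (k : ℕ) (q : List ℕ) (w : ℤ) :
    ∀ W, vl es A (ins k q w W) = w * Fs es (lk A q) + vl es A W
  | [] => rfl
  | (k', q', w') :: t => by
    unfold ins
    cases hb : (bif Nat.beq k k' then leq q q' else false)
    · simp only [cond_false, vl]
      rw [vl_ins es A k q w t]
      ring
    · simp only [cond_true, vl]
      have : leq q q' = true := by
        cases hh : Nat.beq k k'
        · rw [hh] at hb; simp at hb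
        · rw [hh] at hb; exact hb
      rw [leq_sound q q' this]
      ring

lemma len_ins (A : List ℕ) (k : ℕ) (q : List ℕ) (w : ℤ) (hq : q.length = A.length) :
    ∀ W : List (ℕ × List ℕ × ℤ), (∀ x ∈ W, x.2.1.length = A.length) →
      ∀ x ∈ ins k q w W, x.2.1.length = A.length
  | [], _, x, hx => by
    simp only [ins, List.mem_singleton] at hx
    rw [hx]; exact hq
  | (k', q', w') :: t, h, x, hx => by
    unfold ins at hx
    have h1 := h _ List.mem_cons_self
    have h2 : ∀ x ∈ t, x.2.1.length = A.length := fun x hx => h x (List.mem_cons_of_mem _ hx)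
    cases hb : (bif Nat.beq k k' then leq q q' else false)
    · rw [hb] at hx
      simp only [cond_false, List.mem_cons] at hx
      rcases hx with rfl | hx
      · exact h1
      · exact len_ins A k q w hq t h2 x hx
    · rw [hb] at hx
      simp only [cond_true, List.mem_cons] at hx
      rcases hx with rfl | hx
      · exact h1
      · exact h2 x hx

lemma stp_ok (es : List ED) (A A' : List ℕ) (hA : ∀ x ∈ A', x ∈ A) (e : ED)
    (he : e.d ∈ A ∧ e.pd ∈ A ∧ e.a ∈ A ∧ e.pa ∈ A)
    (hes : ∀ e ∈ es, e.d ∈ A' ∧ e.pd ∈ A' ∧ e.a ∈ A' ∧ e.pa ∈ A') :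
    ∀ W : List (ℕ × List ℕ × ℤ), (∀ x ∈ W, x.2.1.length = A.length) →
      vl es A' (stp A A' e W) = vl (e :: es) A W ∧
        ∀ x ∈ stp A A' e W, x.2.1.length = A'.length
  | [], _ => ⟨rfl, by simp [stp]⟩
  | (k, q, w) :: t, h => by
    have h1 : q.length = A.length := h _ List.mem_cons_self
    have h2 : ∀ x ∈ t, x.2.1.length = A.length := fun x hx => h x (List.mem_cons_of_mem _ hx)
    obtain ⟨i1, i2⟩ := stp_ok es A A' hA e he hes t h2
    obtain ⟨m1, m2, m3, m4⟩ := he
    constructor
    · unfold stp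
      rw [vl_ins, vl_ins, i1]
      simp only [vl, Fs]
      rw [Fs_congr es _ _ A' hes (brq_iff A A' hA e.d e.pa e.a e.pd q h1 m3 m2),
        Fs_congr es _ _ A' hes (brq_iff A A' hA e.d e.a e.pd e.pa q h1 m2 m4),
        brs_eq A e.d e.pa e.a e.pd q h1 m3 m2, brs_eq A e.d e.a e.pd e.pa q h1 m2 m4]
      ring
    · unfold stp
      exact len_ins A' _ _ _ (brq_len _ _ _ _ _ _ _) _
        (len_ins A' _ _ _ (brq_len _ _ _ _ _ _ _) _ i2)

lemma flt_mem (f : ℕ → Bool) : ∀ A : List ℕ, ∀ x, x ∈ flt f A ↔ x ∈ A ∧ f x = true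
  | [], x => by simp [flt]
  | a :: A, x => by
    unfold flt
    have ih := flt_mem f A x
    cases hf : f a
    · simp only [cond_false, ih, List.mem_cons]
      constructor
      · rintro ⟨h1, h2⟩; exact ⟨Or.inr h1, h2⟩
      · rintro ⟨h1 | h1, h2⟩
        · rw [h1, hf] at h2; simp at h2
        · exact ⟨h1, h2⟩
    · simp only [cond_true, ih, List.mem_cons]
      constructor
      · rintro (h1 | ⟨h1, h2⟩)
        · exact ⟨Or.inl h1, h1 ▸ hf⟩
        · exact ⟨Or.inr h1, h2⟩
      · rintro ⟨h1 | h1, h2⟩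
        · exact Or.inl h1
        · exact Or.inr ⟨h1, h2⟩

lemma used_ok : ∀ es : List ED, ∀ e ∈ es, used es e.d = true ∧ used es e.pd = true ∧
    used es e.a = true ∧ used es e.pa = true
  | [], e, he => by simp at he
  | e' :: es, e, he => by
    rcases List.mem_cons.mp he with rfl | he
    · simp [used, Nat.beq_refl]
    · obtain ⟨h1, h2, h3, h4⟩ := used_ok es e he
      simp [used, h1, h2, h3, h4]

lemma run_eq : ∀ (es : List ED) (A : List ℕ) (W : List (ℕ × List ℕ × ℤ)),
    (∀ e ∈ es, e.d ∈ A ∧ e.pd ∈ A ∧ e.a ∈ A ∧ e.pa ∈ A) →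
    (∀ x ∈ W, x.2.1.length = A.length) → run es A W = vl es A W
  | [], A, W, _, _ => by
    unfold run
    have : ∀ W : List (ℕ × List ℕ × ℤ), sumw W = vl [] A W := by
      intro W
      induction W with
      | nil => rfl
      | cons x t ih =>
        obtain ⟨k, q, w⟩ := x
        simp only [sumw, vl, Fs, mul_one, ih]
    exact this W
  | e :: es, A, W, h1, h2 => by
    unfold run
    have hes : ∀ e ∈ es, e.d ∈ flt (used es) A ∧ e.pd ∈ flt (used es) A ∧
        e.a ∈ flt (used es) A ∧ e.pa ∈ flt (used es) A := by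
      intro e' he'
      obtain ⟨u1, u2, u3, u4⟩ := used_ok es e' he'
      obtain ⟨m1, m2, m3, m4⟩ := h1 e' (List.mem_cons_of_mem _ he')
      exact ⟨(flt_mem _ _ _).mpr ⟨m1, u1⟩, (flt_mem _ _ _).mpr ⟨m2, u2⟩,
        (flt_mem _ _ _).mpr ⟨m3, u3⟩, (flt_mem _ _ _).mpr ⟨m4, u4⟩⟩
    obtain ⟨s1, s2⟩ := stp_ok es A (flt (used es) A)
      (fun x hx => ((flt_mem _ _ _).mp hx).1) e (h1 e List.mem_cons_self) hes W h2
    rw [run_eq es _ _ hes s2, s1]

end Pool.Agent.H13.Pn
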