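import Pool.Agent.H13.PnDefs

set_option autoImplicit false
set_option maxHeartbeats 4000000

namespace Pool.Agent.H13.Pn

def sT : List ℕ := [19, 3, 11, 5, 7, 1, 9, 15, 2, 17, 13, 8, 0, 20, 25, 4, 30, 6, 22, 12, 10, 41,
  26, 14, 33, 23, 18, 28, 39, 24, 35, 21, 34, 29, 36, 16, 32, 40, 37, 27, 38, 31]
def siT : List ℕ := [12, 5, 8, 1, 15, 3, 17, 4, 11, 6, 20, 2, 19, 10, 23, 7, 35, 9, 26, 0, 13, 31,
  18, 25, 29, 14, 22, 39, 27, 33, 16, 41, 36, 24, 32, 30, 34, 38, 40, 28, 37, 21]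

/-- the number of a dart -/
def code (d : Fin 21 × Bool) : ℕ := 2 * d.1.val + d.2.toNat
/-- the dart of a number -/
def dec (n : ℕ) : Fin 21 × Bool := (Fin.ofNat 21 (n / 2), n % 2 == 1)

/-- the rotation of the counterexample -/
def rot : Equiv.Perm (Fin 21 × Bool) where
  toFun d := dec (sT.getD (code d) 0)
  invFun d := dec (siT.getD (code d) 0)
  left_inv := by decide +kernel
  right_inv := by decide +kernel

lemma card_cycles {D : Type} (π : Equiv.Perm D) (k : ℕ) (ix : D → Fin k) (base : Fin k → D)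
    (r : D → ℕ) (h1 : ∀ x, ix (π x) = ix x) (h2 : ∀ x, (π ^ r x) (base (ix x)) = x)
    (h3 : ∀ i, ix (base i) = i) :
    Nat.card (Quotient (Equiv.Perm.SameCycle.setoid π)) = k := by
  have hz : ∀ (n : ℕ) x, ix ((π ^ n) x) = ix x := by
    intro n
    induction n with
    | zero => intro x; rfl
    | succ n ih => intro x; rw [pow_succ', Equiv.Perm.mul_apply, h1, ih]
  have hs : ∀ x y, π.SameCycle x y → ix x = ix y := by
    rintro x y ⟨i, hi⟩
    rcases Int.eq_nat_or_neg i with ⟨n, rfl | rfl⟩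
    · rw [← hi, zpow_natCast, hz]
    · rw [← hi]
      have := hz n ((π ^ (-(n : ℤ))) x)
      rw [← this, ← Equiv.Perm.mul_apply, ← zpow_natCast, ← zpow_add]
      simp
  have hq : ∀ x y, (Equiv.Perm.SameCycle.setoid π).r x y → ix x = ix y := hs
  rw [Nat.card_eq_of_bijective (Quotient.lift ix hq), Nat.card_fin]
  constructor
  · rintro ⟨x⟩ ⟨y⟩ hxy
    have hxy' : ix x = ix y := hxy
    apply Quotient.sound
    show π.SameCycle x y
    have e1 : π.SameCycle (base (ix x)) x := ⟨r x, by rw [zpow_natCast]; exact h2 x⟩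
    have e2 : π.SameCycle (base (ix y)) y := ⟨r y, by rw [zpow_natCast]; exact h2 y⟩
    rw [← hxy'] at e2
    exact e1.symm.trans e2
  · intro i
    exact ⟨Quotient.mk _ (base i), h3 i⟩

def vidx : List ℕ := [0, 1, 2, 1, 3, 1, 4, 3, 2, 4, 5, 2, 0, 5, 6, 3, 7, 4, 8, 0, 5, 9, 8, 6, 10, 6,
  8, 11, 11, 10, 7, 9, 12, 10, 12, 7, 12, 13, 13, 11, 13, 9]
def vbase : List ℕ := [0, 1, 2, 4, 6, 10, 14, 16, 18, 21, 24, 27, 32, 37]
def vr : List ℕ := [0, 0, 0, 1, 0, 2, 0, 1, 2, 1, 0, 1, 2, 1, 0, 2, 0, 2, 0, 1, 2, 0, 1, 2, 0, 1, 2,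
  0, 1, 2, 1, 2, 0, 1, 1, 2, 2, 0, 2, 2, 1, 1]
def fidx : List ℕ := [0, 1, 1, 2, 2, 0, 2, 3, 2, 4, 1, 4, 1, 5, 3, 0, 4, 3, 0, 5, 4, 5, 6, 0, 3, 6,
  5, 6, 7, 6, 8, 4, 3, 7, 8, 3, 7, 8, 7, 5, 5, 8]
def fbase : List ℕ := [0, 1, 3, 7, 9, 13, 22, 28, 30]
def fr : List ℕ := [0, 0, 3, 0, 3, 1, 2, 0, 1, 0, 2, 1, 1, 0, 5, 2, 4, 1, 4, 1, 2, 5, 0, 3, 4, 1, 2,
  3, 0, 2, 0, 3, 3, 1, 3, 2, 2, 2, 3, 3, 4, 1]
def rk : List ℕ := [0, 1, 3, 2, 4, 3, 6, 5, 5, 6, 5, 4, 2, 3, 5, 6, 8, 7, 2, 1, 4, 5, 3, 4, 7, 6, 4,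
  5, 6, 7, 8, 7, 9, 8, 10, 9, 10, 9, 8, 7, 7, 6]
def par : List ℕ := [0, 0, 3, 1, 5, 3, 7, 4, 11, 8, 20, 2, 19, 12, 23, 14, 17, 9, 19, 0, 13, 20,
  18, 22, 25, 14, 22, 26, 27, 28, 31, 41, 33, 24, 35, 30, 37, 38, 40, 28, 41, 21]

lemma card_V : Nat.card (Quotient (Equiv.Perm.SameCycle.setoid rot)) = 14 :=
  card_cycles rot 14 (fun d => Fin.ofNat 14 (vidx.getD (code d) 0))
    (fun i => dec (vbase.getD i.val 0)) (fun d => vr.getD (code d) 0)
    (by decide +kernel) (by decide +kernel) (by decide +kernel)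

lemma card_F : Nat.card (Quotient (Equiv.Perm.SameCycle.setoid (rot⁻¹ * rev))) = 9 :=
  card_cycles (rot⁻¹ * rev) 9 (fun d => Fin.ofNat 9 (fidx.getD (code d) 0))
    (fun i => dec (fbase.getD i.val 0)) (fun d => fr.getD (code d) 0)
    (by decide +kernel) (by decide +kernel) (by decide +kernel)

lemma conn : ∀ d d' : Fin 21 × Bool,
    Relation.EqvGen (fun x y => y = rot x ∨ y = rev x) d d' := by
  have h1 : ∀ d : Fin 21 × Bool, d = (0, false) ∨
      (rk.getD (code (dec (par.getD (code d) 0))) 0 < rk.getD (code d) 0 ∧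
        (d = rot (dec (par.getD (code d) 0)) ∨ d = rev (dec (par.getD (code d) 0)))) := by
    decide +kernel
  have h2 : ∀ (n : ℕ) (d : Fin 21 × Bool), rk.getD (code d) 0 ≤ n →
      Relation.EqvGen (fun x y => y = rot x ∨ y = rev x) (0, false) d := by
    intro n
    induction n with
    | zero =>
      intro d hd
      rcases h1 d with h | ⟨h, _⟩
      · rw [h]; exact Relation.EqvGen.refl _
      · omega
    | succ n ih =>
      intro d hd
      rcases h1 d with h | ⟨h, h'⟩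
      · rw [h]; exact Relation.EqvGen.refl _
      · exact (ih _ (by omega)).trans _ _ _ (Relation.EqvGen.rel _ _ h')
  intro d d'
  exact ((h2 _ d le_rfl).symm _ _).trans _ _ _ (h2 _ d' le_rfl)

/-- the counterexample -/
def Gr : PlaneCubic (Fin 21) where
  σ := rot
  cubic := by decide +kernel
  connected := conn
  planar := by rw [card_V, card_F]; rfl

lemma same_iff (x y : Fin 21 × Bool) : Gr.σ.SameCycle x y ↔
    y = x ∨ y = Gr.σ x ∨ y = Gr.σ (Gr.σ x) := by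
  constructor
  · rintro ⟨i, hi⟩
    have h3 : Gr.σ ^ 3 = 1 := by
      ext1 d
      simp only [pow_succ, pow_zero, one_mul, Equiv.Perm.mul_apply, Equiv.Perm.one_apply]
      exact (Gr.cubic d).2
    have h4 : Gr.σ ^ i = Gr.σ ^ (i % 3) := by
      conv_lhs => rw [← Int.mul_ediv_add_emod i 3]
      rw [zpow_add, zpow_mul]
      have : Gr.σ ^ (3 : ℤ) = 1 := by
        have := h3
        rw [← zpow_natCast] at this
        exact this
      rw [this, one_zpow, one_mul]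
    rw [h4] at hi
    have h5 : 0 ≤ i % 3 := Int.emod_nonneg _ (by norm_num)
    have h6 : i % 3 < 3 := Int.emod_lt_of_pos _ (by norm_num)
    have h7 : i % 3 = 0 ∨ i % 3 = 1 ∨ i % 3 = 2 := by omega
    rcases h7 with h | h | h
    · rw [h] at hi
      left; simpa using hi.symm
    · rw [h] at hi
      right; left; simpa using hi.symm
    · rw [h] at hi
      right; right
      rw [← hi]
      have : Gr.σ ^ (2 : ℤ) = Gr.σ * Gr.σ := by
        rw [show (2 : ℤ) = 1 + 1 by norm_num, zpow_add, zpow_one]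
      rw [this]; rfl
  · rintro (h | h | h)
    · rw [h]
    · rw [h]; exact ⟨1, by simp⟩
    · rw [h]; exact ⟨2, by
        rw [show (2 : ℤ) = 1 + 1 by norm_num, zpow_add, zpow_one]; rfl⟩

lemma simple : Gr.Simple := by
  constructor
  · intro d
    rw [same_iff]
    revert d
    decide +kernel
  · intro d d' h1 h2 h3
    rw [same_iff] at h2 h3
    revert d d'
    decide +kernel

end Pool.Agent.H13.Pn
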