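import Mathlib

set_option autoImplicit false

namespace Pool.Agent.H13.Pn

/-- The reversal of darts. A graph with edge set `E` has the dart (half-edge) set `E × Bool`: the
edge `e` consists of the two darts `(e, false)` and `(e, true)`, which the reversal exchanges. -/
def rev {E : Type} : Equiv.Perm (E × Bool) where
  toFun d := (d.1, !d.2)
  invFun d := (d.1, !d.2)
  left_inv d := by simp
  right_inv d := by simp

/-- A finite connected plane graph in which every vertex has degree 3, with edge set `E`, loops and
multiple edges allowed, given as a rotation system of genus 0.  A dart `d` is thought of as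
pointing away from its vertex, and `σ d` is the next dart counterclockwise around the same vertex.
The vertices are the cycles of `σ`, and `cubic` says that all of these have length exactly 3;
`connected` says that any two darts are joined by a chain of steps `σ` and `rev`, used in either
direction; the faces are the cycles of `d ↦ σ⁻¹ (rev d)` (the face to the left of `d`), and
`planar` is Euler's formula `|V| + |F| = |E| + 2`. -/
structure PlaneCubic (E : Type) [Fintype E] where
  /-- the rotation -/
  σ : Equiv.Perm (E × Bool)
  /-- every cycle of `σ` has length 3 -/
  cubic : ∀ d, σ d ≠ d ∧ σ (σ (σ d)) = d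
  /-- connectedness -/
  connected : ∀ d d', Relation.EqvGen (fun x y => y = σ x ∨ y = rev x) d d'
  /-- Euler's formula -/
  planar : Nat.card (Quotient (Equiv.Perm.SameCycle.setoid σ)) +
    Nat.card (Quotient (Equiv.Perm.SameCycle.setoid (σ⁻¹ * rev))) = Fintype.card E + 2

variable {E : Type} [Fintype E]

/-- `e` is an edge from the vertex of the dart `d` -/
def PlaneCubic.Ends (M : PlaneCubic E) (e : E) (d : E × Bool) : Prop :=
  ∃ b : Bool, M.σ.SameCycle (e, b) d

/-- The edges `e` and `e'` share an endpoint. -/
def PlaneCubic.Share (M : PlaneCubic E) (e e' : E) : Prop :=
  ∃ b b' : Bool, M.σ.SameCycle (e, b) (e', b')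

/-- A 3-edge-colouring: any two (distinct) edges that share an endpoint get distinct colours. -/
def PlaneCubic.IsEdgeColouring (M : PlaneCubic E) (f : E → Fin 3) : Prop :=
  ∀ e e' : E, e ≠ e' → M.Share e e' → f e ≠ f e'

/-- The number `F_G(4)` of 3-edge-colourings. -/
noncomputable def PlaneCubic.numEdgeColourings (M : PlaneCubic E) : ℕ :=
  Nat.card {f : E → Fin 3 // M.IsEdgeColouring f}

/-- No loops and no two parallel edges: the two darts of an edge are at different vertices, and
two different edges do not have the same two end vertices. -/
def PlaneCubic.Simple (M : PlaneCubic E) : Prop :=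
  (∀ d : E × Bool, ¬ M.σ.SameCycle d (rev d)) ∧
  ∀ d d' : E × Bool, d.1 ≠ d'.1 → M.σ.SameCycle d d' → ¬ M.σ.SameCycle (rev d) (rev d')

/-- The edges of the medial graph are the corners of the plane graph.  The dart `d` stands for the
corner between `d` and `σ d`; this medial edge joins the medial vertex on the edge of `d` to the
medial vertex on the edge of `σ d`.  So the four medial half-edges at the medial vertex on the edge
`{d, rev d}` belong to the corners `d`, `σ⁻¹ d` (at one end, left and right of `d`) and `rev d`,
`σ⁻¹ (rev d)` (at the other end, right and left of `d`).
`s` is a Penrose state: `s e = false` means white and `s e = true` means crossing at the medial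
vertex on `e`.  `Joined M s c c'` says that the state `s` pairs the medial edges `c` and `c'` at
some medial vertex: a white choice pairs the two corners on the left of `d` (and, by using
`rev d` for `d`, those on its right); a crossing choice pairs opposite half-edges. -/
inductive PlaneCubic.Joined (M : PlaneCubic E) (s : E → Bool) : E × Bool → E × Bool → Prop
  | white (d : E × Bool) (h : s d.1 = false) : Joined M s d (M.σ⁻¹ (rev d))
  | crossL (d : E × Bool) (h : s d.1 = true) : Joined M s d (rev d)
  | crossR (d : E × Bool) (h : s d.1 = true) : Joined M s (M.σ⁻¹ d) (M.σ⁻¹ (rev d))

/-- `c(s)`, the number of closed curves of the state `s`: the number of classes of medial edges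
under the equivalence relation generated by the pairing. -/
noncomputable def PlaneCubic.curves (M : PlaneCubic E) (s : E → Bool) : ℕ :=
  Nat.card (Quot (M.Joined s))

/-- `cr(s)`, the number of crossings of the state `s`. -/
def crossings (s : E → Bool) : ℕ := (Finset.univ.filter (fun e => s e = true)).card

/-- The Penrose polynomial. -/
noncomputable def PlaneCubic.penrose [DecidableEq E] (M : PlaneCubic E) : Polynomial ℤ :=
  ∑ s : E → Bool, (-1) ^ crossings s * Polynomial.X ^ M.curves s

end Pool.Agent.H13.Pn
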