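import Pool.Agent.H13.PnD

set_option autoImplicit false
set_option maxHeartbeats 4000000

namespace Pool.Agent.H13.Pn

def ok : List ℕ → List ℕ → ℕ → Bool
  | [], _, _ => true
  | o :: os, pre, c => bif Nat.beq (pre.getD o 3) c then false else ok os pre c

lemma ok_iff (pre : List ℕ) (c : ℕ) : ∀ os : List ℕ, ok os pre c = true ↔ ∀ o ∈ os, pre.getD o 3 ≠ c
  | [] => by simp [ok]
  | o :: os => by
    unfold ok
    have ih := ok_iff pre c os
    cases hb : Nat.beq (pre.getD o 3) c
    · have hne : pre.getD o 3 ≠ c := by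
        intro h
        rw [h, Nat.beq_refl] at hb
        simp at hb
      simp only [cond_false, ih, List.mem_cons, forall_eq_or_imp]
      exact ⟨fun h => ⟨hne, h⟩, fun h => h.2⟩
    · have he := Nat.eq_of_beq_eq_true hb
      simp only [cond_true, List.mem_cons, forall_eq_or_imp]
      constructor
      · intro h; simp at h
      · intro h; exact absurd he h.1

def cnt : List (List ℕ) → List ℕ → ℕ
  | [], _ => 1
  | o :: os, pre => (bif ok o pre 0 then cnt os (0 :: pre) else 0) +
      ((bif ok o pre 1 then cnt os (1 :: pre) else 0) +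
        (bif ok o pre 2 then cnt os (2 :: pre) else 0))

def PP (n : ℕ) (os : Fin n → List ℕ) (pre : List ℕ) (f : Fin n → Fin 3) : Prop :=
  ∀ i : Fin n, ok (os i) (((List.ofFn (fun j => (f j).val)).take i).reverse ++ pre) (f i).val = true

lemma PP_cons (n : ℕ) (os : Fin (n + 1) → List ℕ) (pre : List ℕ) (c : Fin 3) (f : Fin n → Fin 3) :
    PP (n + 1) os pre (Fin.cons c f) ↔
      ok (os 0) pre c.val = true ∧ PP n (fun i => os i.succ) (c.val :: pre) f := by
  unfold PP
  rw [Fin.forall_fin_succ]
  simp [List.ofFn_succ]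

open Classical in
lemma count_eq (n : ℕ) : ∀ (os : Fin n → List ℕ) (pre : List ℕ),
    ∑ f : Fin n → Fin 3, (if PP n os pre f then 1 else 0) = cnt (List.ofFn os) pre := by
  induction n with
  | zero =>
    intro os pre
    simp [PP, cnt]
  | succ n ih =>
    intro os pre
    rw [← Equiv.sum_comp (Fin.consEquiv (fun _ => Fin 3))]
    rw [Fintype.sum_prod_type]
    simp only [Fin.consEquiv, Equiv.coe_fn_mk]
    simp only [PP_cons, Fin.sum_univ_three, List.ofFn_succ, cnt]
    have key : ∀ c : Fin 3, (∑ x : Fin n → Fin 3,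
        (if ok (os 0) pre c.val = true ∧ PP n (fun i => os i.succ) (c.val :: pre) x then 1 else 0)) =
        (bif ok (os 0) pre c.val then cnt (List.ofFn (fun i => os i.succ)) (c.val :: pre) else 0) := by
      intro c
      rw [← ih]
      cases hb : ok (os 0) pre c.val
      · simp
      · simp
    have k0 := key 0
    have k1 := key 1
    have k2 := key 2
    simp only [Fin.val_zero, Fin.val_one, Fin.val_two] at k0 k1 k2
    simp only [Fin.val_zero, Fin.val_one, Fin.val_two]
    rw [k0, k1, k2]
    ring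

def offT : List (List ℕ) := [[], [0], [1, 0], [0], [2, 0], [3, 0], [5, 0], [4, 3], [4, 3], [8, 2],
  [4, 3], [3, 1], [4, 0], [3, 1], [1, 0], [6, 4], [3, 1], [8, 1, 0], [1, 0], [5, 4, 0], [9, 4, 1, 0]]

def offs (i : Fin 21) : List ℕ := offT.getD i.val []

lemma share_iff (e e' : Fin 21) : Gr.Share e e' ↔
    ∃ b b' : Bool, (e', b') = (e, b) ∨ (e', b') = rot (e, b) ∨ (e', b') = rot (rot (e, b)) := by
  unfold PlaneCubic.Share
  simp only [same_iff]
  rfl

lemma table1 : ∀ i j : Fin 21, i ≠ j → (∃ b b' : Bool, (j, b') = (i, b) ∨ (j, b') = rot (i, b) ∨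
    (j, b') = rot (rot (i, b))) →
    ((i.val - 1 - j.val) ∈ offs i ∧ j.val < i.val) ∨ ((j.val - 1 - i.val) ∈ offs j ∧ i.val < j.val) := by
  decide +kernel

lemma table2 : ∀ i : Fin 21, ∀ o ∈ offs i, o < i.val ∧
    ∃ b b' : Bool, (Fin.ofNat 21 (i.val - 1 - o), b') = (i, b) ∨
      (Fin.ofNat 21 (i.val - 1 - o), b') = rot (i, b) ∨
    (Fin.ofNat 21 (i.val - 1 - o), b') = rot (rot (i, b)) := by
  decide +kernel

lemma getD_rev (n : ℕ) (g : Fin n → ℕ) (i : Fin n) (o : ℕ) (ho : o < i.val) :
    ((((List.ofFn g).take i).reverse ++ []).getD o 3) = g ⟨i.val - 1 - o, by omega⟩ := by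
  have hl : ((List.ofFn g).take i).length = i.val := by
    simp [List.length_take]
  rw [List.append_nil, List.getD_eq_getElem _ _ (by rw [List.length_reverse, hl]; exact ho)]
  rw [List.getElem_reverse, List.getElem_take, List.getElem_ofFn]
  congr 1
  apply Fin.ext
  simp only [hl]

lemma col_iff (f : Fin 21 → Fin 3) : Gr.IsEdgeColouring f ↔ PP 21 offs [] f := by
  unfold PlaneCubic.IsEdgeColouring PP
  constructor
  · intro h i
    rw [ok_iff]
    intro o ho
    obtain ⟨h1, h2⟩ := table2 i o ho
    rw [getD_rev 21 _ i o h1]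
    intro he
    have hne : i ≠ Fin.ofNat 21 (i.val - 1 - o) := by
      intro hh
      have := congrArg Fin.val hh
      simp only [Fin.ofNat] at this
      have hi := i.isLt
      rw [Nat.mod_eq_of_lt (by omega)] at this
      omega
    have h3 := h i (Fin.ofNat 21 (i.val - 1 - o)) hne ((share_iff _ _).mpr h2)
    apply h3
    apply Fin.ext
    rw [← he]
    congr 2
    apply Fin.ext
    simp only [Fin.ofNat]
    have hi := i.isLt
    rw [Nat.mod_eq_of_lt (by omega)]
  · intro h e e' hne hs
    rw [share_iff] at hs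
    rcases table1 e e' hne hs with ⟨h1, h2⟩ | ⟨h1, h2⟩
    · have h3 := (ok_iff _ _ _).mp (h e) _ h1
      rw [getD_rev 21 _ e _ (by omega)] at h3
      intro he
      apply h3
      rw [he]
      congr 2
      apply Fin.ext
      show e.val - 1 - (e.val - 1 - e'.val) = e'.val
      omega
    · have h3 := (ok_iff _ _ _).mp (h e') _ h1
      rw [getD_rev 21 _ e' _ (by omega)] at h3
      intro he
      apply h3
      rw [← he]
      congr 2
      apply Fin.ext
      show e'.val - 1 - (e'.val - 1 - e.val) = e.val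
      omega

theorem num_col : Gr.numEdgeColourings = 54 := by
  classical
  unfold PlaneCubic.numEdgeColourings
  have h1 : Nat.card {f : Fin 21 → Fin 3 // Gr.IsEdgeColouring f} =
      Nat.card {f : Fin 21 → Fin 3 // PP 21 offs [] f} :=
    Nat.card_congr (Equiv.subtypeEquivRight col_iff)
  rw [h1, Nat.card_eq_fintype_card, Fintype.card_subtype, Finset.card_filter]
  have h2 := count_eq 21 offs []
  have h3 : cnt (List.ofFn offs) [] = 54 := by decide +kernel
  rw [h3] at h2
  convert h2

end Pool.Agent.H13.Pn
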