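import Pool.Agent.H13.PnC
import Pool.Agent.H13.PnE

set_option autoImplicit false
set_option maxHeartbeats 4000000

namespace Pool.Agent.H13.Pn

/-- the pairs joined at the edge `e` -/
def prD (e : Fin 21) (b : Bool) : List ((Fin 21 × Bool) × (Fin 21 × Bool)) :=
  if b then [((e, false), (e, true)), (rot⁻¹ (e, false), rot⁻¹ (e, true))]
  else [((e, false), rot⁻¹ (e, true)), ((e, true), rot⁻¹ (e, false))]

def LD (s : Fin 21 → Bool) : List ((Fin 21 × Bool) × (Fin 21 × Bool)) :=
  (List.ofFn (fun e => prD e (s e))).flatten

lemma mem_LD (s : Fin 21 → Bool) (x : (Fin 21 × Bool) × (Fin 21 × Bool)) :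
    x ∈ LD s ↔ ∃ e, x ∈ prD e (s e) := by
  unfold LD
  rw [List.mem_flatten]
  constructor
  · rintro ⟨l, hl, hx⟩
    rw [List.mem_ofFn] at hl
    obtain ⟨e, rfl⟩ := hl
    exact ⟨e, hx⟩
  · rintro ⟨e, hx⟩
    exact ⟨_, List.mem_ofFn.mpr ⟨e, rfl⟩, hx⟩

lemma curves_eq (s : Fin 21 → Bool) :
    Gr.curves s = Nat.card (Quot (fun u v => False ∨ (u, v) ∈ LD s)) := by
  unfold PlaneCubic.curves
  apply card_quot_congr
  · intro x y h
    have h1 : (x, y) ∈ LD s ∨ (y, x) ∈ LD s := by
      simp only [mem_LD]
      cases h with
      | white _ h =>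
        obtain ⟨e, b⟩ := x
        have h' : s e = false := h
        left
        refine ⟨e, ?_⟩
        rw [h']
        cases b
        · simp [prD, rev, Gr]
        · simp [prD, rev, Gr]
      | crossL _ h =>
        obtain ⟨e, b⟩ := x
        have h' : s e = true := h
        cases b
        · left; refine ⟨e, ?_⟩; rw [h']; simp [prD, rev]
        · right; refine ⟨e, ?_⟩; rw [h']; simp [prD, rev]
      | crossR d h =>
        obtain ⟨e, b⟩ := d
        have h' : s e = true := h
        cases b
        · left; refine ⟨e, ?_⟩; rw [h']; simp [prD, rev, Gr]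
        · right; refine ⟨e, ?_⟩; rw [h']; simp [prD, rev, Gr]
    rcases h1 with h1 | h1
    · exact Or.inl (Or.inr h1)
    · exact Or.inr (Or.inr h1)
  · intro x y h
    rcases h with h | h
    · exact h.elim
    · rw [mem_LD] at h
      obtain ⟨e, he⟩ := h
      cases hs : s e
      · rw [hs] at he
        simp only [prD, if_false, Bool.false_eq_true, List.mem_cons, Prod.mk.injEq,
          List.not_mem_nil, or_false] at he
        rcases he with ⟨rfl, rfl⟩ | ⟨rfl, rfl⟩
        · exact Or.inl (PlaneCubic.Joined.white (M := Gr) (s := s) (e, false) hs)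
        · exact Or.inl (PlaneCubic.Joined.white (M := Gr) (s := s) (e, true) hs)
      · rw [hs] at he
        simp only [prD, if_true, List.mem_cons, Prod.mk.injEq,
          List.not_mem_nil, or_false] at he
        rcases he with ⟨rfl, rfl⟩ | ⟨rfl, rfl⟩
        · exact Or.inl (PlaneCubic.Joined.crossL (M := Gr) (s := s) (e, false) hs)
        · exact Or.inl (PlaneCubic.Joined.crossR (M := Gr) (s := s) (e, false) hs)

lemma code_inj : ∀ x y : Fin 21 × Bool, code x = code y ↔ x = y := by
  rintro ⟨e, b⟩ ⟨e', b'⟩
  constructor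
  · intro h
    unfold code at h
    have hb : b.toNat ≤ 1 := Bool.toNat_le b
    have hb' : b'.toNat ≤ 1 := Bool.toNat_le b'
    simp only at h
    have h1 : e.val = e'.val := by omega
    have h2 : b.toNat = b'.toNat := by omega
    have h3 : b = b' := by
      cases b <;> cases b' <;> simp_all
    rw [Fin.ext h1, h3]
  · intro h; rw [h]

def edF (e : Fin 21) : ED :=
  ⟨code (e, false), code (rot⁻¹ (e, false)), code (e, true), code (rot⁻¹ (e, true))⟩

lemma edF_list : List.ofFn edF = eds := by
  have h : (List.ofFn edF).map (fun e => [e.d, e.pd, e.a, e.pa]) =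
      eds.map (fun e => [e.d, e.pd, e.a, e.pa]) := by decide +kernel
  have hinj : Function.Injective (fun e : ED => [e.d, e.pd, e.a, e.pa]) := by
    intro a b hab
    cases a; cases b
    simp only [List.cons.injEq, and_true] at hab
    obtain ⟨h1, h2, h3, h4⟩ := hab
    subst h1; subst h2; subst h3; subst h4; rfl
  exact List.map_injective_iff.mpr hinj h

lemma LD_code (s : Fin 21 → Bool) :
    (LD s).map (fun x => (code x.1, code x.2)) =
      (List.ofFn (fun i => prs (edF i) (s i))).flatten := by
  unfold LD
  rw [List.map_flatten, List.map_ofFn]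
  congr 2
  funext e
  simp only [Function.comp]
  cases s e <;> rfl

lemma sign_eq (s : Fin 21 → Bool) :
    (-1 : ℤ) ^ Gr.curves s = Gs (List.ofFn (fun i => prs (edF i) (s i))).flatten (fun x => x) := by
  rw [curves_eq, sign_classes (LD s) code (fun _ _ => False) (by
    intro x y
    rw [code_inj]
    constructor
    · intro h; rw [h]; exact Relation.EqvGen.refl _
    · intro h
      induction h with
      | rel u v huv => exact huv.elim
      | refl u => rfl
      | symm u v _ ih => exact ih.symm
      | trans u v w _ _ ih1 ih2 => exact ih1.trans ih2)]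
  have h1 : (Finset.univ.image code).card = 42 := by
    rw [Finset.card_image_of_injective _ (fun x y h => (code_inj x y).mp h)]
    simp
  rw [h1, ← LD_code, ← Gs_code code (LD s) (fun x => x)]
  norm_num

theorem penrose_val : Gr.penrose.eval (-1) = -78966 := by
  unfold PlaneCubic.penrose
  rw [Polynomial.eval_finsetSum]
  simp only [Polynomial.eval_mul, Polynomial.eval_pow, Polynomial.eval_neg, Polynomial.eval_one,
    Polynomial.eval_X]
  have h1 : ∀ s : Fin 21 → Bool, (-1 : ℤ) ^ crossings s * (-1) ^ Gr.curves s =
      (∏ i, if s i = true then (-1 : ℤ) else 1) *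
        Gs (List.ofFn (fun i => prs (edF i) (s i))).flatten (fun x => x) := by
    intro s
    rw [sign_eq]
    congr 1
    rw [Finset.prod_ite]
    simp [crossings]
  simp_rw [h1]
  rw [sum_states 21 edF (fun x => x), edF_list]
  have h2 := run_eq eds A0 [(0, A0, 1)] (by decide +kernel) (by decide +kernel)
  rw [run_val] at h2
  simp only [vl, one_mul, add_zero] at h2
  rw [h2]
  apply Fs_congr eds _ _ A0 (by decide +kernel)
  decide +kernel

end Pool.Agent.H13.Pn
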