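import Mathlib

namespace Pool.Agent.H13.Ri

open Complex

/-- bounded increasing function -/
noncomputable def sg (t : ℝ) : ℝ := t / (1 + |t|)

lemma sg_le (t : ℝ) : |sg t| ≤ 1 := by
  unfold sg
  have h : 0 < 1 + |t| := by positivity
  rw [abs_div, abs_of_pos h, div_le_one h]
  linarith

lemma sg_diff {a b : ℝ} (hab : a ≤ b) : (b - a) / ((1 + |a|) * (1 + |b|)) ≤ sg b - sg a := by
  unfold sg
  have ha : 0 < 1 + |a| := by positivity
  have hb : 0 < 1 + |b| := by positivity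
  rw [div_sub_div _ _ hb.ne' ha.ne', mul_comm (1 + |a|)]
  apply div_le_div_of_nonneg_right _ (by positivity)
  rcases le_total 0 a with h1 | h1 <;> rcases le_total 0 b with h2 | h2
  · rw [abs_of_nonneg h1, abs_of_nonneg h2]; nlinarith
  · rw [abs_of_nonneg h1, abs_of_nonpos h2]; nlinarith
  · rw [abs_of_nonpos h1, abs_of_nonneg h2]; nlinarith [mul_nonneg (neg_nonneg.2 h1) h2]
  · rw [abs_of_nonpos h1, abs_of_nonpos h2]; nlinarith

/-- the net -/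
def S : Set ℂ := {z | ∃ n : ℕ, (n : ℝ) ≤ ‖z‖ ∧ ∃ a b : ℤ,
  z = ⟨(a : ℝ) / (10 * ((n : ℝ) + 3) ^ 2), (b : ℝ) / (10 * ((n : ℝ) + 3) ^ 2)⟩}

lemma S_net (p : ℂ) : ∃ v ∈ S, ‖v - p‖ ≤ (1 / 10) / (1 + ‖p‖) ^ 2 := by
  set n : ℕ := ⌊‖p‖⌋₊ - 1 with hn
  have hp : 0 ≤ ‖p‖ := norm_nonneg p
  have hfl : (⌊‖p‖⌋₊ : ℝ) ≤ ‖p‖ := Nat.floor_le hp
  have hfl2 : ‖p‖ < (⌊‖p‖⌋₊ : ℝ) + 1 := Nat.lt_floor_add_one _
  have hn1 : (⌊‖p‖⌋₊ : ℝ) ≤ (n : ℝ) + 1 := by
    have : ⌊‖p‖⌋₊ ≤ n + 1 := by omega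
    exact_mod_cast this
  set N : ℝ := 10 * ((n : ℝ) + 3) ^ 2 with hN
  have hNpos : 0 < N := by positivity
  set v : ℂ := ⟨(round (p.re * N) : ℤ) / N, (round (p.im * N) : ℤ) / N⟩ with hv
  have e1 : |(v - p).re| ≤ 1 / (2 * N) := by
    have h := abs_sub_round (p.re * N)
    have : (v - p).re = (round (p.re * N) - p.re * N) / N := by
      simp only [hv, Complex.sub_re]; field_simp
    rw [this, abs_div, abs_of_pos hNpos, abs_sub_comm, div_le_iff₀ hNpos]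
    have h2 : 1 / (2 * N) * N = 1 / 2 := by field_simp
    rw [h2]; exact h
  have e2 : |(v - p).im| ≤ 1 / (2 * N) := by
    have h := abs_sub_round (p.im * N)
    have : (v - p).im = (round (p.im * N) - p.im * N) / N := by
      simp only [hv, Complex.sub_im]; field_simp
    rw [this, abs_div, abs_of_pos hNpos, abs_sub_comm, div_le_iff₀ hNpos]
    have h2 : 1 / (2 * N) * N = 1 / 2 := by field_simp
    rw [h2]; exact h
  have e3 : ‖v - p‖ ≤ 1 / N := by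
    calc ‖v - p‖ ≤ |(v - p).re| + |(v - p).im| := Complex.norm_le_abs_re_add_abs_im _
      _ ≤ 1 / (2 * N) + 1 / (2 * N) := add_le_add e1 e2
      _ = 1 / N := by field_simp; norm_num
  have e4 : 1 / N ≤ (1 / 10) / (1 + ‖p‖) ^ 2 := by
    rw [hN, div_div]
    apply one_div_le_one_div_of_le (by positivity)
    have h3 : 1 + ‖p‖ ≤ (n : ℝ) + 3 := by linarith
    have h4 : (1 + ‖p‖) ^ 2 ≤ ((n : ℝ) + 3) ^ 2 := pow_le_pow_left₀ (by positivity) h3 2
    linarith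
  have e5 : ‖v - p‖ ≤ 1 := by
    refine e3.trans ?_
    rw [div_le_one hNpos, hN]
    have : (0:ℝ) ≤ n := Nat.cast_nonneg n
    nlinarith
  refine ⟨v, ⟨n, ?_, round (p.re * N), round (p.im * N), rfl⟩, e3.trans e4⟩
  rcases Nat.eq_zero_or_pos n with h0 | h0
  · rw [h0]; simp
  · have h1 : (n : ℝ) + 1 = ⌊‖p‖⌋₊ := by
      have : n + 1 = ⌊‖p‖⌋₊ := by omega
      exact_mod_cast this
    have h2 : ‖p‖ ≤ ‖v‖ + ‖v - p‖ := by
      have := norm_sub_norm_le p v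
      rw [norm_sub_rev] at this
      linarith
    linarith

end Pool.Agent.H13.Ri
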