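import Pool.Agent.H13.RiA

namespace Pool.Agent.H13.Ri

open Complex

lemma S_fin (R : ℝ) : (S ∩ {z : ℂ | ‖z‖ ≤ R}).Finite := by
  have key : S ∩ {z : ℂ | ‖z‖ ≤ R} ⊆ ⋃ n ∈ Set.Iic ⌊R⌋₊,
      (fun ab : ℤ × ℤ => (⟨(ab.1 : ℝ) / (10 * ((n : ℝ) + 3) ^ 2), (ab.2 : ℝ) / (10 * ((n : ℝ) + 3) ^ 2)⟩ : ℂ)) ''
        (Set.Icc (-⌈R * (10 * ((n : ℝ) + 3) ^ 2)⌉) ⌈R * (10 * ((n : ℝ) + 3) ^ 2)⌉ ×ˢ
          Set.Icc (-⌈R * (10 * ((n : ℝ) + 3) ^ 2)⌉) ⌈R * (10 * ((n : ℝ) + 3) ^ 2)⌉) := by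
    rintro z ⟨⟨n, hn, a, b, rfl⟩, hR⟩
    simp only [Set.mem_setOf_eq] at hR
    have hR0 : 0 ≤ R := (norm_nonneg _).trans hR
    simp only [Set.mem_iUnion]
    refine ⟨n, ?_, (a, b), ?_, rfl⟩
    · rw [Set.mem_Iic]; exact Nat.le_floor (hn.trans hR)
    · have hN : (0 : ℝ) < 10 * ((n : ℝ) + 3) ^ 2 := by positivity
      have h1 : |(a : ℝ) / (10 * ((n : ℝ) + 3) ^ 2)| ≤ R := (Complex.abs_re_le_norm _).trans hR
      have h2 : |(b : ℝ) / (10 * ((n : ℝ) + 3) ^ 2)| ≤ R := (Complex.abs_im_le_norm _).trans hR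
      rw [abs_div, abs_of_pos hN, div_le_iff₀ hN] at h1 h2
      have aux : ∀ c : ℤ, |(c : ℝ)| ≤ R * (10 * ((n : ℝ) + 3) ^ 2) →
          c ∈ Set.Icc (-⌈R * (10 * ((n : ℝ) + 3) ^ 2)⌉) ⌈R * (10 * ((n : ℝ) + 3) ^ 2)⌉ := by
        intro c hc
        have h3 := Int.le_ceil (R * (10 * ((n : ℝ) + 3) ^ 2))
        have h4 := abs_le.1 hc
        constructor
        · have : (-(⌈R * (10 * ((n : ℝ) + 3) ^ 2)⌉ : ℤ) : ℝ) ≤ (c : ℝ) := by linarith
          exact_mod_cast this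
        · have : (c : ℝ) ≤ (⌈R * (10 * ((n : ℝ) + 3) ^ 2)⌉ : ℤ) := by linarith
          exact_mod_cast this
      exact ⟨aux a h1, aux b h2⟩
  refine Set.Finite.subset ?_ key
  refine Set.Finite.biUnion (Set.finite_Iic _) ?_
  intro n _
  exact ((Set.finite_Icc _ _).prod (Set.finite_Icc _ _)).image _

/-- the graph -/
def Gr : SimpleGraph S where
  Adj x y := x ≠ y ∧ ‖(x : ℂ) - y‖ ≤ 1
  symm := ⟨fun x y h => ⟨h.1.symm, by rw [norm_sub_rev]; exact h.2⟩⟩
  loopless := ⟨fun x h => h.1 rfl⟩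

lemma lf (v : S) : (Gr.neighborSet v).Finite := by
  have h := S_fin (‖(v : ℂ)‖ + 1)
  have h2 : ((fun x : S => (x : ℂ)) '' (Gr.neighborSet v)).Finite := by
    refine h.subset ?_
    rintro _ ⟨w, hw, rfl⟩
    refine ⟨w.2, ?_⟩
    have h3 : ‖(v : ℂ) - w‖ ≤ 1 := hw.2
    simp only [Set.mem_setOf_eq]
    have := norm_sub_norm_le (w : ℂ) v
    rw [norm_sub_rev] at this
    linarith
  exact Set.Finite.of_finite_image h2 Subtype.val_injective.injOn

lemma walk_lower {x y : S} (w : Gr.Walk x y) : ‖(x : ℂ) - y‖ ≤ w.length := by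
  induction w with
  | nil => simp
  | cons h p ih =>
    rw [SimpleGraph.Walk.length_cons]
    push_cast
    have h1 := h.2
    rename_i u v w
    calc ‖(u : ℂ) - w‖ = ‖((u : ℂ) - v) + (v - w)‖ := by ring_nf
      _ ≤ ‖(u : ℂ) - v‖ + ‖(v : ℂ) - w‖ := norm_add_le _ _
      _ ≤ _ := by linarith

lemma short {x y : S} (h : ‖(x : ℂ) - y‖ ≤ 1) : ∃ w : Gr.Walk x y, w.length ≤ 1 := by
  by_cases hxy : x = y
  · subst hxy; exact ⟨SimpleGraph.Walk.nil, by simp⟩
  · exact ⟨SimpleGraph.Walk.cons (show Gr.Adj x y from ⟨hxy, h⟩) SimpleGraph.Walk.nil, by simp⟩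

/-- local tolerance -/
noncomputable def et (t : ℝ) : ℝ := (1 / 10) / (1 + |t|) ^ 2

lemma et_le (t : ℝ) : et t ≤ 1 / 10 := by
  unfold et
  apply div_le_self (by norm_num)
  have : 0 ≤ |t| := abs_nonneg t
  nlinarith

lemma et_nonneg (t : ℝ) : 0 ≤ et t := by unfold et; positivity

lemma et_shift {t t' : ℝ} (h : |t - t'| ≤ 1) : et t' ≤ 4 * et t := by
  unfold et
  have h0 : 0 ≤ |t| := abs_nonneg t
  have h0' : 0 ≤ |t'| := abs_nonneg t'
  have h1 : |t| ≤ |t'| + 1 := by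
    have := abs_sub_abs_le_abs_sub t t'
    linarith
  rw [← mul_div_assoc, div_le_div_iff₀ (by positivity) (by positivity)]
  nlinarith

lemma main_step (x : S) (u : ℂ) (hu : ‖u‖ = 1) (k : ℕ) :
    ∀ s : ℝ, 0 ≤ s →
      (s + 2 * sg (s + ((x : ℂ) * (starRingEnd ℂ) u).re)) - 2 * sg (((x : ℂ) * (starRingEnd ℂ) u).re) ≤ k →
      ∀ v : S, ‖(v : ℂ) - (x + s * u)‖ ≤ et (s + ((x : ℂ) * (starRingEnd ℂ) u).re) →
      ∃ w : Gr.Walk x v, w.length ≤ k + 1 := by
  set c := ((x : ℂ) * (starRingEnd ℂ) u).re with hc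
  have hproj : ∀ s : ℝ, |s + c| ≤ ‖(x : ℂ) + s * u‖ := by
    intro s
    have h1 : (((x : ℂ) + s * u) * (starRingEnd ℂ) u).re = s + c := by
      rw [add_mul, Complex.add_re, ← hc, mul_assoc, Complex.mul_conj, Complex.normSq_eq_norm_sq, hu]
      simp [add_comm]
    rw [← h1]
    refine (Complex.abs_re_le_norm _).trans ?_
    rw [norm_mul, RCLike.norm_conj, hu, mul_one]
  induction k with
  | zero =>
    intro s hs hk v hv
    have h1 := sg_diff (a := c) (b := s + c) (by linarith)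
    have h2 : 0 ≤ (s + c - c) / ((1 + |c|) * (1 + |s + c|)) := by
      apply div_nonneg (by linarith) (by positivity)
    have hs0 : s = 0 := by
      have : s ≤ 0 := by push_cast at hk; linarith
      linarith
    subst hs0
    obtain ⟨w, hw⟩ := short (x := x) (y := v) (by
      rw [norm_sub_rev]
      have h3 := et_le (0 + c)
      simp only [Complex.ofReal_zero, zero_mul, add_zero] at hv
      linarith)
    exact ⟨w, by omega⟩
  | succ k ih =>
    intro s hs hk v hv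
    set δ := 5 * et (s + c) with hδ
    have hδ1 : δ ≤ 1 / 2 := by have := et_le (s + c); linarith
    have hδ0 : 0 ≤ δ := by have := et_nonneg (s + c); linarith
    set s' := s - 1 + δ with hs'
    by_cases hneg : s' ≤ 0
    · obtain ⟨w, hw⟩ := short (x := x) (y := v) (by
        rw [norm_sub_rev]
        calc ‖(v : ℂ) - x‖ = ‖((v : ℂ) - (x + s * u)) + s * u‖ := by ring_nf
          _ ≤ ‖(v : ℂ) - (x + s * u)‖ + ‖(s : ℂ) * u‖ := norm_add_le _ _
          _ ≤ et (s + c) + s := by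
            refine add_le_add hv ?_
            rw [norm_mul, hu, mul_one, Complex.norm_real, Real.norm_eq_abs, abs_of_nonneg hs]
          _ ≤ 1 := by have := et_nonneg (s + c); linarith)
      exact ⟨w, by omega⟩
    · push Not at hneg
      have hdiff : s + c - (s' + c) = 1 - δ := by rw [hs']; ring
      have hab : |(s + c) - (s' + c)| ≤ 1 := by
        rw [hdiff, abs_of_nonneg (by linarith)]; linarith
      have hsh := et_shift hab
      have h1 := sg_diff (a := s' + c) (b := s + c) (by linarith)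
      rw [hdiff] at h1
      have h2 : δ / 2 ≤ (1 - δ) / ((1 + |s' + c|) * (1 + |s + c|)) := by
        have h3 : |s' + c| ≤ |s + c| + 1 := by
          have := abs_sub_abs_le_abs_sub (s' + c) (s + c)
          rw [abs_sub_comm (s' + c)] at this
          linarith
        have h5 : δ = (1 / 2) / (1 + |s + c|) ^ 2 := by rw [hδ]; unfold et; ring
        have h0 : 0 ≤ |s + c| := abs_nonneg _
        have h0' : 0 ≤ |s' + c| := abs_nonneg _
        have h6 : (1 / 2 : ℝ) / ((1 + |s' + c|) * (1 + |s + c|)) ≤ (1 - δ) / ((1 + |s' + c|) * (1 + |s + c|)) := by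
          apply div_le_div_of_nonneg_right _ (by positivity)
          linarith
        refine le_trans ?_ h6
        rw [h5, div_div, div_le_div_iff₀ (by positivity) (by positivity)]
        nlinarith
      have hk' : (s' + 2 * sg (s' + c)) - 2 * sg c ≤ k := by
        push_cast at hk
        linarith
      obtain ⟨v', hv'S, hv'⟩ := S_net ((x : ℂ) + s' * u)
      have hv'' : ‖v' - ((x : ℂ) + s' * u)‖ ≤ et (s' + c) := by
        refine hv'.trans ?_
        unfold et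
        apply div_le_div_of_nonneg_left (by norm_num) (by positivity)
        apply pow_le_pow_left₀ (by positivity)
        have := hproj s'
        linarith
      obtain ⟨w, hw⟩ := ih s' hneg.le hk' ⟨v', hv'S⟩ hv''
      obtain ⟨w2, hw2⟩ := short (x := ⟨v', hv'S⟩) (y := v) (by
        show ‖v' - (v : ℂ)‖ ≤ 1
        have e : v' - (v : ℂ) = (v' - ((x : ℂ) + s' * u)) - ((v : ℂ) - (x + s * u)) - ((s - s' : ℝ) : ℂ) * u := by
          push_cast; ring
        rw [e]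
        calc _ ≤ ‖(v' - ((x : ℂ) + s' * u)) - ((v : ℂ) - (x + s * u))‖ + ‖((s - s' : ℝ) : ℂ) * u‖ := norm_sub_le _ _
          _ ≤ (‖v' - ((x : ℂ) + s' * u)‖ + ‖(v : ℂ) - (x + s * u)‖) + ‖((s - s' : ℝ) : ℂ) * u‖ :=
            add_le_add (norm_sub_le _ _) le_rfl
          _ ≤ (et (s' + c) + et (s + c)) + (1 - δ) := by
            refine add_le_add (add_le_add hv'' hv) ?_
            rw [norm_mul, hu, mul_one, Complex.norm_real, Real.norm_eq_abs]
            have : s - s' = 1 - δ := by rw [hs']; ring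
            rw [this, abs_of_nonneg (by linarith)]
          _ ≤ 1 := by linarith)
      exact ⟨w.append w2, by rw [SimpleGraph.Walk.length_append]; omega⟩

lemma upper (x y : S) : ∃ w : Gr.Walk x y, (w.length : ℝ) ≤ ‖(x : ℂ) - y‖ + 6 := by
  by_cases hxy : x = y
  · subst hxy
    exact ⟨SimpleGraph.Walk.nil, by simp⟩
  have hne : (y : ℂ) - x ≠ 0 := by
    intro h
    exact hxy (Subtype.ext (sub_eq_zero.1 h).symm)
  set L := ‖(y : ℂ) - x‖ with hL
  have hLpos : 0 < L := norm_pos_iff.2 hne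
  set u : ℂ := ((y : ℂ) - x) / L with hu
  have hu1 : ‖u‖ = 1 := by
    rw [hu, norm_div, Complex.norm_real, Real.norm_eq_abs, abs_of_pos hLpos, ← hL]
    exact div_self hLpos.ne'
  have hyL : (x : ℂ) + L * u = y := by
    rw [hu, mul_div_cancel₀ _ (by exact_mod_cast hLpos.ne')]
    ring
  set c := ((x : ℂ) * (starRingEnd ℂ) u).re with hc
  obtain ⟨w, hw⟩ := main_step x u hu1 ⌈(L + 2 * sg (L + c)) - 2 * sg c⌉₊ L hLpos.le
    (Nat.le_ceil _) y (by
      rw [hyL, sub_self, norm_zero]; exact et_nonneg _)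
  refine ⟨w, ?_⟩
  have h1 := abs_le.1 (sg_le (L + c))
  have h2 := abs_le.1 (sg_le c)
  have h3 : ((⌈(L + 2 * sg (L + c)) - 2 * sg c⌉₊ : ℕ) : ℝ) < L + 4 + 1 := by
    have hle : (L + 2 * sg (L + c)) - 2 * sg c ≤ L + 4 := by linarith
    have h4 := Nat.ceil_lt_add_one (a := L + 4) (by linarith)
    have h5 : ((⌈(L + 2 * sg (L + c)) - 2 * sg c⌉₊ : ℕ) : ℝ) ≤ (⌈L + 4⌉₊ : ℕ) := by
      exact_mod_cast Nat.ceil_le_ceil hle
    linarith
  have h6 : (w.length : ℝ) ≤ ((⌈(L + 2 * sg (L + c)) - 2 * sg c⌉₊ : ℕ) : ℝ) + 1 := by exact_mod_cast hw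
  rw [norm_sub_rev, ← hL]
  linarith

theorem final : ∃ (V : Type) (G : SimpleGraph V) (f : V → EuclideanSpace ℝ (Fin 2)) (C : ℝ),
    G.Connected ∧ (∀ v, (G.neighborSet v).Finite) ∧ 0 < C ∧
    (∀ x y, |‖f x - f y‖ - (G.dist x y : ℝ)| < C) ∧
    (∀ p, ∃ x, ‖f x - p‖ < C) := by
  have hconn : Gr.Connected := by
    obtain ⟨v0, hv0, _⟩ := S_net 0
    haveI : Nonempty S := ⟨⟨v0, hv0⟩⟩
    exact ⟨fun x y => (upper x y).elim fun w _ => ⟨w⟩⟩
  let φ := Complex.orthonormalBasisOneI.repr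
  refine ⟨S, Gr, fun x => φ x, 10, hconn, lf, by norm_num, ?_, ?_⟩
  · intro x y
    have e : ‖φ (x : ℂ) - φ (y : ℂ)‖ = ‖(x : ℂ) - y‖ := by
      rw [← map_sub, LinearIsometryEquiv.norm_map]
    simp only [e]
    obtain ⟨w, hw⟩ := upper x y
    have h1 : (Gr.dist x y : ℝ) ≤ w.length := by exact_mod_cast SimpleGraph.dist_le w
    obtain ⟨p, hp⟩ := hconn.exists_walk_length_eq_dist x y
    have h2 := walk_lower p
    rw [hp] at h2
    rw [abs_lt]
    constructor <;> linarith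
  · intro p
    obtain ⟨v, hvS, hv⟩ := S_net (φ.symm p)
    refine ⟨⟨v, hvS⟩, ?_⟩
    have e : ‖φ v - p‖ = ‖v - φ.symm p‖ := by
      rw [← LinearIsometryEquiv.norm_map φ, map_sub, LinearIsometryEquiv.apply_symm_apply]
    show ‖φ v - p‖ < 10
    rw [e]
    refine hv.trans_lt ?_
    have : (1 / 10 : ℝ) / (1 + ‖φ.symm p‖) ^ 2 ≤ 1 / 10 := by
      apply div_le_self (by norm_num)
      have : 0 ≤ ‖φ.symm p‖ := norm_nonneg _
      nlinarith
    linarith

end Pool.Agent.H13.Ri
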