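import Mathlib

set_option autoImplicit false

namespace Pool.Agent.H13.Seidel

/-- S + I for the conference matrix of order 6 -/
def C (k l : ℕ) : ℤ :=
  if k = 0 ∨ l = 0 ∨ k = l then 1 else
  if (k + 5 - l) % 5 = 1 ∨ (k + 5 - l) % 5 = 4 then 1 else -1

def Tz : Matrix (Fin 18) (Fin 18) ℤ :=
  fun i j => if i = j then 0 else C (i.val % 6) (j.val % 6)

lemma Tz_symm : ∀ i j, Tz i j = Tz j i := by decide +kernel
lemma Tz_diag : ∀ i, Tz i i = 0 := by decide +kernel
lemma Tz_off : ∀ i j, i ≠ j → Tz i j = 1 ∨ Tz i j = -1 := by decide +kernel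

def A : Matrix (Fin 18) (Fin 18) ℤ := fun i j =>
    (if i = j then 17 else 0) + (if i = j then 0 else if i.val % 6 = j.val % 6 then 16 else 4 * C (i.val % 6) (j.val % 6))

lemma Tz_sq : ∀ i j, ∑ k, Tz i k * Tz k j = A i j := by
  decide +kernel

lemma Tz_cube : ∀ i j, ∑ k, Tz i k * (A k j - 4 * Tz k j - (if k = j then 41 else 0)) +
    (A i j - 4 * Tz i j - (if i = j then 41 else 0)) = 0 := by
  decide +kernel

lemma cubic : (Tz + 1) * (Tz * Tz - 4 * Tz - 41) = 0 := by
  have h1 : Tz * Tz = A := by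
    ext i j
    rw [Matrix.mul_apply]; exact Tz_sq i j
  have h2 : ∀ i j, (Tz * Tz - 4 * Tz - 41 : Matrix (Fin 18) (Fin 18) ℤ) i j = A i j - 4 * Tz i j - (if i = j then 41 else 0) := by
    intro i j
    rw [h1]
    have e1 : (4 : Matrix (Fin 18) (Fin 18) ℤ) * Tz = (4 : ℤ) • Tz := by
      rw [← smul_one_mul]; congr 1
      ext a b; simp [Matrix.one_apply, Matrix.ofNat_apply]
    rw [e1]
    simp only [Matrix.sub_apply, Matrix.smul_apply, smul_eq_mul]
    rw [Matrix.ofNat_apply]
    split_ifs <;> simp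
  rw [add_mul, one_mul]
  ext i j
  rw [Matrix.add_apply, Matrix.mul_apply, h2]
  simp only [h2]
  exact Tz_cube i j

/-- the integer eigenvector combinations -/
def al (j : Fin 18) : ℤ := if j.val % 6 = 0 then 1 else 0
def be (j : Fin 18) : ℤ := if j.val % 6 = 0 then 0 else 1
def ga (j : Fin 18) : ℤ := if j = 0 then 1 else if j = 6 then -1 else 0
def w (j : Fin 18) : ℤ := if j = 0 then -1 else if j.val < 6 then 1 else 0

lemma T_al : ∀ i, ∑ j, Tz i j * al j = if i.val % 6 = 0 then 2 else 3 := by decide +kernel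
lemma T_be : ∀ i, ∑ j, Tz i j * be j = if i.val % 6 = 0 then 15 else 2 := by decide +kernel
lemma T_ga : ∀ i, ∑ j, Tz i j * ga j = - ga i := by decide +kernel
lemma T_w : ∀ j, ∑ k, w k * (Tz k j + if k = j then 1 else 0) = if j.val % 6 = 0 then 4 else 0 := by
  decide +kernel

section
variable {R : Type*} [CommRing R]

def S (R : Type*) [CommRing R] : Matrix (Fin 18) (Fin 18) R := Tz.map (Int.cast : ℤ → R)

lemma cubicR : (S R + 1) * (S R * S R - 4 * S R - 41) = 0 := by
  have h := congrArg (fun M : Matrix (Fin 18) (Fin 18) ℤ => (Int.castRingHom R).mapMatrix M) cubic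
  simp only [map_mul, map_add, map_sub, map_one, map_ofNat, map_zero] at h
  exact h

lemma eig_poly {v : Fin 18 → R} {r : R} (h : (S R).mulVec v = r • v) (i : Fin 18) :
    (r + 1) * (r * r - 4 * r - 41) * v i = 0 := by
  have h0 := cubicR (R := R)
  have e4 : (4 : Matrix (Fin 18) (Fin 18) R).mulVec v = (4 : R) • v := by
    ext j; simp [Matrix.mulVec, dotProduct, Matrix.ofNat_apply]
  have e41 : (41 : Matrix (Fin 18) (Fin 18) R).mulVec v = (41 : R) • v := by
    ext j; simp [Matrix.mulVec, dotProduct, Matrix.ofNat_apply]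
  have h1 : (S R * S R - 4 * S R - 41).mulVec v = (r * r - 4 * r - 41) • v := by
    rw [Matrix.sub_mulVec, Matrix.sub_mulVec, ← Matrix.mulVec_mulVec, ← Matrix.mulVec_mulVec, h,
      Matrix.mulVec_smul, Matrix.mulVec_smul, h, e4, e41]
    ext j; simp; ring
  have h2 : ((S R + 1) * (S R * S R - 4 * S R - 41)).mulVec v = ((r + 1) * (r * r - 4 * r - 41)) • v := by
    rw [← Matrix.mulVec_mulVec, h1, Matrix.mulVec_smul, Matrix.add_mulVec, h, Matrix.one_mulVec]
    ext j; simp; ring
  rw [h0, Matrix.zero_mulVec] at h2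
  have := congrFun h2 i
  simpa using this.symm
end

lemma root_of_eig {v : Fin 18 → ℝ} {r : ℝ} (hv : v ≠ 0) (h : (S ℝ).mulVec v = r • v) :
    r ∈ (S ℝ).charpoly.roots.toFinset := by
  rw [Multiset.mem_toFinset, Polynomial.mem_roots (Matrix.charpoly_monic _).ne_zero,
    Polynomial.IsRoot.def, Matrix.eval_charpoly]
  rw [← Matrix.exists_mulVec_eq_zero_iff]
  refine ⟨v, hv, ?_⟩
  rw [Matrix.sub_mulVec, h]
  ext j; simp [Matrix.scalar_apply, Matrix.mulVec_diagonal]

lemma eig_of_root {r : ℝ} (h : r ∈ (S ℝ).charpoly.roots.toFinset) :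
    ∃ v : Fin 18 → ℝ, v ≠ 0 ∧ (S ℝ).mulVec v = r • v := by
  rw [Multiset.mem_toFinset, Polynomial.mem_roots (Matrix.charpoly_monic _).ne_zero,
    Polynomial.IsRoot.def, Matrix.eval_charpoly, ← Matrix.exists_mulVec_eq_zero_iff] at h
  obtain ⟨v, hv, h⟩ := h
  refine ⟨v, hv, ?_⟩
  rw [Matrix.sub_mulVec, sub_eq_zero] at h
  rw [← h]
  ext j; simp [Matrix.scalar_apply, Matrix.mulVec_diagonal]

lemma mulVec_cast (u : Fin 18 → ℤ) (i : Fin 18) :
    (S ℝ).mulVec (fun j => (u j : ℝ)) i = ((∑ j, Tz i j * u j : ℤ) : ℝ) := by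
  simp [S, Matrix.mulVec, dotProduct]

lemma eig_w {x : ℝ} (hx : x * x = 5) : (2 + 3 * x) ∈ (S ℝ).charpoly.roots.toFinset := by
  apply root_of_eig (v := x • (fun j => (al j : ℝ)) + (fun j => (be j : ℝ)))
  · intro h
    have := congrFun h 1
    simp [al, be] at this
  · rw [Matrix.mulVec_add, Matrix.mulVec_smul]
    ext i
    simp only [Pi.add_apply, Pi.smul_apply, smul_eq_mul, mulVec_cast, T_al, T_be]
    simp only [al, be]
    split_ifs with h
    · push_cast; linear_combination -3 * hx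
    · push_cast; ring

lemma eig_m : (-1 : ℝ) ∈ (S ℝ).charpoly.roots.toFinset := by
  apply root_of_eig (v := fun j => (ga j : ℝ))
  · intro h
    have := congrFun h 0
    simp [ga] at this
  · ext i
    simp only [mulVec_cast, T_ga, Pi.smul_apply, smul_eq_mul]
    push_cast; ring

lemma roots_eq : (S ℝ).charpoly.roots.toFinset = {-1, 2 + 3 * √5, 2 - 3 * √5} := by
  have h5 : √5 * √5 = (5 : ℝ) := Real.mul_self_sqrt (by norm_num)
  ext r
  simp only [Finset.mem_insert, Finset.mem_singleton]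
  constructor
  · intro h
    obtain ⟨v, hv, h⟩ := eig_of_root h
    obtain ⟨i, hi⟩ := Function.ne_iff.1 hv
    have := eig_poly h i
    have h1 : (r + 1) * (r * r - 4 * r - 41) = 0 := by
      rcases mul_eq_zero.1 this with h | h
      · exact h
      · exact absurd h hi
    have h2 : (r + 1) * ((r - (2 + 3 * √5)) * (r - (2 - 3 * √5))) = 0 := by
      have : (r - (2 + 3 * √5)) * (r - (2 - 3 * √5)) = r * r - 4 * r - 41 := by
        linear_combination -9 * h5
      rw [this, h1]
    rcases mul_eq_zero.1 h2 with h | h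
    · left; linarith
    · rcases mul_eq_zero.1 h with h | h
      · right; left; linarith
      · right; right; linarith
  · rintro (rfl | rfl | rfl)
    · exact eig_m
    · exact eig_w h5
    · have := eig_w (x := -√5) (by rw [neg_mul_neg, h5])
      rwa [mul_neg, ← sub_eq_add_neg] at this

lemma card_roots : (S ℝ).charpoly.roots.toFinset.card = 3 := by
  rw [roots_eq]
  have h5 : (2 : ℝ) < √5 := by
    rw [show (2 : ℝ) = √4 by rw [show (4 : ℝ) = 2 ^ 2 by norm_num]; simp]
    exact Real.sqrt_lt_sqrt (by norm_num) (by norm_num)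
  rw [Finset.card_eq_three]
  refine ⟨-1, 2 + 3 * √5, 2 - 3 * √5, ?_, ?_, ?_, rfl⟩
  · intro h; linarith
  · intro h; linarith
  · intro h; linarith

lemma noreg (s : Fin 18 → ℝ) (hs : ∀ i, s i = 1 ∨ s i = -1) :
    ¬ ∃ c : ℝ, ∀ i, ∑ j, s i * (S ℝ) i j * s j = c := by
  rintro ⟨c, hc⟩
  have hz : ∀ i, ∃ z : ℤ, s i = z ∧ (z = 1 ∨ z = -1) := by
    intro i
    rcases hs i with h | h
    · exact ⟨1, by simp [h], Or.inl rfl⟩
    · exact ⟨-1, by simp [h], Or.inr rfl⟩
  choose z hz hz1 using hz
  have hcz : ∀ i, z i * ∑ j, Tz i j * z j = z 0 * ∑ j, Tz 0 j * z j := by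
    have : ∀ i, ((z i * ∑ j, Tz i j * z j : ℤ) : ℝ) = c := by
      intro i
      rw [← hc i]
      push_cast
      rw [Finset.mul_sum]
      apply Finset.sum_congr rfl
      intro j _
      rw [hz i, hz j]
      simp only [S, Matrix.map_apply]; ring
    intro i
    have h1 := this i
    have h2 := this 0
    rw [← h2] at h1
    exact_mod_cast h1
  set d : ℤ := z 0 * ∑ j, Tz 0 j * z j with hd
  have hzz : ∀ i, z i * z i = 1 := by
    intro i; rcases hz1 i with h | h <;> simp [h]
  have hmv : ∀ i, ∑ j, Tz i j * z j = d * z i := by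
    intro i
    have := hcz i
    calc ∑ j, Tz i j * z j = (z i * z i) * ∑ j, Tz i j * z j := by rw [hzz i, one_mul]
      _ = z i * (z i * ∑ j, Tz i j * z j) := by ring
      _ = d * z i := by rw [this]; ring
  have hmv' : (S ℤ).mulVec z = d • z := by
    ext i
    simp only [S, Matrix.mulVec, dotProduct, Matrix.map_apply, Int.cast_id, Pi.smul_apply, smul_eq_mul]
    exact hmv i
  have h0 := eig_poly hmv' 0
  have h1 : (d + 1) * (d * d - 4 * d - 41) = 0 := by
    rcases hz1 0 with h | h <;> rw [h] at h0 <;> linarith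
  rcases mul_eq_zero.1 h1 with h | h
  · have hd1 : d = -1 := by omega
    have key : ∑ k, w k * ∑ j, (Tz k j + if k = j then 1 else 0) * z j = 0 := by
      apply Finset.sum_eq_zero
      intro k _
      have : ∑ j, (Tz k j + if k = j then 1 else 0) * z j = 0 := by
        simp only [add_mul, Finset.sum_add_distrib, hmv, hd1]
        simp
      rw [this, mul_zero]
    have key2 : ∑ k, w k * ∑ j, (Tz k j + if k = j then 1 else 0) * z j =
        ∑ j, (if j.val % 6 = 0 then 4 else 0 : ℤ) * z j := by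
      simp only [Finset.mul_sum]
      rw [Finset.sum_comm]
      apply Finset.sum_congr rfl
      intro j _
      rw [← T_w j, Finset.sum_mul]
      apply Finset.sum_congr rfl
      intro k _
      ring
    rw [key2] at key
    have key3 : ∑ j : Fin 18, (if j.val % 6 = 0 then 4 else 0 : ℤ) * z j = 4 * z 0 + 4 * z 6 + 4 * z 12 := by
      simp [Fin.sum_univ_succ]
      ring_nf
    rw [key3] at key
    rcases hz1 0 with h0 | h0 <;> rcases hz1 6 with h6 | h6 <;> rcases hz1 12 with h12 | h12 <;>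
      rw [h0, h6, h12] at key <;> omega
  · have h2 : (d - 2) * (d - 2) = 45 := by linarith
    have h3 : d - 2 < 7 := by nlinarith
    have h4 : -7 < d - 2 := by nlinarith
    generalize d - 2 = e at h2 h3 h4
    interval_cases e <;> omega

end Pool.Agent.H13.Seidel
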