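import Mathlib

/-! Unit-free families of vertices of the cube: definitions and the two basic reductions. -/

namespace Pool.Agent.H13.UnitFree

open Finset

/-- The vertex of the `n`-cube with support `A`. -/
noncomputable def vert {n : ℕ} (A : Finset (Fin n)) : Fin n → ℝ := fun i => if i ∈ A then 1 else 0

/-- A set of vertices (given by their supports) is unit-free if no standard unit vector
lies in its real linear span. -/
def IsUnitFree {n : ℕ} (S : Finset (Finset (Fin n))) : Prop :=
  ∀ i : Fin n, (Pi.single i 1 : Fin n → ℝ) ∉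
    Submodule.span ℝ (vert '' (S : Set (Finset (Fin n))))

/-- `M(n, k)`: the largest size of a unit-free set of vertices of weight exactly `k`. -/
noncomputable def M (n k : ℕ) : ℕ :=
  sSup {m | ∃ S : Finset (Finset (Fin n)), (∀ A ∈ S, A.card = k) ∧ IsUnitFree S ∧ S.card = m}

/-- `N(n, k)`: the largest size of a unit-free set of nonzero vertices of weight at most `k`. -/
noncomputable def N (n k : ℕ) : ℕ :=
  sSup {m | ∃ S : Finset (Finset (Fin n)), (∀ A ∈ S, A ≠ ∅ ∧ A.card ≤ k) ∧ IsUnitFree S ∧
    S.card = m}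

/-- duality: a unit-free family is orthogonal to a vector with no zero coordinate -/
theorem exists_weights {n : ℕ} (S : Finset (Finset (Fin n))) (h : IsUnitFree S) :
    ∃ x : Fin n → ℝ, (∀ i, x i ≠ 0) ∧ ∀ A ∈ S, ∑ i ∈ A, x i = 0 := by
  classical
  set W := Submodule.span ℝ (vert '' (S : Set (Finset (Fin n)))) with hW
  -- the space of functionals vanishing on `W`
  let Y : Submodule ℝ (Module.Dual ℝ (Fin n → ℝ)) := W.dualAnnihilator
  let p : Fin n → Subspace ℝ Y := fun i =>
    LinearMap.ker ((Module.Dual.eval ℝ (Fin n → ℝ) (Pi.single i 1)).comp Y.subtype)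
  have hp : ∀ i, p i ≠ ⊤ := by
    intro i hi
    obtain ⟨φ, hφ1, hφ2⟩ := Submodule.exists_dual_map_eq_bot_of_notMem (h i) inferInstance
    have hφY : φ ∈ Y := by
      rw [Submodule.mem_dualAnnihilator]
      intro w hw
      have : φ w ∈ W.map φ := Submodule.mem_map_of_mem hw
      rw [hφ2] at this
      simpa using this
    have : (⟨φ, hφY⟩ : Y) ∈ p i := by rw [hi]; trivial
    simp only [p, LinearMap.mem_ker, LinearMap.comp_apply, Submodule.subtype_apply,
      Module.Dual.eval_apply] at this
    exact hφ1 this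
  have hne : ∃ y : Y, ∀ i, y ∉ p i := by
    by_contra hcon
    push Not at hcon
    have hcov : ⋃ i, (p i : Set Y) = Set.univ := by
      ext y
      simp only [Set.mem_iUnion, Set.mem_univ, iff_true]
      exact hcon y
    obtain ⟨i, hi⟩ := Subspace.exists_eq_top_of_iUnion_eq_univ hcov
    exact hp i hi
  obtain ⟨y, hy⟩ := hne
  refine ⟨fun i => y.1 (Pi.single i 1), ?_, ?_⟩
  · intro i h0
    apply hy i
    simp only [p, LinearMap.mem_ker, LinearMap.comp_apply, Submodule.subtype_apply,
      Module.Dual.eval_apply]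
    exact h0
  · intro A hA
    have h1 : y.1 (vert A) = 0 := by
      have := (Submodule.mem_dualAnnihilator y.1).1 y.2 (vert A)
        (Submodule.subset_span ⟨A, hA, rfl⟩)
      exact this
    have h2 : vert A = ∑ i ∈ A, (Pi.single i 1 : Fin n → ℝ) := by
      funext j
      rw [Finset.sum_apply]
      simp [vert, Pi.single_apply]
    rw [h2, map_sum] at h1
    exact h1

/-- converse direction -/
theorem isUnitFree_of_weights {n : ℕ} (S : Finset (Finset (Fin n))) (x : Fin n → ℝ)
    (hx : ∀ i, x i ≠ 0) (hS : ∀ A ∈ S, ∑ i ∈ A, x i = 0) : IsUnitFree S := by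
  classical
  intro i hi
  let φ : (Fin n → ℝ) →ₗ[ℝ] ℝ := ∑ j, (x j) • LinearMap.proj j
  have hφ : ∀ v, φ v = ∑ j, x j * v j := by
    intro v
    simp [φ, LinearMap.sum_apply]
  have hle : Submodule.span ℝ (vert '' (S : Set (Finset (Fin n)))) ≤ LinearMap.ker φ := by
    rw [Submodule.span_le]
    rintro _ ⟨A, hA, rfl⟩
    rw [SetLike.mem_coe, LinearMap.mem_ker, hφ]
    have := hS A hA
    simp only [vert, mul_ite, mul_one, mul_zero]
    rw [Finset.sum_ite_mem, Finset.univ_inter]
    exact this
  have := hle hi
  rw [LinearMap.mem_ker, hφ] at this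
  apply hx i
  simpa [Pi.single_apply] using this

section Chain

variable {n : ℕ} (x : Fin n → ℝ)

/-- positive part of the support -/
noncomputable def pos (A : Finset (Fin n)) : Finset {i // 0 < x i} := A.subtype _

/-- negative part of the support -/
noncomputable def neg (A : Finset (Fin n)) : Finset {i // x i < 0} := A.subtype _

theorem mem_pos {A : Finset (Fin n)} {i : {i // 0 < x i}} : i ∈ pos x A ↔ i.1 ∈ A := by
  simp [pos]

theorem mem_neg {A : Finset (Fin n)} {i : {i // x i < 0}} : i ∈ neg x A ↔ i.1 ∈ A := by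
  simp [neg]

theorem filter_compl (hx : ∀ i, x i ≠ 0) (A : Finset (Fin n)) :
    A.filter (fun i => ¬ 0 < x i) = A.filter (fun i => x i < 0) := by
  apply Finset.filter_congr
  intro i _
  constructor
  · intro h; exact lt_of_le_of_ne (not_lt.1 h) (hx i)
  · intro h; exact not_lt.2 h.le

theorem sum_split (hx : ∀ i, x i ≠ 0) (A : Finset (Fin n)) :
    ∑ i ∈ A, x i = ∑ i ∈ pos x A, x i.1 + ∑ i ∈ neg x A, x i.1 := by
  unfold pos neg
  rw [Finset.sum_subtype_eq_sum_filter (f := x), Finset.sum_subtype_eq_sum_filter (f := x),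
    ← filter_compl x hx, Finset.sum_filter_add_sum_filter_not]

theorem card_split (hx : ∀ i, x i ≠ 0) (A : Finset (Fin n)) :
    (pos x A).card + (neg x A).card = A.card := by
  unfold pos neg
  rw [Finset.card_subtype, Finset.card_subtype, ← filter_compl x hx,
    Finset.card_filter_add_card_filter_not]

theorem eq_of_parts (hx : ∀ i, x i ≠ 0) {A B : Finset (Fin n)} (h1 : pos x A = pos x B)
    (h2 : neg x A = neg x B) : A = B := by
  ext i
  rcases lt_or_gt_of_ne (hx i) with h | h
  · have := mem_neg x (A := A) (i := ⟨i, h⟩)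
    have h' := mem_neg x (A := B) (i := ⟨i, h⟩)
    rw [← this, ← h', h2]
  · have := mem_pos x (A := A) (i := ⟨i, h⟩)
    have h' := mem_pos x (A := B) (i := ⟨i, h⟩)
    rw [← this, ← h', h1]

theorem card_parts (hx : ∀ i, x i ≠ 0) :
    Fintype.card {i // 0 < x i} + Fintype.card {i // x i < 0} = n := by
  have h := card_split x hx (Finset.univ : Finset (Fin n))
  have h1 : pos x Finset.univ = Finset.univ := by ext i; simp [mem_pos]
  have h2 : neg x Finset.univ = Finset.univ := by ext i; simp [mem_neg]
  rw [h1, h2] at h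
  simpa using h

/-- if two zero-sum sets are both initial for the same pair of numberings and the positive part of
the first is not larger, then the negative part of the first is strictly smaller -/
theorem chain_aux (hx : ∀ i, x i ≠ 0) {A B : Finset (Fin n)} (hA : ∑ i ∈ A, x i = 0)
    (hB : ∑ i ∈ B, x i = 0) (hne : A ≠ B) (f : Numbering {i // 0 < x i})
    (g : Numbering {i // x i < 0}) (hfA : f.IsPrefix (pos x A)) (hfB : f.IsPrefix (pos x B))
    (hgA : g.IsPrefix (neg x A)) (hgB : g.IsPrefix (neg x B))
    (hle : (pos x A).card ≤ (pos x B).card) : (neg x A).card < (neg x B).card := by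
  classical
  by_contra hcon
  push Not at hcon
  have h1 : pos x A ⊆ pos x B := hfA.subset_of_card_le_card hfB hle
  have h2 : neg x B ⊆ neg x A := hgB.subset_of_card_le_card hgA hcon
  rw [sum_split x hx] at hA hB
  have h3 : ∑ i ∈ pos x B, x i.1 = ∑ i ∈ pos x A, x i.1 + ∑ i ∈ pos x B \ pos x A, x i.1 := by
    rw [add_comm, Finset.sum_sdiff h1]
  have h4 : ∑ i ∈ neg x A, x i.1 = ∑ i ∈ neg x B, x i.1 + ∑ i ∈ neg x A \ neg x B, x i.1 := by
    rw [add_comm, Finset.sum_sdiff h2]
  have h5 : 0 ≤ ∑ i ∈ pos x B \ pos x A, x i.1 := Finset.sum_nonneg fun i _ => i.2.le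
  have h6 : ∑ i ∈ neg x A \ neg x B, x i.1 ≤ 0 := Finset.sum_nonpos fun i _ => i.2.le
  have h7 : ∑ i ∈ pos x B \ pos x A, x i.1 = 0 := by linarith
  have h8 : ∑ i ∈ neg x A \ neg x B, x i.1 = 0 := by linarith
  have h9 : pos x B \ pos x A = ∅ := by
    by_contra hne'
    have := Finset.sum_pos (f := fun i : {i // 0 < x i} => x i.1) (fun i _ => i.2)
      (Finset.nonempty_iff_ne_empty.2 hne')
    linarith
  have h10 : neg x A \ neg x B = ∅ := by
    by_contra hne'
    have := Finset.sum_neg (f := fun i : {i // x i < 0} => x i.1) (fun i _ => i.2)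
      (Finset.nonempty_iff_ne_empty.2 hne')
    linarith
  apply hne
  apply eq_of_parts x hx
  · exact Finset.Subset.antisymm h1 (Finset.sdiff_eq_empty_iff_subset.1 h9)
  · exact Finset.Subset.antisymm (Finset.sdiff_eq_empty_iff_subset.1 h10) h2

theorem chain (hx : ∀ i, x i ≠ 0) {A B : Finset (Fin n)} (hA : ∑ i ∈ A, x i = 0)
    (hB : ∑ i ∈ B, x i = 0) (hne : A ≠ B) (f : Numbering {i // 0 < x i})
    (g : Numbering {i // x i < 0}) (hfA : f.IsPrefix (pos x A)) (hfB : f.IsPrefix (pos x B))
    (hgA : g.IsPrefix (neg x A)) (hgB : g.IsPrefix (neg x B)) :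
    ((pos x A).card < (pos x B).card ∧ (neg x A).card < (neg x B).card) ∨
    ((pos x B).card < (pos x A).card ∧ (neg x B).card < (neg x A).card) := by
  rcases lt_trichotomy (pos x A).card (pos x B).card with h | h | h
  · exact Or.inl ⟨h, chain_aux x hx hA hB hne f g hfA hfB hgA hgB h.le⟩
  · have h1 := chain_aux x hx hA hB hne f g hfA hfB hgA hgB h.le
    have h2 := chain_aux x hx hB hA hne.symm f g hfB hfA hgB hgA h.ge
    omega
  · exact Or.inr ⟨h, chain_aux x hx hB hA hne.symm f g hfB hfA hgB hgA h.le⟩

/-- The averaging (LYM) bound. -/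
theorem lym (V : ℕ) (F : Finset (Finset (Fin n)))
    (hV : ∀ (f : Numbering {i // 0 < x i}) (g : Numbering {i // x i < 0}),
      ∑ A ∈ F.filter (fun A => f.IsPrefix (pos x A) ∧ g.IsPrefix (neg x A)),
        (Fintype.card {i // 0 < x i}).choose (pos x A).card *
        (Fintype.card {i // x i < 0}).choose (neg x A).card ≤ V) :
    F.card ≤ V := by
  classical
  set p := Fintype.card {i // 0 < x i} with hp
  set q := Fintype.card {i // x i < 0} with hq
  have h1 : ∑ fg : Numbering {i // 0 < x i} × Numbering {i // x i < 0},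
      ∑ A ∈ F.filter (fun A => fg.1.IsPrefix (pos x A) ∧ fg.2.IsPrefix (neg x A)),
        p.choose (pos x A).card * q.choose (neg x A).card ≤ (p.factorial * q.factorial) * V := by
    refine le_trans (Finset.sum_le_sum fun fg _ => hV fg.1 fg.2) ?_
    rw [Finset.sum_const, smul_eq_mul, Finset.card_univ, Fintype.card_prod,
      Fintype.card_numbering, Fintype.card_numbering]
  have h2 : ∑ fg : Numbering {i // 0 < x i} × Numbering {i // x i < 0},
      ∑ A ∈ F.filter (fun A => fg.1.IsPrefix (pos x A) ∧ fg.2.IsPrefix (neg x A)),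
        p.choose (pos x A).card * q.choose (neg x A).card =
      ∑ A ∈ F, (p.factorial * q.factorial) := by
    simp_rw [Finset.sum_filter]
    rw [Finset.sum_comm]
    apply Finset.sum_congr rfl
    intro A _
    rw [← Finset.sum_filter, Finset.sum_const, smul_eq_mul]
    have h3 : (univ.filter (fun fg : Numbering {i // 0 < x i} × Numbering {i // x i < 0} =>
        fg.1.IsPrefix (pos x A) ∧ fg.2.IsPrefix (neg x A))) =
        Numbering.prefixed (pos x A) ×ˢ Numbering.prefixed (neg x A) := by
      ext fg
      simp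
    rw [h3, Finset.card_product, Numbering.card_prefixed, Numbering.card_prefixed, ← hp, ← hq]
    have h4 : (pos x A).card ≤ p := Finset.card_le_univ _
    have h5 : (neg x A).card ≤ q := Finset.card_le_univ _
    have h6 := Nat.choose_mul_factorial_mul_factorial h4
    have h7 := Nat.choose_mul_factorial_mul_factorial h5
    calc _ = (p.choose (pos x A).card * (pos x A).card.factorial *
          (p - (pos x A).card).factorial) * (q.choose (neg x A).card *
          (neg x A).card.factorial * (q - (neg x A).card).factorial) := by ring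
      _ = _ := by rw [h6, h7]
  rw [h2, Finset.sum_const, smul_eq_mul] at h1
  have hpos : 0 < p.factorial * q.factorial := by positivity
  exact Nat.le_of_mul_le_mul_left (by linarith [mul_comm F.card (p.factorial * q.factorial)]) hpos

theorem pos_card_pos (hx : ∀ i, x i ≠ 0) {A : Finset (Fin n)} (hA : ∑ i ∈ A, x i = 0)
    (hne : A ≠ ∅) : 1 ≤ (pos x A).card ∧ 1 ≤ (neg x A).card := by
  have hs := sum_split x hx A
  have hc := card_split x hx A
  rw [hA] at hs
  have hApos : 0 < A.card := Finset.card_pos.2 (Finset.nonempty_iff_ne_empty.2 hne)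
  constructor
  · by_contra h
    have h0 : pos x A = ∅ := Finset.card_eq_zero.1 (by omega)
    rw [h0] at hs hc
    have hneg : (neg x A).Nonempty := Finset.card_pos.1 (by simp at hc; omega)
    have := Finset.sum_neg (f := fun i : {i // x i < 0} => x i.1) (fun i _ => i.2) hneg
    simp at hs
    linarith
  · by_contra h
    have h0 : neg x A = ∅ := Finset.card_eq_zero.1 (by omega)
    rw [h0] at hs hc
    have hpos : (pos x A).Nonempty := Finset.card_pos.1 (by simp at hc; omega)
    have := Finset.sum_pos (f := fun i : {i // 0 < x i} => x i.1) (fun i _ => i.2) hpos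
    simp at hs
    linarith

end Chain

section Lower

/-- The set of weight `(a, b)` vectors with respect to the first `p` coordinates. -/
def block (n p a b : ℕ) : Finset (Finset (Fin n)) :=
  univ.filter (fun A => (A.filter (fun i => i.1 < p)).card = a ∧
    (A.filter (fun i => ¬ i.1 < p)).card = b)

theorem card_block {n p q : ℕ} (h : p + q = n) (a b : ℕ) :
    (block n p a b).card = p.choose a * q.choose b := by
  classical
  set P : Finset (Fin n) := univ.filter (fun i => i.1 < p) with hP
  set Q : Finset (Fin n) := univ.filter (fun i => ¬ i.1 < p) with hQ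
  have hPc : P.card = p := by
    rw [hP]
    have : (univ.filter (fun i : Fin n => i.1 < p)).card = (Finset.range p).card := by
      apply Finset.card_bij (fun i _ => i.1)
      · intro i hi; simpa using (Finset.mem_filter.1 hi).2
      · intro i _ j _ hij; exact Fin.ext hij
      · intro j hj
        have := Finset.mem_range.1 hj
        exact ⟨⟨j, by omega⟩, by simp [this], rfl⟩
    rw [this, Finset.card_range]
  have hQc : Q.card = q := by
    have h1 := Finset.card_filter_add_card_filter_not (s := (univ : Finset (Fin n)))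
      (fun i => i.1 < p)
    rw [Finset.card_univ, Fintype.card_fin] at h1
    have h2 : P.card + Q.card = n := h1
    omega
  have h1 : (block n p a b).card = (P.powersetCard a ×ˢ Q.powersetCard b).card := by
    apply Finset.card_bij (fun A _ => (A.filter (fun i => i.1 < p), A.filter (fun i => ¬ i.1 < p)))
    · intro A hA
      have := (Finset.mem_filter.1 hA).2
      rw [Finset.mem_product, Finset.mem_powersetCard, Finset.mem_powersetCard]
      refine ⟨⟨?_, this.1⟩, ⟨?_, this.2⟩⟩
      · intro i hi; simpa [hP] using (Finset.mem_filter.1 hi).2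
      · intro i hi; simpa [hQ] using (Finset.mem_filter.1 hi).2
    · intro A _ B _ hAB
      rw [Prod.mk.injEq] at hAB
      rw [← Finset.filter_union_filter_not_eq (fun i : Fin n => i.1 < p) A,
        ← Finset.filter_union_filter_not_eq (fun i : Fin n => i.1 < p) B, hAB.1, hAB.2]
    · rintro ⟨A, B⟩ hAB
      rw [Finset.mem_product, Finset.mem_powersetCard, Finset.mem_powersetCard] at hAB
      obtain ⟨⟨hA, hAc⟩, ⟨hB, hBc⟩⟩ := hAB
      have e1 : (A ∪ B).filter (fun i => i.1 < p) = A := by
        ext i
        simp only [Finset.mem_filter, Finset.mem_union]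
        constructor
        · rintro ⟨h1 | h1, h2⟩
          · exact h1
          · exact absurd h2 (Finset.mem_filter.1 (hB h1)).2
        · intro h1
          exact ⟨Or.inl h1, (Finset.mem_filter.1 (hA h1)).2⟩
      have e2 : (A ∪ B).filter (fun i => ¬ i.1 < p) = B := by
        ext i
        simp only [Finset.mem_filter, Finset.mem_union]
        constructor
        · rintro ⟨h1 | h1, h2⟩
          · exact absurd (Finset.mem_filter.1 (hA h1)).2 h2
          · exact h1
        · intro h1
          exact ⟨Or.inr h1, (Finset.mem_filter.1 (hB h1)).2⟩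
      refine ⟨A ∪ B, ?_, ?_⟩
      · rw [block, Finset.mem_filter, e1, e2]
        exact ⟨Finset.mem_univ _, hAc, hBc⟩
      · rw [e1, e2]
  rw [h1, Finset.card_product, Finset.card_powersetCard, Finset.card_powersetCard, hPc, hQc]

theorem block_card {n p a b : ℕ} {A : Finset (Fin n)} (hA : A ∈ block n p a b) :
    A.card = a + b := by
  have := (Finset.mem_filter.1 hA).2
  rw [← this.1, ← this.2, Finset.card_filter_add_card_filter_not]

/-- weights annihilating all blocks of type `(i k₁, i k₂)` -/
noncomputable def bw (n p k₁ k₂ : ℕ) : Fin n → ℝ := fun i => if i.1 < p then (k₂ : ℝ) else -(k₁ : ℝ)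

theorem bw_ne {n p k₁ k₂ : ℕ} (h1 : 1 ≤ k₁) (h2 : 1 ≤ k₂) (i : Fin n) : bw n p k₁ k₂ i ≠ 0 := by
  unfold bw
  split_ifs
  · exact_mod_cast (by omega : k₂ ≠ 0)
  · rw [neg_ne_zero]; exact_mod_cast (by omega : k₁ ≠ 0)

theorem bw_sum {n p k₁ k₂ a b : ℕ} (hab : a * k₂ = b * k₁) {A : Finset (Fin n)}
    (hA : A ∈ block n p a b) : ∑ i ∈ A, bw n p k₁ k₂ i = 0 := by
  have := (Finset.mem_filter.1 hA).2
  rw [← Finset.sum_filter_add_sum_filter_not A (fun i => i.1 < p)]
  have e1 : ∑ i ∈ A.filter (fun i => i.1 < p), bw n p k₁ k₂ i = a * k₂ := by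
    rw [Finset.sum_congr rfl (g := fun _ => (k₂ : ℝ))]
    · rw [Finset.sum_const, nsmul_eq_mul, this.1]
    · intro i hi
      simp [bw, (Finset.mem_filter.1 hi).2]
  have e2 : ∑ i ∈ A.filter (fun i => ¬ i.1 < p), bw n p k₁ k₂ i = b * (-k₁) := by
    rw [Finset.sum_congr rfl (g := fun _ => -(k₁ : ℝ))]
    · rw [Finset.sum_const, nsmul_eq_mul, this.2]
    · intro i hi
      have h := (Finset.mem_filter.1 hi).2
      simp only [bw]
      rw [if_neg h]
  rw [e1, e2]
  have : (a : ℝ) * k₂ = b * k₁ := by exact_mod_cast hab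
  linarith

end Lower

end Pool.Agent.H13.UnitFree
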