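import Mathlib

set_option autoImplicit false
set_option maxHeartbeats 4000000

open SimpleGraph

namespace Pool.Agent.H13.Up

/-- Hamiltonian case -/
def fw {V : Type} {G : SimpleGraph V} {n : ℕ} (h : ZMod n → V) (hadj : ∀ i, G.Adj (h i) (h (i + 1))) :
    ∀ (k : ℕ) (i : ZMod n), G.Walk (h i) (h (i + k))
  | 0, i => Walk.nil.copy rfl (by simp)
  | k + 1, i => (Walk.cons (hadj i) (fw h hadj k (i + 1))).copy rfl (by
      congr 1; push_cast; ring)

lemma fw_support {V : Type} {G : SimpleGraph V} {n : ℕ} (h : ZMod n → V)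
    (hadj : ∀ i, G.Adj (h i) (h (i + 1))) :
    ∀ (k : ℕ) (i : ZMod n), (fw h hadj k i).support =
      (List.range (k + 1)).map (fun t => h (i + (t : ℕ)))
  | 0, i => by simp [fw]
  | k + 1, i => by
    rw [fw, Walk.support_copy, Walk.support_cons, fw_support h hadj k (i + 1),
      List.range_succ_eq_map (n := k + 1), List.map_cons, List.map_map]
    congr 1
    · simp
    · apply List.map_congr_left
      intro t _
      simp only [Function.comp]
      congr 1
      push_cast
      ring

theorem ham (V : Type) [Finite V] (G : SimpleGraph V) (n : ℕ) [NeZero n] (h : ZMod n ≃ V)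
    (hadj : ∀ i, G.Adj (h i) (h (i + 1))) :
    ∃ P : ∀ x y : V, G.Walk x y,
        (∀ x y : V, x ≠ y → (P x y).IsPath) ∧
        ∃ c : ℕ, ∀ v : V,
          {p : V × V | p.1 ≠ p.2 ∧ v ∈ (P p.1 p.2).support}.ncard = c := by
  classical
  let P : ∀ x y : V, G.Walk x y := fun x y =>
    (fw h hadj ((h.symm y - h.symm x).val) (h.symm x)).copy (by simp) (by simp)
  have hP : ∀ x y, (P x y).support =
      (List.range ((h.symm y - h.symm x).val + 1)).map (fun t => h (h.symm x + (t : ℕ))) := by
    intro x y
    show ((fw h hadj ((h.symm y - h.symm x).val) (h.symm x)).copy _ _).support = _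
    rw [Walk.support_copy, fw_support]
  have hmem : ∀ x y v, v ∈ (P x y).support ↔
      (h.symm v - h.symm x).val ≤ (h.symm y - h.symm x).val := by
    intro x y v
    rw [hP, List.mem_map]
    constructor
    · rintro ⟨t, ht, rfl⟩
      rw [List.mem_range] at ht
      have h1 := ZMod.val_lt (h.symm y - h.symm x)
      rw [Equiv.symm_apply_apply, add_sub_cancel_left, ZMod.val_natCast, Nat.mod_eq_of_lt (by omega)]
      omega
    · intro hle
      refine ⟨(h.symm v - h.symm x).val, ?_, ?_⟩
      · rw [List.mem_range]; omega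
      · simp
  refine ⟨P, ?_, ?_⟩
  · intro x y _
    rw [Walk.isPath_def, hP]
    apply List.Nodup.map_on
    · intro a ha b hb hab
      rw [List.mem_range] at ha hb
      have h1 := ZMod.val_lt (h.symm y - h.symm x)
      have h2 := h.injective hab
      have h3 : ((a : ℕ) : ZMod n) = (b : ℕ) := add_left_cancel h2
      have h4 := congrArg ZMod.val h3
      rwa [ZMod.val_natCast, ZMod.val_natCast, Nat.mod_eq_of_lt (by omega),
        Nat.mod_eq_of_lt (by omega)] at h4
    · exact List.nodup_range
  · refine ⟨{p : V × V | p.1 ≠ p.2 ∧ (h 0) ∈ (P p.1 p.2).support}.ncard, ?_⟩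
    intro v
    set b := h.symm v with hb
    let e : V × V ≃ V × V :=
      { toFun := fun p => (h (h.symm p.1 - b), h (h.symm p.2 - b))
        invFun := fun p => (h (h.symm p.1 + b), h (h.symm p.2 + b))
        left_inv := by intro p; simp
        right_inv := by intro p; simp }
    have himg : {p : V × V | p.1 ≠ p.2 ∧ (h 0) ∈ (P p.1 p.2).support} =
        e '' {p : V × V | p.1 ≠ p.2 ∧ v ∈ (P p.1 p.2).support} := by
      ext p
      rw [Set.mem_image_equiv]
      show (p.1 ≠ p.2 ∧ (h 0) ∈ (P p.1 p.2).support) ↔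
        (h (h.symm p.1 + b) ≠ h (h.symm p.2 + b) ∧
          v ∈ (P (h (h.symm p.1 + b)) (h (h.symm p.2 + b))).support)
      rw [hmem, hmem]
      simp only [Equiv.symm_apply_apply, ne_eq, h.injective.eq_iff, add_left_inj,
        h.symm.injective.eq_iff, add_sub_add_right_eq_sub]
      have : h.symm v - (h.symm p.1 + b) = 0 - h.symm p.1 := by rw [hb]; ring
      rw [this]
    rw [himg, Set.ncard_image_of_injective _ e.injective]

end Pool.Agent.H13.Up
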