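import Mathlib

set_option autoImplicit false
set_option maxHeartbeats 4000000

open SimpleGraph

namespace Pool.Agent.H13.Up

theorem diam2 (V : Type) [Finite V] (G : SimpleGraph V) (hne : Nonempty V)
    (htr : ∀ x y : V, ∃ φ : G ≃g G, φ x = y)
    (hd : ∀ x y : V, x ≠ y → ¬ G.Adj x y → ∃ z, G.Adj x z ∧ G.Adj z y) :
    ∃ P : ∀ x y : V, G.Walk x y,
        (∀ x y : V, x ≠ y → (P x y).IsPath) ∧
        ∃ c : ℕ, ∀ v : V,
          {p : V × V | p.1 ≠ p.2 ∧ v ∈ (P p.1 p.2).support}.ncard = c := by
  classical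
  haveI := Fintype.ofFinite V
  obtain ⟨v0⟩ := hne
  let L := {p : V × V // p.1 ≠ p.2 ∧ ¬ G.Adj p.1 p.2}
  let N : L → Finset V := fun p => Finset.univ.filter (fun z => G.Adj p.1.1 z ∧ G.Adj z p.1.2)
  have hN : ∀ p : L, 0 < (N p).card := by
    intro p
    obtain ⟨z, hz⟩ := hd p.1.1 p.1.2 p.2.1 p.2.2
    exact Finset.card_pos.mpr ⟨z, Finset.mem_filter.mpr ⟨Finset.mem_univ _, hz⟩⟩
  let w : L → V → ℚ := fun p z => if z ∈ N p then 1 / ((N p).card : ℚ) else 0
  have hw0 : ∀ p z, 0 ≤ w p z := by
    intro p z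
    show 0 ≤ if z ∈ N p then 1 / ((N p).card : ℚ) else 0
    split_ifs <;> positivity
  have hw1 : ∀ p, ∑ z, w p z = 1 := by
    intro p
    show ∑ z, (if z ∈ N p then 1 / ((N p).card : ℚ) else 0) = 1
    rw [Finset.sum_ite_mem, Finset.univ_inter, Finset.sum_const, nsmul_eq_mul]
    have : ((N p).card : ℚ) ≠ 0 := by exact_mod_cast (hN p).ne'
    field_simp
  -- action on L
  let act : (G ≃g G) → L → L := fun φ p => ⟨(φ p.1.1, φ p.1.2), by
    refine ⟨fun h => p.2.1 (φ.injective h), ?_⟩
    intro h
    exact p.2.2 (φ.map_adj_iff.mp h)⟩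
  have hact : ∀ φ : G ≃g G, Function.Bijective (act φ) := by
    intro φ
    have hinj : Function.Injective (act φ) := by
      intro p q hpq
      have h1 := congrArg (fun r : L => r.1.1) hpq
      have h2 := congrArg (fun r : L => r.1.2) hpq
      exact Subtype.ext (Prod.ext (φ.injective h1) (φ.injective h2))
    exact Finite.injective_iff_bijective.mp hinj
  have hNact : ∀ (φ : G ≃g G) (p : L) (z : V), φ z ∈ N (act φ p) ↔ z ∈ N p := by
    intro φ p z
    show φ z ∈ Finset.univ.filter (fun z => G.Adj (φ p.1.1) z ∧ G.Adj z (φ p.1.2)) ↔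
      z ∈ Finset.univ.filter (fun z => G.Adj p.1.1 z ∧ G.Adj z p.1.2)
    simp only [Finset.mem_filter, Finset.mem_univ, true_and]
    rw [φ.map_adj_iff, φ.map_adj_iff]
  have hNcard : ∀ (φ : G ≃g G) (p : L), (N (act φ p)).card = (N p).card := by
    intro φ p
    symm
    apply Finset.card_bij (fun z _ => φ z)
    · intro z hz; exact (hNact φ p z).mpr hz
    · intro a _ b _ h; exact φ.injective h
    · intro z hz
      refine ⟨φ.symm z, ?_, by simp⟩
      rw [← hNact φ p]
      simpa using hz
  have hwact : ∀ (φ : G ≃g G) (p : L) (z : V), w (act φ p) (φ z) = w p z := by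
    intro φ p z
    show (if φ z ∈ N (act φ p) then 1 / ((N (act φ p)).card : ℚ) else 0) =
      if z ∈ N p then 1 / ((N p).card : ℚ) else 0
    rw [hNcard]
    simp only [hNact]
  set Λ : ℚ := ∑ p : L, w p v0 with hΛ
  have hload : ∀ z, ∑ p : L, w p z = Λ := by
    intro z
    obtain ⟨φ, hφ⟩ := htr v0 z
    rw [hΛ, ← hφ]
    rw [← (Equiv.ofBijective _ (hact φ)).sum_comp]
    apply Finset.sum_congr rfl
    intro p _
    exact hwact φ p v0
  have hLΛ : (Fintype.card L : ℚ) = Fintype.card V * Λ := by
    have h1 : ∑ z, ∑ p : L, w p z = ∑ p : L, ∑ z, w p z := Finset.sum_comm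
    simp only [hload, hw1, Finset.sum_const, nsmul_eq_mul, Finset.card_univ, mul_one] at h1
    exact h1.symm
  set k2 := (Finset.univ.filter (fun y => v0 ≠ y ∧ ¬ G.Adj v0 y)).card with hk2
  have hkx : ∀ x, (Finset.univ.filter (fun y => x ≠ y ∧ ¬ G.Adj x y)).card = k2 := by
    intro x
    obtain ⟨φ, hφ⟩ := htr v0 x
    symm
    apply Finset.card_bij (fun z _ => φ z)
    · intro z hz
      rw [Finset.mem_filter] at hz ⊢
      refine ⟨Finset.mem_univ _, ?_, ?_⟩
      · rw [← hφ]; intro h; exact hz.2.1 (φ.injective h)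
      · rw [← hφ, φ.map_adj_iff]; exact hz.2.2
    · intro a _ b _ h; exact φ.injective h
    · intro z hz
      rw [Finset.mem_filter] at hz
      refine ⟨φ.symm z, ?_, by simp⟩
      rw [Finset.mem_filter]
      refine ⟨Finset.mem_univ _, ?_, ?_⟩
      · intro h; apply hz.2.1; rw [← hφ, h]; simp
      · intro h; apply hz.2.2
        have := φ.map_adj_iff.mpr h
        rw [hφ] at this
        simpa using this
  have hLk : Fintype.card L = Fintype.card V * k2 := by
    rw [Fintype.card_subtype]
    have h1 : (Finset.univ.filter (fun p : V × V => p.1 ≠ p.2 ∧ ¬ G.Adj p.1 p.2)).card =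
        ∑ x : V, (Finset.univ.filter (fun y => x ≠ y ∧ ¬ G.Adj x y)).card := by
      simp only [Finset.card_filter]
      rw [Fintype.sum_prod_type]
    rw [h1]
    simp only [hkx, Finset.sum_const, Finset.card_univ, smul_eq_mul]
  have hΛk : Λ = k2 := by
    have hV : (Fintype.card V : ℚ) ≠ 0 := by
      have : 0 < Fintype.card V := Fintype.card_pos_iff.mpr ⟨v0⟩
      exact_mod_cast this.ne'
    have h1 : (Fintype.card L : ℚ) = Fintype.card V * k2 := by exact_mod_cast hLk
    rw [hLΛ] at h1
    exact mul_left_cancel₀ hV h1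
  -- Hall
  let t : L → Finset (V × Fin k2) := fun p => N p ×ˢ Finset.univ
  have hall : ∀ S : Finset L, S.card ≤ (S.biUnion t).card := by
    intro S
    have h1 : S.biUnion t = (S.biUnion N) ×ˢ (Finset.univ : Finset (Fin k2)) := by
      ext q
      simp only [Finset.mem_biUnion, Finset.mem_product, Finset.mem_univ, and_true, t]
    rw [h1, Finset.card_product, Finset.card_univ, Fintype.card_fin]
    have h2 : (S.card : ℚ) ≤ (S.biUnion N).card * k2 := by
      calc (S.card : ℚ) = ∑ p ∈ S, ∑ z, w p z := by simp [hw1]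
        _ = ∑ p ∈ S, ∑ z ∈ S.biUnion N, w p z := by
            apply Finset.sum_congr rfl
            intro p hp
            symm
            apply Finset.sum_subset (Finset.subset_univ _)
            intro z _ hz
            show (if z ∈ N p then 1 / ((N p).card : ℚ) else 0) = 0
            rw [if_neg]
            intro h
            exact hz (Finset.mem_biUnion.mpr ⟨p, hp, h⟩)
        _ = ∑ z ∈ S.biUnion N, ∑ p ∈ S, w p z := Finset.sum_comm
        _ ≤ ∑ z ∈ S.biUnion N, ∑ p : L, w p z := by
            apply Finset.sum_le_sum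
            intro z _
            exact Finset.sum_le_sum_of_subset_of_nonneg (Finset.subset_univ _)
              (fun p _ _ => hw0 p z)
        _ = (S.biUnion N).card * k2 := by
            simp [hload, hΛk]
    exact_mod_cast h2
  obtain ⟨f, hfinj, hf⟩ := (Finset.all_card_le_biUnion_card_iff_exists_injective t).mp hall
  have hfbij : Function.Bijective f := by
    rw [Fintype.bijective_iff_injective_and_card]
    refine ⟨hfinj, ?_⟩
    rw [hLk, Fintype.card_prod, Fintype.card_fin]
  have hmid : ∀ p : L, G.Adj p.1.1 (f p).1 ∧ G.Adj (f p).1 p.1.2 := by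
    intro p
    have h1 := hf p
    simp only [t, Finset.mem_product, Finset.mem_univ, and_true] at h1
    exact (Finset.mem_filter.mp h1).2
  let P : ∀ x y : V, G.Walk x y := fun x y =>
    if h : x = y then Walk.nil.copy rfl h
    else if ha : G.Adj x y then Walk.cons ha Walk.nil
    else Walk.cons (hmid ⟨(x, y), h, ha⟩).1 (Walk.cons (hmid ⟨(x, y), h, ha⟩).2 Walk.nil)
  have hs1 : ∀ x y, x ≠ y → G.Adj x y → (P x y).support = [x, y] := by
    intro x y h ha
    show (if h : x = y then Walk.nil.copy rfl h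
      else if ha : G.Adj x y then Walk.cons ha Walk.nil
      else Walk.cons (hmid ⟨(x, y), h, ha⟩).1 (Walk.cons (hmid ⟨(x, y), h, ha⟩).2 Walk.nil)).support = _
    rw [dif_neg h, dif_pos ha]
    rfl
  have hs2 : ∀ x y (h : x ≠ y) (ha : ¬ G.Adj x y),
      (P x y).support = [x, (f ⟨(x, y), h, ha⟩).1, y] := by
    intro x y h ha
    show (if h : x = y then Walk.nil.copy rfl h
      else if ha : G.Adj x y then Walk.cons ha Walk.nil
      else Walk.cons (hmid ⟨(x, y), h, ha⟩).1 (Walk.cons (hmid ⟨(x, y), h, ha⟩).2 Walk.nil)).support = _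
    rw [dif_neg h, dif_neg ha]
    rfl
  refine ⟨P, ?_, ?_⟩
  · intro x y hxy
    rw [Walk.isPath_def]
    by_cases ha : G.Adj x y
    · rw [hs1 x y hxy ha]
      simp [hxy]
    · rw [hs2 x y hxy ha]
      have h1 := (hmid ⟨(x, y), hxy, ha⟩).1.ne
      have h2 := (hmid ⟨(x, y), hxy, ha⟩).2.ne
      simp only [List.nodup_cons, List.mem_cons, List.not_mem_nil, or_false, not_or,
        not_false_eq_true, List.nodup_nil, and_true]
      exact ⟨⟨h1, hxy⟩, h2⟩
  · let A : V → Set (V × V) := fun v => {p | p.1 ≠ p.2 ∧ (v = p.1 ∨ v = p.2)}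
    let B : V → Set (V × V) := fun v => {p | ∃ (h : p.1 ≠ p.2) (ha : ¬ G.Adj p.1 p.2),
      (f ⟨p, h, ha⟩).1 = v}
    refine ⟨(A v0).ncard + k2, ?_⟩
    intro v
    have hAB : {p : V × V | p.1 ≠ p.2 ∧ v ∈ (P p.1 p.2).support} = A v ∪ B v := by
      ext ⟨x, y⟩
      show (x ≠ y ∧ v ∈ (P x y).support) ↔ (x ≠ y ∧ (v = x ∨ v = y)) ∨
        ∃ (h : x ≠ y) (ha : ¬ G.Adj x y), (f ⟨(x, y), h, ha⟩).1 = v
      by_cases hxy : x = y
      · simp [hxy]
      by_cases ha : G.Adj x y
      · rw [hs1 x y hxy ha]
        simp [hxy, ha]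
      · rw [hs2 x y hxy ha]
        simp only [List.mem_cons, List.not_mem_nil, or_false, ne_eq, hxy, not_false_eq_true, ha,
          true_and, exists_true_left]
        constructor
        · rintro (h | h | h)
          · exact Or.inl (Or.inl h)
          · exact Or.inr h.symm
          · exact Or.inl (Or.inr h)
        · rintro ((h | h) | h)
          · exact Or.inl h
          · exact Or.inr (Or.inr h)
          · exact Or.inr (Or.inl h.symm)
    have hdisj : Disjoint (A v) (B v) := by
      rw [Set.disjoint_left]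
      rintro ⟨x, y⟩ ⟨_, h2⟩ ⟨h3, h4, h5⟩
      have e1 := (hmid ⟨(x, y), h3, h4⟩).1.ne
      have e2 := (hmid ⟨(x, y), h3, h4⟩).2.ne
      rw [h5] at e1 e2
      rcases h2 with h | h
      · exact e1 h.symm
      · exact e2 h
    have hAc : (A v).ncard = (A v0).ncard := by
      obtain ⟨φ, hφ⟩ := htr v0 v
      have : A v = (fun p : V × V => (φ p.1, φ p.2)) '' (A v0) := by
        ext ⟨x, y⟩
        constructor
        · rintro ⟨h1, h2⟩
          refine ⟨(φ.symm x, φ.symm y), ⟨?_, ?_⟩, by simp⟩
          · intro h; exact h1 (φ.symm.injective h)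
          · rcases h2 with h | h
            · left; show v0 = φ.symm x; rw [← (show v = x from h), ← hφ]; simp
            · right; show v0 = φ.symm y; rw [← (show v = y from h), ← hφ]; simp
        · rintro ⟨⟨x', y'⟩, ⟨h1, h2⟩, h3⟩
          simp only [Prod.mk.injEq] at h3
          obtain ⟨rfl, rfl⟩ := h3
          refine ⟨fun h => h1 (φ.injective h), ?_⟩
          rcases h2 with h | h
          · left; show v = φ x'; rw [← hφ]; exact congrArg φ h
          · right; show v = φ y'; rw [← hφ]; exact congrArg φ h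
      rw [this, Set.ncard_image_of_injective]
      rintro ⟨a, b⟩ ⟨a', b'⟩ h
      simp only [Prod.mk.injEq] at h
      exact Prod.ext (φ.injective h.1) (φ.injective h.2)
    have hBc : (B v).ncard = k2 := by
      have : B v = Set.range (fun j : Fin k2 =>
          ((Equiv.ofBijective f hfbij).symm (v, j)).1) := by
        ext p
        constructor
        · rintro ⟨h1, h2, h3⟩
          refine ⟨(f ⟨p, h1, h2⟩).2, ?_⟩
          have : (v, (f ⟨p, h1, h2⟩).2) = f ⟨p, h1, h2⟩ := by rw [← h3]
          show ((Equiv.ofBijective f hfbij).symm (v, (f ⟨p, h1, h2⟩).2)).1 = p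
          rw [this, Equiv.ofBijective_symm_apply_apply]
        · rintro ⟨j, rfl⟩
          set q := (Equiv.ofBijective f hfbij).symm (v, j) with hq
          refine ⟨q.2.1, q.2.2, ?_⟩
          show (f q).1 = v
          have : f q = (v, j) := (Equiv.ofBijective f hfbij).apply_symm_apply (v, j)
          rw [this]
      rw [this, ← Set.image_univ, Set.ncard_image_of_injective, Set.ncard_univ, Nat.card_fin]
      intro j j' h
      have h1 := Subtype.ext h
      have h2 := (Equiv.ofBijective f hfbij).symm.injective h1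
      exact (Prod.ext_iff.mp h2).2
    rw [hAB, Set.ncard_union_eq hdisj (Set.toFinite _) (Set.toFinite _), hAc, hBc]

end Pool.Agent.H13.Up
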