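import Mathlib

set_option autoImplicit false

namespace Pool.Agent.H13.Uq

open Finset

variable {Ω : Type} [Fintype Ω] [DecidableEq Ω]

lemma sum_sdiff_le (g : Finset Ω → ℝ) (hg : ∀ S, 0 ≤ g S) (X R : Finset Ω) :
    ∑ S ∈ X.powerset, g (S \ R) ≤ 2 ^ R.card * ∑ S ∈ (X \ R).powerset, g S := by
  have hinj : Set.InjOn (fun S : Finset Ω => (S \ R, S ∩ R)) (X.powerset : Set (Finset Ω)) := by
    intro S _ S' _ h
    simp only [Prod.mk.injEq] at h
    rw [← sdiff_union_inter S R, ← sdiff_union_inter S' R, h.1, h.2]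
  have h1 : ∑ S ∈ X.powerset, g (S \ R) =
      ∑ p ∈ X.powerset.image (fun S : Finset Ω => (S \ R, S ∩ R)), g p.1 := by
    rw [sum_image hinj]
  rw [h1]
  have hsub : X.powerset.image (fun S : Finset Ω => (S \ R, S ∩ R)) ⊆
      (X \ R).powerset ×ˢ R.powerset := by
    intro p hp
    rw [mem_image] at hp
    obtain ⟨S, hS, rfl⟩ := hp
    rw [mem_powerset] at hS
    rw [mem_product, mem_powerset, mem_powerset]
    exact ⟨sdiff_subset_sdiff hS (le_refl _), inter_subset_right⟩
  refine (sum_le_sum_of_subset_of_nonneg hsub (fun p _ _ => hg p.1)).trans ?_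
  rw [sum_product]
  simp only [sum_const, card_powerset, nsmul_eq_mul, ← mul_sum]
  push_cast
  exact le_refl _

lemma sumA (π : Equiv.Perm Ω) (x : ℝ) (hx0 : 0 ≤ x) (hx1 : x ≤ 1) : ∀ X : Finset Ω,
    (∀ y ∈ X, π y ≠ y) →
    ∑ S ∈ X.powerset, x ^ (S ∪ S.image π).card ≤ (1 + 4 * x ^ 2) ^ X.card := by
  intro X
  induction X using Finset.induction_on with
  | empty => intro _; simp
  | insert a X ha ih =>
    intro hX
    have haa : π a ≠ a := hX a (mem_insert_self _ _)
    have hih := ih (fun y hy => hX y (mem_insert_of_mem hy))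
    set g : Finset Ω → ℝ := fun S => x ^ (S ∪ S.image π).card with hg
    have hg0 : ∀ S, 0 ≤ g S := fun S => pow_nonneg hx0 _
    set R : Finset Ω := {π a, π⁻¹ a} with hR
    have hRc : R.card ≤ 2 := card_le_two
    rw [sum_powerset_insert ha, card_insert_of_notMem ha, pow_succ]
    have key : ∀ S ∈ X.powerset, g (insert a S) ≤ x ^ 2 * g (S \ R) := by
      intro S hS
      rw [mem_powerset] at hS
      have haS : a ∉ S := fun h => ha (hS h)
      simp only [hg, ← pow_add]
      apply pow_le_pow_of_le_one hx0 hx1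
      have hdisj : Disjoint ({a, π a} : Finset Ω) ((S \ R) ∪ (S \ R).image π) := by
        rw [disjoint_left]
        intro z hz hz2
        rw [mem_union, mem_image] at hz2
        rw [mem_insert, mem_singleton] at hz
        rcases hz2 with hz2 | ⟨y, hy, hyz⟩
        · rw [mem_sdiff] at hz2
          rcases hz with rfl | rfl
          · exact haS hz2.1
          · exact hz2.2 (by simp [hR])
        · rw [mem_sdiff] at hy
          rcases hz with rfl | rfl
          · exact hy.2 (by rw [hR, ← hyz]; simp)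
          · have := π.injective hyz
            subst this
            exact haS hy.1
      have h2 : ({a, π a} : Finset Ω).card = 2 := card_pair haa.symm
      rw [← h2, ← card_union_of_disjoint hdisj]
      apply card_le_card
      intro z hz
      simp only [mem_union, mem_insert, mem_singleton, mem_sdiff, mem_image] at hz ⊢
      rcases hz with (rfl | rfl) | (hz | ⟨y, hy, rfl⟩)
      · left; left; rfl
      · right; exact ⟨a, Or.inl rfl, rfl⟩
      · left; right; exact hz.1
      · right; exact ⟨y, Or.inr hy.1, rfl⟩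
    have h1 : ∑ S ∈ X.powerset, g (insert a S) ≤ x ^ 2 * (4 * ∑ S ∈ X.powerset, g S) := by
      calc ∑ S ∈ X.powerset, g (insert a S) ≤ ∑ S ∈ X.powerset, x ^ 2 * g (S \ R) :=
            sum_le_sum key
        _ = x ^ 2 * ∑ S ∈ X.powerset, g (S \ R) := by rw [mul_sum]
        _ ≤ x ^ 2 * (2 ^ R.card * ∑ S ∈ (X \ R).powerset, g S) :=
            mul_le_mul_of_nonneg_left (sum_sdiff_le g hg0 X R) (by positivity)
        _ ≤ x ^ 2 * (4 * ∑ S ∈ X.powerset, g S) := by
            apply mul_le_mul_of_nonneg_left _ (by positivity)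
            apply mul_le_mul
            · calc (2 : ℝ) ^ R.card ≤ 2 ^ 2 := pow_le_pow_right₀ (by norm_num) hRc
                _ = 4 := by norm_num
            · apply sum_le_sum_of_subset_of_nonneg
              · exact powerset_mono.mpr sdiff_subset
              · intro S _ _; exact hg0 S
            · exact sum_nonneg (fun S _ => hg0 S)
            · norm_num
    have hs0 : 0 ≤ ∑ S ∈ X.powerset, g S := sum_nonneg (fun S _ => hg0 S)
    calc ∑ S ∈ X.powerset, g S + ∑ S ∈ X.powerset, g (insert a S)
        ≤ ∑ S ∈ X.powerset, g S + x ^ 2 * (4 * ∑ S ∈ X.powerset, g S) := by linarith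
      _ = (∑ S ∈ X.powerset, g S) * (1 + 4 * x ^ 2) := by ring
      _ ≤ (1 + 4 * x ^ 2) ^ X.card * (1 + 4 * x ^ 2) :=
          mul_le_mul_of_nonneg_right hih (by positivity)

/-- moved points -/
def mvd (π : Equiv.Perm Ω) : Finset Ω := univ.filter (fun x => π x ≠ x)

noncomputable def FF (π : Equiv.Perm Ω) (H : Finset Ω) : ℝ :=
  (1 / 2 : ℝ) ^ (H.image π \ H).card

noncomputable def ww (π : Equiv.Perm Ω) (x : Ω) : ℝ := if π x ≠ x then 1 / 2 else 1

section block

variable {t : ℕ} (b : Ω → Fin t) (π : Equiv.Perm Ω)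

def blk (i : Fin t) : Finset Ω := univ.filter (fun x => b x = i)

noncomputable def WW (i : Fin t) : ℝ := ∑ x ∈ blk b i, ww π x

lemma mem_pi {c : Fin t → Ω} (hc : c ∈ Fintype.piFinset (blk b)) (i : Fin t) : b (c i) = i := by
  rw [Fintype.mem_piFinset] at hc
  have := hc i
  simpa [blk] using this

lemma c_inj {c : Fin t → Ω} (hc : c ∈ Fintype.piFinset (blk b)) : Function.Injective c := by
  intro i j h
  rw [← mem_pi b hc i, h, mem_pi b hc j]

lemma FF_eq {c : Fin t → Ω} (hc : c ∈ Fintype.piFinset (blk b)) :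
    FF π (univ.image c) = ∑ S ∈ (mvd π).powerset,
      if (∀ i, ∀ u ∈ S ∪ S.image π, b u = i → c i = u) then ∏ i, ww π (c i) else 0 := by
  have hinj := c_inj b hc
  set H := univ.image c with hH
  have hHc : H.card = t := by rw [hH, card_image_of_injective _ hinj]; simp
  -- the condition means `S ∪ π S ⊆ H`
  have hcond : ∀ U : Finset Ω, (∀ i, ∀ u ∈ U, b u = i → c i = u) ↔ U ⊆ H := by
    intro U
    constructor
    · intro h u hu
      rw [hH, mem_image]
      exact ⟨b u, mem_univ _, h (b u) u hu rfl⟩
    · intro h i u hu hbu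
      have := h hu
      rw [hH, mem_image] at this
      obtain ⟨j, _, hj⟩ := this
      have h2 := mem_pi b hc j
      rw [hj, hbu] at h2
      rw [h2]; exact hj
  set Y := (mvd π).filter (fun x => x ∈ H ∧ π x ∈ H) with hY
  have hcond2 : ∀ S ∈ (mvd π).powerset, (S ∪ S.image π ⊆ H ↔ S ⊆ Y) := by
    intro S hS
    rw [mem_powerset] at hS
    constructor
    · intro h x hx
      rw [hY, mem_filter]
      exact ⟨hS hx, h (mem_union_left _ hx), h (mem_union_right _ (mem_image_of_mem _ hx))⟩
    · intro h x hx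
      rw [mem_union, mem_image] at hx
      rcases hx with hx | ⟨y, hy, rfl⟩
      · have := h hx; rw [hY, mem_filter] at this; exact this.2.1
      · have := h hy; rw [hY, mem_filter] at this; exact this.2.2
  have hprod : ∏ i, ww π (c i) = (1 / 2 : ℝ) ^ (H.filter (fun x => π x ≠ x)).card := by
    have : ∏ i, ww π (c i) = ∏ x ∈ H, ww π x := by
      rw [hH, prod_image (fun i _ j _ h => hinj h)]
    rw [this]
    unfold ww
    rw [prod_ite]
    simp
  have hsum : (∑ S ∈ (mvd π).powerset,
      if (∀ i, ∀ u ∈ S ∪ S.image π, b u = i → c i = u) then ∏ i, ww π (c i) else 0)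
      = 2 ^ Y.card * ∏ i, ww π (c i) := by
    have : (∑ S ∈ (mvd π).powerset,
        if (∀ i, ∀ u ∈ S ∪ S.image π, b u = i → c i = u) then ∏ i, ww π (c i) else 0)
        = ∑ S ∈ (mvd π).powerset, if S ⊆ Y then ∏ i, ww π (c i) else 0 := by
      apply sum_congr rfl
      intro S hS
      have : (∀ i, ∀ u ∈ S ∪ S.image π, b u = i → c i = u) ↔ S ⊆ Y := by
        rw [hcond, hcond2 S hS]
      simp only [this]
    rw [this, ← sum_filter, sum_const, nsmul_eq_mul]
    congr 1
    have : (mvd π).powerset.filter (fun S => S ⊆ Y) = Y.powerset := by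
      ext S
      rw [mem_filter, mem_powerset, mem_powerset]
      constructor
      · exact fun h => h.2
      · intro h
        exact ⟨h.trans (filter_subset _ _), h⟩
    rw [this, card_powerset]
    push_cast; rfl
  rw [hsum, hprod]
  unfold FF
  -- |πH \ H| + |Y| = |moved in H|
  have hcard : (H.image π \ H).card + Y.card = (H.filter (fun x => π x ≠ x)).card := by
    have e1 : H.image π \ H = (H.filter (fun x => π x ∉ H)).image π := by
      ext z
      simp only [mem_sdiff, mem_image, mem_filter]
      constructor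
      · rintro ⟨⟨y, hy, rfl⟩, h2⟩; exact ⟨y, ⟨hy, h2⟩, rfl⟩
      · rintro ⟨y, ⟨hy, h2⟩, rfl⟩; exact ⟨⟨y, hy, rfl⟩, h2⟩
    rw [e1, card_image_of_injective _ π.injective]
    have e2 : Y = (H.filter (fun x => π x ≠ x)).filter (fun x => π x ∈ H) := by
      ext z
      simp only [hY, mem_filter, mvd, mem_univ, true_and]
      tauto
    have e3 : H.filter (fun x => π x ∉ H) =
        (H.filter (fun x => π x ≠ x)).filter (fun x => ¬ π x ∈ H) := by
      ext z
      simp only [mem_filter]
      constructor
      · rintro ⟨h1, h2⟩; exact ⟨⟨h1, fun h => h2 (by rw [h]; exact h1)⟩, h2⟩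
      · rintro ⟨⟨h1, _⟩, h2⟩; exact ⟨h1, h2⟩
    rw [e2, e3, add_comm]
    exact card_filter_add_card_filter_not _
  rw [← hcard, pow_add]
  have : (2 : ℝ) ^ Y.card * (1 / 2) ^ Y.card = 1 := by
    rw [← mul_pow]; norm_num
  calc (1 / 2 : ℝ) ^ (H.image π \ H).card
      = (1 / 2 : ℝ) ^ (H.image π \ H).card * (2 ^ Y.card * (1 / 2) ^ Y.card) := by
        rw [this, mul_one]
    _ = _ := by ring

lemma ww_pos (x : Ω) : 1 / 2 ≤ ww π x := by
  unfold ww; split <;> norm_num

lemma WW_ge (B : ℕ) (hB : ∀ i, B ≤ (blk b i).card) (i : Fin t) : (B : ℝ) / 2 ≤ WW b π i := by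
  unfold WW
  calc (B : ℝ) / 2 ≤ ((blk b i).card : ℝ) * (1 / 2) := by
        have : (B : ℝ) ≤ (blk b i).card := by exact_mod_cast hB i
        linarith
    _ = ∑ x ∈ blk b i, (1 / 2 : ℝ) := by rw [sum_const, nsmul_eq_mul]
    _ ≤ _ := sum_le_sum (fun x _ => ww_pos π x)

/-- one term -/
lemma term_le (B : ℕ) (hB1 : 1 ≤ B) (hB : ∀ i, B ≤ (blk b i).card) (U : Finset Ω)
    (hU : ∀ u ∈ U, π u ≠ u) :
    (∑ c ∈ Fintype.piFinset (blk b),
      if (∀ i, ∀ u ∈ U, b u = i → c i = u) then ∏ i, ww π (c i) else 0)
      ≤ (∏ i, WW b π i) * (1 / (B : ℝ)) ^ U.card := by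
  have hBr : (1 : ℝ) ≤ B := by exact_mod_cast hB1
  have h1 : (∑ c ∈ Fintype.piFinset (blk b),
      if (∀ i, ∀ u ∈ U, b u = i → c i = u) then ∏ i, ww π (c i) else 0)
      = ∏ i, ∑ x ∈ blk b i, if (∀ u ∈ U, b u = i → x = u) then ww π x else 0 := by
    rw [prod_univ_sum]
    apply sum_congr rfl
    intro c _
    rw [Finset.prod_ite_zero]
    simp
  rw [h1]
  have h2 : U.card = ∑ i, (U.filter (fun u => b u = i)).card :=
    card_eq_sum_card_fiberwise (fun x _ => mem_univ _)
  rw [h2, ← prod_pow_eq_pow_sum, ← prod_mul_distrib]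
  apply prod_le_prod
  · intro i _
    apply sum_nonneg
    intro x _
    split
    · have := ww_pos π x; linarith
    · exact le_refl _
  · intro i _
    have hW := WW_ge b π B hB i
    rcases Nat.eq_zero_or_pos (U.filter (fun u => b u = i)).card with h0 | h0
    · rw [h0, pow_zero, mul_one]
      unfold WW
      apply sum_le_sum
      intro x _
      split
      · exact le_refl _
      · have := ww_pos π x; linarith
    · obtain ⟨u0, hu0⟩ := card_pos.mp h0
      rw [mem_filter] at hu0
      rcases Nat.lt_or_ge (U.filter (fun u => b u = i)).card 2 with h3 | h3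
      · have h4 : (U.filter (fun u => b u = i)).card = 1 := by omega
        rw [h4, pow_one]
        have h5 : (∑ x ∈ blk b i, if (∀ u ∈ U, b u = i → x = u) then ww π x else 0) ≤
            ∑ x ∈ blk b i, if x = u0 then ww π x else 0 := by
          apply sum_le_sum
          intro x _
          by_cases hx : x = u0
          · rw [if_pos hx]
            split
            · exact le_refl _
            · have := ww_pos π x; linarith
          · rw [if_neg hx, if_neg]
            intro h; exact hx (h u0 hu0.1 hu0.2)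
        refine h5.trans ?_
        rw [sum_ite_eq']
        have h6 : (if u0 ∈ blk b i then ww π u0 else 0) ≤ 1 / 2 := by
          split
          · unfold ww; rw [if_pos (hU u0 hu0.1)]
          · norm_num
        refine h6.trans ?_
        rw [mul_one_div, le_div_iff₀ (by linarith)]
        linarith
      · obtain ⟨x1, hx1, x2, hx2, hne⟩ := one_lt_card.mp
          (show 1 < (U.filter (fun u => b u = i)).card by omega)
        rw [mem_filter] at hx1 hx2
        have h5 : (∑ x ∈ blk b i, if (∀ u ∈ U, b u = i → x = u) then ww π x else 0) = 0 := by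
          apply sum_eq_zero
          intro x _
          rw [if_neg]
          intro h
          exact hne ((h x1 hx1.1 hx1.2).symm.trans (h x2 hx2.1 hx2.2))
        rw [h5]
        have : (0 : ℝ) ≤ WW b π i := by linarith
        positivity

lemma blockBound (B : ℕ) (hB1 : 1 ≤ B) (hB : ∀ i, B ≤ (blk b i).card) :
    ∑ c ∈ Fintype.piFinset (blk b), FF π (univ.image c) ≤
      (∏ i, WW b π i) * (1 + 4 * (1 / (B : ℝ)) ^ 2) ^ (mvd π).card := by
  have hBr : (1 : ℝ) ≤ B := by exact_mod_cast hB1
  have hWnn : 0 ≤ ∏ i, WW b π i := by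
    apply prod_nonneg
    intro i _
    have := WW_ge b π B hB i
    linarith
  calc ∑ c ∈ Fintype.piFinset (blk b), FF π (univ.image c)
      = ∑ c ∈ Fintype.piFinset (blk b), ∑ S ∈ (mvd π).powerset,
        if (∀ i, ∀ u ∈ S ∪ S.image π, b u = i → c i = u) then ∏ i, ww π (c i) else 0 :=
        sum_congr rfl (fun c hc => FF_eq b π hc)
    _ = ∑ S ∈ (mvd π).powerset, ∑ c ∈ Fintype.piFinset (blk b),
        if (∀ i, ∀ u ∈ S ∪ S.image π, b u = i → c i = u) then ∏ i, ww π (c i) else 0 :=
        sum_comm
    _ ≤ ∑ S ∈ (mvd π).powerset, (∏ i, WW b π i) * (1 / (B : ℝ)) ^ (S ∪ S.image π).card := by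
        apply sum_le_sum
        intro S hS
        rw [mem_powerset] at hS
        apply term_le b π B hB1 hB
        intro u hu
        rw [mem_union, mem_image] at hu
        rcases hu with hu | ⟨y, hy, rfl⟩
        · have := hS hu; simpa [mvd] using this
        · have := hS hy
          simp only [mvd, mem_filter, mem_univ, true_and] at this
          intro h; exact this (π.injective h)
    _ = (∏ i, WW b π i) * ∑ S ∈ (mvd π).powerset, (1 / (B : ℝ)) ^ (S ∪ S.image π).card := by
        rw [mul_sum]
    _ ≤ _ := by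
        apply mul_le_mul_of_nonneg_left _ hWnn
        apply sumA π _ (by positivity) (by rw [div_le_one (by linarith)]; exact hBr)
        intro y hy
        simpa [mvd] using hy

end block

end Pool.Agent.H13.Uq
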