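import Pool.Agent.H13.UqA

set_option autoImplicit false

namespace Pool.Agent.H13.Uq

open Finset

variable {Ω : Type} [Fintype Ω] [DecidableEq Ω]

lemma amgm {t : ℕ} (ht : 1 ≤ t) (z : Fin t → ℝ) (hz : ∀ i, 0 ≤ z i) (A : ℝ)
    (hA : ∑ i, z i ≤ t * A) : ∏ i, z i ≤ A ^ t := by
  have htr : (0 : ℝ) < t := by exact_mod_cast ht
  have h1 := Real.geom_mean_le_arith_mean_weighted (univ : Finset (Fin t))
    (fun _ => 1 / (t : ℝ)) z (fun _ _ => by positivity)
    (by rw [sum_const, card_univ, Fintype.card_fin, nsmul_eq_mul]; field_simp) (fun i _ => hz i)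
  have h2 : ∑ i, (1 / (t : ℝ)) * z i ≤ A := by
    rw [← mul_sum, one_div, inv_mul_le_iff₀ htr]; exact hA
  have h3 : ∏ i, z i = (∏ i, z i ^ (1 / (t : ℝ))) ^ t := by
    rw [← prod_pow]
    apply prod_congr rfl
    intro i _
    rw [← Real.rpow_natCast, ← Real.rpow_mul (hz i), one_div,
      inv_mul_cancel₀ (by positivity), Real.rpow_one]
  rw [h3]
  apply pow_le_pow_left₀
  · exact prod_nonneg (fun i _ => Real.rpow_nonneg (hz i) _)
  · exact h1.trans h2

/-- product of the weights -/
lemma WW_prod {t : ℕ} (ht : 1 ≤ t) (b : Ω → Fin t) (π : Equiv.Perm Ω) (B : ℕ) (hB1 : 1 ≤ B)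
    (hB : ∀ i, B ≤ (blk b i).card) (hB' : ∀ i, (blk b i).card ≤ B + 1) :
    ∏ i, WW b π i ≤ (∏ i, ((blk b i).card : ℝ)) *
      (1 - ((mvd π).card : ℝ) / (2 * (t * (B + 1)))) ^ t := by
  have htr : (0 : ℝ) < t := by exact_mod_cast ht
  have hBr : (1 : ℝ) ≤ B := by exact_mod_cast hB1
  set m : Fin t → ℕ := fun i => ((mvd π).filter (fun x => b x = i)).card with hm
  have hW : ∀ i, WW b π i = ((blk b i).card : ℝ) - (m i : ℝ) / 2 := by
    intro i
    unfold WW ww
    rw [sum_ite, sum_const, sum_const, nsmul_eq_mul, nsmul_eq_mul]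
    have e1 : (blk b i).filter (fun x => π x ≠ x) = (mvd π).filter (fun x => b x = i) := by
      ext x; simp only [blk, mvd, mem_filter, mem_univ, true_and]; tauto
    have e2 : ((blk b i).filter (fun x => π x ≠ x)).card +
        ((blk b i).filter (fun x => ¬ π x ≠ x)).card = (blk b i).card :=
      card_filter_add_card_filter_not _
    have e3 : (((blk b i).filter (fun x => π x ≠ x)).card : ℝ) +
        ((blk b i).filter (fun x => ¬ π x ≠ x)).card = (blk b i).card := by exact_mod_cast e2
    rw [e1] at e3 ⊢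
    simp only [hm]
    linarith
  have hpos : ∀ i, (0 : ℝ) < (blk b i).card := by
    intro i
    have : (B : ℝ) ≤ (blk b i).card := by exact_mod_cast hB i
    linarith
  have h1 : ∏ i, WW b π i = (∏ i, ((blk b i).card : ℝ)) *
      ∏ i, (WW b π i / (blk b i).card) := by
    rw [← prod_mul_distrib]
    apply prod_congr rfl
    intro i _
    rw [mul_div_cancel₀ _ (hpos i).ne']
  rw [h1]
  apply mul_le_mul_of_nonneg_left _ (prod_nonneg (fun i _ => (hpos i).le))
  apply amgm ht
  · intro i
    have := WW_ge b π B hB i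
    have h2 := hpos i
    apply div_nonneg _ h2.le
    linarith
  · have hsum : ((mvd π).card : ℝ) = ∑ i, (m i : ℝ) := by
      have := card_eq_sum_card_fiberwise (s := mvd π) (t := univ) (f := b)
        (fun x _ => mem_univ _)
      rw [this]; push_cast; rfl
    have h2 : ∀ i, WW b π i / (blk b i).card ≤ 1 - (m i : ℝ) / (2 * (B + 1)) := by
      intro i
      rw [hW i, sub_div, div_self (hpos i).ne']
      have h3 : ((blk b i).card : ℝ) ≤ B + 1 := by exact_mod_cast hB' i
      have h4 : (m i : ℝ) / (2 * (B + 1)) ≤ (m i : ℝ) / 2 / (blk b i).card := by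
        rw [div_div]
        apply div_le_div_of_nonneg_left (by positivity)
        · have := hpos i; positivity
        · linarith
      linarith
    calc ∑ i, WW b π i / (blk b i).card ≤ ∑ i : Fin t, (1 - (m i : ℝ) / (2 * (B + 1))) :=
          sum_le_sum (fun i _ => h2 i)
      _ = t - (∑ i, (m i : ℝ)) / (2 * (B + 1)) := by
          rw [sum_sub_distrib, ← sum_div]; simp
      _ = _ := by
          rw [← hsum]; field_simp

/-- a partition into `t` almost equal blocks -/
lemma exists_blocks {t : ℕ} (ht : 1 ≤ t) : ∃ b : Ω → Fin t,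
    (∀ i, Fintype.card Ω / t ≤ (blk b i).card) ∧
    (∀ i, (blk b i).card ≤ Fintype.card Ω / t + 1) := by
  set N := Fintype.card Ω with hN
  let e := Fintype.equivFin Ω
  refine ⟨fun x => ⟨(e x).val % t, Nat.mod_lt _ ht⟩, ?_⟩
  have hc : ∀ i : Fin t, (blk (fun x : Ω => (⟨(e x).val % t, Nat.mod_lt _ ht⟩ : Fin t)) i).card =
      N / t + if i.val % t < N % t then 1 else 0 := by
    intro i
    rw [← Nat.count_modEq_card N (by omega : 0 < t) i.val, Nat.count_eq_card_filter_range]
    apply card_bij (fun x _ => (e x).val)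
    · intro x hx
      simp only [blk, mem_filter, mem_univ, true_and, Fin.ext_iff] at hx
      rw [mem_filter, mem_range]
      refine ⟨(e x).2, ?_⟩
      rw [Nat.ModEq, hx, Nat.mod_eq_of_lt i.2]
    · intro x _ y _ h
      exact e.injective (Fin.ext h)
    · intro j hj
      rw [mem_filter, mem_range] at hj
      refine ⟨e.symm ⟨j, hj.1⟩, ?_, by simp⟩
      simp only [blk, mem_filter, mem_univ, true_and, Fin.ext_iff, Equiv.apply_symm_apply]
      have := hj.2
      rw [Nat.ModEq, Nat.mod_eq_of_lt i.2] at this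
      exact this
  constructor
  · intro i; rw [hc i]; omega
  · intro i; rw [hc i]; split <;> omega

lemma exists_perm_image {A A' : Finset Ω} (h : A.card = A'.card) :
    ∃ ρ : Equiv.Perm Ω, A.image ρ = A' := by
  have e : {x // x ∈ A} ≃ {x // x ∈ A'} := Fintype.equivOfCardEq (by simpa using h)
  refine ⟨e.extendSubtype, ?_⟩
  have hsub : A.image e.extendSubtype ⊆ A' := by
    intro y hy
    rw [mem_image] at hy
    obtain ⟨x, hx, rfl⟩ := hy
    exact e.extendSubtype_mem x hx
  apply eq_of_subset_of_card_le hsub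
  rw [card_image_of_injective _ (Equiv.injective _), h]

/-- averaging over all relabellings -/
lemma sum_perm_const (F : Finset Ω → ℝ) {t : ℕ} {A : Finset Ω} (hA : A.card = t) :
    (Fintype.card Ω).choose t * ∑ σ : Equiv.Perm Ω, F (A.image σ) =
      (Fintype.card Ω).factorial * ∑ H ∈ powersetCard t (univ : Finset Ω), F H := by
  have h1 : ∀ A' ∈ powersetCard t (univ : Finset Ω),
      ∑ σ : Equiv.Perm Ω, F (A'.image σ) = ∑ σ : Equiv.Perm Ω, F (A.image σ) := by
    intro A' hA'
    rw [mem_powersetCard] at hA'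
    obtain ⟨ρ, hρ⟩ := exists_perm_image (hA'.2.trans hA.symm)
    rw [← hρ]
    rw [← Equiv.sum_comp (Equiv.mulRight ρ) (fun σ : Equiv.Perm Ω => F (A'.image σ))]
    apply sum_congr rfl
    intro σ _
    rw [image_image]
    rfl
  have h2 : ∀ σ : Equiv.Perm Ω, ∑ A' ∈ powersetCard t (univ : Finset Ω), F (A'.image σ) =
      ∑ H ∈ powersetCard t (univ : Finset Ω), F H := by
    intro σ
    apply sum_bij (fun A' _ => A'.image σ)
    · intro A' hA'
      rw [mem_powersetCard] at hA' ⊢
      exact ⟨subset_univ _, by rw [card_image_of_injective _ σ.injective]; exact hA'.2⟩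
    · intro a _ b _ h
      exact image_injective σ.injective h
    · intro H hH
      rw [mem_powersetCard] at hH
      refine ⟨H.image σ.symm, ?_, ?_⟩
      · rw [mem_powersetCard]
        exact ⟨subset_univ _, by rw [card_image_of_injective _ σ.symm.injective]; exact hH.2⟩
      · rw [image_image]; simp
    · intro _ _; rfl
  have h3 : ∑ A' ∈ powersetCard t (univ : Finset Ω), ∑ σ : Equiv.Perm Ω, F (A'.image σ) =
      (Fintype.card Ω).choose t * ∑ σ : Equiv.Perm Ω, F (A.image σ) := by
    rw [sum_congr rfl h1, sum_const, card_powersetCard, card_univ, nsmul_eq_mul]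
  rw [← h3, sum_comm, sum_congr rfl (fun σ _ => h2 σ), sum_const, card_univ,
    Fintype.card_perm, nsmul_eq_mul]

/-- the expectation over uniformly random `t`-subsets -/
lemma unifBound {t : ℕ} (ht : 1 ≤ t) (π : Equiv.Perm Ω) (B : ℕ)
    (hB : B = Fintype.card Ω / t) (hB1 : 1 ≤ B) :
    ∑ H ∈ powersetCard t (univ : Finset Ω), FF π H ≤
      (Fintype.card Ω).choose t * ((1 - ((mvd π).card : ℝ) / (2 * (t * (B + 1)))) ^ t *
        (1 + 4 * (1 / (B : ℝ)) ^ 2) ^ (mvd π).card) := by
  set bound := (1 - ((mvd π).card : ℝ) / (2 * (t * (B + 1)))) ^ t *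
        (1 + 4 * (1 / (B : ℝ)) ^ 2) ^ (mvd π).card with hbound
  obtain ⟨b, hb1, hb2⟩ := exists_blocks (Ω := Ω) ht
  rw [← hB] at hb1 hb2
  set Pb : ℝ := ∏ i, ((blk b i).card : ℝ) with hPb
  have hPbpos : 0 < Pb := by
    apply prod_pos
    intro i _
    have : 1 ≤ (blk b i).card := le_trans hB1 (hb1 i)
    exact_mod_cast this
  -- for each relabelling
  have hσ : ∀ σ : Equiv.Perm Ω, ∑ c ∈ Fintype.piFinset (blk b),
      FF π ((univ.image c).image σ) ≤ Pb * bound := by
    intro σ
    set b' : Ω → Fin t := fun x => b (σ.symm x) with hb'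
    have hblk : ∀ i, blk b' i = (blk b i).image σ := by
      intro i
      ext x
      simp only [blk, mem_filter, mem_univ, true_and, mem_image, hb']
      constructor
      · intro h; exact ⟨σ.symm x, h, by simp⟩
      · rintro ⟨y, hy, rfl⟩; simpa using hy
    have hcard : ∀ i, (blk b' i).card = (blk b i).card := by
      intro i; rw [hblk, card_image_of_injective _ σ.injective]
    have h1 := blockBound b' π B hB1 (fun i => by rw [hcard]; exact hb1 i)
    have h2 := WW_prod ht b' π B hB1 (fun i => by rw [hcard]; exact hb1 i)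
      (fun i => by rw [hcard]; exact hb2 i)
    have h3 : ∏ i, ((blk b' i).card : ℝ) = Pb := by
      rw [hPb]; apply prod_congr rfl; intro i _; rw [hcard]
    rw [h3] at h2
    have h4 : ∑ c ∈ Fintype.piFinset (blk b), FF π ((univ.image c).image σ) =
        ∑ c ∈ Fintype.piFinset (blk b'), FF π (univ.image c) := by
      apply sum_bij (fun c _ => fun i => σ (c i))
      · intro c hc
        rw [Fintype.mem_piFinset] at hc ⊢
        intro i
        rw [hblk]
        exact mem_image_of_mem _ (hc i)
      · intro c _ c' _ h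
        funext i
        exact σ.injective (congrFun h i)
      · intro c hc
        refine ⟨fun i => σ.symm (c i), ?_, ?_⟩
        · rw [Fintype.mem_piFinset] at hc ⊢
          intro i
          have := hc i
          rw [hblk, mem_image] at this
          obtain ⟨y, hy, hyc⟩ := this
          rw [← hyc]; simpa using hy
        · funext i; simp
      · intro c _
        rw [image_image]; rfl
    rw [h4]
    refine h1.trans ?_
    rw [hbound, ← mul_assoc]
    apply mul_le_mul_of_nonneg_right h2
    positivity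
  -- sum over all relabellings
  have hsum : ∑ c ∈ Fintype.piFinset (blk b), ∑ σ : Equiv.Perm Ω,
      FF π ((univ.image c).image σ) ≤ (Fintype.card Ω).factorial * (Pb * bound) := by
    rw [sum_comm]
    calc _ ≤ ∑ σ : Equiv.Perm Ω, Pb * bound := sum_le_sum (fun σ _ => hσ σ)
      _ = _ := by rw [sum_const, card_univ, Fintype.card_perm, nsmul_eq_mul]
  have hcardpi : ((Fintype.piFinset (blk b)).card : ℝ) = Pb := by
    rw [Fintype.card_piFinset]; push_cast; rfl
  have hc : ∀ c ∈ Fintype.piFinset (blk b),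
      (Fintype.card Ω).choose t * ∑ σ : Equiv.Perm Ω, FF π ((univ.image c).image σ) =
      (Fintype.card Ω).factorial * ∑ H ∈ powersetCard t (univ : Finset Ω), FF π H := by
    intro c hc
    apply sum_perm_const
    rw [card_image_of_injective _ (c_inj b hc)]; simp
  have hsum2 : (Fintype.card Ω).choose t * ∑ c ∈ Fintype.piFinset (blk b),
      ∑ σ : Equiv.Perm Ω, FF π ((univ.image c).image σ) =
      Pb * ((Fintype.card Ω).factorial * ∑ H ∈ powersetCard t (univ : Finset Ω), FF π H) := by
    rw [mul_sum, sum_congr rfl hc, sum_const, nsmul_eq_mul, hcardpi]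
  have hfpos : (0 : ℝ) < (Fintype.card Ω).factorial := by exact_mod_cast Nat.factorial_pos _
  have h5 : Pb * ((Fintype.card Ω).factorial * ∑ H ∈ powersetCard t (univ : Finset Ω), FF π H)
      ≤ Pb * ((Fintype.card Ω).factorial * ((Fintype.card Ω).choose t * bound)) := by
    rw [← hsum2]
    calc _ ≤ ((Fintype.card Ω).choose t : ℝ) * ((Fintype.card Ω).factorial * (Pb * bound)) :=
          mul_le_mul_of_nonneg_left hsum (by positivity)
      _ = _ := by ring
  have h6 := le_of_mul_le_mul_left h5 hPbpos
  exact le_of_mul_le_mul_left h6 hfpos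

end Pool.Agent.H13.Uq
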