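import Pool.Agent.H13.UqB

set_option autoImplicit false

namespace Pool.Agent.H13.Uq

open Finset

/-- unordered pairs of distinct elements of `Fin n` -/
abbrev Pr (n : ℕ) := {e : Sym2 (Fin n) // ¬ e.IsDiag}

/-- the action of a vertex permutation on pairs -/
def act {n : ℕ} (τ : Equiv.Perm (Fin n)) : Equiv.Perm (Pr n) where
  toFun e := ⟨Sym2.map τ e.1, by rw [Sym2.isDiag_map τ.injective]; exact e.2⟩
  invFun e := ⟨Sym2.map τ.symm e.1, by rw [Sym2.isDiag_map τ.symm.injective]; exact e.2⟩
  left_inv e := by
    apply Subtype.ext
    simp [Sym2.map_map]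
  right_inv e := by
    apply Subtype.ext
    simp [Sym2.map_map]

lemma card_Pr (n : ℕ) : Fintype.card (Pr n) = n.choose 2 := by
  rw [Sym2.card_subtype_not_diag, Fintype.card_fin]

lemma mvd_ge {n : ℕ} (τ : Equiv.Perm (Fin n)) :
    n.choose 2 ≤ (mvd (act τ)).card + ((n - τ.support.card).choose 2 + τ.support.card) := by
  have h1 : (mvd (act τ)).card + (univ.filter (fun e : Pr n => ¬ act τ e ≠ e)).card =
      n.choose 2 := by
    rw [← card_Pr, ← card_univ]
    exact card_filter_add_card_filter_not _
  have h2 : (univ.filter (fun e : Pr n => ¬ act τ e ≠ e)).card ≤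
      (n - τ.support.card).choose 2 + τ.support.card := by
    have hsub : (univ.filter (fun e : Pr n => ¬ act τ e ≠ e)).image Subtype.val ⊆
        (τ.supportᶜ).offDiag.image (Function.uncurry Sym2.mk) ∪ τ.support.image (fun a => s(a, τ a)) := by
      intro e he
      rw [mem_image] at he
      obtain ⟨⟨e', he'⟩, hmem, rfl⟩ := he
      simp only [mem_filter, mem_univ, true_and, not_not] at hmem
      have h3 : Sym2.map τ e' = e' := congrArg Subtype.val hmem
      clear hmem
      induction e' using Sym2.ind with
      | _ a b =>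
        rw [Sym2.mk_isDiag_iff] at he'
        rw [Sym2.map_mk, Sym2.eq_iff] at h3
        rw [mem_union]
        rcases h3 with ⟨h3, h4⟩ | ⟨h3, h4⟩
        · left
          rw [mem_image]
          refine ⟨(a, b), ?_, rfl⟩
          rw [mem_offDiag, mem_compl, mem_compl, Equiv.Perm.mem_support,
            Equiv.Perm.mem_support]
          exact ⟨by simpa using h3, by simpa using h4, he'⟩
        · right
          rw [mem_image]
          refine ⟨a, ?_, by rw [h3]⟩
          rw [Equiv.Perm.mem_support, h3]
          exact fun h => he' h.symm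
    calc (univ.filter (fun e : Pr n => ¬ act τ e ≠ e)).card
        = ((univ.filter (fun e : Pr n => ¬ act τ e ≠ e)).image Subtype.val).card :=
          (card_image_of_injective _ Subtype.val_injective).symm
      _ ≤ _ := card_le_card hsub
      _ ≤ _ := card_union_le _ _
      _ ≤ _ := by
          apply Nat.add_le_add
          · rw [Sym2.card_image_offDiag, card_compl, Fintype.card_fin]
          · exact card_image_le
  omega

lemma mvd_le {n : ℕ} (τ : Equiv.Perm (Fin n)) :
    (mvd (act τ)).card ≤ τ.support.card * n := by
  have hsub : (mvd (act τ)).image Subtype.val ⊆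
      (τ.support ×ˢ (univ : Finset (Fin n))).image (fun p => s(p.1, p.2)) := by
    intro e he
    rw [mem_image] at he
    obtain ⟨⟨e', he'⟩, hmem, rfl⟩ := he
    simp only [mvd, mem_filter, mem_univ, true_and] at hmem
    have h3 : Sym2.map τ e' ≠ e' := fun h => hmem (Subtype.ext h)
    clear hmem
    induction e' using Sym2.ind with
    | _ a b =>
      rw [Sym2.map_mk] at h3
      rw [mem_image]
      by_cases ha : τ a = a
      · refine ⟨(b, a), ?_, Sym2.eq_swap⟩
        rw [mem_product, Equiv.Perm.mem_support]
        refine ⟨?_, mem_univ _⟩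
        intro hb
        exact h3 (by rw [ha, hb])
      · refine ⟨(a, b), ?_, rfl⟩
        rw [mem_product, Equiv.Perm.mem_support]
        exact ⟨ha, mem_univ _⟩
  calc (mvd (act τ)).card = ((mvd (act τ)).image Subtype.val).card :=
        (card_image_of_injective _ Subtype.val_injective).symm
    _ ≤ _ := card_le_card hsub
    _ ≤ _ := card_image_le
    _ = _ := by rw [card_product, card_univ, Fintype.card_fin]

lemma card_supp_le (n k : ℕ) :
    (univ.filter (fun τ : Equiv.Perm (Fin n) => τ.support.card = k)).card ≤
      n.descFactorial k := by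
  have hsub : univ.filter (fun τ : Equiv.Perm (Fin n) => τ.support.card = k) ⊆
      (powersetCard k (univ : Finset (Fin n))).biUnion
        (fun K => univ.filter (fun τ : Equiv.Perm (Fin n) => ∀ a, ¬ a ∈ K → τ a = a)) := by
    intro τ hτ
    rw [mem_filter] at hτ
    rw [mem_biUnion]
    refine ⟨τ.support, ?_, ?_⟩
    · rw [mem_powersetCard]; exact ⟨subset_univ _, hτ.2⟩
    · rw [mem_filter]
      refine ⟨mem_univ _, ?_⟩
      intro a ha
      rw [Equiv.Perm.mem_support, not_not] at ha
      exact ha
  refine (card_le_card hsub).trans (card_biUnion_le.trans ?_)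
  have h : ∀ K ∈ powersetCard k (univ : Finset (Fin n)),
      (univ.filter (fun τ : Equiv.Perm (Fin n) => ∀ a, ¬ a ∈ K → τ a = a)).card =
      k.factorial := by
    intro K hK
    rw [mem_powersetCard] at hK
    rw [← Fintype.card_subtype]
    have := Fintype.card_congr (Equiv.Perm.subtypeEquivSubtypePerm (fun a => a ∈ K))
    rw [← this, Fintype.card_perm, Fintype.card_coe, hK.2]
  rw [sum_congr rfl h, sum_const, card_powersetCard, card_univ, Fintype.card_fin,
    Nat.descFactorial_eq_factorial_mul_choose, smul_eq_mul, mul_comm]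

end Pool.Agent.H13.Uq
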