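import Pool.Agent.H13.UqC

set_option autoImplicit false
set_option maxHeartbeats 4000000

namespace Pool.Agent.H13.Uq

open Finset Real

/-! elementary inequalities -/

lemma key1 (u : ℝ) (h0 : 0 ≤ u) (h1 : u ≤ 1 / 2) :
    1 - u + u ^ 2 / 2 ≤ exp (-(u * (log 2 + 1 / 20))) := by
  have h2 := log_two_lt_d9
  have h3 := Real.add_one_le_exp (-(u * (log 2 + 1 / 20)))
  nlinarith

lemma key2 (u : ℝ) (h0 : 0 ≤ u) (h1 : u ≤ 1) :
    1 - u + u ^ 2 / 2 ≤ exp (-(u * log 2)) := by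
  have h2 := log_two_lt_d9
  have h2' := log_two_gt_d9
  rcases le_total u (1 / 2) with h | h
  · have h3 := Real.add_one_le_exp (-(u * log 2))
    nlinarith
  · -- s = 1 - u ≤ 1/2
    set s := 1 - u with hs
    have hs0 : 0 ≤ s := by linarith
    have hs1 : s ≤ 1 / 2 := by linarith
    have h4 : 1 + s ^ 2 ≤ exp (s ^ 2) := by
      have := Real.add_one_le_exp (s ^ 2); linarith
    have h5 : exp (s ^ 2) ≤ exp (s * log 2) := by
      apply exp_le_exp.mpr; nlinarith
    have h6 : exp (-(u * log 2)) = exp (s * log 2) / 2 := by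
      have : -(u * log 2) = s * log 2 - log 2 := by rw [hs]; ring
      rw [this, exp_sub, exp_log (by norm_num)]
    rw [h6]
    have h7 : 1 - u + u ^ 2 / 2 = (1 + s ^ 2) / 2 := by rw [hs]; ring
    rw [h7]
    linarith

lemma desc_le (n : ℕ) (hn : 1 ≤ n) : ∀ k, k ≤ n →
    (n.descFactorial k : ℝ) ≤ (n : ℝ) ^ k * exp (-((k : ℝ) * (k - 1) / (2 * n))) := by
  intro k
  have hnr : (0 : ℝ) < n := by exact_mod_cast hn
  induction k with
  | zero => intro _; simp
  | succ k ih =>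
    intro hk
    have hih := ih (by omega)
    rw [Nat.descFactorial_succ]
    push_cast [Nat.cast_sub (show k ≤ n by omega)]
    have h1 : (n : ℝ) - k ≤ n * exp (-(k / n)) := by
      have := Real.add_one_le_exp (-((k : ℝ) / n))
      calc (n : ℝ) - k = n * (-(k / n) + 1) := by field_simp; ring
        _ ≤ _ := mul_le_mul_of_nonneg_left this hnr.le
    have h2 : (0 : ℝ) ≤ (n : ℝ) - k := by
      have : (k : ℝ) ≤ n := by exact_mod_cast (show k ≤ n by omega)
      linarith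
    calc ((n : ℝ) - k) * (n.descFactorial k : ℝ)
        ≤ (n * exp (-(k / n))) * ((n : ℝ) ^ k * exp (-((k : ℝ) * (k - 1) / (2 * n)))) :=
          mul_le_mul h1 hih (by positivity) (by positivity)
      _ = (n : ℝ) ^ (k + 1) * (exp (-(k / n)) * exp (-((k : ℝ) * (k - 1) / (2 * n)))) := by ring
      _ = _ := by
          rw [← exp_add]
          congr 2
          field_simp
          ring

section term

variable {n k t B M : ℕ} {L N : ℝ}

lemma core_bound (hn : 3 ≤ n) (hk : k ≤ n) (hL : 1 ≤ L)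
    (ht1 : (t : ℝ) ≤ n * L) (ht0 : 1 ≤ t)
    (hN : N = n * (n - 1) / 2) (hB : (n : ℝ) / (4 * L) ≤ B)
    (hBt : (t : ℝ) * (B + 1) ≤ N + t) (hBt' : N ≤ t * (B + 1))
    (hM1 : (k : ℝ) * (2 * n - k - 3) / 2 ≤ M) (hM2 : (M : ℝ) ≤ k * n) (hM3 : (M : ℝ) ≤ N) :
    (1 - (M : ℝ) / (2 * (t * (B + 1)))) ^ t * (1 + 4 * (1 / (B : ℝ)) ^ 2) ^ M ≤
      (1 - (k : ℝ) / n + ((k : ℝ) / n) ^ 2 / 2) ^ t * exp (72 * k * L ^ 2 / n) := by
  have hnr : (3 : ℝ) ≤ n := by exact_mod_cast hn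
  have hkr : (k : ℝ) ≤ n := by exact_mod_cast hk
  have hk0 : (0 : ℝ) ≤ k := Nat.cast_nonneg _
  have htr : (1 : ℝ) ≤ t := by exact_mod_cast ht0
  have hM0 : (0 : ℝ) ≤ M := Nat.cast_nonneg _
  have hBpos : (0 : ℝ) < B := lt_of_lt_of_le (by positivity) hB
  set κ : ℝ := (k : ℝ) / n with hκ
  have hκ0 : 0 ≤ κ := by positivity
  have hκ1 : κ ≤ 1 := by rw [hκ, div_le_one (by linarith)]; exact hkr
  set g0 : ℝ := 1 - κ + κ ^ 2 / 2 with hg0
  have hg0' : 1 / 2 ≤ g0 := by rw [hg0]; nlinarith [sq_nonneg (κ - 1)]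
  set D : ℝ := t * (B + 1) with hD
  have hDpos : 0 < D := by positivity
  -- a ≤ g0 exp(8 k L / n^2)
  have ha1 : 1 - (M : ℝ) / (2 * D) ≤ g0 * exp (8 * k * L / n ^ 2) := by
    have h1 : (k : ℝ) * (2 * n - k - 3) / (2 * n ^ 2 + 4 * n * L) ≤ M / (2 * D) := by
      rw [div_le_div_iff₀ (by positivity) (by positivity)]
      have h2 : 2 * D ≤ n ^ 2 + 2 * n * L := by
        rw [hN] at hBt; nlinarith
      have h3 : (0 : ℝ) ≤ k * (2 * n - k - 3) := by
        apply mul_nonneg hk0; linarith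
      nlinarith
    have h4 : κ - κ ^ 2 / 2 - 4 * k * L / n ^ 2 ≤
        (k : ℝ) * (2 * n - k - 3) / (2 * n ^ 2 + 4 * n * L) := by
      rw [le_div_iff₀ (by positivity), hκ]
      have h5 : ((k : ℝ) / n - (k / n) ^ 2 / 2 - 4 * k * L / n ^ 2) * (2 * n ^ 2 + 4 * n * L) =
          k * (2 * n - k) + (k * (2 * n - k) * 2 * L) / n - 8 * k * L - 16 * k * L ^ 2 / n := by
        field_simp
        ring
      rw [h5]
      have h6 : (k * (2 * n - k) * 2 * L) / n ≤ 4 * k * L := by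
        rw [div_le_iff₀ (by linarith)]
        have : 0 ≤ k * k * L := by positivity
        nlinarith
      have h7 : 0 ≤ 16 * k * L ^ 2 / n := by positivity
      nlinarith
    have h8 : 4 * k * L / n ^ 2 ≤ g0 * (8 * k * L / n ^ 2) := by
      have : 0 ≤ 8 * k * L / (n : ℝ) ^ 2 := by positivity
      have h9 : 4 * k * L / (n : ℝ) ^ 2 = 1 / 2 * (8 * k * L / n ^ 2) := by ring
      rw [h9]
      exact mul_le_mul_of_nonneg_right hg0' this
    have h10 := Real.add_one_le_exp (8 * k * L / (n : ℝ) ^ 2)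
    have h11 : g0 * (8 * k * L / (n : ℝ) ^ 2 + 1) ≤ g0 * exp (8 * k * L / n ^ 2) :=
      mul_le_mul_of_nonneg_left h10 (by linarith)
    have h12 : 1 - (κ - κ ^ 2 / 2) = g0 := by rw [hg0]; ring
    nlinarith
  have ha0 : 0 ≤ 1 - (M : ℝ) / (2 * D) := by
    have : (M : ℝ) / (2 * D) ≤ 1 := by
      rw [div_le_one (by positivity)]; linarith
    linarith
  have hA : (1 - (M : ℝ) / (2 * D)) ^ t ≤ g0 ^ t * exp (8 * k * L ^ 2 / n) := by
    calc (1 - (M : ℝ) / (2 * D)) ^ t ≤ (g0 * exp (8 * k * L / n ^ 2)) ^ t :=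
          pow_le_pow_left₀ ha0 ha1 t
      _ = g0 ^ t * exp (t * (8 * k * L / n ^ 2)) := by rw [mul_pow, ← exp_nat_mul]
      _ ≤ g0 ^ t * exp (8 * k * L ^ 2 / n) := by
          apply mul_le_mul_of_nonneg_left _ (by positivity)
          apply exp_le_exp.mpr
          have h1 : (0 : ℝ) ≤ 8 * k * L / n ^ 2 := by positivity
          calc (t : ℝ) * (8 * k * L / n ^ 2) ≤ (n * L) * (8 * k * L / n ^ 2) :=
                mul_le_mul_of_nonneg_right ht1 h1
            _ = _ := by field_simp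
  have hBm : (1 + 4 * (1 / (B : ℝ)) ^ 2) ^ M ≤ exp (64 * k * L ^ 2 / n) := by
    have h1 : 1 + 4 * (1 / (B : ℝ)) ^ 2 ≤ exp (64 * L ^ 2 / n ^ 2) := by
      have h2 : 1 / (B : ℝ) ≤ 4 * L / n := by
        rw [div_le_div_iff₀ hBpos (by linarith)]
        rw [div_le_iff₀ (by positivity)] at hB
        linarith
      have h3 : (1 / (B : ℝ)) ^ 2 ≤ (4 * L / n) ^ 2 := pow_le_pow_left₀ (by positivity) h2 2
      have h4 := Real.add_one_le_exp (64 * L ^ 2 / (n : ℝ) ^ 2)
      have h5 : 4 * (4 * L / (n : ℝ)) ^ 2 = 64 * L ^ 2 / n ^ 2 := by field_simp; ring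
      linarith
    calc (1 + 4 * (1 / (B : ℝ)) ^ 2) ^ M ≤ (exp (64 * L ^ 2 / n ^ 2)) ^ M :=
          pow_le_pow_left₀ (by positivity) h1 M
      _ = exp (M * (64 * L ^ 2 / n ^ 2)) := by rw [← exp_nat_mul]
      _ ≤ exp (64 * k * L ^ 2 / n) := by
          apply exp_le_exp.mpr
          have h6 : (0 : ℝ) ≤ 64 * L ^ 2 / n ^ 2 := by positivity
          calc (M : ℝ) * (64 * L ^ 2 / n ^ 2) ≤ (k * n) * (64 * L ^ 2 / n ^ 2) :=
                mul_le_mul_of_nonneg_right hM2 h6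
            _ = _ := by field_simp
  calc (1 - (M : ℝ) / (2 * D)) ^ t * (1 + 4 * (1 / (B : ℝ)) ^ 2) ^ M
      ≤ (g0 ^ t * exp (8 * k * L ^ 2 / n)) * exp (64 * k * L ^ 2 / n) :=
        mul_le_mul hA hBm (by positivity) (by positivity)
    _ = g0 ^ t * exp (72 * k * L ^ 2 / n) := by
        rw [mul_assoc, ← exp_add]
        congr 2
        ring

/-- the contribution of permutations moving exactly `k` vertices -/
lemma term_bound (hn : 3 ≤ n) (hk : k ≤ n) (hL : 1 ≤ L)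
    (hnL : (n : ℝ) = exp (L * log 2))
    (ht1 : (t : ℝ) ≤ n * L) (ht2 : n * L - 1 ≤ t) (ht0 : 1 ≤ t)
    (hN : N = n * (n - 1) / 2) (hB : (n : ℝ) / (4 * L) ≤ B)
    (hBt : (t : ℝ) * (B + 1) ≤ N + t) (hBt' : N ≤ t * (B + 1))
    (hM1 : (k : ℝ) * (2 * n - k - 3) / 2 ≤ M) (hM2 : (M : ℝ) ≤ k * n) (hM3 : (M : ℝ) ≤ N)
    (hE1 : 72 * 40 * L ≤ n) (hE2 : 72 * L ^ 2 ≤ n / 32) :
    (n.descFactorial k : ℝ) * ((1 - (M : ℝ) / (2 * (t * (B + 1)))) ^ t *
      (1 + 4 * (1 / (B : ℝ)) ^ 2) ^ M) ≤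
      exp (1 - k * L / 40) + exp (2 - 3 * n / 32) := by
  have hnr : (3 : ℝ) ≤ n := by exact_mod_cast hn
  have hkr : (k : ℝ) ≤ n := by exact_mod_cast hk
  have hk0 : (0 : ℝ) ≤ k := Nat.cast_nonneg _
  have h1 := core_bound hn hk hL ht1 ht0 hN hB hBt hBt' hM1 hM2 hM3
  have h2 := desc_le n (by omega) k hk
  set κ : ℝ := (k : ℝ) / n with hκ
  have hκ0 : 0 ≤ κ := by positivity
  have hκ1 : κ ≤ 1 := by rw [hκ, div_le_one (by linarith)]; exact hkr
  have hκn : κ * n = k := by rw [hκ]; field_simp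
  set g0 : ℝ := 1 - κ + κ ^ 2 / 2 with hg0
  have hg0' : 0 ≤ g0 := by rw [hg0]; nlinarith [sq_nonneg (κ - 1)]
  have hnk : (n : ℝ) ^ k = exp (k * L * log 2) := by
    rw [hnL, ← exp_nat_mul]; congr 1; ring
  have hl1 := log_two_lt_d9
  have hl2 := log_two_gt_d9
  have hX0 : 0 ≤ (1 - (M : ℝ) / (2 * (t * (B + 1)))) ^ t * (1 + 4 * (1 / (B : ℝ)) ^ 2) ^ M := by
    apply mul_nonneg _ (by positivity)
    apply pow_nonneg
    have : (M : ℝ) / (2 * (t * (B + 1))) ≤ 1 := by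
      have htr : (1 : ℝ) ≤ t := by exact_mod_cast ht0
      rw [div_le_one (by positivity)]
      have : (0 : ℝ) ≤ M := Nat.cast_nonneg _
      linarith
    linarith
  rcases le_total (2 * (k : ℝ)) n with h3 | h3
  · -- few moved vertices
    have hκ2 : κ ≤ 1 / 2 := by rw [hκ, div_le_iff₀ (by linarith)]; linarith
    have h4 := key1 κ hκ0 hκ2
    have h5 : g0 ^ t ≤ exp (-(κ * (log 2 + 1 / 20) * (n * L - 1))) := by
      calc g0 ^ t ≤ (exp (-(κ * (log 2 + 1 / 20)))) ^ t := pow_le_pow_left₀ hg0' h4 t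
        _ = exp (t * (-(κ * (log 2 + 1 / 20)))) := by rw [← exp_nat_mul]
        _ ≤ _ := by
            apply exp_le_exp.mpr
            have : 0 ≤ κ * (log 2 + 1 / 20) := by positivity
            nlinarith
    have h6 : (n.descFactorial k : ℝ) ≤ exp (k * L * log 2) := by
      rw [← hnk]
      refine h2.trans ?_
      have : exp (-((k : ℝ) * (k - 1) / (2 * n))) ≤ 1 := by
        rw [exp_le_one_iff]
        rcases Nat.eq_zero_or_pos k with h | h
        · subst h; simp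
        · have : (1 : ℝ) ≤ k := by exact_mod_cast h
          have : 0 ≤ (k : ℝ) * (k - 1) / (2 * n) := by
            apply div_nonneg _ (by linarith)
            apply mul_nonneg hk0; linarith
          linarith
      calc (n : ℝ) ^ k * exp (-((k : ℝ) * (k - 1) / (2 * n))) ≤ (n : ℝ) ^ k * 1 :=
            mul_le_mul_of_nonneg_left this (by positivity)
        _ = _ := mul_one _
    have h7 : (n.descFactorial k : ℝ) * ((1 - (M : ℝ) / (2 * (t * (B + 1)))) ^ t *
      (1 + 4 * (1 / (B : ℝ)) ^ 2) ^ M) ≤ exp (k * L * log 2) *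
        (exp (-(κ * (log 2 + 1 / 20) * (n * L - 1))) * exp (72 * k * L ^ 2 / n)) := by
      apply mul_le_mul h6 _ hX0 (by positivity)
      refine h1.trans ?_
      exact mul_le_mul_of_nonneg_right h5 (by positivity)
    refine h7.trans ?_
    rw [← exp_add, ← exp_add]
    have h8 : 72 * k * L ^ 2 / n ≤ k * L / 40 := by
      rw [div_le_iff₀ (by linarith)]
      have : 0 ≤ k * L := by positivity
      nlinarith
    have h9 : (k : ℝ) * L * log 2 + (-(κ * (log 2 + 1 / 20) * (n * L - 1)) +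
        72 * k * L ^ 2 / n) ≤ 1 - k * L / 40 := by
      have e1 : κ * (log 2 + 1 / 20) * (n * L - 1) =
          (k * L) * (log 2 + 1 / 20) - κ * (log 2 + 1 / 20) := by rw [← hκn]; ring
      rw [e1]
      have e2 : κ * (log 2 + 1 / 20) ≤ 1 := by nlinarith
      linarith
    have h10 := exp_le_exp.mpr h9
    have h11 := exp_pos (2 - 3 * (n : ℝ) / 32)
    linarith
  · -- many moved vertices
    have h4 := key2 κ hκ0 hκ1
    have h5 : g0 ^ t ≤ exp (-(κ * log 2 * (n * L - 1))) := by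
      calc g0 ^ t ≤ (exp (-(κ * log 2))) ^ t := pow_le_pow_left₀ hg0' h4 t
        _ = exp (t * (-(κ * log 2))) := by rw [← exp_nat_mul]
        _ ≤ _ := by
            apply exp_le_exp.mpr
            have : 0 ≤ κ * log 2 := by positivity
            nlinarith
    have h7 : (n.descFactorial k : ℝ) * ((1 - (M : ℝ) / (2 * (t * (B + 1)))) ^ t *
      (1 + 4 * (1 / (B : ℝ)) ^ 2) ^ M) ≤
        (exp (k * L * log 2) * exp (-((k : ℝ) * (k - 1) / (2 * n)))) *
        (exp (-(κ * log 2 * (n * L - 1))) * exp (72 * k * L ^ 2 / n)) := by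
      rw [← hnk]
      apply mul_le_mul h2 _ hX0 (by positivity)
      refine h1.trans ?_
      exact mul_le_mul_of_nonneg_right h5 (by positivity)
    refine h7.trans ?_
    rw [← exp_add, ← exp_add, ← exp_add]
    have h8 : 72 * k * L ^ 2 / n ≤ n / 32 := by
      rw [div_le_iff₀ (by linarith)]
      have h81 : 72 * k * L ^ 2 ≤ 72 * n * L ^ 2 := by
        have : 0 ≤ L ^ 2 := by positivity
        nlinarith
      nlinarith
    have h12 : ((n : ℝ) - 2) / 8 ≤ (k : ℝ) * (k - 1) / (2 * n) := by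
      rw [div_le_div_iff₀ (by norm_num) (by linarith)]
      nlinarith
    have h9 : (k : ℝ) * L * log 2 + -((k : ℝ) * (k - 1) / (2 * n)) +
        (-(κ * log 2 * (n * L - 1)) + 72 * k * L ^ 2 / n) ≤ 2 - 3 * n / 32 := by
      have e1 : κ * log 2 * (n * L - 1) = (k * L) * log 2 - κ * log 2 := by rw [← hκn]; ring
      rw [e1]
      have e2 : κ * log 2 ≤ 1 := by nlinarith
      linarith
    have h10 := exp_le_exp.mpr h9
    have h11 := exp_pos (1 - (k : ℝ) * L / 40)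
    linarith

end term

end Pool.Agent.H13.Uq
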