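import Pool.Agent.H13.UqD

set_option autoImplicit false
set_option maxHeartbeats 4000000

namespace Pool.Agent.H13.Uq

open Finset Real Filter Topology

noncomputable def Lg (n : ℕ) : ℝ := Real.logb 2 n

noncomputable def tt (n : ℕ) : ℕ := ⌊(n : ℝ) * Real.logb 2 n⌋₊

noncomputable def SS (n : ℕ) : ℝ := 2 * exp 1 * exp (-(Lg n / 20)) + 32 * exp (2 - n / 16)

lemma SS_tendsto : Tendsto SS atTop (𝓝 0) := by
  have h1 : Tendsto (fun n : ℕ => Lg n) atTop atTop :=
    (Real.tendsto_logb_atTop (by norm_num)).comp tendsto_natCast_atTop_atTop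
  have h2 : Tendsto (fun n : ℕ => exp (-(Lg n / 20))) atTop (𝓝 0) := by
    apply Real.tendsto_exp_neg_atTop_nhds_zero.comp
    exact h1.atTop_div_const (by norm_num)
  have h3 : Tendsto (fun n : ℕ => exp (2 - (n : ℝ) / 16)) atTop (𝓝 0) := by
    have : Tendsto (fun n : ℕ => exp 2 * exp (-((n : ℝ) / 16))) atTop (𝓝 (exp 2 * 0)) := by
      apply Tendsto.const_mul
      apply Real.tendsto_exp_neg_atTop_nhds_zero.comp
      exact tendsto_natCast_atTop_atTop.atTop_div_const (by norm_num)
    rw [mul_zero] at this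
    refine this.congr (fun n => ?_)
    rw [← exp_add]; congr 1
  have h4 := (h2.const_mul (2 * exp 1)).add (h3.const_mul 32)
  have h5 : SS = fun n : ℕ => 2 * exp 1 * exp (-(Lg n / 20)) + 32 * exp (2 - (n : ℝ) / 16) := rfl
  rw [h5]
  simpa using h4

structure Good (n : ℕ) : Prop where
  n3 : 3 ≤ n
  L40 : 40 ≤ Lg n
  E1 : 72 * 40 * Lg n ≤ n
  E2 : 72 * Lg n ^ 2 ≤ n / 32

lemma good_eventually : ∀ᶠ n : ℕ in atTop, Good n := by
  have h1 : Tendsto (fun n : ℕ => Lg n) atTop atTop :=
    (Real.tendsto_logb_atTop (by norm_num)).comp tendsto_natCast_atTop_atTop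
  have hl : 0 < log 2 := Real.log_pos (by norm_num)
  have e1 := (Real.isLittleO_log_id_atTop.bound
    (show (0 : ℝ) < log 2 / (72 * 40) by positivity))
  have e2 := ((Real.isLittleO_pow_log_id_atTop (n := 2)).bound
    (show (0 : ℝ) < (log 2) ^ 2 / (72 * 32) by positivity))
  filter_upwards [eventually_ge_atTop 3, h1.eventually_ge_atTop 40,
    tendsto_natCast_atTop_atTop.eventually e1,
    tendsto_natCast_atTop_atTop.eventually e2] with n h3 h40 h5 h6
  have hn : (3 : ℝ) ≤ n := by exact_mod_cast h3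
  have hlogn : 0 ≤ log n := Real.log_nonneg (by linarith)
  have hL : Lg n * log 2 = log n := by
    unfold Lg Real.logb; field_simp
  refine ⟨h3, h40, ?_, ?_⟩
  · simp only [id, Real.norm_eq_abs, abs_of_nonneg hlogn,
      abs_of_nonneg (show (0 : ℝ) ≤ n by linarith)] at h5
    rw [← hL] at h5
    have h7 : Lg n * log 2 ≤ (n / (72 * 40)) * log 2 := by
      calc _ ≤ log 2 / (72 * 40) * n := h5
        _ = _ := by ring
    have h8 := le_of_mul_le_mul_right h7 hl
    linarith
  · simp only [id, Real.norm_eq_abs, abs_of_nonneg (show (0 : ℝ) ≤ n by linarith),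
      abs_of_nonneg (show (0 : ℝ) ≤ log n ^ 2 by positivity)] at h6
    rw [← hL] at h6
    have h7 : Lg n ^ 2 * (log 2) ^ 2 ≤ (n / (72 * 32)) * (log 2) ^ 2 := by
      calc _ = (Lg n * log 2) ^ 2 := by ring
        _ ≤ (log 2) ^ 2 / (72 * 32) * n := h6
        _ = _ := by ring
    have h8 := le_of_mul_le_mul_right h7 (by positivity)
    linarith

lemma geo_bound {q : ℝ} (h0 : 0 ≤ q) (h1 : q ≤ 1 / 2) (m : ℕ) :
    ∑ k ∈ range m, q ^ k ≤ 2 := by
  have h : (∑ k ∈ range m, q ^ k) * (1 - q) = 1 - q ^ m := by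
    have := geom_sum_mul q m
    linarith
  have h2 : 0 ≤ q ^ m := pow_nonneg h0 m
  have h3 : 0 ≤ ∑ k ∈ range m, q ^ k := sum_nonneg (fun k _ => pow_nonneg h0 k)
  nlinarith

lemma tt_le {n : ℕ} (hg : Good n) : tt n ≤ n.choose 2 := by
  have h1 : (tt n : ℝ) ≤ n * Lg n := by
    apply Nat.floor_le
    have := hg.L40
    unfold Lg at this
    positivity
  have h2 : ((n.choose 2 : ℕ) : ℝ) = n * (n - 1) / 2 := Nat.cast_choose_two _ _
  have h3 := hg.E1
  have h4 := hg.L40
  have h5 : (3 : ℝ) ≤ n := by exact_mod_cast hg.n3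
  have : (tt n : ℝ) ≤ (n.choose 2 : ℕ) := by
    rw [h2]; nlinarith
  exact_mod_cast this

theorem expBound {n : ℕ} (hg : Good n) :
    ∑ H ∈ powersetCard (tt n) (univ : Finset (Pr n)),
      ∑ τ ∈ (univ : Finset (Equiv.Perm (Fin n))).erase 1, FF (act τ) H ≤
      ((n.choose 2).choose (tt n)) * SS n := by
  obtain ⟨hn3, hL40, hE1, hE2⟩ := hg
  set L := Lg n with hL
  set t := tt n with ht
  have hn : (3 : ℝ) ≤ n := by exact_mod_cast hn3
  have hnL0 : (0 : ℝ) ≤ n * L := by positivity
  have ht1 : (t : ℝ) ≤ n * L := Nat.floor_le hnL0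
  have ht2 : n * L - 1 ≤ t := by
    have := Nat.lt_floor_add_one ((n : ℝ) * L)
    have h : ((⌊(n : ℝ) * L⌋₊ : ℕ) : ℝ) = t := rfl
    rw [h] at this; linarith
  have ht0 : 1 ≤ t := by
    have : (1 : ℝ) < t := by nlinarith
    have : 1 < t := by exact_mod_cast this
    omega
  have htr : (1 : ℝ) ≤ t := by exact_mod_cast ht0
  set B : ℕ := n.choose 2 / t with hB
  have hNr : ((n.choose 2 : ℕ) : ℝ) = n * (n - 1) / 2 := Nat.cast_choose_two _ _
  have hBt : (t : ℝ) * (B + 1) ≤ (n.choose 2 : ℕ) + t := by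
    have : t * B ≤ n.choose 2 := Nat.mul_div_le _ _
    have h : (t : ℝ) * B ≤ (n.choose 2 : ℕ) := by exact_mod_cast this
    linarith
  have hBt' : ((n.choose 2 : ℕ) : ℝ) ≤ t * (B + 1) := by
    have : n.choose 2 < t * (n.choose 2 / t + 1) := Nat.lt_mul_div_succ _ (by omega)
    have h : ((n.choose 2 : ℕ) : ℝ) < t * ((n.choose 2 / t : ℕ) + 1) := by exact_mod_cast this
    exact h.le
  have hBr : (n : ℝ) / (4 * L) ≤ B := by
    have h1 : (n : ℝ) * (n - 1) / 2 ≤ (n * L) * (B + 1) := by
      rw [← hNr]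
      refine hBt'.trans ?_
      exact mul_le_mul_of_nonneg_right ht1 (by positivity)
    have h2 : ((n : ℝ) - 1) / 2 ≤ L * (B + 1) := by
      have h3 : (n : ℝ) * ((n - 1) / 2) ≤ n * (L * (B + 1)) := by linarith
      exact le_of_mul_le_mul_left h3 (by linarith)
    rw [div_le_iff₀ (by linarith)]
    nlinarith
  have hB1 : 1 ≤ B := by
    have : (0 : ℝ) < B := lt_of_lt_of_le (by positivity) hBr
    have : 0 < B := by exact_mod_cast this
    omega
  have hnexp : (n : ℝ) = exp (L * log 2) := by
    rw [hL]; unfold Lg Real.logb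
    rw [div_mul_cancel₀ _ (Real.log_pos (by norm_num)).ne', exp_log (by linarith)]
  -- swap sums
  rw [sum_comm]
  set C : ℝ := (((n.choose 2).choose t : ℕ) : ℝ) with hC
  have hC0 : 0 ≤ C := Nat.cast_nonneg _
  set e : ℕ → ℝ := fun k => exp (1 - k * L / 40) + exp (2 - 3 * n / 32) with he
  have hτ : ∀ τ : Equiv.Perm (Fin n),
      ∑ H ∈ powersetCard t (univ : Finset (Pr n)), FF (act τ) H ≤
        C * (e τ.support.card / (n.descFactorial τ.support.card : ℕ)) := by
    intro τ
    have h1 := unifBound (Ω := Pr n) ht0 (act τ) B (by rw [card_Pr]) hB1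
    rw [card_Pr] at h1
    refine h1.trans ?_
    apply mul_le_mul_of_nonneg_left _ hC0
    set k := τ.support.card with hk
    have hkn : k ≤ n := by
      have := card_le_univ τ.support
      rwa [Fintype.card_fin] at this
    have hkr : (k : ℝ) ≤ n := by exact_mod_cast hkn
    have hdp : (0 : ℝ) < (n.descFactorial k : ℕ) := by
      exact_mod_cast Nat.descFactorial_pos.mpr hkn
    rw [le_div_iff₀ hdp, mul_comm]
    have hM1 := mvd_ge τ
    have hM2 := mvd_le τ
    have hM3 : (mvd (act τ)).card ≤ n.choose 2 := by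
      rw [← card_Pr]; exact card_le_univ _
    rw [← hk] at hM1 hM2
    apply term_bound (N := ((n.choose 2 : ℕ) : ℝ)) hn3 hkn (by linarith) hnexp ht1 ht2 ht0 hNr
      hBr hBt hBt' _ _ _ hE1 hE2
    · have h2 : ((n.choose 2 : ℕ) : ℝ) ≤ (mvd (act τ)).card +
          (((n - k).choose 2 : ℕ) + k) := by exact_mod_cast hM1
      rw [hNr, Nat.cast_choose_two, Nat.cast_sub hkn] at h2
      nlinarith
    · exact_mod_cast hM2
    · exact_mod_cast hM3
  -- group according to the number of moved vertices
  have hgroup : ∑ τ ∈ (univ : Finset (Equiv.Perm (Fin n))).erase 1,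
      C * (e τ.support.card / (n.descFactorial τ.support.card : ℕ)) ≤
      ∑ k ∈ Icc 2 n, C * e k := by
    have hmaps : ∀ τ ∈ (univ : Finset (Equiv.Perm (Fin n))).erase 1,
        τ.support.card ∈ Icc 2 n := by
      intro τ hτ
      rw [mem_erase] at hτ
      rw [mem_Icc]
      refine ⟨Equiv.Perm.two_le_card_support_of_ne_one hτ.1, ?_⟩
      have := card_le_univ τ.support
      rwa [Fintype.card_fin] at this
    rw [← sum_fiberwise_of_maps_to hmaps]
    apply sum_le_sum
    intro k hk
    rw [mem_Icc] at hk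
    have hdp : (0 : ℝ) < (n.descFactorial k : ℕ) := by
      exact_mod_cast Nat.descFactorial_pos.mpr hk.2
    have h1 : ∑ τ ∈ ((univ : Finset (Equiv.Perm (Fin n))).erase 1).filter
        (fun τ => τ.support.card = k),
        C * (e τ.support.card / (n.descFactorial τ.support.card : ℕ)) =
        ∑ τ ∈ ((univ : Finset (Equiv.Perm (Fin n))).erase 1).filter
        (fun τ => τ.support.card = k), C * (e k / (n.descFactorial k : ℕ)) := by
      apply sum_congr rfl
      intro τ hτ
      rw [mem_filter] at hτ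
      rw [hτ.2]
    rw [h1, sum_const, nsmul_eq_mul]
    have h2 : ((((univ : Finset (Equiv.Perm (Fin n))).erase 1).filter
        (fun τ => τ.support.card = k)).card : ℝ) ≤ (n.descFactorial k : ℕ) := by
      have : (((univ : Finset (Equiv.Perm (Fin n))).erase 1).filter
        (fun τ => τ.support.card = k)).card ≤ n.descFactorial k :=
        (card_le_card (filter_subset_filter _ (erase_subset _ _))).trans (card_supp_le n k)
      exact_mod_cast this
    have h3 : 0 ≤ C * (e k / (n.descFactorial k : ℕ)) := by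
      simp only [he]; positivity
    calc _ ≤ ((n.descFactorial k : ℕ) : ℝ) * (C * (e k / (n.descFactorial k : ℕ))) :=
          mul_le_mul_of_nonneg_right h2 h3
      _ = C * e k := by field_simp
  calc ∑ τ ∈ (univ : Finset (Equiv.Perm (Fin n))).erase 1,
      ∑ H ∈ powersetCard t (univ : Finset (Pr n)), FF (act τ) H
      ≤ ∑ τ ∈ (univ : Finset (Equiv.Perm (Fin n))).erase 1,
        C * (e τ.support.card / (n.descFactorial τ.support.card : ℕ)) :=
        sum_le_sum (fun τ _ => hτ τ)
    _ ≤ ∑ k ∈ Icc 2 n, C * e k := hgroup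
    _ = C * ∑ k ∈ Icc 2 n, e k := by rw [mul_sum]
    _ ≤ C * SS n := by
        apply mul_le_mul_of_nonneg_left _ hC0
        simp only [he]
        rw [sum_add_distrib]
        unfold SS
        rw [← hL]
        apply add_le_add
        · set q := exp (-(L / 40)) with hq
          have hq0 : 0 ≤ q := (exp_pos _).le
          have hq1 : q ≤ 1 / 2 := by
            have h1 : q ≤ exp (-log 2) := by
              rw [hq]; apply exp_le_exp.mpr
              have := log_two_lt_d9
              linarith
            rwa [exp_neg, exp_log (by norm_num), ← one_div] at h1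
          have h1 : ∑ k ∈ Icc 2 n, exp (1 - (k : ℝ) * L / 40) =
              exp 1 * q ^ 2 * ∑ j ∈ range (n + 1 - 2), q ^ j := by
            have : Icc 2 n = Ico 2 (n + 1) := by ext x; simp only [mem_Icc, mem_Ico]; omega
            rw [this, sum_Ico_eq_sum_range, mul_sum]
            apply sum_congr rfl
            intro j _
            rw [hq, ← exp_nat_mul, ← exp_nat_mul, ← exp_add, ← exp_add]
            congr 1
            push_cast
            ring
          rw [h1]
          have h2 : q ^ 2 = exp (-(L / 20)) := by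
            rw [hq, ← exp_nat_mul]; congr 1; push_cast; ring
          rw [← h2]
          have h3 := geo_bound hq0 hq1 (n + 1 - 2)
          have h4 : 0 ≤ exp 1 * q ^ 2 := by positivity
          nlinarith
        · rw [sum_const, nsmul_eq_mul]
          have h1 : ((Icc 2 n).card : ℝ) ≤ n := by
            have : (Icc 2 n).card ≤ n := by rw [Nat.card_Icc]; omega
            exact_mod_cast this
          have h2 : (n : ℝ) ≤ 32 * exp (n / 32) := by
            have := Real.add_one_le_exp ((n : ℝ) / 32)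
            linarith
          calc ((Icc 2 n).card : ℝ) * exp (2 - 3 * n / 32)
              ≤ (32 * exp (n / 32)) * exp (2 - 3 * n / 32) :=
                mul_le_mul_of_nonneg_right (h1.trans h2) (exp_pos _).le
            _ = 32 * exp (2 - n / 16) := by
                rw [mul_assoc, ← exp_add]; congr 2; ring

end Pool.Agent.H13.Uq
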