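import Pool.Agent.H13.UqE

set_option autoImplicit false
set_option maxHeartbeats 4000000

namespace Pool.Agent.H13.Uq

open Finset Filter Topology

variable {n : ℕ}

open Classical in
/-- the edges of a graph, as a finset of pairs -/
noncomputable def toF (G : SimpleGraph (Fin n)) : Finset (Pr n) :=
  univ.filter (fun e => e.1 ∈ G.edgeSet)

def ofF (A : Finset (Pr n)) : SimpleGraph (Fin n) where
  Adj a b := ∃ h : ¬ (s(a, b)).IsDiag, (⟨s(a, b), h⟩ : Pr n) ∈ A
  symm := ⟨fun a b ⟨h, hA⟩ => by
    have e : s(a, b) = s(b, a) := Sym2.eq_swap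
    refine ⟨e ▸ h, ?_⟩
    have : (⟨s(b, a), e ▸ h⟩ : Pr n) = ⟨s(a, b), h⟩ := Subtype.ext e.symm
    rw [this]; exact hA⟩
  loopless := ⟨fun a ⟨h, _⟩ => h (by simp)⟩

lemma mem_toF {G : SimpleGraph (Fin n)} {e : Pr n} : e ∈ toF G ↔ e.1 ∈ G.edgeSet := by
  classical
  simp [toF]

lemma toF_ofF (A : Finset (Pr n)) : toF (ofF A) = A := by
  ext ⟨e, he⟩
  rw [mem_toF]
  induction e using Sym2.ind with
  | _ a b =>
    rw [SimpleGraph.mem_edgeSet]
    constructor
    · rintro ⟨h, hA⟩; exact hA
    · intro h; exact ⟨he, h⟩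

lemma ofF_toF (G : SimpleGraph (Fin n)) : ofF (toF G) = G := by
  ext a b
  constructor
  · rintro ⟨h, hA⟩
    rw [mem_toF] at hA
    exact hA
  · intro h
    refine ⟨by rw [Sym2.mk_isDiag_iff]; exact h.ne, ?_⟩
    rw [mem_toF]; exact h

lemma toF_inj : Function.Injective (toF : SimpleGraph (Fin n) → Finset (Pr n)) := by
  intro G G' h
  rw [← ofF_toF G, ← ofF_toF G', h]

lemma toF_le {F G : SimpleGraph (Fin n)} : F ≤ G ↔ toF F ⊆ toF G := by
  constructor
  · intro h e he
    rw [mem_toF] at he ⊢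
    exact SimpleGraph.edgeSet_mono h he
  · intro h a b hab
    have h1 : (⟨s(a, b), by rw [Sym2.mk_isDiag_iff]; exact hab.ne⟩ : Pr n) ∈ toF F := by
      rw [mem_toF]; exact hab
    have h2 := h h1
    rw [mem_toF] at h2
    exact h2

lemma ncard_edgeSet (G : SimpleGraph (Fin n)) : G.edgeSet.ncard = (toF G).card := by
  have : G.edgeSet = Subtype.val '' ((toF G : Finset (Pr n)) : Set (Pr n)) := by
    ext e
    constructor
    · intro he
      have hd : ¬ e.IsDiag := G.not_isDiag_of_mem_edgeSet he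
      exact ⟨⟨e, hd⟩, by rw [mem_coe, mem_toF]; exact he, rfl⟩
    · rintro ⟨⟨e', he'⟩, h1, rfl⟩
      rw [mem_coe, mem_toF] at h1
      exact h1
  rw [this, Set.ncard_image_of_injective _ Subtype.val_injective, Set.ncard_coe_finset]

lemma iso_image {F F' : SimpleGraph (Fin n)} (φ : F ≃g F') :
    toF F' = (toF F).image (act φ.toEquiv) := by
  ext ⟨e, he⟩
  rw [mem_image, mem_toF]
  induction e using Sym2.ind with
  | _ a b =>
    constructor
    · intro h
      rw [SimpleGraph.mem_edgeSet] at h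
      have h1 : F.Adj (φ.symm a) (φ.symm b) := by
        rw [← φ.map_adj_iff]; simpa using h
      refine ⟨⟨s(φ.symm a, φ.symm b), by rw [Sym2.mk_isDiag_iff]; exact h1.ne⟩, ?_, ?_⟩
      · rw [mem_toF]; exact h1
      · apply Subtype.ext
        show Sym2.map φ.toEquiv s(φ.symm a, φ.symm b) = s(a, b)
        rw [Sym2.map_mk]
        simp
    · rintro ⟨⟨e', he'⟩, h1, h2⟩
      rw [mem_toF] at h1
      have h3 : Sym2.map φ.toEquiv e' = s(a, b) := congrArg Subtype.val h2
      clear h2
      induction e' using Sym2.ind with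
      | _ x y =>
        rw [Sym2.map_mk] at h3
        have h4 : F'.Adj (φ x) (φ y) := φ.map_adj_iff.mpr h1
        have h5 : s(φ x, φ y) ∈ F'.edgeSet := h4
        have h6 : s(φ.toEquiv x, φ.toEquiv y) = s(φ x, φ y) := rfl
        show s(a, b) ∈ F'.edgeSet
        rw [← h3, h6]
        exact h5

/-- the number of unique subgraphs -/
noncomputable def uu (G : SimpleGraph (Fin n)) : ℕ :=
  Set.ncard {F : SimpleGraph (Fin n) | F ≤ G ∧
    ∀ F' : SimpleGraph (Fin n), F' ≤ G → Nonempty (F ≃g F') → F' = F}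

noncomputable def Phi (H : Finset (Pr n)) : ℝ :=
  ∑ τ ∈ (univ : Finset (Equiv.Perm (Fin n))).erase 1, FF (act τ) H

lemma count_inv (π : Equiv.Perm (Pr n)) (E : Finset (Pr n)) :
    ((E.powerset.filter (fun A => A.image π ⊆ E)).card : ℝ) = 2 ^ E.card * FF π Eᶜ := by
  have h1 : E.powerset.filter (fun A => A.image π ⊆ E) =
      (E.filter (fun x => π x ∈ E)).powerset := by
    ext A
    rw [mem_filter, mem_powerset, mem_powerset]
    constructor
    · rintro ⟨h1, h2⟩ x hx
      rw [mem_filter]
      exact ⟨h1 hx, h2 (mem_image_of_mem _ hx)⟩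
    · intro h
      refine ⟨h.trans (filter_subset _ _), ?_⟩
      intro y hy
      rw [mem_image] at hy
      obtain ⟨x, hx, rfl⟩ := hy
      have := h hx
      rw [mem_filter] at this
      exact this.2
  have h2 : (E.filter (fun x => π x ∈ E)).card + (Eᶜ.image π \ Eᶜ).card = E.card := by
    have e1 : Eᶜ.image π \ Eᶜ = E.filter (fun y => ¬ π.symm y ∈ E) := by
      ext y
      rw [Finset.mem_sdiff, Finset.mem_image, Finset.mem_compl, not_not, Finset.mem_filter]
      constructor
      · rintro ⟨⟨x, hx, rfl⟩, h2⟩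
        rw [Finset.mem_compl] at hx
        exact ⟨h2, by simpa using hx⟩
      · rintro ⟨h1, h2⟩; exact ⟨⟨π.symm y, by rw [Finset.mem_compl]; exact h2, by simp⟩, h1⟩
    have e2 : (E.filter (fun x => π x ∈ E)).card =
        (E.filter (fun y => π.symm y ∈ E)).card := by
      apply card_bij (fun x _ => π x)
      · intro x hx
        rw [mem_filter] at hx ⊢
        exact ⟨hx.2, by simpa using hx.1⟩
      · intro x _ y _ h; exact π.injective h
      · intro y hy
        rw [mem_filter] at hy
        refine ⟨π.symm y, ?_, by simp⟩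
        rw [mem_filter]
        exact ⟨hy.2, by simpa using hy.1⟩
    rw [e1, e2]
    exact card_filter_add_card_filter_not _
  rw [h1, card_powerset, ← h2]
  unfold FF
  push_cast
  rw [pow_add, mul_assoc, ← mul_pow]
  norm_num

lemma uu_ge (G : SimpleGraph (Fin n)) :
    (2 : ℝ) ^ (toF G).card * (1 - Phi (toF G)ᶜ) ≤ uu G := by
  classical
  set E := toF G with hE
  set P : Finset (Pr n) → Prop := fun A =>
    ∀ F' : SimpleGraph (Fin n), F' ≤ G → Nonempty (ofF A ≃g F') → F' = ofF A with hP
  have h1 : uu G = (E.powerset.filter P).card := by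
    unfold uu
    rw [← Set.ncard_image_of_injective _ toF_inj, ← Set.ncard_coe_finset]
    congr 1
    ext A
    simp only [Set.mem_image, Set.mem_ofPred_eq, mem_coe, mem_filter, mem_powerset]
    constructor
    · rintro ⟨F, ⟨hF1, hF2⟩, rfl⟩
      refine ⟨toF_le.mp hF1, ?_⟩
      simp only [hP, ofF_toF]
      exact hF2
    · rintro ⟨hA1, hA2⟩
      exact ⟨ofF A, ⟨by rw [toF_le, toF_ofF]; exact hA1, hA2⟩, toF_ofF A⟩
  have h2 : (E.powerset.filter P).card + (E.powerset.filter (fun A => ¬ P A)).card =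
      2 ^ E.card := by
    rw [← card_powerset]
    exact card_filter_add_card_filter_not _
  have h3 : ((E.powerset.filter (fun A => ¬ P A)).card : ℝ) ≤ 2 ^ E.card * Phi Eᶜ := by
    have hsub : E.powerset.filter (fun A => ¬ P A) ⊆
        ((univ : Finset (Equiv.Perm (Fin n))).erase 1).biUnion
          (fun τ => E.powerset.filter (fun A => A.image (act τ) ⊆ E)) := by
      intro A hA
      rw [mem_filter, mem_powerset] at hA
      obtain ⟨hA1, hA2⟩ := hA
      simp only [hP, not_forall] at hA2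
      obtain ⟨F', hF'1, ⟨φ⟩, hne⟩ := hA2
      have him := iso_image φ
      rw [toF_ofF] at him
      rw [mem_biUnion]
      refine ⟨φ.toEquiv, ?_, ?_⟩
      · rw [mem_erase]
        refine ⟨?_, mem_univ _⟩
        intro h1
        apply hne
        apply toF_inj
        rw [him, toF_ofF, h1]
        ext e
        rw [mem_image]
        have : ∀ x : Pr n, act (1 : Equiv.Perm (Fin n)) x = x := by
          intro x
          apply Subtype.ext
          show Sym2.map (⇑(1 : Equiv.Perm (Fin n))) x.1 = x.1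
          simp
        simp [this]
      · rw [mem_filter, mem_powerset]
        refine ⟨hA1, ?_⟩
        rw [← him]
        exact toF_le.mp hF'1
    have h4 : (E.powerset.filter (fun A => ¬ P A)).card ≤
        ∑ τ ∈ (univ : Finset (Equiv.Perm (Fin n))).erase 1,
          (E.powerset.filter (fun A => A.image (act τ) ⊆ E)).card :=
      (card_le_card hsub).trans card_biUnion_le
    have h5 : ((E.powerset.filter (fun A => ¬ P A)).card : ℝ) ≤
        ∑ τ ∈ (univ : Finset (Equiv.Perm (Fin n))).erase 1,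
          ((E.powerset.filter (fun A => A.image (act τ) ⊆ E)).card : ℝ) := by
      exact_mod_cast h4
    refine h5.trans ?_
    unfold Phi
    rw [mul_sum]
    apply le_of_eq
    apply sum_congr rfl
    intro τ _
    exact count_inv (act τ) E
  have h6 : ((E.powerset.filter P).card : ℝ) + (E.powerset.filter (fun A => ¬ P A)).card =
      2 ^ E.card := by exact_mod_cast h2
  rw [h1]
  linarith

/-- complementary edge set -/
noncomputable def cE : SimpleGraph (Fin n) ≃ Finset (Pr n) where
  toFun G := (toF G)ᶜ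
  invFun H := ofF Hᶜ
  left_inv G := by simp [ofF_toF]
  right_inv H := by simp [toF_ofF]

noncomputable def mm (n : ℕ) : ℕ := n.choose 2 - ⌊(n : ℝ) * Real.logb 2 n⌋₊

lemma edge_iff (hg : Good n) (H : Finset (Pr n)) :
    (ofF Hᶜ).edgeSet.ncard = mm n ↔ H.card = tt n := by
  rw [ncard_edgeSet, toF_ofF, card_compl, card_Pr]
  have h1 := tt_le hg
  have h2 : H.card ≤ n.choose 2 := by rw [← card_Pr]; exact card_le_univ _
  have h3 : mm n = n.choose 2 - tt n := rfl
  rw [h3]
  omega

lemma natCard_eq (Q : SimpleGraph (Fin n) → Prop)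
    [DecidablePred (fun H : Finset (Pr n) => Q (ofF Hᶜ))] :
    Nat.card {G : SimpleGraph (Fin n) // Q G} =
      ((univ : Finset (Finset (Pr n))).filter (fun H => Q (ofF Hᶜ))).card := by
  rw [← Fintype.card_subtype, ← Nat.card_eq_fintype_card]
  apply Nat.card_congr
  refine Equiv.subtypeEquiv cE (fun G => ?_)
  show Q G ↔ Q (ofF ((toF G)ᶜ)ᶜ)
  rw [compl_compl, ofF_toF]

open Classical in
lemma good_count (hg : Good n) {c : ℝ} (hc : c < 1) :
    (((n.choose 2).choose (tt n) : ℕ) : ℝ) * (1 - SS n / (1 - c)) ≤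
      (Nat.card {G : SimpleGraph (Fin n) // G.edgeSet.ncard = mm n ∧
        c * 2 ^ mm n ≤ (uu G : ℝ)} : ℝ) := by
  have hc' : 0 < 1 - c := by linarith
  rw [natCard_eq]
  set T := powersetCard (tt n) (univ : Finset (Pr n)) with hT
  have hTc : T.card = (n.choose 2).choose (tt n) := by
    rw [hT, card_powersetCard, card_univ, card_Pr]
  have hsum := expBound hg
  have hPhi : ∑ H ∈ T, Phi H ≤ ((n.choose 2).choose (tt n)) * SS n := hsum
  have hPhi0 : ∀ H : Finset (Pr n), 0 ≤ Phi H := by
    intro H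
    unfold Phi FF
    exact sum_nonneg (fun τ _ => by positivity)
  -- Markov
  have hM : ((T.filter (fun H => ¬ Phi H ≤ 1 - c)).card : ℝ) * (1 - c) ≤
      ((n.choose 2).choose (tt n)) * SS n := by
    refine le_trans ?_ hPhi
    calc ((T.filter (fun H => ¬ Phi H ≤ 1 - c)).card : ℝ) * (1 - c)
        = ∑ H ∈ T.filter (fun H => ¬ Phi H ≤ 1 - c), (1 - c) := by
          rw [sum_const, nsmul_eq_mul]
      _ ≤ ∑ H ∈ T.filter (fun H => ¬ Phi H ≤ 1 - c), Phi H := by
          apply sum_le_sum
          intro H hH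
          rw [mem_filter, not_le] at hH
          exact hH.2.le
      _ ≤ ∑ H ∈ T, Phi H :=
          sum_le_sum_of_subset_of_nonneg (filter_subset _ _) (fun H _ _ => hPhi0 H)
  have hsplit : ((T.filter (fun H => Phi H ≤ 1 - c)).card : ℝ) +
      (T.filter (fun H => ¬ Phi H ≤ 1 - c)).card = ((n.choose 2).choose (tt n) : ℕ) := by
    rw [← hTc]
    exact_mod_cast card_filter_add_card_filter_not (s := T) (fun H => Phi H ≤ 1 - c)
  have hsub : T.filter (fun H => Phi H ≤ 1 - c) ⊆
      (univ : Finset (Finset (Pr n))).filter (fun H => (ofF Hᶜ).edgeSet.ncard = mm n ∧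
        c * 2 ^ mm n ≤ (uu (ofF Hᶜ) : ℝ)) := by
    intro H hH
    rw [mem_filter, hT, mem_powersetCard] at hH
    obtain ⟨⟨_, hH1⟩, hH2⟩ := hH
    rw [mem_filter]
    refine ⟨mem_univ _, (edge_iff hg H).mpr hH1, ?_⟩
    have h1 := uu_ge (ofF Hᶜ)
    have h2 := (edge_iff hg H).mpr hH1
    rw [ncard_edgeSet] at h2
    rw [h2, toF_ofF, compl_compl] at h1
    refine le_trans ?_ h1
    rw [mul_comm]
    apply mul_le_mul_of_nonneg_left _ (by positivity)
    linarith
  have hcard : ((T.filter (fun H => Phi H ≤ 1 - c)).card : ℝ) ≤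
      (((univ : Finset (Finset (Pr n))).filter (fun H => (ofF Hᶜ).edgeSet.ncard = mm n ∧
        c * 2 ^ mm n ≤ (uu (ofF Hᶜ) : ℝ))).card : ℝ) := by
    exact_mod_cast card_le_card hsub
  refine le_trans ?_ hcard
  have h3 : ((T.filter (fun H => ¬ Phi H ≤ 1 - c)).card : ℝ) ≤
      ((n.choose 2).choose (tt n) : ℕ) * SS n / (1 - c) := by
    rw [le_div_iff₀ hc']; exact hM
  have h4 : (((n.choose 2).choose (tt n) : ℕ) : ℝ) * (1 - SS n / (1 - c)) =
      ((n.choose 2).choose (tt n) : ℕ) - ((n.choose 2).choose (tt n) : ℕ) * SS n / (1 - c) := by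
    ring
  rw [h4]
  linarith

open Classical in
lemma total_count (hg : Good n) :
    Nat.card {G : SimpleGraph (Fin n) // G.edgeSet.ncard = mm n} =
      (n.choose 2).choose (tt n) := by
  rw [natCard_eq]
  have : (univ : Finset (Finset (Pr n))).filter (fun H => (ofF Hᶜ).edgeSet.ncard = mm n) =
      powersetCard (tt n) (univ : Finset (Pr n)) := by
    ext H
    rw [mem_filter, mem_powersetCard, edge_iff hg]
    simp
  rw [this, card_powersetCard, card_univ, card_Pr]

theorem almost_all {c : ℝ} (hc : c < 1) :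
    Tendsto (fun n : ℕ =>
      (Nat.card {G : SimpleGraph (Fin n) // G.edgeSet.ncard = mm n ∧
        c * 2 ^ mm n ≤ (uu G : ℝ)} : ℝ) /
      (Nat.card {G : SimpleGraph (Fin n) // G.edgeSet.ncard = mm n} : ℝ)) atTop (𝓝 1) := by
  have hc' : 0 < 1 - c := by linarith
  have hlow : Tendsto (fun n : ℕ => 1 - SS n / (1 - c)) atTop (𝓝 1) := by
    have := (SS_tendsto.div_const (1 - c)).const_sub 1
    simpa using this
  refine tendsto_of_tendsto_of_tendsto_of_le_of_le' hlow tendsto_const_nhds ?_ ?_
  · filter_upwards [good_eventually] with n hg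
    have hpos : (0 : ℝ) < ((n.choose 2).choose (tt n) : ℕ) := by
      exact_mod_cast Nat.choose_pos (tt_le hg)
    rw [total_count hg, le_div_iff₀ hpos, mul_comm]
    exact good_count hg hc
  · filter_upwards [good_eventually] with n hg
    have hpos : (0 : ℝ) < ((n.choose 2).choose (tt n) : ℕ) := by
      exact_mod_cast Nat.choose_pos (tt_le hg)
    rw [total_count hg, div_le_one hpos, ← total_count hg]
    have : Nat.card {G : SimpleGraph (Fin n) // G.edgeSet.ncard = mm n ∧
        c * 2 ^ mm n ≤ (uu G : ℝ)} ≤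
        Nat.card {G : SimpleGraph (Fin n) // G.edgeSet.ncard = mm n} := by
      apply Nat.card_le_card_of_injective
        (fun G => (⟨G.1, G.2.1⟩ : {G : SimpleGraph (Fin n) // G.edgeSet.ncard = mm n}))
      intro G G' h
      injection h with h1
      exact Subtype.ext h1
    exact_mod_cast this

theorem exists_graph {c : ℝ} (hc : c < 1) :
    ∀ᶠ n : ℕ in atTop, ∃ G : SimpleGraph (Fin n), G.edgeSet.ncard = mm n ∧
      c * 2 ^ mm n ≤ (uu G : ℝ) := by
  have h := (almost_all hc).eventually (lt_mem_nhds (show (0 : ℝ) < 1 by norm_num))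
  filter_upwards [h] with n hn
  by_contra hcon
  push Not at hcon
  have : Nat.card {G : SimpleGraph (Fin n) // G.edgeSet.ncard = mm n ∧
        c * 2 ^ mm n ≤ (uu G : ℝ)} = 0 := by
    rw [Nat.card_eq_zero]
    left
    refine ⟨fun G => ?_⟩
    have := hcon G.1 G.2.1
    linarith [G.2.2]
  rw [this] at hn
  simp at hn

end Pool.Agent.H13.Uq
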